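import Pool.Agent.K7.H56.Cyn
import Pool.Agent.K7.H70.CL.A

/-!
# The analytic core
-/

set_option autoImplicit false

namespace Pool.Agent.K7.H56

theorem core3_true : Core3 := Pool.Agent.K7.H70.CL.core3 pz_true

end Pool.Agent.K7.H56
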