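import Pool.Agent.K7.H56.T17

/-!
# Elements with cyclic residue ring
-/

set_option autoImplicit false
set_option linter.unusedSectionVars false

open Complex Polynomial

namespace Pool.Agent.K7.H56

open Pool.Agent.Y688 Pool.Agent.W192.HK Pool.Agent.TH936.CM Pool.Agent.R430 Pool.Agent.Y688.HF H667R3

variable {r : ℕ} {A : Type} [CommRing A] [Algebra RR A]

/-- the embeddings separate some element -/
lemma exists_sep (D : GN A r) : ∃ θ : A, Function.Injective fun i => D.σ i θ := by
  classical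
  set f : Fin (r + 1) → Fin (r + 1) → ℂ[X] := fun i j =>
    ∑ k : Fin (r + 1), C (D.σ i (D.b k) - D.σ j (D.b k)) * X ^ (k : ℕ) with hf
  have hf0 : ∀ i j, i ≠ j → f i j ≠ 0 := by
    intro i j hij h0
    apply D.det
    refine Matrix.det_zero_of_row_eq hij ?_
    funext k
    have h1 := congrArg (fun p => coeff p (k : ℕ)) h0
    simp only [hf, finsetSum_coeff, coeff_C_mul, coeff_X_pow, coeff_zero] at h1
    rw [Finset.sum_eq_single k] at h1
    · rw [if_pos rfl, mul_one] at h1
      exact sub_eq_zero.1 h1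
    · intro k' _ hk'
      rw [if_neg, mul_zero]
      exact fun h => hk' (Fin.ext h.symm)
    · intro h
      exact absurd (Finset.mem_univ k) h
  set g : ℂ[X] := ∏ i, ∏ j, if i = j then 1 else f i j with hg
  have hg0 : g ≠ 0 := by
    rw [hg, Finset.prod_ne_zero_iff]
    intro i _
    rw [Finset.prod_ne_zero_iff]
    intro j _
    split_ifs with h
    · exact one_ne_zero
    · exact hf0 i j h
  have hex : ∃ t : ℕ, g.eval (t : ℂ) ≠ 0 := by
    by_contra h
    push Not at h
    apply hg0
    refine Polynomial.eq_zero_of_infinite_isRoot g ?_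
    refine Set.Infinite.mono (s := Set.range fun t : ℕ => (t : ℂ)) ?_
      (Set.infinite_range_of_injective Nat.cast_injective)
    rintro _ ⟨t, rfl⟩
    exact h t
  obtain ⟨t, ht⟩ := hex
  refine ⟨∑ k : Fin (r + 1), ((t : RR) ^ (k : ℕ)) • D.b k, fun i j hij => ?_⟩
  by_contra hne
  apply ht
  rw [hg, eval_prod]
  refine Finset.prod_eq_zero (Finset.mem_univ i) ?_
  rw [eval_prod]
  refine Finset.prod_eq_zero (Finset.mem_univ j) ?_
  rw [if_neg hne, hf, eval_finsetSum]
  simp only at hij
  rw [map_sum, map_sum] at hij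
  simp only [D.σ_smul] at hij
  rw [← sub_eq_zero, ← Finset.sum_sub_distrib] at hij
  rw [← hij]
  refine Finset.sum_congr rfl fun k _ => ?_
  rw [eval_mul, eval_C, eval_pow, eval_X]
  push_cast
  ring

/-- the characteristic polynomial -/
noncomputable def cp (D : GN A r) (l : A) : RR[X] := (Algebra.leftMulMatrix D.b l).charpoly

lemma cp_aeval (D : GN A r) (l : A) : aeval l (cp D l) = 0 := by
  apply Algebra.leftMulMatrix_injective D.b
  rw [map_zero, ← Polynomial.aeval_algHom_apply]
  exact Matrix.aeval_self_charpoly _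

lemma cp_dvd (D : GN A r) {l : A} (hl : Function.Injective fun i => D.σ i l) {F : RR[X]}
    (hF : aeval l F = 0) : cp D l ∣ F := by
  have hm : (cp D l).Monic := Matrix.charpoly_monic _
  have hdeg : (cp D l).natDegree = r + 1 := by
    unfold cp
    rw [Matrix.charpoly_natDegree_eq_dim, Fintype.card_fin]
  rw [← Polynomial.modByMonic_eq_zero_iff_dvd hm]
  set G := F %ₘ cp D l with hG
  have hG0 : aeval l G = 0 := by
    have h1 := Polynomial.modByMonic_add_div F (cp D l)
    have h2 := congrArg (aeval l) h1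
    rw [map_add, map_mul, cp_aeval, zero_mul, add_zero, hF] at h2
    exact h2
  have hdG : G.natDegree < r + 1 := by
    rw [← hdeg]
    exact Polynomial.natDegree_modByMonic_lt F hm (by
      intro h1
      rw [h1, natDegree_one] at hdeg
      omega)
  set c : RR →+* ℂ := RR.subtype with hc
  have hci : Function.Injective c := Subtype.val_injective
  have h3 : G.map c = 0 := by
    refine eq_zero_of_natDegree_lt_card_of_eval_eq_zero (G.map c) hl ?_ ?_
    · intro i
      have h4 := congrArg (D.σ i) hG0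
      rw [map_zero, aeval_def, Polynomial.hom_eval₂] at h4
      have h5 : (D.σ i).comp (algebraMap RR A) = c := RingHom.ext fun a => D.hσ i a
      rw [h5] at h4
      rw [Polynomial.eval_map]
      exact h4
    · rw [Fintype.card_fin]
      exact lt_of_le_of_lt Polynomial.natDegree_map_le hdG
  exact (Polynomial.map_eq_zero_iff hci).1 h3

/-- the constant coefficient -/
lemma norm_dvd_coeff (D : GN A r) (l : A) : Algebra.norm RR l ∣ (cp D l).coeff 0 := by
  rw [Algebra.norm_eq_matrix_det D.b, Matrix.det_eq_sign_charpoly_coeff]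
  refine ⟨(-1) ^ Fintype.card (Fin (r + 1)), ?_⟩
  have h1 : ((-1 : RR) ^ Fintype.card (Fin (r + 1))) * (-1) ^ Fintype.card (Fin (r + 1)) = 1 := by
    rw [← mul_pow]
    simp
  show (cp D l).coeff 0 = (-1) ^ Fintype.card (Fin (r + 1)) * (cp D l).coeff 0 * _
  linear_combination -((cp D l).coeff 0) * h1

/-- the matrix of the powers -/
noncomputable def pw (D : GN A r) (l : A) : Matrix (Fin (r + 1)) (Fin (r + 1)) RR :=
  Matrix.of fun i j => D.b.repr (l ^ (j : ℕ)) i

lemma pw_det (D : GN A r) (l : A) : D.P.det * (((pw D l).det : RR) : ℂ) =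
    ∏ i : Fin (r + 1), ∏ j ∈ Finset.Ioi i, (D.σ j l - D.σ i l) := by
  rw [← Matrix.det_vandermonde fun i => D.σ i l]
  have h1 : (((pw D l).det : RR) : ℂ) = (RR.subtype.mapMatrix (pw D l)).det := by
    rw [← RingHom.map_det]
    rfl
  rw [h1, ← Matrix.det_mul]
  congr 1
  ext i j
  rw [Matrix.mul_apply, Matrix.vandermonde_apply, ← map_pow]
  exact (D.sg_eq (l ^ (j : ℕ)) i).symm

/-- the powers span up to the determinant -/
lemma pw_span (D : GN A r) (l b : A) : ∃ q : RR[X], algebraMap RR A (pw D l).det * b =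
    aeval l q := by
  set c := (pw D l).adjugate.mulVec (D.b.repr b) with hc
  refine ⟨∑ j : Fin (r + 1), C (c j) * X ^ (j : ℕ), ?_⟩
  have e1 : aeval l (∑ j : Fin (r + 1), C (c j) * X ^ (j : ℕ)) =
      ∑ j : Fin (r + 1), c j • l ^ (j : ℕ) := by
    rw [map_sum]
    refine Finset.sum_congr rfl fun j _ => ?_
    rw [map_mul, map_pow, aeval_X, aeval_C, Algebra.smul_def]
  rw [e1, ← Algebra.smul_def]
  apply D.b.repr.injective
  apply DFunLike.coe_injective
  funext i
  rw [map_smul, map_sum, Finsupp.smul_apply, Finsupp.finsetSum_apply]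
  have e2 : ∀ j : Fin (r + 1), (D.b.repr (c j • l ^ (j : ℕ))) i = (pw D l) i j * c j := by
    intro j
    rw [map_smul, Finsupp.smul_apply, smul_eq_mul, mul_comm]
    rfl
  simp only [e2]
  have e3 : ∑ j, (pw D l) i j * c j = ((pw D l).mulVec c) i := rfl
  rw [e3, hc, Matrix.mulVec_mulVec, Matrix.mul_adjugate, Matrix.smul_mulVec, Matrix.one_mulVec]
  rfl

/-- **Elements with cyclic residue ring.** -/
theorem cyn_of [IsDomain A] (D : GN A r) {l : A} (hl : Function.Injective fun i => D.σ i l)
    (hl0 : l ≠ 0) (hc : IsCoprime (Algebra.norm RR l) (pw D l).det) : Cyn l where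
  ne := hl0
  dvd a := by
    constructor
    · rintro ⟨b, hb⟩
      obtain ⟨q, hq⟩ := pw_span D l b
      have h1 : aeval l (C ((pw D l).det * a) - X * q) = 0 := by
        rw [map_sub, map_mul (aeval l) X q, aeval_X, aeval_C, ← hq, map_mul, hb]
        ring
      obtain ⟨t, ht⟩ := cp_dvd D hl h1
      have h2 := congrArg (fun p : RR[X] => p.coeff 0) ht
      simp only [coeff_sub, coeff_C_zero, mul_coeff_zero, coeff_X_zero, zero_mul, sub_zero] at h2
      have h3 : Algebra.norm RR l ∣ (pw D l).det * a := by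
        rw [h2]
        exact (norm_dvd_coeff D l).mul_right _
      exact hc.dvd_of_dvd_mul_left h3
    · intro h
      exact (dvd_alg D l).trans (map_dvd _ h)
  res a := by
    obtain ⟨q, hq⟩ := pw_span D l a
    obtain ⟨u, v, huv⟩ := hc
    have h1 : l ∣ aeval l q - algebraMap RR A (q.coeff 0) := by
      have h2 := Polynomial.X_dvd_sub_C (p := q)
      obtain ⟨t, ht⟩ := h2
      refine ⟨aeval l t, ?_⟩
      have h3 := congrArg (aeval l) ht
      rw [map_sub, map_mul, aeval_X, aeval_C] at h3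
      exact h3
    refine ⟨v * q.coeff 0, ?_⟩
    have h4 := congrArg (algebraMap RR A) huv
    rw [map_add, map_mul, map_mul, map_one] at h4
    have e : a - algebraMap RR A (v * q.coeff 0) =
        algebraMap RR A (Algebra.norm RR l) * (algebraMap RR A u * a) +
        algebraMap RR A v * (aeval l q - algebraMap RR A (q.coeff 0)) := by
      rw [← hq, map_mul]
      linear_combination -a * h4
    rw [e]
    exact dvd_add ((dvd_alg D l).mul_right _) (h1.mul_left _)

/-! ### existence -/

lemma wR_cube : wR ^ 3 = 1 := by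
  have := wR3
  rw [pow_succ, pow_two]
  linear_combination this

/-- **Existence.** -/
theorem cyn_A [IsDomain A] (D : GN A r) (h3 : ¬ 3 ∣ (r + 1)) (W : ℕ) (hW : Odd W) :
    ∃ l : A, Cyn l ∧ ¬ Pr1 (Algebra.norm RR l) ∧
      IsCoprime (Algebra.norm RR l) ((2 * (3 * W) : ℕ) : RR) := by
  classical
  obtain ⟨θ, hθ⟩ := exists_sep D
  have hV : (pw D θ).det ≠ 0 := by
    intro h0
    have h1 := pw_det D θ
    rw [h0] at h1
    have h2 : ((0 : RR) : ℂ) = 0 := rfl
    rw [h2, mul_zero, eq_comm, ← Matrix.det_vandermonde fun i => D.σ i θ,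
      Matrix.det_vandermonde_eq_zero_iff] at h1
    obtain ⟨i, j, hij, hne⟩ := h1
    exact hne (hθ hij)
  obtain ⟨Nd, hNd⟩ := normSq_RR (pw D θ).det
  obtain ⟨yd, hyd⟩ := dvd_nsq _ hNd
  have hNd0 : Nd ≠ 0 := by
    rintro rfl
    have := one_le_normSq hV
    rw [hNd] at this
    norm_num at this
  have hW0 : W ≠ 0 := by
    rintro rfl
    exact absurd hW (by decide)
  set E : ℕ := 6 * W * Nd with hE
  have hE0 : E ≠ 0 := mul_ne_zero (mul_ne_zero (by norm_num) hW0) hNd0
  obtain ⟨k, m, hm, hkm⟩ := Nat.exists_eq_two_pow_mul_odd hE0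
  have h3m : 3 ∣ m := by
    have h1 : 3 ∣ 2 ^ k * m := by
      rw [← hkm, hE]
      exact ⟨2 * W * Nd, by ring⟩
    exact (Nat.Coprime.dvd_of_dvd_mul_left (by
      exact Nat.Coprime.pow_right k (by norm_num)) h1)
  obtain ⟨m3, hm3⟩ := h3m
  obtain ⟨m2, hm2⟩ := hm
  set z : RR := wR ^ (r + 1) with hz
  set a : RR := 1 + m * (z - 1) with ha
  -- the power
  have hzp : z ^ (r + 1) = wR := by
    rw [hz, ← pow_mul]
    have h1 : (r + 1) * (r + 1) % 3 = 1 := by
      have h2 : (r + 1) % 3 = 1 ∨ (r + 1) % 3 = 2 := by omega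
      rcases h2 with h2 | h2
      · rw [Nat.mul_mod, h2]
      · rw [Nat.mul_mod, h2]
    have h4 : (r + 1) * (r + 1) = 3 * ((r + 1) * (r + 1) / 3) + 1 := by omega
    rw [h4, pow_succ, pow_mul, wR_cube, one_pow, one_mul]
  have hmR : (m : RR) = 2 * m2 + 1 := by rw [hm2]; push_cast; ring
  have hmR3 : (m : RR) = 3 * m3 := by rw [hm3]; push_cast; ring
  have ha2 : a - z = 2 * (m2 * (z - 1)) := by
    rw [ha]
    linear_combination (z - 1) * hmR
  have ha3 : a - 1 = 3 * (m3 * (z - 1)) := by
    rw [ha]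
    linear_combination (z - 1) * hmR3
  have hzu : IsUnit z := (IsUnit.of_mul_eq_one (wR ^ 2) (by rw [← pow_succ', wR_cube])).pow _
  have hca2 : IsCoprime a 2 := by
    have e : a = z + 2 * (m2 * (z - 1)) := by linear_combination ha2
    rw [e]
    obtain ⟨u, hu⟩ := hzu
    have hcz : IsCoprime z 2 := ⟨((u⁻¹ : RRˣ) : RR), 0, by rw [← hu]; simp⟩
    exact hcz.add_mul_left_left _
  have hcam : IsCoprime a (m : RR) := by
    rw [ha]
    exact isCoprime_one_left.add_mul_left_left _
  have hcaE : IsCoprime a (E : RR) := by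
    rw [hkm]
    push_cast
    exact (hca2.pow_right).mul_right hcam
  -- the element
  set l : A := algebraMap RR A a + (E : A) * θ with hl
  obtain ⟨t, ht⟩ := norm_cong D E (algebraMap RR A a) θ
  rw [← hl, Algebra.norm_algebraMap_of_basis D.b, Fintype.card_fin] at ht
  have hcE : IsCoprime (Algebra.norm RR l) (E : RR) := by
    rw [ht]
    exact (hcaE.pow_left).add_mul_left_left _
  have hc6 : IsCoprime (Algebra.norm RR l) ((2 * (3 * W) : ℕ) : RR) := by
    refine hcE.of_isCoprime_of_dvd_right ⟨(Nd : RR), ?_⟩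
    rw [hE]
    push_cast
    ring
  have hσl : ∀ i, D.σ i l = a + (E : ℂ) * D.σ i θ := by
    intro i
    rw [hl, map_add, map_mul, map_natCast, D.hσ]
  have hEC : (E : ℂ) ≠ 0 := by exact_mod_cast hE0
  have hinj : Function.Injective fun i => D.σ i l := by
    intro i j hij
    apply hθ
    simp only [hσl] at hij
    have h1 : (E : ℂ) * D.σ i θ = (E : ℂ) * D.σ j θ := by linear_combination hij
    exact mul_left_cancel₀ hEC h1
  have hl0 : l ≠ 0 := by
    intro h0
    rw [h0, norm_zero' D, isCoprime_zero_left] at hc6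
    have h2 : IsUnit (2 : RR) := isUnit_of_dvd_unit ⟨(3 * W : RR), by push_cast; ring⟩ hc6
    exact two_prime.not_isUnit h2
  have hdet : (pw D l).det = (∏ i : Fin (r + 1), ∏ _j ∈ Finset.Ioi i, (E : RR)) *
      (pw D θ).det := by
    apply Subtype.ext
    have h1 := pw_det D l
    have h2 := pw_det D θ
    have h4 : D.P.det ≠ 0 := D.det
    refine mul_left_cancel₀ h4 ?_
    rw [h1]
    have h5 : (((∏ i : Fin (r + 1), ∏ _j ∈ Finset.Ioi i, (E : RR)) * (pw D θ).det : RR) : ℂ) =
        (∏ i : Fin (r + 1), ∏ _j ∈ Finset.Ioi i, (E : ℂ)) * (((pw D θ).det : RR) : ℂ) := by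
      push_cast
      rfl
    rw [h5, mul_left_comm, h2, ← Finset.prod_mul_distrib]
    refine Finset.prod_congr rfl fun i _ => ?_
    rw [← Finset.prod_mul_distrib]
    refine Finset.prod_congr rfl fun j _ => ?_
    rw [hσl, hσl]
    ring
  have hcd : IsCoprime (Algebra.norm RR l) (pw D l).det := by
    rw [hdet]
    refine IsCoprime.mul_right ?_ ?_
    · exact IsCoprime.prod_right fun i _ => IsCoprime.prod_right fun j _ => hcE
    · refine hcE.of_isCoprime_of_dvd_right ⟨6 * W * yd, ?_⟩
      rw [hE]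
      push_cast
      rw [hyd]
      ring
  refine ⟨l, cyn_of D hinj hl0 hcd, ?_, hc6⟩
  -- congruences of powers
  have hp2 : ∃ s : RR, a ^ (r + 1) = wR + 2 * s := by
    obtain ⟨s, hs⟩ := sub_dvd_pow_sub_pow a z (r + 1)
    refine ⟨m2 * (z - 1) * s, ?_⟩
    rw [hzp] at hs
    linear_combination hs + s * ha2
  have hp3 : ∃ s : RR, a ^ (r + 1) = 1 + 3 * s := by
    obtain ⟨s, hs⟩ := sub_dvd_pow_sub_pow a 1 (r + 1)
    refine ⟨m3 * (z - 1) * s, ?_⟩
    rw [one_pow] at hs
    linear_combination hs + s * ha3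
  obtain ⟨s2, hs2⟩ := hp2
  obtain ⟨s3, hs3⟩ := hp3
  refine not_pr1 (r := s3 + 2 * W * Nd * t) (r' := s2 + 3 * W * Nd * t) ?_ ?_
  · rw [ht, hs3, hE]
    push_cast
    ring
  · rw [ht, hs2, hE]
    push_cast
    ring

end Pool.Agent.K7.H56
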