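import Pool.Agent.K7.H56.T20

/-!
# The partial zeta functions of a number field
-/

set_option autoImplicit false
set_option linter.unusedSectionVars false
set_option linter.style.haveILetI false

open Complex NumberField IsDedekindDomain Filter Topology Set MeasureTheory
open scoped PeriodPair nonZeroDivisors

namespace Pool.Agent.K7.H56

open Pool.Agent.R430
open Pool.Agent.Y688 (NI HL RR ups normSq_RR v_odd)
open Pool.Agent.Y696 Pool.Agent.W192.HK Pool.Agent.TH936.CM H667R3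

lemma abs_tE (a : RR) : ((Ideal.absNorm (Ideal.span {tE a}) : ℕ) : ℝ) = normSq (a : ℂ) := by
  have h4 : ((Nat.card (eis ⧸ (sp (tE a) : Ideal eis)) : ℕ) : ℝ) = Complex.normSq ((tE a : eis) : ℂ) :=
    (lbasic eis om qr).2.2.2.2.1 (tE a)
  rw [tE_coe] at h4
  rw [← h4, Ideal.absNorm_apply, Submodule.cardQuot_apply]

section
variable {N : Type} [Field N] [NumberField N] (ι : RR →+* 𝓞 N)

lemma abs_Nm (h : ∀ α : 𝓞 N, rN (iE ι) (Ideal.span {α}) =
      Ideal.span {tE (@Algebra.norm RR (𝓞 N) _ _ ι.toAlgebra α)}) (α : 𝓞 N) :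
    ((Ideal.absNorm (Ideal.span {α}) : ℕ) : ℝ) = @GN.Nm (𝓞 N) _ ι.toAlgebra α := by
  letI := ι.toAlgebra
  rw [← rN_abs (iE ι), h, abs_tE]
  rfl

lemma Fe_eq (h : ∀ α : 𝓞 N, rN (iE ι) (Ideal.span {α}) =
      Ideal.span {tE (@Algebra.norm RR (𝓞 N) _ _ ι.toAlgebra α)}) (χ : 𝓞 N → ℂ) (s : ℂ)
    (α : 𝓞 N) : Fe ι χ s α = @GN.Dt (𝓞 N) _ ι.toAlgebra (@cc (𝓞 N) _ ι.toAlgebra χ) s α := by
  letI := ι.toAlgebra
  have h1 := abs_Nm ι h α
  have h2 : ((Ideal.absNorm (Ideal.span {α}) : ℕ) : ℂ) = ((GN.Nm α : ℝ) : ℂ) := by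
    rw [← h1]
    push_cast
    rfl
  have h3 : PN ι (Ideal.span {α}) = ups (Algebra.norm RR α) *
      (starRingEnd ℂ) ((Algebra.norm RR α : RR) : ℂ) := by
    unfold PN
    rw [h, psi_span]
  unfold Fe GN.Dt GN.cx cc
  rw [h2, h3]
  ring

end

lemma ntz (A : Type) [CommRing A] [IsDomain A] [Algebra RR A] {r : ℕ} (D : GN A r) :
    NoZeroSMulDivisors RR A := ⟨fun {c x} h => by
  rw [Algebra.smul_def] at h
  rcases mul_eq_zero.1 h with h | h
  · left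
    have h1 := D.hσ 0 c
    rw [h, map_zero] at h1
    exact Subtype.ext h1.symm
  · exact Or.inr h⟩

theorem pz (geo : GEO) (uni : UNI) (sum : SUM) (cyn : CYN) : PZ := by
  intro N _ _ ι r hfin h3 hU2 M χ χ' hχ hχ' hm hm'
  letI := ι.toAlgebra
  obtain ⟨⟨D, hD⟩, hrN⟩ := geo N ι r hfin
  obtain ⟨ε, hbij, hdet⟩ := uni N ι r hfin D
  haveI : NoZeroSMulDivisors RR (𝓞 N) := ntz (𝓞 N) D
  have hsum : ∀ t : ℝ, 1 < t → Summable (fun I : PI (𝓞 N) => GN.Nm (gp I) ^ (-t)) := by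
    intro t ht
    have h1 := sum N t ht
    have hi : Function.Injective (fun I : PI (𝓞 N) => (⟨I.1, I.2.1⟩ : NI (𝓞 N))) := by
      intro I J h
      have h' : I.1 = J.1 := congrArg (fun z : NI (𝓞 N) => z.1) h
      exact Subtype.ext h'
    refine (h1.comp_injective hi).congr fun I => ?_
    simp only [Function.comp_apply]
    rw [← abs_Nm ι hrN, gp_span]
  obtain ⟨f, f', hf, hf', hv⟩ := pz_A D ε _ (fun _ => rfl) (fun _ _ => rfl) hdet hbij hsum
    (cyn N ι r hfin h3) hχ hχ' hm hm'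
  have conv : ∀ {χ : 𝓞 N → ℂ} {f : ℂ → ℂ}, PVA χ f → PV ι χ f := fun {χ f} h =>
    ⟨h.mero, h.an, fun s hs => (h.sum s hs).congr_fun fun I => Fe_eq ι hrN χ s (gp I)⟩
  obtain ⟨m, hm1, hm2⟩ := tors_card hU2
  refine ⟨f, f', conv hf, conv hf', fun L Ω hL Γ _ v h2 hv1 hv2 =>
    hv L Ω hL Γ v h2 (hD hU2 Γ v h2) ?_ hv1 hv2⟩
  rw [hm2]
  push_cast
  rw [map_mul]
  have := Pool.Agent.Y688.v_odd (v := v) h2 (n := (m : ℤ)) (by exact_mod_cast hm1)
  have h5 : v (m : ℂ) = 1 := by exact_mod_cast this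
  rw [h5, mul_one]

end Pool.Agent.K7.H56
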