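import Pool.Agent.K7.H56.Cy
import Pool.Agent.K7.H56.T21
import Pool.Agent.K7.H73.GN.Uni
import Pool.Agent.K7.H73.GN.Sum

/-!
# The statement for partial zeta functions
-/

set_option autoImplicit false

namespace Pool.Agent.K7.H56

theorem cyn : CYN := by
  intro N _ _ ι r hfin h3 W hW
  obtain ⟨⟨D, _⟩, _⟩ := Pool.Agent.K7.H73.GN.geo N ι r hfin
  exact @cyn_A r _ _ ι.toAlgebra _ D h3 W hW

theorem pz_true : PZ :=
  pz Pool.Agent.K7.H73.GN.geo Pool.Agent.K7.H73.GN.uni Pool.Agent.K7.H73.GN.sum_ideals cyn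

end Pool.Agent.K7.H56
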