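import Pool.Agent.K7.H47.DM.Stm2

/-!
# Project DM (MP_344d54_co): jobs MINR, MINQ, QUADG
-/

set_option autoImplicit false

open Polynomial

namespace Pool.Agent.K7.H56.DM

open Pool.Agent.K7.H47.DM

/-- job MINR -/
theorem minR : StMinR := by
  intro t N r ht hN hr
  classical
  have hex : ∃ n : ℕ, 1 ≤ n ∧ ∃ s : ℚ, t ^ n = s := ⟨N, hN, r, hr⟩
  obtain ⟨hn1, s, hs⟩ := Nat.find_spec hex
  have hmin : ∀ m : ℕ, 1 ≤ m → (∃ s : ℚ, t ^ m = s) → Nat.find hex ≤ m := fun m h1 h2 =>
    Nat.find_min' hex ⟨h1, h2⟩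
  set n := Nat.find hex with hn
  have hsC : (t : ℂ) ^ n = (s : ℂ) := by
    have : ((t ^ n : ℝ) : ℂ) = (((s : ℚ) : ℝ) : ℂ) := by rw [hs]
    push_cast at this
    exact this
  have hmon : (X ^ n - C s : ℚ[X]).Monic := monic_X_pow_sub_C s (by omega)
  have haev : aeval (t : ℂ) (X ^ n - C s : ℚ[X]) = 0 := by
    simp [hsC]
  have hint : IsIntegral ℚ (t : ℂ) := ⟨X ^ n - C s, hmon, by simpa [aeval_def] using haev⟩
  have hdvd : minpoly ℚ (t : ℂ) ∣ X ^ n - C s := minpoly.dvd ℚ _ haev
  have hdeg : (X ^ n - C s : ℚ[X]).natDegree = n := natDegree_X_pow_sub_C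
  have hd1 : (minpoly ℚ (t : ℂ)).natDegree ≤ n := by
    rw [← hdeg]
    exact natDegree_le_of_dvd hdvd hmon.ne_zero
  set d := (minpoly ℚ (t : ℂ)).natDegree with hd
  have hdpos : 0 < d := minpoly.natDegree_pos hint
  have hmm : (minpoly ℚ (t : ℂ)).Monic := minpoly.monic hint
  -- the roots
  set m : ℂ[X] := (minpoly ℚ (t : ℂ)).map (algebraMap ℚ ℂ) with hm
  have hmM : m.Monic := hmm.map _
  have hroots : ∀ z ∈ m.roots, ‖z‖ = |t| := by
    intro z hz
    have h1 : m.eval z = 0 := (mem_roots hmM.ne_zero).1 hz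
    have h2 : aeval z (minpoly ℚ (t : ℂ)) = 0 := by
      rw [aeval_def, ← eval_map]
      exact h1
    have h3 : aeval z (X ^ n - C s : ℚ[X]) = 0 := by
      obtain ⟨g, hg⟩ := hdvd
      rw [hg, map_mul, h2, zero_mul]
    have h4 : z ^ n = (t : ℂ) ^ n := by
      simp only [map_sub, map_pow, aeval_X, aeval_C] at h3
      rw [hsC]
      exact sub_eq_zero.1 h3
    have h5 : ‖z‖ ^ n = |t| ^ n := by
      rw [← norm_pow, h4, norm_pow, Complex.norm_real, Real.norm_eq_abs]
    exact (pow_left_inj₀ (norm_nonneg _) (abs_nonneg _) (by omega)).1 h5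
  have hcard : m.roots.card = d := by
    rw [(IsAlgClosed.splits m).natDegree_eq_card_roots.symm, hm, natDegree_map]
  have hc0 : ‖m.coeff 0‖ = |t| ^ d := by
    have h1 : m.coeff 0 = (-1) ^ m.natDegree * m.roots.prod :=
      (IsAlgClosed.splits m).coeff_zero_eq_prod_roots_of_monic hmM
    rw [h1, norm_mul, norm_pow, norm_neg, norm_one, one_pow, one_mul]
    have h2 : ‖m.roots.prod‖ = (m.roots.map (fun z => ‖z‖)).prod := by
      have := map_multiset_prod (normHom : ℂ →*₀ ℝ) m.roots
      simpa using this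
    rw [h2, Multiset.map_congr rfl (g := fun _ => |t|) hroots, Multiset.map_const',
      Multiset.prod_replicate, hcard]
  have hrat : ∃ u : ℚ, t ^ d = u := by
    have h1 : m.coeff 0 = (((minpoly ℚ (t : ℂ)).coeff 0 : ℚ) : ℂ) := by
      rw [hm, coeff_map]
      simp
    set c := (minpoly ℚ (t : ℂ)).coeff 0 with hc
    have h2 : |t ^ d| = |(c : ℝ)| := by
      rw [abs_pow, ← hc0, h1]
      have : ((c : ℚ) : ℂ) = (((c : ℚ) : ℝ) : ℂ) := by push_cast; rfl
      rw [this, Complex.norm_real, Real.norm_eq_abs]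
    rcases abs_eq_abs.1 h2 with h3 | h3
    · exact ⟨c, h3⟩
    · exact ⟨-c, by rw [h3]; push_cast; rfl⟩
  have hnd : n ≤ d := hmin d hdpos hrat
  have hnd' : d = n := le_antisymm hd1 hnd
  refine ⟨n, s, hn1, hsC, hint, ?_⟩
  refine (eq_of_monic_of_dvd_of_natDegree_le hmm hmon hdvd ?_).symm
  rw [hdeg, ← hnd']

/-- job MINQ -/
theorem minQ : StMinQ := by
  intro x y p q s hp hsq hx hy
  have hpQ : (p : ℚ) ≠ 0 := by exact_mod_cast hp
  have hpC : (p : ℂ) ≠ 0 := by exact_mod_cast hp
  set f : ℚ[X] := X ^ 2 + C ((q : ℚ) / p) * X + C ((s : ℚ) / p) with hf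
  have hmon : f.Monic := by
    rw [hf, add_assoc]
    refine monic_X_pow_add (n := 2) ?_
    refine lt_of_le_of_lt (degree_linear_le (a := (q : ℚ) / p) (b := (s : ℚ) / p)) ?_
    norm_num
  have hdeg : f.natDegree = 2 := by
    have h1 : f = C (1 : ℚ) * X ^ 2 + C ((q : ℚ) / p) * X + C ((s : ℚ) / p) := by
      rw [hf]; simp
    rw [h1]
    exact natDegree_quadratic one_ne_zero
  have hroot : ∀ a : ℚ, ¬ f.IsRoot a := by
    intro a ha
    apply hsq
    rw [← Rat.isSquare_intCast_iff]
    have h1 : a ^ 2 + (q : ℚ) / p * a + (s : ℚ) / p = 0 := by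
      have := ha
      rw [hf, IsRoot.def] at this
      simpa using this
    have h2 : (p : ℚ) * a ^ 2 + q * a + s = 0 := by
      have : (p : ℚ) * (a ^ 2 + (q : ℚ) / p * a + (s : ℚ) / p) = 0 := by rw [h1, mul_zero]
      field_simp at this
      linarith
    refine ⟨2 * p * a + q, ?_⟩
    push_cast
    linear_combination (-4 * (p : ℚ)) * h2
  have hirr : Irreducible f := by
    rw [hmon.irreducible_iff_roots_eq_zero_of_degree_le_three (by omega) (by omega)]
    rw [Multiset.eq_zero_iff_forall_notMem]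
    intro a ha
    exact hroot a ((mem_roots hmon.ne_zero).1 ha)
  have hev : ∀ z : ℂ, (p : ℂ) * z ^ 2 + q * z + s = 0 → aeval z f = 0 := by
    intro z hz
    rw [hf]
    simp only [map_add, map_mul, map_pow, aeval_X, aeval_C]
    have e1 : algebraMap ℚ ℂ ((q : ℚ) / p) = (q : ℂ) / p := by
      rw [map_div₀]; simp
    have e2 : algebraMap ℚ ℂ ((s : ℚ) / p) = (s : ℂ) / p := by
      rw [map_div₀]; simp
    rw [e1, e2]
    field_simp
    linear_combination hz
  refine ⟨⟨f, hmon, by simpa [aeval_def] using hev x hx⟩, ?_⟩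
  rw [← minpoly.eq_of_irreducible_of_monic hirr (hev x hx) hmon,
    ← minpoly.eq_of_irreducible_of_monic hirr (hev y hy) hmon]

/-- the case `s < 0 < p + q + s` -/
lemma caseB (hQ : StQuad) (hS : StSym) {x y : ℂ} (hx0 : x ≠ 0) (hx1 : x ≠ 1) (hy0 : y ≠ 0)
    (hy1 : y ≠ 1) (hT : Tr x y) {p q s : ℤ} (hsq : ¬ IsSquare (q ^ 2 - 4 * p * s)) (hp : 0 < p)
    (hs : s < 0) (hsum : 0 < p + q + s) (hx : p * x ^ 2 + q * x + s = 0) :
    p * y ^ 2 + q * y + s = 0 := by
  have h1 := hQ x⁻¹ y⁻¹ (inv_ne_zero hx0) (fun h => hx1 (inv_eq_one.1 h)) (inv_ne_zero hy0)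
    (fun h => hy1 (inv_eq_one.1 h)) (hS x y hx0 hy0 hT).1 (-s) q p (by omega) hp (by omega)
    (by
      have : q ^ 2 + 4 * -s * p = q ^ 2 - 4 * p * s := by ring
      rw [this]; exact hsq)
    (by
      push_cast
      field_simp
      linear_combination -hx)
  push_cast at h1
  field_simp at h1
  linear_combination -h1

/-- job QUADG for `p > 0` -/
lemma quadPos (hQ : StQuad) (hS : StSym) {x y : ℂ} (hx0 : x ≠ 0) (hx1 : x ≠ 1) (hy0 : y ≠ 0)
    (hy1 : y ≠ 1) (hT : Tr x y) {p q s : ℤ} (hsq : ¬ IsSquare (q ^ 2 - 4 * p * s)) (hp : 0 < p)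
    (hs : s < 0 ∨ p + q + s < 0) (hx : p * x ^ 2 + q * x + s = 0) :
    p * y ^ 2 + q * y + s = 0 := by
  have hs0 : s ≠ 0 := by
    rintro rfl
    exact hsq ⟨q, by ring⟩
  have hsum0 : p + q + s ≠ 0 := by
    intro h
    apply hsq
    refine ⟨p - s, ?_⟩
    have : q = -(p + s) := by omega
    rw [this]; ring
  rcases lt_or_gt_of_ne hs0 with h1 | h1
  · rcases lt_or_gt_of_ne hsum0 with h2 | h2
    · have h3 := hQ x y hx0 hx1 hy0 hy1 hT p (-q) (-s) hp (by omega) (by omega)
        (by
          have : (-q) ^ 2 + 4 * p * -s = q ^ 2 - 4 * p * s := by ring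
          rw [this]; exact hsq)
        (by push_cast; linear_combination hx)
      push_cast at h3
      linear_combination h3
    · exact caseB hQ hS hx0 hx1 hy0 hy1 hT hsq hp h1 h2 hx
  · have h2 : p + q + s < 0 := by
      rcases hs with h | h
      · omega
      · exact h
    have h3 := caseB hQ hS (x := 1 - x) (y := 1 - y) (sub_ne_zero.2 hx1.symm)
      (fun h => hx0 (by linear_combination -h)) (sub_ne_zero.2 hy1.symm)
      (fun h => hy0 (by linear_combination -h)) (hS x y hx0 hy0 hT).2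
      (p := p) (q := -(2 * p + q)) (s := p + q + s)
      (by
        have : (-(2 * p + q)) ^ 2 - 4 * p * (p + q + s) = q ^ 2 - 4 * p * s := by ring
        rw [this]; exact hsq) hp h2 (by omega)
      (by push_cast; linear_combination hx)
    push_cast at h3
    linear_combination h3

/-- job QUADG -/
theorem quadG : StQuadG := by
  intro hQ hS x y hx0 hx1 hy0 hy1 hT p q s hsq hc hx
  have hp : p ≠ 0 := by
    rintro rfl
    rcases hc with h | h
    · simp at h
    · simp at h
  rcases lt_or_gt_of_ne hp with h1 | h1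
  · have h2 := quadPos hQ hS hx0 hx1 hy0 hy1 hT (p := -p) (q := -q) (s := -s)
      (by
        have : (-q) ^ 2 - 4 * -p * -s = q ^ 2 - 4 * p * s := by ring
        rw [this]; exact hsq) (by omega)
      (by
        rcases hc with h | h
        · left
          have : 0 < s := by
            by_contra hcon
            push Not at hcon
            nlinarith
          omega
        · right
          have : 0 < p + q + s := by
            by_contra hcon
            push Not at hcon
            nlinarith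
          omega)
      (by push_cast; linear_combination -hx)
    push_cast at h2
    linear_combination -h2
  · refine quadPos hQ hS hx0 hx1 hy0 hy1 hT hsq h1 ?_ hx
    rcases hc with h | h
    · left
      by_contra hcon
      push Not at hcon
      nlinarith
    · right
      by_contra hcon
      push Not at hcon
      nlinarith

end Pool.Agent.K7.H56.DM
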