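import Pool.Agent.K7.H80.EC.Stm

set_option autoImplicit false

namespace Pool.Agent.K7.H56.ECNB

open Finset Pool.Agent.K7.H80.EC

theorem t : StNb := by
  classical
  intro d e
  obtain ⟨⟨x, j⟩, hx⟩ := e
  change x j = false at hx
  rw [← card_image_of_injective (nb (⟨(x, j), hx⟩ : E d)) Subtype.val_injective]
  set g1 : Fin d → (Fin d → Bool) × Fin d := fun i => (Function.update x i (!x i), j) with hg1
  set g2 : Fin d → (Fin d → Bool) × Fin d := fun i => (Function.update x i false, i) with hg2
  set g3 : Fin d → (Fin d → Bool) × Fin d :=
    fun i => (Function.update (Function.update x i false) j true, i) with hg3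
  have key : (nb (⟨(x, j), hx⟩ : E d)).image Subtype.val ⊆
      (univ.image g1 ∪ univ.image g2) ∪ univ.image g3 := by
    intro p hp
    rw [mem_image] at hp
    obtain ⟨f, hf, rfl⟩ := hp
    obtain ⟨⟨z, i⟩, hz⟩ := f
    change z i = false at hz
    unfold nb at hf
    rw [mem_filter] at hf
    have he : (x, j) ∈ univ.image g2 := by
      rw [mem_image]
      refine ⟨j, mem_univ _, ?_⟩
      rw [hg2]
      simp only [Prod.mk.injEq, and_true]
      rw [← hx, Function.update_eq_self]
    rcases hf.2 with h | ⟨c, hc, h1, h2⟩
    · rw [h]
      exact mem_union_left _ (mem_union_right _ he)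
    · unfold Copies at hc
      rw [mem_filter] at hc
      obtain ⟨-, hcard, -⟩ := hc
      obtain ⟨h1j, h1v⟩ := h1
      obtain ⟨h2i, h2v⟩ := h2
      change j ∈ c.1 at h1j
      change i ∈ c.1 at h2i
      change ∀ l, l ∉ c.1 → x l = c.2 l at h1v
      change ∀ l, l ∉ c.1 → z l = c.2 l at h2v
      have hag : ∀ l, l ∉ c.1 → z l = x l := fun l hl => (h2v l hl).trans (h1v l hl).symm
      by_cases hij : i = j
      · subst hij
        obtain ⟨l, hl⟩ : ∃ l, l ∈ c.1 ∧ l ≠ i := by
          obtain ⟨a, b, hab, hS⟩ := card_eq_two.1 hcard
          by_cases ha : a = i
          · exact ⟨b, by rw [hS]; simp, fun h => hab (ha.trans h.symm)⟩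
          · exact ⟨a, by rw [hS]; simp, ha⟩
        have hS : ∀ m, m ≠ i → m ≠ l → m ∉ c.1 := by
          intro m hm1 hm2 hm
          have : ({i, l, m} : Finset (Fin d)) ⊆ c.1 := by
            intro w hw
            simp only [mem_insert, mem_singleton] at hw
            rcases hw with rfl | rfl | rfl
            · exact h2i
            · exact hl.1
            · exact hm
          have h3 := card_le_card this
          rw [card_eq_three.2 ⟨i, l, m, hl.2.symm, hm1.symm, hm2.symm, rfl⟩] at h3
          omega
        by_cases hzl : z l = x l
        · have : z = x := by
            funext m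
            by_cases hm1 : m = i
            · rw [hm1, hz, hx]
            · by_cases hm2 : m = l
              · rw [hm2, hzl]
              · exact hag m (hS m hm1 hm2)
          apply mem_union_left _ (mem_union_right _ _)
          change (z, i) ∈ _
          rw [this]
          exact he
        · apply mem_union_left _ (mem_union_left _ _)
          rw [mem_image]
          refine ⟨l, mem_univ _, ?_⟩
          rw [hg1]
          simp only [Prod.mk.injEq, and_true]
          funext m
          by_cases hm2 : m = l
          · rw [hm2, Function.update_self]
            cases hxl : x l <;> cases hzl2 : z l <;> simp_all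
          · rw [Function.update_of_ne hm2]
            by_cases hm1 : m = i
            · rw [hm1, hz, hx]
            · exact (hag m (hS m hm1 hm2)).symm
      · have hS : ∀ m, m ≠ i → m ≠ j → m ∉ c.1 := by
          intro m hm1 hm2 hm
          have : ({i, j, m} : Finset (Fin d)) ⊆ c.1 := by
            intro w hw
            simp only [mem_insert, mem_singleton] at hw
            rcases hw with rfl | rfl | rfl
            · exact h2i
            · exact h1j
            · exact hm
          have h3 := card_le_card this
          rw [card_eq_three.2 ⟨i, j, m, hij, fun h => hm1 h.symm, fun h => hm2 h.symm, rfl⟩] at h3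
          omega
        cases hzj : z j
        · apply mem_union_left _ (mem_union_right _ _)
          rw [mem_image]
          refine ⟨i, mem_univ _, ?_⟩
          rw [hg2]
          simp only [Prod.mk.injEq, and_true]
          funext m
          by_cases hm1 : m = i
          · rw [hm1, Function.update_self, hz]
          · rw [Function.update_of_ne hm1]
            by_cases hm2 : m = j
            · rw [hm2, hx, hzj]
            · exact (hag m (hS m hm1 hm2)).symm
        · apply mem_union_right
          rw [mem_image]
          refine ⟨i, mem_univ _, ?_⟩
          rw [hg3]
          simp only [Prod.mk.injEq, and_true]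
          funext m
          by_cases hm2 : m = j
          · rw [hm2, Function.update_self, hzj]
          · rw [Function.update_of_ne hm2]
            by_cases hm1 : m = i
            · rw [hm1, Function.update_self, hz]
            · rw [Function.update_of_ne hm1]
              exact (hag m (hS m hm1 hm2)).symm
  have hc : ∀ g : Fin d → (Fin d → Bool) × Fin d, (univ.image g).card ≤ d := by
    intro g
    exact card_image_le.trans (by simp)
  calc _ ≤ ((univ.image g1 ∪ univ.image g2) ∪ univ.image g3).card := card_le_card key
    _ ≤ (univ.image g1).card + (univ.image g2).card + (univ.image g3).card :=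
        (card_union_le _ _).trans (Nat.add_le_add_right (card_union_le _ _) _)
    _ ≤ 3 * d := by
        have a1 := hc g1
        have a2 := hc g2
        have a3 := hc g3
        omega

end Pool.Agent.K7.H56.ECNB
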