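import Pool.Agent.K7.H72.IP.Stm

set_option autoImplicit false

namespace Pool.Agent.K7.H56.IPC4L

open SimpleGraph Finset Pool.Agent.K7.H72.IP

/-- vertices: points, lines and isolated ones -/
abbrev W (p r : ℕ) : Type := ((ZMod p × ZMod p) ⊕ (ZMod p × ZMod p)) ⊕ Fin r

/-- the incidence graph of the lines `b = a x + y` -/
def Inc (p r : ℕ) : SimpleGraph (W p r) where
  Adj u v := ∃ a x y : ZMod p,
    (u = Sum.inl (Sum.inl (a, a * x + y)) ∧ v = Sum.inl (Sum.inr (x, y))) ∨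
    (v = Sum.inl (Sum.inl (a, a * x + y)) ∧ u = Sum.inl (Sum.inr (x, y)))
  symm := ⟨by
    rintro u v ⟨a, x, y, h | h⟩
    · exact ⟨a, x, y, Or.inr h⟩
    · exact ⟨a, x, y, Or.inl h⟩⟩
  loopless := ⟨by
    rintro u ⟨a, x, y, ⟨h1, h2⟩ | ⟨h1, h2⟩⟩
    · rw [h1] at h2
      simp at h2
    · rw [h1] at h2
      simp at h2⟩

theorem inc_aux {p r : ℕ} {u v : W p r} (h : (Inc p r).Adj u v) {a b : ZMod p}
    (hu : u = Sum.inl (Sum.inl (a, b))) :
    ∃ x y, v = Sum.inl (Sum.inr (x, y)) ∧ b = a * x + y := by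
  obtain ⟨a', x, y, ⟨h1, h2⟩ | ⟨h1, h2⟩⟩ := h
  · rw [hu] at h1
    simp only [Sum.inl.injEq, Prod.mk.injEq] at h1
    exact ⟨x, y, h2, by rw [h1.2, h1.1]⟩
  · rw [hu] at h2
    simp at h2

theorem inc_aux' {p r : ℕ} {u v : W p r} (h : (Inc p r).Adj u v) {x y : ZMod p}
    (hu : u = Sum.inl (Sum.inr (x, y))) :
    ∃ a b, v = Sum.inl (Sum.inl (a, b)) ∧ b = a * x + y := by
  obtain ⟨a', x', y', ⟨h1, h2⟩ | ⟨h1, h2⟩⟩ := h
  · rw [hu] at h1
    simp at h1
  · rw [hu] at h2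
    simp only [Sum.inl.injEq, Sum.inr.injEq, Prod.mk.injEq] at h2
    exact ⟨a', a' * x' + y', h1, by rw [h2.1, h2.2]⟩

/-- two lines through two points -/
theorem two {p : ℕ} [Fact p.Prime] {a b a' b' x y x' y' : ZMod p} (h1 : b = a * x + y)
    (h2 : b = a * x' + y') (h3 : b' = a' * x + y) (h4 : b' = a' * x' + y') :
    (a, b) = (a', b') ∨ (x, y) = (x', y') := by
  have h : (a - a') * (x - x') = 0 := by linear_combination (-1) * h1 + h2 + h3 - h4
  rcases mul_eq_zero.1 h with h | h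
  · left
    have : a = a' := sub_eq_zero.1 h
    rw [this] at h1
    rw [this, h1, h3]
  · right
    have : x = x' := sub_eq_zero.1 h
    rw [this]
    rw [this] at h1
    have h5 : y = y' := by linear_combination (-1) * h1 + h2
    rw [h5]

theorem inc_free (p r : ℕ) [Fact p.Prime] :
    (completeBipartiteGraph (Fin 2) (Fin 2)).Free (Inc p r) := by
  rintro ⟨f⟩
  have hadj : ∀ i j : Fin 2, (Inc p r).Adj (f (Sum.inl i)) (f (Sum.inr j)) := by
    intro i j
    apply f.toHom.map_adj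
    simp
  have hu : f (Sum.inl 0) ≠ f (Sum.inl 1) := fun h => by
    have := f.injective h
    simp at this
  have hw : f (Sum.inr 0) ≠ f (Sum.inr 1) := fun h => by
    have := f.injective h
    simp at this
  obtain ⟨a, x, y, h | h⟩ := hadj 0 0
  · obtain ⟨x0, y0, hx0, e00⟩ := inc_aux (hadj 0 0) h.1
    obtain ⟨x1, y1, hx1, e01⟩ := inc_aux (hadj 0 1) h.1
    obtain ⟨a1, b1, hb1, e10⟩ := inc_aux' (hadj 1 0).symm hx0
    obtain ⟨a2, b2, hb2, e11⟩ := inc_aux' (hadj 1 1).symm hx1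
    have h5 : a1 = a2 ∧ b1 = b2 := by
      rw [hb1] at hb2
      simpa using hb2
    obtain ⟨rfl, rfl⟩ := h5
    rcases two e00 e01 e10 e11 with h6 | h6
    · exact hu (by rw [h.1, hb1, h6])
    · exact hw (by rw [hx0, hx1, h6])
  · obtain ⟨x0, y0, hx0, e00⟩ := inc_aux' (hadj 0 0) h.2
    obtain ⟨x1, y1, hx1, e01⟩ := inc_aux' (hadj 0 1) h.2
    obtain ⟨a1, b1, hb1, e10⟩ := inc_aux (hadj 1 0).symm hx0
    obtain ⟨a2, b2, hb2, e11⟩ := inc_aux (hadj 1 1).symm hx1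
    have h5 : a1 = a2 ∧ b1 = b2 := by
      rw [hb1] at hb2
      simpa using hb2
    obtain ⟨rfl, rfl⟩ := h5
    rcases two e00 e10 e01 e11 with h6 | h6
    · exact hw (by rw [hx0, hx1, h6])
    · exact hu (by rw [h.2, hb1, h6])

open Classical in
theorem inc_card (p r : ℕ) [Fact p.Prime] : p ^ 3 ≤ #(Inc p r).edgeFinset := by
  set g : ZMod p × ZMod p × ZMod p → Sym2 (W p r) := fun q =>
    s(Sum.inl (Sum.inl (q.1, q.1 * q.2.1 + q.2.2)), Sum.inl (Sum.inr (q.2.1, q.2.2))) with hg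
  have hinj : Function.Injective g := by
    rintro ⟨a, x, y⟩ ⟨a', x', y'⟩ h
    simp only [hg, Sym2.eq_iff] at h
    rcases h with ⟨h1, h2⟩ | ⟨h1, h2⟩
    · simp only [Sum.inl.injEq, Sum.inr.injEq, Prod.mk.injEq] at h1 h2
      obtain ⟨h3, h4⟩ := h2
      rw [h1.1, h3, h4]
    · simp at h1
  have hsub : univ.image g ⊆ (Inc p r).edgeFinset := by
    intro e he
    rw [mem_image] at he
    obtain ⟨⟨a, x, y⟩, -, rfl⟩ := he
    rw [mem_edgeFinset, hg]
    change (Inc p r).Adj _ _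
    exact ⟨a, x, y, Or.inl ⟨rfl, rfl⟩⟩
  calc p ^ 3 = #(univ.image g) := by
        rw [card_image_of_injective _ hinj, card_univ]
        simp [ZMod.card]
        ring
    _ ≤ _ := card_le_card hsub

theorem ex_prime (p r : ℕ) [Fact p.Prime] :
    p ^ 3 ≤ extremalNumber (2 * p ^ 2 + r) (completeBipartiteGraph (Fin 2) (Fin 2)) := by
  classical
  have h := card_edgeFinset_le_extremalNumber (inc_free p r)
  have hc : Fintype.card (W p r) = 2 * p ^ 2 + r := by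
    simp [W, ZMod.card]
    ring
  rw [hc] at h
  exact (inc_card p r).trans h

theorem ex_one (n : ℕ) (hn : 2 ≤ n) :
    1 ≤ extremalNumber n (completeBipartiteGraph (Fin 2) (Fin 2)) := by
  classical
  set u : Fin n := ⟨0, by omega⟩
  set v : Fin n := ⟨1, by omega⟩
  have huv : u ≠ v := by simp [u, v, Fin.ext_iff]
  obtain ⟨G, hG⟩ : ∃ G : SimpleGraph (Fin n), ∀ a b, G.Adj a b ↔ s(a, b) = s(u, v) :=
    ⟨fromEdgeSet {s(u, v)}, fun a b => by
      rw [fromEdgeSet_adj, Set.mem_singleton_iff]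
      refine ⟨fun h => h.1, fun h => ⟨h, ?_⟩⟩
      rintro rfl
      rw [Sym2.eq_iff] at h
      rcases h with ⟨h1, h2⟩ | ⟨h1, h2⟩
      · exact huv (h1.symm.trans h2)
      · exact huv (h2.symm.trans h1)⟩
  have hfree : (completeBipartiteGraph (Fin 2) (Fin 2)).Free G := by
    rintro ⟨f⟩
    have hadj : ∀ j : Fin 2, G.Adj (f (Sum.inl 0)) (f (Sum.inr j)) := by
      intro j
      apply f.toHom.map_adj
      simp
    have hw : f (Sum.inr 0) ≠ f (Sum.inr 1) := fun h => by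
      have := f.injective h
      simp at this
    have h0 := hadj 0
    have h1 := hadj 1
    rw [hG] at h0 h1
    have h2 : s(f (Sum.inl 0), f (Sum.inr 0)) = s(f (Sum.inl 0), f (Sum.inr 1)) := h0.trans h1.symm
    rw [Sym2.congr_right] at h2
    exact hw h2
  have h := card_edgeFinset_le_extremalNumber hfree
  rw [Fintype.card_fin] at h
  refine le_trans ?_ h
  rw [Nat.one_le_iff_ne_zero, ← Nat.pos_iff_ne_zero, card_pos]
  exact ⟨s(u, v), by rw [mem_edgeFinset, mem_edgeSet, hG]⟩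

theorem t : StC4L := by
  refine ⟨1 / 32, by norm_num, ?_⟩
  intro n hn
  by_cases h8 : n < 8
  · have h1 : (1 : ℝ) ≤ (extremalNumber n (completeBipartiteGraph (Fin 2) (Fin 2)) : ℝ) := by
      exact_mod_cast ex_one n hn
    refine le_trans ?_ h1
    have h2 : (n : ℝ) ^ (3 / 2 : ℝ) ≤ (8 : ℝ) ^ (5 / 3 : ℝ) := by
      have h3 : (n : ℝ) ≤ 8 := by exact_mod_cast h8.le
      calc (n : ℝ) ^ (3 / 2 : ℝ) ≤ (8 : ℝ) ^ (3 / 2 : ℝ) :=
            Real.rpow_le_rpow (by positivity) h3 (by norm_num)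
        _ ≤ (8 : ℝ) ^ (5 / 3 : ℝ) := Real.rpow_le_rpow_of_exponent_le (by norm_num) (by norm_num)
    have h4 : (8 : ℝ) ^ (5 / 3 : ℝ) = 32 := by
      have : (8 : ℝ) = (2 : ℝ) ^ (3 : ℝ) := by norm_num
      rw [this, ← Real.rpow_mul (by norm_num)]
      norm_num
    rw [h4] at h2
    linarith
  · push Not at h8
    set m := Nat.sqrt (n / 2) with hm
    have hm2 : 2 ≤ m := by
      rw [hm, Nat.le_sqrt]
      omega
    obtain ⟨p, hp, hp1, hp2⟩ := Nat.exists_prime_lt_and_le_two_mul (m / 2) (by omega)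
    haveI : Fact p.Prime := ⟨hp⟩
    have hpm : p ≤ m := by omega
    have hmn : m * m ≤ n / 2 := Nat.sqrt_le (n / 2)
    have hpn : 2 * p ^ 2 ≤ n := by
      have h1 : p ^ 2 ≤ m * m := by
        rw [sq]
        exact Nat.mul_le_mul hpm hpm
      omega
    have h1 := ex_prime p (n - 2 * p ^ 2)
    rw [Nat.add_sub_cancel' hpn] at h1
    have h2 : ((p : ℝ)) ^ 3 ≤ (extremalNumber n (completeBipartiteGraph (Fin 2) (Fin 2)) : ℝ) := by
      exact_mod_cast h1
    refine le_trans ?_ h2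
    -- n < 2 (m+1)^2 and m + 1 ≤ 2 p
    have h3 : n < 2 * ((m + 1) * (m + 1)) := by
      have h4 : n / 2 < (m + 1) * (m + 1) := Nat.lt_succ_sqrt (n / 2)
      omega
    have h5 : m + 1 ≤ 2 * p := by omega
    have h6 : n ≤ 8 * p ^ 2 := by
      have : (m + 1) * (m + 1) ≤ (2 * p) * (2 * p) := Nat.mul_le_mul h5 h5
      nlinarith
    have h7 : (n : ℝ) ≤ 8 * (p : ℝ) ^ 2 := by exact_mod_cast h6
    have hp0 : (0 : ℝ) ≤ p := by positivity
    have h9 : (n : ℝ) ^ (3 / 2 : ℝ) ≤ (8 * (p : ℝ) ^ 2) ^ (3 / 2 : ℝ) :=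
      Real.rpow_le_rpow (by positivity) h7 (by norm_num)
    have h10 : (8 * (p : ℝ) ^ 2) ^ (3 / 2 : ℝ) = (8 : ℝ) ^ (3 / 2 : ℝ) * (p : ℝ) ^ 3 := by
      rw [Real.mul_rpow (by norm_num) (by positivity)]
      congr 1
      rw [← Real.rpow_natCast, ← Real.rpow_natCast, ← Real.rpow_mul hp0]
      norm_num
    have h11 : (8 : ℝ) ^ (3 / 2 : ℝ) ≤ 32 := by
      calc (8 : ℝ) ^ (3 / 2 : ℝ) ≤ (8 : ℝ) ^ (5 / 3 : ℝ) :=
            Real.rpow_le_rpow_of_exponent_le (by norm_num) (by norm_num)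
        _ = 32 := by
            have : (8 : ℝ) = (2 : ℝ) ^ (3 : ℝ) := by norm_num
            rw [this, ← Real.rpow_mul (by norm_num)]
            norm_num
    rw [h10] at h9
    have h12 : (8 : ℝ) ^ (3 / 2 : ℝ) * (p : ℝ) ^ 3 ≤ 32 * (p : ℝ) ^ 3 :=
      mul_le_mul_of_nonneg_right h11 (by positivity)
    linarith

end Pool.Agent.K7.H56.IPC4L
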