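import Pool.Agent.R430.B14
import Pool.Agent.R430.Q15

/-!
# Interface of the project: general 2-extensions of `ℚ(√-3)`

`Core` is the analytic statement for a number field of arbitrary degree, `Recip` is the reciprocity law
for extensions of exponent two without a condition on the different, `Base` is the statement on the
value of the L-function of a field.
-/

set_option autoImplicit false

open Complex NumberField IsDedekindDomain
open scoped PeriodPair nonZeroDivisors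

namespace Pool.Agent.K7.H56

open Pool.Agent.R430
open Pool.Agent.Y688 (NI HL)
open Pool.Agent.Y688.QRec (IsD)

/-- `f` is a meromorphic continuation of the Dirichlet series `∑ X(I) ψ(I) N(I) ^ (-s)` -/
structure VV {N : Type} [Field N] [NumberField N] (ι : Pool.Agent.Y688.RR →+* 𝓞 N)
    (X : Ideal (𝓞 N) → ℂ) (f : ℂ → ℂ) : Prop where
  mero : MeromorphicOn f Set.univ
  an : AnalyticAt ℂ f 1
  sum : ∀ s : ℂ, 3 / 2 < s.re → HasSum (fun I : NI (𝓞 N) => gI ι X s I.1) (f s)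

/-- the analytic core, for a field of degree `2 d` -/
def Core : Prop :=
  ∀ (N : Type) [Field N] [NumberField N] (ι : Pool.Agent.Y688.RR →+* 𝓞 N) (d : ℕ),
    Module.finrank ℚ N = 2 * d →
    (∀ v : HeightOneSpectrum (𝓞 N), ((2 : ℕ) : 𝓞 N) ∈ v.asIdeal →
      v.valuation N 2 = WithZero.exp (-1 : ℤ)) →
    ∀ (n : ℕ) (X : Ideal (𝓞 N) → ℂ), IC n X → Odd n → ∃ f f0 : ℂ → ℂ, VV ι X f ∧ VV ι (X0 n) f0 ∧
      ∀ (L : PeriodPair) (Ω : ℂ), HL L Ω → ∀ (Γ : Type) [LinearOrderedCommGroupWithZero Γ]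
        (v : Valuation ℂ Γ), v 2 < 1 → v (f 1) ≤ v Ω ^ d ∧ v (f 1 - f0 1) < v Ω ^ d

/-- reciprocity for extensions of exponent two, no condition on the different -/
def Recip : Prop :=
  ∀ (F K : Type) [Field F] [NumberField F] [Field K] [NumberField K] [Algebra F K] [IsGalois F K]
    (a : F), a ^ 2 = -3 → ∀ (r : ℕ), Module.finrank ℚ F = 2 * r →
    (∀ v : HeightOneSpectrum (𝓞 F), (2 : 𝓞 F) ∈ v.asIdeal →
      v.valuation F 2 = WithZero.exp (-1 : ℤ)) →
    ∀ (hcomm : ∀ σ τ : Gal(K/F), σ * τ = τ * σ), (∀ σ : Gal(K/F), σ * σ = 1) →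
    ∀ (n : ℕ), Odd n →
    (∀ w : HeightOneSpectrum (𝓞 K), (n : 𝓞 K) ∉ w.asIdeal →
      ∀ σ : Gal(K/F), (∀ x : 𝓞 K, σ • x - x ∈ w.asIdeal) → σ = 1) →
    IsArt n (PhiM hcomm)

end Pool.Agent.K7.H56
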