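import Pool.Agent.K7.H56.T10
import Pool.Agent.R430.C11

/-!
# The reduction at two
-/

set_option autoImplicit false

open Complex Filter Topology Set MeasureTheory
open scoped PeriodPair

namespace Pool.Agent.K7.H56

open Pool.Agent.Y688 Pool.Agent.W192.HK Pool.Agent.TH936.CM Pool.Agent.R430 H667R3

variable {r : ℕ} {A : Type*} [CommRing A] [Algebra RR A]

lemma two_prime : Prime (2 : RR) := by
  refine ⟨two_ne_zero, not_unit_two, fun a b h => ?_⟩
  rcases cube_cases a with ⟨s, hs⟩ | ⟨s, hs⟩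
  · exact Or.inl ⟨s, hs⟩
  · right
    obtain ⟨t, ht⟩ := h
    exact ⟨a ^ 2 * t - s * b, by linear_combination a ^ 2 * ht - b * hs⟩

/-- the linear forms adapted to a residue map -/
def Xg {γ : RR} (π : A →+* (RR ⧸ sp γ)) : Set (A →ₗ[RR] RR) :=
  {l | ∃ c : RR ⧸ sp γ, IsUnit c ∧ ∀ x, Ideal.Quotient.mk (sp γ) (l x) = c * π x}

lemma Xg_ne {γ : RR} {π : A →+* (RR ⧸ sp γ)} {l : A →ₗ[RR] RR} (hl : l ∈ Xg π) {x : A}
    (hx : π x ≠ 0) : l x ≠ 0 := by
  obtain ⟨c, hc, h⟩ := hl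
  intro h0
  have h1 := h x
  rw [h0, map_zero] at h1
  exact hx ((hc.mul_right_eq_zero).1 h1.symm)

namespace GN

variable {D : GN A r} {γ : RR} {π : A →+* (RR ⧸ sp γ)}

lemma two_unit (hγ : IsCoprime γ 2) : ∃ u : RR ⧸ sp γ, u * 2 = 1 := by
  obtain ⟨a, b, hab⟩ := hγ
  refine ⟨Ideal.Quotient.mk (sp γ) b, ?_⟩
  have h1 : (2 : RR ⧸ sp γ) = Ideal.Quotient.mk (sp γ) 2 := (map_ofNat _ 2).symm
  rw [h1, ← map_mul, ← map_one (Ideal.Quotient.mk (sp γ)), Ideal.Quotient.mk_eq_mk_iff_sub_mem,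
    Ideal.mem_span_singleton']
  exact ⟨-a, by linear_combination -hab⟩

lemma exists_w (hγ : IsCoprime γ 2) (l : Fin (r + 1) → (A →ₗ[RR] RR)) (hl : ∀ j, l j ∈ Xg π)
    (h2 : (2 : RR) ∣ D.dl l) : ∃ (b : Fin (r + 1) → RR) (w : A →ₗ[RR] RR), w ∈ Xg π ∧
      (2 : RR) • w = ∑ j, b j • l j ∧ ∀ j, b j = 0 ∨ ¬ (2 : RR) ∣ b j := by
  classical
  have hp : (sp (2 : RR)).IsPrime := (Ideal.span_singleton_prime two_ne_zero).2 two_prime
  have hm2 : ∀ x : RR, Ideal.Quotient.mk (sp (2 : RR)) x = 0 ↔ (2 : RR) ∣ x := fun x => by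
    rw [Ideal.Quotient.eq_zero_iff_mem, Ideal.mem_span_singleton]
  -- the relation modulo two
  have hdet : ((D.mm l).map (Ideal.Quotient.mk (sp (2 : RR)))).det = 0 := by
    rw [← RingHom.mapMatrix_apply, ← RingHom.map_det]
    exact (hm2 _).2 h2
  obtain ⟨v, hv0, hv⟩ := Matrix.exists_vecMul_eq_zero_iff.2 hdet
  obtain ⟨j0, hj0⟩ := Function.ne_iff.1 hv0
  set b0 : Fin (r + 1) → RR := fun j => if v j = 0 then 0 else (v j).out with hb0
  have hb0v : ∀ j, Ideal.Quotient.mk (sp (2 : RR)) (b0 j) = v j := by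
    intro j
    rw [hb0]
    simp only
    split_ifs with h
    · rw [map_zero, h]
    · exact Quotient.out_eq _
  -- the correction modulo `γ`
  choose c hc hcl using hl
  obtain ⟨u2, hu2⟩ := two_unit hγ
  obtain ⟨ci, hci⟩ := (hc j0).exists_left_inv
  obtain ⟨t, ht⟩ := Ideal.Quotient.mk_surjective
    ((2 - ∑ j, Ideal.Quotient.mk (sp γ) (b0 j) * c j) * u2 * ci)
  set b : Fin (r + 1) → RR := fun j => b0 j + if j = j0 then 2 * t else 0 with hb
  have hbv : ∀ j, Ideal.Quotient.mk (sp (2 : RR)) (b j) = v j := by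
    intro j
    rw [hb]
    simp only
    rw [map_add, hb0v]
    split_ifs
    · rw [(hm2 (2 * t)).2 ⟨t, rfl⟩, add_zero]
    · rw [map_zero, add_zero]
  have hbc : ∑ j, Ideal.Quotient.mk (sp γ) (b j) * c j = 2 := by
    have h1 : ∀ j, Ideal.Quotient.mk (sp γ) (b j) * c j =
        Ideal.Quotient.mk (sp γ) (b0 j) * c j +
          if j = j0 then Ideal.Quotient.mk (sp γ) (2 * t) * c j else 0 := by
      intro j
      rw [hb]
      simp only
      split_ifs
      · rw [map_add, add_mul]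
      · rw [add_zero, add_zero]
    rw [Finset.sum_congr rfl fun j _ => h1 j, Finset.sum_add_distrib, Finset.sum_ite_eq',
      if_pos (Finset.mem_univ j0), map_mul, ht, map_ofNat]
    linear_combination (2 - ∑ j, Ideal.Quotient.mk (sp γ) (b0 j) * c j) * hu2 +
      2 * (2 - ∑ j, Ideal.Quotient.mk (sp γ) (b0 j) * c j) * u2 * hci
  -- divisibility
  have hdiv : ∀ i, (2 : RR) ∣ ∑ j, b j * l j (D.b i) := by
    intro i
    rw [← hm2, map_sum]
    have h1 := congrFun hv i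
    rw [show (0 : Fin (r + 1) → RR ⧸ sp (2 : RR)) i = 0 from rfl] at h1
    rw [← h1]
    show _ = ∑ j, v j * Ideal.Quotient.mk (sp (2 : RR)) (l j (D.b i))
    exact Finset.sum_congr rfl fun j _ => by rw [map_mul, hbv]
  choose s hs using hdiv
  have hw : (2 : RR) • (D.b.constr RR s) = ∑ j, b j • l j := by
    refine D.b.ext fun i => ?_
    rw [LinearMap.smul_apply, Module.Basis.constr_basis, LinearMap.sum_apply, smul_eq_mul, ← hs i]
    exact Finset.sum_congr rfl fun j _ => by rw [LinearMap.smul_apply, smul_eq_mul]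
  refine ⟨b, D.b.constr RR s, ⟨1, isUnit_one, fun x => ?_⟩, hw, fun j => ?_⟩
  · have h1 : (2 : RR) * (D.b.constr RR s) x = ∑ j, b j * l j x := by
      have h2 := congrArg (fun f : A →ₗ[RR] RR => f x) hw
      simp only [LinearMap.smul_apply, LinearMap.sum_apply, smul_eq_mul] at h2
      exact h2
    have h2 : (2 : RR ⧸ sp γ) * Ideal.Quotient.mk (sp γ) ((D.b.constr RR s) x) = 2 * π x := by
      have h3 := congrArg (Ideal.Quotient.mk (sp γ)) h1
      rw [map_mul, map_ofNat, map_sum] at h3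
      rw [h3, ← hbc, Finset.sum_mul]
      exact Finset.sum_congr rfl fun j _ => by rw [map_mul, hcl]; ring
    linear_combination u2 * h2 + (π x - Ideal.Quotient.mk (sp γ) ((D.b.constr RR s) x)) * hu2
  · by_cases hvj : v j = 0
    · left
      have hjj : j ≠ j0 := by
        rintro rfl
        exact hj0 hvj
      rw [hb, hb0]
      simp only
      rw [if_pos hvj, if_neg hjj, add_zero]
    · right
      rw [← hm2, hbv]
      exact hvj

/-- the new families -/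
def tc (l : Fin (r + 1) → (A →ₗ[RR] RR)) (w : A →ₗ[RR] RR) (i : Fin (r + 1)) :
    Fin (r + 1) → (A →ₗ[RR] RR) := Fin.cons w fun j => l (i.succAbove j)

lemma dl_tc (l : Fin (r + 1) → (A →ₗ[RR] RR)) (w : A →ₗ[RR] RR) (b : Fin (r + 1) → RR)
    (h : (2 : RR) • w = ∑ j, b j • l j) (i : Fin (r + 1)) :
    2 * D.dl (tc l w i) = (-1) ^ (i : ℕ) * (b i * D.dl l) := by
  have h1 : D.mm (tc l w i) =
      ((D.mm l).updateRow i (fun k => w (D.b k))).submatrix (i.cycleRange.symm) id := by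
    ext j k
    rw [Matrix.submatrix_apply]
    refine Fin.cases ?_ (fun j => ?_) j
    · rw [Fin.cycleRange_symm_zero, Matrix.updateRow_self]
      rfl
    · rw [Fin.cycleRange_symm_succ, Matrix.updateRow_ne (Fin.succAbove_ne i j)]
      rfl
  have h2 : (2 : RR) * ((D.mm l).updateRow i (fun k => w (D.b k))).det = b i * D.dl l := by
    rw [← Matrix.det_updateRow_smul]
    have h3 : (2 : RR) • (fun k => w (D.b k)) = ∑ k, b k • (D.mm l) k := by
      funext k
      have h4 := congrArg (fun f : A →ₗ[RR] RR => f (D.b k)) h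
      simp only [LinearMap.smul_apply, LinearMap.sum_apply] at h4
      rw [Pi.smul_apply, h4, Finset.sum_apply]
      rfl
    rw [h3, Matrix.det_updateRow_sum]
    rfl
  unfold dl
  rw [h1, Matrix.det_permute, Equiv.Perm.sign_symm, Fin.sign_cycleRange]
  push_cast
  rw [mul_left_comm, h2]
  rfl

/-- the cocycle identity -/
lemma cocycle {φ : A → ℂ} (hφ : ∃ K : ℝ, 0 ≤ K ∧ ∀ x, ‖φ x‖ ≤ K)
    (l : Fin (r + 1) → (A →ₗ[RR] RR)) (w : A →ₗ[RR] RR)
    (hl : ∀ j x, φ x ≠ 0 → l j x ≠ 0) (hw : ∀ x, φ x ≠ 0 → w x ≠ 0) {ρ : ℝ} (hρ : 0 < ρ) :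
    D.Ls φ l ρ * D.dv l = ∑ i : Fin (r + 1), (-1) ^ (i : ℕ) * (D.Ls φ (tc l w i) ρ *
      D.dv (tc l w i)) := by
  set lam : Fin (r + 2) → Vx φ := Fin.cons ⟨w, hw⟩ (fun j => ⟨l j, hl j⟩) with hlam
  have h1 := key_Om (D := D) (fun _ _ => 1) hφ (fun j => Sum.inl (lam j))
    (Function.update 0 0 (Real.log ρ))
  have h2 : inrS (fun j => (Sum.inl (lam j) : Vx φ ⊕ Fin (r + 1)))
      (fun j b => (-1) ^ (j : ℕ) * D.Od (fun _ _ => 1) φ
        (fun i => Sum.inl (lam (j.succAbove i))) (Function.update 0 0 (Real.log ρ)) b) = 0 := by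
    unfold inrS
    exact Finset.sum_eq_zero fun j _ => rfl
  rw [h2] at h1
  have h3 : inlS (fun j => (Sum.inl (lam j) : Vx φ ⊕ Fin (r + 1)))
      (fun j => (-1) ^ (j : ℕ) * D.Om (fun _ _ => 1) φ
        (fun i => Sum.inl (lam (j.succAbove i))) (Function.update 0 0 (Real.log ρ))) =
      ∑ j : Fin (r + 2), (-1) ^ (j : ℕ) * (D.Ls φ (fun i => (lam (j.succAbove i)).1) ρ *
        D.dv (fun i => (lam (j.succAbove i)).1)) := by
    unfold inlS
    refine Finset.sum_congr rfl fun j _ => ?_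
    show (-1) ^ (j : ℕ) * _ = _
    rw [Om_inl _ (fun _ => rfl), Real.exp_log hρ]
  rw [h3, Fin.sum_univ_succ] at h1
  have h4 : (fun i => (lam ((0 : Fin (r + 2)).succAbove i)).1) = l := by
    funext i
    rw [Fin.succAbove_zero]
    rfl
  have h5 : ∀ i : Fin (r + 1), (fun j => (lam (i.succ.succAbove j)).1) = tc l w i := by
    intro i
    funext j
    unfold tc
    refine Fin.cases ?_ (fun j => ?_) j
    · rw [Fin.succ_succAbove_zero]
      rfl
    · rw [Fin.succ_succAbove_succ]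
      rfl
  simp only [h4, h5, Fin.val_zero, pow_zero, one_mul, Fin.val_succ, pow_succ] at h1
  have h6 : ∑ i : Fin (r + 1), (-1 : ℂ) ^ (i : ℕ) * -1 * (D.Ls φ (tc l w i) ρ * D.dv (tc l w i)) =
      -∑ i : Fin (r + 1), (-1) ^ (i : ℕ) * (D.Ls φ (tc l w i) ρ * D.dv (tc l w i)) := by
    rw [← Finset.sum_neg_distrib]
    exact Finset.sum_congr rfl fun i _ => by ring
  rw [h6] at h1
  linear_combination -h1


/-- the statement on the limit for a family of linear forms -/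
def Good (D : GN A r) (π : A →+* (RR ⧸ sp γ)) (l : Fin (r + 1) → (A →ₗ[RR] RR))
    (S : Finset A) : Prop :=
  ∀ (M : ℕ) [NeZero M] (φ : A → ℂ), Odd M → D.Cfu M φ → (∀ x, φ x ≠ 0 → π x ≠ 0) →
    (∀ w ∈ S, Mzv M φ w) → ∃ l0 : ℂ,
      Tendsto (fun ρ => D.Ls φ l ρ * D.dv l) (𝓝[>] 0) (𝓝 l0) ∧
      ∀ (L : PeriodPair) (Ω : ℂ), HL L Ω → ∀ (Γ : Type) [LinearOrderedCommGroupWithZero Γ] (v : Valuation ℂ Γ), v 2 < 1 →
        ((∀ x, v (φ x) ≤ 1) → v (D.P.det * l0) ≤ v 2 * v Ω ^ (r + 1)) ∧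
        ((∀ x, v (φ x) < 1) → v (D.P.det * l0) < v 2 * v Ω ^ (r + 1))

lemma good_zero (l : Fin (r + 1) → (A →ₗ[RR] RR)) (h0 : D.dl l = 0) : Good D π l ∅ := by
  have h1 : D.dv l = 0 := by
    by_contra h
    exact dl_ne h h0
  intro M _ φ _ _ _ _
  refine ⟨0, ?_, fun L Ω hL Γ _ v h2 => ⟨fun _ => ?_, fun _ => ?_⟩⟩
  · simp only [h1, mul_zero]
    exact tendsto_const_nhds
  · rw [mul_zero, map_zero]
    exact zero_le
  · rw [mul_zero, map_zero]
    have h3 : v 2 ≠ 0 := (v.ne_zero_iff).2 two_ne_zero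
    have h4 : v Ω ≠ 0 := (v.ne_zero_iff).2 hL.ne
    exact zero_lt_iff.2 (mul_ne_zero h3 (pow_ne_zero _ h4))

lemma v_det_le {Γ : Type} [LinearOrderedCommGroupWithZero Γ] (v : Valuation ℂ Γ) (a : RR) {n : ℕ}
    (h2 : v 2 < 1) (hn : Odd n) (Ω V : ℂ) (x : Γ) :
    (v V ≤ x → v ((a : ℂ) * ((Ω / (n : ℂ)) ^ (r + 1) * V)) ≤ x * v Ω ^ (r + 1)) ∧
    (Ω ≠ 0 → v V < x → v ((a : ℂ) * ((Ω / (n : ℂ)) ^ (r + 1) * V)) < x * v Ω ^ (r + 1)) := by
  have hvn : v (n : ℂ) = 1 := by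
    have := v_odd (v := v) h2 (n := (n : ℤ)) (by exact_mod_cast hn)
    exact_mod_cast this
  have h1 : v ((a : ℂ) * ((Ω / (n : ℂ)) ^ (r + 1) * V)) ≤ v V * v Ω ^ (r + 1) := by
    rw [map_mul, map_mul, map_pow, map_div₀, hvn, div_one, mul_comm (v Ω ^ (r + 1))]
    exact mul_le_of_le_one_left zero_le (v_RR a)
  constructor
  · intro h
    refine h1.trans ?_
    gcongr
  · intro hΩ h
    refine lt_of_le_of_lt h1 ?_
    have h4 : 0 < v Ω ^ (r + 1) := zero_lt_iff.2 (pow_ne_zero _ ((v.ne_zero_iff).2 hΩ))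
    exact mul_lt_mul_of_pos_right h h4

theorem good_base [NoZeroSMulDivisors RR A] (l : Fin (r + 1) → (A →ₗ[RR] RR)) (hl : ∀ j, l j ∈ Xg π) (h2 : ¬ (2 : RR) ∣ D.dl l) :
    ∃ S : Finset A, (∀ w ∈ S, w ≠ 0) ∧ Good D π l S := by
  classical
  have hdl : D.dl l ≠ 0 := by
    intro h0
    exact h2 (h0 ▸ dvd_zero _)
  obtain ⟨N, hN⟩ := normSq_RR (D.dl l)
  have hN0 : N ≠ 0 := by
    rintro rfl
    have := one_le_normSq hdl
    rw [hN] at this
    norm_num at this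
  have hNodd : Odd N := by
    by_contra h3
    rw [Nat.not_odd_iff_even] at h3
    obtain ⟨y, hy⟩ := dvd_nsq _ hN
    obtain ⟨k, hk⟩ := h3
    -- two divides the norm
    have h4 : (2 : RR) ∣ D.dl l * y := ⟨k, by rw [← hy, hk]; push_cast; ring⟩
    rcases two_prime.dvd_or_dvd h4 with h5 | h5
    · exact h2 h5
    · -- conjugate
      obtain ⟨t, ht⟩ := h5
      have hyc : (y : ℂ) = (starRingEnd ℂ) ((D.dl l : RR) : ℂ) := by
        have h6 : ((D.dl l : RR) : ℂ) * y = ((D.dl l : RR) : ℂ) * (starRingEnd ℂ) ((D.dl l : RR) : ℂ) := by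
          rw [Complex.mul_conj, hN]
          have := congrArg (fun z : RR => (z : ℂ)) hy
          push_cast at this
          exact this.symm
        have h7 : ((D.dl l : RR) : ℂ) ≠ 0 := by exact_mod_cast hdl
        exact mul_left_cancel₀ h7 h6
      apply h2
      refine ⟨⟨(starRingEnd ℂ) (t : ℂ), Pool.Agent.W287.HK.conj_mem qr _⟩, ?_⟩
      apply Subtype.ext
      have h8 := congrArg (fun z : RR => (z : ℂ)) ht
      push_cast at h8
      have h9 : ((2 : RR) : ℂ) = 2 := rfl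
      push_cast
      rw [h9, ← Complex.conj_conj ((D.dl l : RR) : ℂ), ← hyc, h8, map_mul, h9]
      congr 1
      exact Complex.conj_ofNat 2
  -- the dual directions
  choose y hy using fun j : Fin (r + 1) => l_surj hN (Pi.single j 1)
  have hy0 : ∀ j, y j ≠ 0 := by
    intro j h0
    have h3 := hy j j
    rw [h0, map_zero, Pi.single_eq_same, mul_one] at h3
    exact hN0 (by exact_mod_cast h3.symm)
  refine ⟨Finset.univ.image y, ?_, ?_⟩
  · intro w hw
    obtain ⟨j, _, rfl⟩ := Finset.mem_image.1 hw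
    exact hy0 j
  intro M _ φ hM hC hφπ hS
  have hMN : Odd (M * N) := Nat.odd_mul.2 ⟨hM, hNodd⟩
  have : NeZero (M * N) := ⟨mul_ne_zero (NeZero.ne M) hN0⟩
  have hlim := fun (L : PeriodPair) (Ω : ℂ) (h : HL L Ω) => lim_Lp h hC.per hdl hN hMN
  have hdef := deform (D := D) (l := l) hC.bd hC.per (fun x j hx => Xg_ne (hl j) (hφπ x hx))
    (dv_ne hdl) fun j => ⟨y j, hy0 j, fun i hi => by
      rw [hy, Pi.single_eq_of_ne hi, mul_zero], hS _ (Finset.mem_image_of_mem _ (Finset.mem_univ j))⟩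
  have hLs : ∀ (L : PeriodPair) (Ω : ℂ), HL L Ω → Tendsto (D.Ls φ l) (𝓝[>] 0)
      (𝓝 ((Ω / ((M * N : ℕ) : ℂ)) ^ (r + 1) * Vl Ω (M * N) φ l)) := by
    intro L Ω h
    have := (hlim L Ω h).sub hdef
    rw [sub_zero] at this
    refine this.congr fun ρ => ?_
    ring
  obtain ⟨L0, Ω0, h0⟩ := exists_HL
  refine ⟨_, (hLs L0 Ω0 h0).mul_const (D.dv l), fun L Ω h Γ _ v h2v => ?_⟩
  rw [tendsto_nhds_unique (hLs L0 Ω0 h0) (hLs L Ω h)]
  have e : D.P.det * ((Ω / ((M * N : ℕ) : ℂ)) ^ (r + 1) * Vl Ω (M * N) φ l * D.dv l) =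
      ((D.dl l : RR) : ℂ) * ((Ω / ((M * N : ℕ) : ℂ)) ^ (r + 1) * Vl Ω (M * N) φ l) := by
    rw [← D.dv_mul]
    ring
  rw [e]
  exact ⟨fun hv => (v_det_le v (D.dl l) h2v hMN Ω _ (v 2)).1 (Vl_le h h2v hC hdl hN hMN hv),
    fun hv => (v_det_le v (D.dl l) h2v hMN Ω _ (v 2)).2 h.ne (Vl_lt h h2v hC hdl hN hMN hv)⟩

theorem good_pow [NoZeroSMulDivisors RR A] (hγ : IsCoprime γ 2) (k : ℕ) : ∀ (l : Fin (r + 1) → (A →ₗ[RR] RR)), (∀ j, l j ∈ Xg π) →
    (∃ m, ¬ (2 : RR) ∣ m ∧ D.dl l = 2 ^ k * m) →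
    ∃ S : Finset A, (∀ w ∈ S, w ≠ 0) ∧ Good D π l S := by
  classical
  induction k with
  | zero =>
    rintro l hl ⟨m, hm, hlm⟩
    rw [pow_zero, one_mul] at hlm
    exact good_base l hl (hlm ▸ hm)
  | succ k ih =>
    rintro l hl ⟨m, hm, hlm⟩
    obtain ⟨b, w, hw, hwb, hb⟩ := exists_w (D := D) hγ l hl ⟨2 ^ k * m, by rw [hlm]; ring⟩
    have hdt := dl_tc (D := D) l w b hwb
    have hstep : ∀ i, ∃ S : Finset A, (∀ w ∈ S, w ≠ 0) ∧ Good D π (tc l w i) S := by
      intro i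
      rcases hb i with h0 | h0
      · refine ⟨∅, by simp, good_zero _ ?_⟩
        have h1 := hdt i
        rw [h0, zero_mul, mul_zero] at h1
        exact (mul_eq_zero.1 h1).resolve_left two_ne_zero
      · refine ih (tc l w i) ?_ ⟨(-1) ^ (i : ℕ) * (b i * m), ?_, ?_⟩
        · intro j
          refine Fin.cases ?_ (fun j => ?_) j
          · exact hw
          · exact hl _
        · intro h1
          have h2 : (2 : RR) ∣ b i * m := by
            rcases neg_one_pow_eq_or RR (i : ℕ) with h3 | h3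
            · rwa [h3, one_mul] at h1
            · rw [h3, neg_one_mul] at h1
              exact (dvd_neg).1 h1
          rcases two_prime.dvd_or_dvd h2 with h3 | h3
          · exact h0 h3
          · exact hm h3
        · have h1 := hdt i
          rw [hlm] at h1
          have h2 : (2 : RR) * D.dl (tc l w i) = 2 * (2 ^ k * ((-1) ^ (i : ℕ) * (b i * m))) := by
            rw [h1]
            ring
          exact mul_left_cancel₀ two_ne_zero h2
    choose S hS0 hS using hstep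
    refine ⟨Finset.univ.biUnion S, ?_, ?_⟩
    · intro x hx
      obtain ⟨i, _, hi⟩ := Finset.mem_biUnion.1 hx
      exact hS0 i x hi
    intro M _ φ hM hC hφπ hSm
    choose l0 hl0 hv0 using fun i => hS i M φ hM hC hφπ fun x hx =>
      hSm x (Finset.mem_biUnion.2 ⟨i, Finset.mem_univ i, hx⟩)
    refine ⟨∑ i : Fin (r + 1), (-1) ^ (i : ℕ) * l0 i, ?_, fun L Ω h Γ _ v h2v => ?_⟩
    · refine (tendsto_finsetSum _ fun i _ => (hl0 i).const_mul ((-1 : ℂ) ^ (i : ℕ))).congr' ?_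
      filter_upwards [self_mem_nhdsWithin] with ρ (hρ : 0 < ρ)
      exact (cocycle hC.bd l w (fun j x hx => Xg_ne (hl j) (hφπ x hx))
        (fun x hx => Xg_ne hw (hφπ x hx)) hρ).symm
    · have e : D.P.det * ∑ i : Fin (r + 1), (-1) ^ (i : ℕ) * l0 i =
          ∑ i : Fin (r + 1), (-1) ^ (i : ℕ) * (D.P.det * l0 i) := by
        rw [Finset.mul_sum]
        exact Finset.sum_congr rfl fun i _ => by ring
      have hs : ∀ (i : Fin (r + 1)) (z : ℂ), v ((-1) ^ (i : ℕ) * z) = v z := by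
        intro i z
        rcases neg_one_pow_eq_or ℂ (i : ℕ) with h3 | h3
        · rw [h3, one_mul]
        · rw [h3, neg_one_mul, v.map_neg]
      rw [e]
      refine ⟨fun hv => v.map_sum_le fun i _ => ?_, fun hv => v.map_sum_lt ?_ fun i _ => ?_⟩
      · rw [hs]
        exact (hv0 i L Ω h Γ v h2v).1 hv
      · exact mul_ne_zero ((v.ne_zero_iff).2 two_ne_zero) (pow_ne_zero _ ((v.ne_zero_iff).2 h.ne))
      · rw [hs]
        exact (hv0 i L Ω h Γ v h2v).2 hv

/-- **The limits and their size.** -/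
theorem good_all [NoZeroSMulDivisors RR A] (hγ : IsCoprime γ 2) (l : Fin (r + 1) → (A →ₗ[RR] RR)) (hl : ∀ j, l j ∈ Xg π) :
    ∃ S : Finset A, (∀ w ∈ S, w ≠ 0) ∧ Good D π l S := by
  by_cases h0 : D.dl l = 0
  · exact ⟨∅, by simp, good_zero l h0⟩
  · obtain ⟨m, hm1, hm2⟩ := (FiniteMultiplicity.of_not_isUnit not_unit_two h0).exists_eq_pow_mul_and_not_dvd
    exact good_pow hγ _ l hl ⟨m, hm2, hm1⟩

end GN

end Pool.Agent.K7.H56
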