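import Pool.Agent.K7.H56.Iface
import Pool.Agent.K7.H56.T11

/-!
# Interface of the pieces of `Core`
-/

set_option autoImplicit false

open Complex NumberField IsDedekindDomain
open scoped PeriodPair nonZeroDivisors

namespace Pool.Agent.K7.H56

open Pool.Agent.R430
open Pool.Agent.Y688 (NI HL RR)

/-- two is unramified -/
def Unr2 (N : Type) [Field N] [NumberField N] : Prop :=
  ∀ v : HeightOneSpectrum (𝓞 N), ((2 : ℕ) : 𝓞 N) ∈ v.asIdeal →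
    v.valuation N 2 = WithZero.exp (-1 : ℤ)

/-- the analytic core, for a field of degree `2 d`, `d` prime to three -/
def Core3 : Prop :=
  ∀ (N : Type) [Field N] [NumberField N] (ι : RR →+* 𝓞 N) (d : ℕ),
    Module.finrank ℚ N = 2 * d → ¬ 3 ∣ d → Unr2 N →
    ∀ (n : ℕ) (X : Ideal (𝓞 N) → ℂ), IC n X → Odd n → ∃ f f0 : ℂ → ℂ, VV ι X f ∧ VV ι (X0 n) f0 ∧
      ∀ (L : PeriodPair) (Ω : ℂ), HL L Ω → ∀ (Γ : Type) [LinearOrderedCommGroupWithZero Γ]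
        (v : Valuation ℂ Γ), v 2 < 1 → v (f 1) ≤ v Ω ^ d ∧ v (f 1 - f0 1) < v Ω ^ d

/-- the term of a partial zeta function -/
noncomputable def Fe {N : Type} [Field N] [NumberField N] (ι : RR →+* 𝓞 N) (χ : 𝓞 N → ℂ) (s : ℂ)
    (α : 𝓞 N) : ℂ :=
  χ α * PN ι (Ideal.span {α}) * ((Ideal.absNorm (Ideal.span {α}) : ℕ) : ℂ) ^ (-s)

/-- `f` is a meromorphic continuation of the sum of `Fe ι χ s` over the principal ideals -/
structure PV {N : Type} [Field N] [NumberField N] (ι : RR →+* 𝓞 N) (χ : 𝓞 N → ℂ)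
    (f : ℂ → ℂ) : Prop where
  mero : MeromorphicOn f Set.univ
  an : AnalyticAt ℂ f 1
  sum : ∀ s : ℂ, 3 / 2 < s.re → HasSum (fun I : PI (𝓞 N) => Fe ι χ s (gp I)) (f s)

/-- multiplicativity with values of two power order -/
def Mlt {A : Type} [CommRing A] (M : ℕ) (χ : A → ℂ) : Prop :=
  ∀ l : A, IsCoprime l (M : A) → ∃ x : ℂ, (∃ k : ℕ, x ^ 2 ^ k = 1) ∧ ∀ β, χ (l * β) = x * χ β

/-- the statement for partial zeta functions -/
def PZ : Prop :=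
  ∀ (N : Type) [Field N] [NumberField N] (ι : RR →+* 𝓞 N) (r : ℕ),
    Module.finrank ℚ N = 2 * (r + 1) → ¬ 3 ∣ (r + 1) → Unr2 N →
    ∀ (M : ℕ) (χ χ' : 𝓞 N → ℂ), Chw M χ → Chw M χ' → Mlt M χ → Mlt M χ' →
    ∃ f f' : ℂ → ℂ, PV ι χ f ∧ PV ι χ' f' ∧
      ∀ (L : PeriodPair) (Ω : ℂ), HL L Ω → ∀ (Γ : Type) [LinearOrderedCommGroupWithZero Γ]
        (v : Valuation ℂ Γ), v 2 < 1 → (∀ α, v (χ α) ≤ 1) → (∀ α, v (χ α - χ' α) < 1) →
        v (f 1) ≤ v Ω ^ (r + 1) ∧ v (f 1 - f' 1) < v Ω ^ (r + 1)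

/-- TASK CLS: `theorem core3 : PZ → Core3` (port of R430/B6, B7, AI_int of B8) -/
def CLS : Prop := PZ → Core3

/-- TASK GEO: the lattice data of a number field, the determinant is a unit at two,
the relative norm of a principal ideal -/
def GEO : Prop :=
  ∀ (N : Type) [Field N] [NumberField N] (ι : RR →+* 𝓞 N) (r : ℕ),
    Module.finrank ℚ N = 2 * (r + 1) →
    (∃ D : @GN (𝓞 N) _ ι.toAlgebra r, Unr2 N → ∀ (Γ : Type) [LinearOrderedCommGroupWithZero Γ]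
      (v : Valuation ℂ Γ), v 2 < 1 → v (@GN.P r (𝓞 N) _ ι.toAlgebra D).det = 1) ∧
    (∀ α : 𝓞 N, rN (iE ι) (Ideal.span {α}) =
      Ideal.span {tE (@Algebra.norm RR (𝓞 N) _ _ ι.toAlgebra α)})

/-- TASK UNI: fundamental units, nonvanishing of the regulator -/
def UNI : Prop :=
  ∀ (N : Type) [Field N] [NumberField N] (ι : RR →+* 𝓞 N) (r : ℕ),
    Module.finrank ℚ N = 2 * (r + 1) → ∀ D : @GN (𝓞 N) _ ι.toAlgebra r,
    ∃ ε : Fin r → (𝓞 N)ˣ,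
      Function.Bijective (fun p : NumberField.Units.torsion N × (Fin r → ℤ) =>
        (p.1 : (𝓞 N)ˣ) * ∏ b, ε b ^ p.2 b) ∧
      (Matrix.of (Fin.cons (fun _ => 1)
        (fun b i => Real.log (Complex.normSq (@GN.σ (𝓞 N) _ ι.toAlgebra r D i (ε b : 𝓞 N)))) :
        Fin (r + 1) → Fin (r + 1) → ℝ)).det ≠ 0

/-- TASK SUM: convergence of the sum over the ideals -/
def SUM : Prop :=
  ∀ (N : Type) [Field N] [NumberField N] (t : ℝ), 1 < t →
    Summable (fun I : NI (𝓞 N) => ((Ideal.absNorm I.1 : ℕ) : ℝ) ^ (-t))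

/-- elements with cyclic residue ring -/
structure Cyn {A : Type} [CommRing A] [Algebra RR A] (l : A) : Prop where
  ne : l ≠ 0
  dvd : ∀ a : RR, l ∣ algebraMap RR A a ↔ Algebra.norm RR l ∣ a
  res : ∀ a : A, ∃ r : RR, l ∣ a - algebraMap RR A r

/-- TASK CYN: existence of elements with cyclic residue ring -/
def CYN : Prop :=
  ∀ (N : Type) [Field N] [NumberField N] (ι : RR →+* 𝓞 N) (r : ℕ),
    Module.finrank ℚ N = 2 * (r + 1) → ¬ 3 ∣ (r + 1) → ∀ W : ℕ, Odd W →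
    ∃ l : 𝓞 N, @Cyn (𝓞 N) _ ι.toAlgebra l ∧ ¬ Pr1 (@Algebra.norm RR (𝓞 N) _ _ ι.toAlgebra l) ∧
      IsCoprime (@Algebra.norm RR (𝓞 N) _ _ ι.toAlgebra l) ((2 * (3 * W) : ℕ) : RR)

end Pool.Agent.K7.H56
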