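import Mathlib

/-!
# The determinant forms and the key identity
-/

set_option autoImplicit false

open Complex

namespace Pool.Agent.K7.H56

variable {d : ℕ}

/-- the linear pairing -/
noncomputable def pr (l x : Fin d → ℂ) : ℂ := ∑ i, l i * x i

/-- the logarithms -/
noncomputable def Yf (Λ : Fin d → Fin d → ℝ) (z : Fin d → ℝ) (i : Fin d) : ℝ := ∑ b, z b * Λ b i

/-- the Hermitian form -/
noncomputable def Hf (Λ : Fin d → Fin d → ℝ) (z : Fin d → ℝ) (x : Fin d → ℂ) : ℝ :=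
  ∑ i, Real.exp (Yf Λ z i) * normSq (x i)

/-- the rows -/
noncomputable def rv (Λ : Fin d → Fin d → ℝ) (z : Fin d → ℝ) (x : Fin d → ℂ) :
    (Fin d → ℂ) ⊕ Fin d → Fin d → ℂ
  | Sum.inl l => l
  | Sum.inr b => fun i => ((Λ b i * Real.exp (Yf Λ z i) : ℝ) : ℂ) * (starRingEnd ℂ) (x i)

/-- the denominators -/
noncomputable def dn (x : Fin d → ℂ) : (Fin d → ℂ) ⊕ Fin d → ℂ
  | Sum.inl l => (pr l x)⁻¹
  | Sum.inr _ => 1

@[simp] lemma dn_inl (x l : Fin d → ℂ) : dn x (Sum.inl l) = (pr l x)⁻¹ := rfl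
@[simp] lemma dn_inr (x : Fin d → ℂ) (b : Fin d) : dn x (Sum.inr b) = 1 := rfl

/-- the matrix -/
noncomputable def Mt (Λ : Fin d → Fin d → ℝ) (z : Fin d → ℝ) (x : Fin d → ℂ) {n : ℕ}
    (ρ : Fin n → (Fin d → ℂ) ⊕ Fin d) : Matrix (Fin n) (Fin d) ℂ := Matrix.of fun j => rv Λ z x (ρ j)

/-- the form -/
noncomputable def Df (Λ : Fin d → Fin d → ℝ) (ρ : Fin d → (Fin d → ℂ) ⊕ Fin d) (x : Fin d → ℂ)
    (z : Fin d → ℝ) : ℂ :=
  (∏ j, dn x (ρ j)) * (Real.exp (-(Hf Λ z x)) : ℂ) * (Mt Λ z x ρ).det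

/-- the column of the logarithmic derivatives -/
noncomputable def ac (Λ : Fin d → Fin d → ℝ) (l : Fin d) : (Fin d → ℂ) ⊕ Fin d → ℂ
  | Sum.inl _ => 0
  | Sum.inr b => (Λ b l : ℂ)

@[simp] lemma ac_inl (Λ : Fin d → Fin d → ℝ) (l : Fin d) (v : Fin d → ℂ) :
    ac Λ l (Sum.inl v) = 0 := rfl
@[simp] lemma ac_inr (Λ : Fin d → Fin d → ℝ) (l : Fin d) (b : Fin d) :
    ac Λ l (Sum.inr b) = (Λ b l : ℂ) := rfl

/-- the derivative of the Hermitian form -/
noncomputable def Hd (Λ : Fin d → Fin d → ℝ) (z : Fin d → ℝ) (x : Fin d → ℂ) (b : Fin d) : ℝ :=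
  ∑ i, Λ b i * Real.exp (Yf Λ z i) * normSq (x i)

/-- the derivative of the determinant -/
noncomputable def Md (Λ : Fin d → Fin d → ℝ) (ρ : Fin d → (Fin d → ℂ) ⊕ Fin d) (x : Fin d → ℂ)
    (z : Fin d → ℝ) (b : Fin d) : ℂ :=
  ∑ l, ((Λ b l * Real.exp (Yf Λ z l) : ℝ) : ℂ) * (starRingEnd ℂ) (x l) *
    ((Mt Λ z x ρ).updateCol l (fun j => ac Λ l (ρ j))).det

/-- the derivative of the form -/
noncomputable def Dd (Λ : Fin d → Fin d → ℝ) (ρ : Fin d → (Fin d → ℂ) ⊕ Fin d) (x : Fin d → ℂ)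
    (z : Fin d → ℝ) (b : Fin d) : ℂ :=
  (∏ j, dn x (ρ j)) * (Real.exp (-(Hf Λ z x)) : ℂ) *
    (-(Hd Λ z x b : ℂ) * (Mt Λ z x ρ).det + Md Λ ρ x z b)

lemma Yf_update (Λ : Fin d → Fin d → ℝ) (z : Fin d → ℝ) (b : Fin d) (t : ℝ) (i : Fin d) :
    Yf Λ (Function.update z b t) i = Yf Λ z i + (t - z b) * Λ b i := by
  unfold Yf
  rw [← Finset.add_sum_erase _ _ (Finset.mem_univ b), ← Finset.add_sum_erase _ (fun b => z b * Λ b i)
    (Finset.mem_univ b), Function.update_self]
  have : ∑ x ∈ Finset.univ.erase b, Function.update z b t x * Λ x i =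
      ∑ x ∈ Finset.univ.erase b, z x * Λ x i := by
    refine Finset.sum_congr rfl fun x hx => ?_
    rw [Function.update_of_ne (Finset.ne_of_mem_erase hx)]
  rw [this]
  ring

lemma hasDeriv_Y (Λ : Fin d → Fin d → ℝ) (z : Fin d → ℝ) (b : Fin d) (t : ℝ) (i : Fin d) :
    HasDerivAt (fun t => Real.exp (Yf Λ (Function.update z b t) i))
      (Λ b i * Real.exp (Yf Λ (Function.update z b t) i)) t := by
  have h1 : HasDerivAt (fun t => Yf Λ (Function.update z b t) i) (Λ b i) t := by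
    simp only [Yf_update]
    have h2 := ((hasDerivAt_id t).sub_const (z b)).mul_const (Λ b i)
    have h3 := h2.const_add (Yf Λ z i)
    simpa using h3
  have h4 := h1.exp
  rwa [mul_comm] at h4

lemma hasDeriv_H (Λ : Fin d → Fin d → ℝ) (z : Fin d → ℝ) (x : Fin d → ℂ) (b : Fin d) (t : ℝ) :
    HasDerivAt (fun t => Hf Λ (Function.update z b t) x) (Hd Λ (Function.update z b t) x b) t := by
  unfold Hf Hd
  refine HasDerivAt.fun_sum fun i _ => ?_
  exact (hasDeriv_Y Λ z b t i).mul_const _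

/-- the derivative of a determinant, by columns -/
lemma hasDeriv_det {M : ℝ → Matrix (Fin d) (Fin d) ℂ} {M' : Matrix (Fin d) (Fin d) ℂ} {t : ℝ}
    (h : ∀ j i, HasDerivAt (fun t => M t j i) (M' j i) t) :
    HasDerivAt (fun t => (M t).det) (∑ l, ((M t).updateCol l (fun j => M' j l)).det) t := by
  have h1 : HasDerivAt (fun t => (M t).det)
      (∑ σ : Equiv.Perm (Fin d), ((Equiv.Perm.sign σ : ℤ) : ℂ) *
        ∑ l, (∏ i ∈ Finset.univ.erase l, M t (σ i) i) * M' (σ l) l) t := by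
    simp only [Matrix.det_apply']
    refine HasDerivAt.fun_sum fun σ _ => ?_
    refine HasDerivAt.const_mul _ ?_
    have h2 := HasDerivAt.fun_finsetProd (u := Finset.univ) (f := fun i t => M t (σ i) i)
      (f' := fun i => M' (σ i) i) (x := t) (fun i _ => h (σ i) i)
    simpa [smul_eq_mul] using h2
  convert h1 using 1
  simp only [Matrix.det_apply']
  rw [Finset.sum_comm]
  refine Finset.sum_congr rfl fun σ _ => ?_
  rw [← Finset.mul_sum]
  congr 1
  refine Finset.sum_congr rfl fun l _ => ?_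
  rw [← Finset.prod_erase_mul _ _ (Finset.mem_univ l), Matrix.updateCol_self]
  congr 1
  refine Finset.prod_congr rfl fun i hi => ?_
  rw [Matrix.updateCol_ne (Finset.ne_of_mem_erase hi)]

lemma hasDeriv_det' (Λ : Fin d → Fin d → ℝ) (ρ : Fin d → (Fin d → ℂ) ⊕ Fin d) (x : Fin d → ℂ)
    (z : Fin d → ℝ) (b : Fin d) (t : ℝ) :
    HasDerivAt (fun t => (Mt Λ (Function.update z b t) x ρ).det)
      (Md Λ ρ x (Function.update z b t) b) t := by
  set z' := Function.update z b t with hz'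
  have h := hasDeriv_det (M := fun t => Mt Λ (Function.update z b t) x ρ) (t := t)
    (M' := Matrix.of fun j i => ((Λ b i * Real.exp (Yf Λ z' i) : ℝ) : ℂ) * (starRingEnd ℂ) (x i) *
      ac Λ i (ρ j)) (by
    intro j i
    show HasDerivAt (fun t => rv Λ (Function.update z b t) x (ρ j) i) (_ * ac Λ i (ρ j)) t
    rcases ρ j with l | c
    · simp only [rv, ac, mul_zero]
      exact hasDerivAt_const _ _
    · simp only [rv, ac]
      have h1 := ((hasDeriv_Y Λ z b t i).const_mul (Λ c i)).ofReal_comp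
      have h2 := h1.mul_const ((starRingEnd ℂ) (x i))
      refine h2.congr_deriv ?_
      rw [hz']
      push_cast
      ring)
  convert h using 1
  unfold Md
  refine Finset.sum_congr rfl fun l _ => ?_
  rw [← hz']
  have : (fun j => (Matrix.of fun j i => ((Λ b i * Real.exp (Yf Λ z' i) : ℝ) : ℂ) *
      (starRingEnd ℂ) (x i) * ac Λ i (ρ j)) j l) =
      (((Λ b l * Real.exp (Yf Λ z' l) : ℝ) : ℂ) * (starRingEnd ℂ) (x l)) • fun j => ac Λ l (ρ j) := by
    funext j
    simp [Matrix.of_apply]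
  rw [this, Matrix.det_updateCol_smul]

theorem hasDeriv_D (Λ : Fin d → Fin d → ℝ) (ρ : Fin d → (Fin d → ℂ) ⊕ Fin d) (x : Fin d → ℂ)
    (z : Fin d → ℝ) (b : Fin d) (t : ℝ) :
    HasDerivAt (fun t => Df Λ ρ x (Function.update z b t)) (Dd Λ ρ x (Function.update z b t) b) t := by
  unfold Df Dd
  have h1 : HasDerivAt (fun t => ((Real.exp (-(Hf Λ (Function.update z b t) x)) : ℝ) : ℂ))
      ((Real.exp (-(Hf Λ (Function.update z b t) x)) * -(Hd Λ (Function.update z b t) x b) : ℝ) : ℂ) t :=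
    (hasDeriv_H Λ z x b t).fun_neg.exp.ofReal_comp
  have h2 := hasDeriv_det' Λ ρ x z b t
  have h3 := (h1.const_mul (∏ j, dn x (ρ j))).mul h2
  refine h3.congr_deriv ?_
  push_cast
  ring

/-! ### the key identity -/

/-- Laplace expansion -/
lemma laplace {n : ℕ} (a : Fin (n + 1) → ℂ) (M : Matrix (Fin (n + 1)) (Fin n) ℂ) :
    (Matrix.of fun j => Fin.cons (α := fun _ => ℂ) (a j) (M j) : Matrix (Fin (n + 1)) (Fin (n + 1)) ℂ).det =
      ∑ j : Fin (n + 1), (-1) ^ (j : ℕ) * a j * (M.submatrix j.succAbove id).det := by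
  rw [Matrix.det_succ_column_zero]
  refine Finset.sum_congr rfl fun j _ => ?_
  congr 1

lemma laplace_pr {n : ℕ} (M : Matrix (Fin (n + 1)) (Fin n) ℂ) (x : Fin n → ℂ) :
    ∑ j : Fin (n + 1), (-1) ^ (j : ℕ) * pr (M j) x * (M.submatrix j.succAbove id).det = 0 := by
  rw [← laplace]
  refine Matrix.exists_mulVec_eq_zero_iff.1 ⟨Fin.cons (-1) x, ?_, ?_⟩
  · intro h
    have := congrFun h 0
    rw [Fin.cons_zero] at this
    norm_num at this
  · funext j
    rw [Matrix.mulVec, dotProduct, Fin.sum_univ_succ]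
    simp [pr]

lemma laplace_col {n : ℕ} (M : Matrix (Fin (n + 1)) (Fin n) ℂ) (a : Fin (n + 1) → ℂ) (l : Fin n) :
    ∑ j : Fin (n + 1), (-1) ^ (j : ℕ) * a j *
      ((M.updateCol l a).submatrix j.succAbove id).det = 0 := by
  rw [← laplace]
  refine Matrix.det_zero_of_column_eq (i := 0) (j := l.succ) (Fin.succ_ne_zero l).symm fun j => ?_
  simp

variable (Λ : Fin d → Fin d → ℝ)

/-- sums over the two kinds of rows -/
noncomputable def inrS {n : ℕ} {X : Type*} (ρ : Fin n → X ⊕ Fin d) (f : Fin n → Fin d → ℂ) : ℂ :=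
  ∑ j, Sum.elim (fun _ => 0) (fun b => f j b) (ρ j)

noncomputable def inlS {n : ℕ} {X : Type*} (ρ : Fin n → X ⊕ Fin d) (f : Fin n → ℂ) : ℂ :=
  ∑ j, Sum.elim (fun _ => f j) (fun _ => 0) (ρ j)

/-- **Key identity.** -/
theorem key (ρ : Fin (d + 1) → (Fin d → ℂ) ⊕ Fin d) (x : Fin d → ℂ) (z : Fin d → ℝ)
    (h0 : ∀ j l, ρ j = Sum.inl l → pr l x ≠ 0) :
    inrS ρ (fun j b => (-1) ^ (j : ℕ) * Dd Λ (fun i => ρ (j.succAbove i)) x z b) =
      inlS ρ (fun j => (-1) ^ (j : ℕ) * Df Λ (fun i => ρ (j.succAbove i)) x z) := by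
  set M := Mt Λ z x ρ with hM
  set E : ℂ := (Real.exp (-(Hf Λ z x)) : ℂ) with hE
  set P : ℂ := ∏ j, dn x (ρ j) with hP
  have hsub : ∀ j : Fin (d + 1), Mt Λ z x (fun i => ρ (j.succAbove i)) = M.submatrix j.succAbove id := by
    intro j
    rfl
  have hprod : ∀ j : Fin (d + 1), dn x (ρ j) * ∏ i, dn x (ρ (j.succAbove i)) = P := by
    intro j
    rw [hP, Fin.prod_univ_succAbove _ j]
  have hpr : ∀ j b, ρ j = Sum.inr b → pr (M j) x = (Hd Λ z x b : ℂ) := by
    intro j b hj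
    have : M j = rv Λ z x (Sum.inr b) := by rw [← hj]; rfl
    rw [this]
    unfold pr Hd rv
    push_cast
    refine Finset.sum_congr rfl fun i _ => ?_
    rw [mul_assoc, mul_comm ((starRingEnd ℂ) (x i)), Complex.mul_conj]
  -- the first Laplace identity
  have L1 := laplace_pr M x
  -- the second Laplace identity
  have L2 : ∀ l, ∑ j : Fin (d + 1), (-1) ^ (j : ℕ) * ac Λ l (ρ j) *
      ((M.updateCol l (fun j => ac Λ l (ρ j))).submatrix j.succAbove id).det = 0 :=
    fun l => laplace_col M _ l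
  have hcol : ∀ (l : Fin d) (j : Fin (d + 1)),
      (M.updateCol l (fun j => ac Λ l (ρ j))).submatrix j.succAbove id =
      (M.submatrix j.succAbove id).updateCol l (fun i => ac Λ l (ρ (j.succAbove i))) := by
    intro l j
    ext i k
    by_cases hk : k = l
    · subst hk
      simp [Matrix.updateCol_apply]
    · simp [Matrix.updateCol_apply, hk]
  have L3 : ∑ j : Fin (d + 1), (-1) ^ (j : ℕ) * ∑ l, ac Λ l (ρ j) *
      ((Real.exp (Yf Λ z l) : ℝ) : ℂ) * (starRingEnd ℂ) (x l) *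
      ((M.submatrix j.succAbove id).updateCol l (fun i => ac Λ l (ρ (j.succAbove i)))).det = 0 := by
    simp only [Finset.mul_sum]
    rw [Finset.sum_comm]
    refine Finset.sum_eq_zero fun l _ => ?_
    have h1 := congrArg (fun w => (((Real.exp (Yf Λ z l) : ℝ) : ℂ) * (starRingEnd ℂ) (x l)) * w) (L2 l)
    simp only [mul_zero, Finset.mul_sum] at h1
    rw [← h1]
    refine Finset.sum_congr rfl fun j _ => ?_
    rw [hcol]
    ring
  -- the terms
  have T1 : ∀ j : Fin (d + 1), Sum.elim (fun _ => (0 : ℂ)) (fun b => (-1) ^ (j : ℕ) *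
      Dd Λ (fun i => ρ (j.succAbove i)) x z b) (ρ j) =
      P * E * (Sum.elim (fun _ => (0 : ℂ)) (fun b => -((-1) ^ (j : ℕ) * pr (M j) x *
        (M.submatrix j.succAbove id).det)) (ρ j)) +
      P * E * ((-1) ^ (j : ℕ) * ∑ l, ac Λ l (ρ j) *
      ((Real.exp (Yf Λ z l) : ℝ) : ℂ) * (starRingEnd ℂ) (x l) *
      ((M.submatrix j.succAbove id).updateCol l (fun i => ac Λ l (ρ (j.succAbove i)))).det) := by
    intro j
    rcases hj : ρ j with l | b
    · simp
    · simp only [Sum.elim_inr]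
      have h1 := hprod j
      rw [hj] at h1
      simp only [dn_inr, one_mul] at h1
      unfold Dd Md
      rw [h1, hsub, hpr j b hj]
      simp only [ac_inr]
      have h2 : ∑ l, (Λ b l : ℂ) * ((Real.exp (Yf Λ z l) : ℝ) : ℂ) * (starRingEnd ℂ) (x l) *
          ((M.submatrix j.succAbove id).updateCol l (fun i => ac Λ l (ρ (j.succAbove i)))).det =
          ∑ l, ((Λ b l * Real.exp (Yf Λ z l) : ℝ) : ℂ) * (starRingEnd ℂ) (x l) *
          ((M.submatrix j.succAbove id).updateCol l (fun i => ac Λ l (ρ (j.succAbove i)))).det := by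
        refine Finset.sum_congr rfl fun l _ => ?_
        push_cast
        ring
      rw [← h2]
      ring
  have T2 : ∀ j : Fin (d + 1), Sum.elim (fun _ => (-1) ^ (j : ℕ) *
      Df Λ (fun i => ρ (j.succAbove i)) x z) (fun _ => (0 : ℂ)) (ρ j) =
      P * E * ((-1) ^ (j : ℕ) * pr (M j) x * (M.submatrix j.succAbove id).det) +
      P * E * (Sum.elim (fun _ => (0 : ℂ)) (fun b => -((-1) ^ (j : ℕ) * pr (M j) x *
        (M.submatrix j.succAbove id).det)) (ρ j)) := by
    intro j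
    rcases hj : ρ j with l | b
    · simp only [Sum.elim_inl, mul_zero, add_zero]
      have h1 := hprod j
      rw [hj] at h1
      simp only [dn_inl] at h1
      have h2 : pr (M j) x = pr l x := by
        have : M j = rv Λ z x (Sum.inl l) := by rw [← hj]; rfl
        rw [this]
        rfl
      have h3 := h0 j l hj
      have h4 : ∏ i, dn x (ρ (j.succAbove i)) = P * pr l x := by
        rw [← h1]
        field_simp
      unfold Df
      rw [h4, hsub, h2]
      ring
    · simp only [Sum.elim_inr]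
      ring
  unfold inrS inlS
  rw [Finset.sum_congr rfl fun j _ => T1 j, Finset.sum_congr rfl fun j _ => T2 j,
    Finset.sum_add_distrib, Finset.sum_add_distrib, ← Finset.mul_sum, ← Finset.mul_sum,
    ← Finset.mul_sum, L1, L3]
  ring

/-! ### symmetries -/

lemma Df_perm (ρ : Fin d → (Fin d → ℂ) ⊕ Fin d) (σ : Equiv.Perm (Fin d)) (x : Fin d → ℂ)
    (z : Fin d → ℝ) : Df Λ (fun i => ρ (σ i)) x z = ((Equiv.Perm.sign σ : ℤ) : ℂ) * Df Λ ρ x z := by
  unfold Df
  have h1 : ∏ j, dn x (ρ (σ j)) = ∏ j, dn x (ρ j) := Equiv.prod_comp σ (fun j => dn x (ρ j))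
  have h2 : Mt Λ z x (fun i => ρ (σ i)) = (Mt Λ z x ρ).submatrix σ id := rfl
  rw [h1, h2, Matrix.det_permute]
  ring

/-- the action of a unit on the rows -/
noncomputable def ua (u : Fin d → ℂ) : (Fin d → ℂ) ⊕ Fin d → (Fin d → ℂ) ⊕ Fin d
  | Sum.inl l => Sum.inl (fun i => l i / u i)
  | Sum.inr b => Sum.inr b

lemma Yf_add (z : Fin d → ℝ) (b : Fin d) (i : Fin d) :
    Yf Λ (fun c => z c + if c = b then 1 else 0) i = Yf Λ z i + Λ b i := by
  unfold Yf
  simp only [add_mul, Finset.sum_add_distrib, ite_mul, one_mul, zero_mul]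
  rw [Finset.sum_ite_eq' Finset.univ b (fun c => Λ c i)]
  simp

/-- translation by a unit -/
theorem Df_trans (ρ : Fin d → (Fin d → ℂ) ⊕ Fin d) (x : Fin d → ℂ) (z : Fin d → ℝ) (b : Fin d)
    (u : Fin d → ℂ) (hu : ∀ i, u i ≠ 0) (hΛ : ∀ i, Λ b i = Real.log (normSq (u i))) :
    Df Λ ρ x (fun c => z c + if c = b then 1 else 0) =
      (∏ i, u i) * Df Λ (fun j => ua u (ρ j)) (fun i => u i * x i) z := by
  have hexp : ∀ i, Real.exp (Yf Λ (fun c => z c + if c = b then 1 else 0) i) =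
      Real.exp (Yf Λ z i) * normSq (u i) := by
    intro i
    rw [Yf_add, Real.exp_add, hΛ, Real.exp_log (normSq_pos.2 (hu i))]
  have h1 : Hf Λ (fun c => z c + if c = b then 1 else 0) x = Hf Λ z (fun i => u i * x i) := by
    unfold Hf
    refine Finset.sum_congr rfl fun i _ => ?_
    rw [hexp, normSq_mul]
    ring
  have h2 : ∀ j, dn x (ρ j) = dn (fun i => u i * x i) (ua u (ρ j)) := by
    intro j
    rcases ρ j with l | c
    · simp only [dn, ua, pr]
      congr 1
      refine Finset.sum_congr rfl fun i _ => ?_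
      have := hu i
      field_simp
    · rfl
  have h3 : Mt Λ (fun c => z c + if c = b then 1 else 0) x ρ =
      Matrix.of fun j i => u i * Mt Λ z (fun i => u i * x i) (fun j => ua u (ρ j)) j i := by
    ext j i
    simp only [Mt, Matrix.of_apply]
    rcases ρ j with l | c
    · simp only [rv, ua]
      have := hu i
      field_simp
    · simp only [rv, ua]
      rw [hexp, map_mul]
      push_cast
      rw [Complex.normSq_eq_conj_mul_self]
      ring
  unfold Df
  rw [h1, h3, Matrix.det_mul_row, Finset.prod_congr rfl fun j _ => h2 j]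
  ring

end Pool.Agent.K7.H56
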