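import Pool.Agent.K7.H56.T9
import Pool.Agent.R430.C10

/-!
# The `2`-adic size of the limits
-/

set_option autoImplicit false

open Complex Filter Topology Set MeasureTheory
open scoped PeriodPair

namespace Pool.Agent.K7.H56

open Pool.Agent.Y688 Pool.Agent.W192.HK Pool.Agent.TH936.CM Pool.Agent.R430 H667R3

variable {r : ℕ} {A : Type*} [CommRing A] [Algebra RR A]
variable {Γ : Type*} [LinearOrderedCommGroupWithZero Γ] {v : Valuation ℂ Γ}

namespace GN

variable {D : GN A r} {l : Fin (r + 1) → (A →ₗ[RR] RR)} {M N : ℕ} {φ : A → ℂ}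

lemma Cfu.neg (h : D.Cfu M φ) (x : A) : φ (-x) = (-1) ^ (r + 1) * φ x := by
  have h1 := h.unit (-1) x
  rw [Units.val_neg, Units.val_one, neg_one_mul] at h1
  rw [h1]
  congr 1
  simp only [map_neg, map_one, Finset.prod_const, Finset.card_univ, Fintype.card_fin]

lemma fF_neg (h : D.Cfu M φ) (hdl : D.dl l ≠ 0) (c : Fin (r + 1) → RR) :
    fF φ l (fun j => -c j) = (-1) ^ (r + 1) * fF φ l c := by
  by_cases hc : ∃ x, ∀ j, l j x = c j
  · obtain ⟨x, hx⟩ := hc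
    rw [← show (fun j => l j x) = c from funext hx,
      ← show (fun j => l j (-x)) = fun j => -(l j x) from funext fun j => map_neg _ _,
      fF_eq hdl, fF_eq hdl, h.neg]
  · have hc' : ¬ ∃ x, ∀ j, l j x = -c j := fun ⟨x, hx⟩ => hc ⟨-x, fun j => by
      rw [map_neg, hx, neg_neg]⟩
    rw [fF_zero hc, fF_zero hc', mul_zero]

lemma neg_out_mem (n : ℕ) (q : RM n) : (-q).out - (-(q.out)) ∈ sp (n : RR) := by
  rw [← Ideal.Quotient.mk_eq_mk_iff_sub_mem, map_neg]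
  rw [show (Ideal.Quotient.mk (sp (n : RR)) (-q).out : RM n) = -q from Quotient.out_eq _,
    show (Ideal.Quotient.mk (sp (n : RR)) q.out : RM n) = q from Quotient.out_eq _]

variable {L : PeriodPair} {Ω : ℂ}

lemma Vl_inv (h : HL L Ω) (hC : D.Cfu M φ) (hdl : D.dl l ≠ 0)
    (hN : normSq ((D.dl l : RR) : ℂ) = N) [NeZero (M * N)] (hodd : Odd (M * N))
    (q : Fin (r + 1) → RM (M * N)) :
    fF φ l (fun j => ((-q) j).out) * ∏ j, Ev Ω (M * N) ((-q) j).out =
      fF φ l (fun j => (q j).out) * ∏ j, Ev Ω (M * N) (q j).out := by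
  have h1 : fF φ l (fun j => ((-q) j).out) = (-1) ^ (r + 1) * fF φ l (fun j => (q j).out) := by
    rw [← fF_neg hC hdl]
    exact fF_per hC.per hdl hN _ _ fun j => neg_out_mem _ _
  have h2 : ∀ j, Ev Ω (M * N) ((-q) j).out = -Ev Ω (M * N) (q j).out := by
    intro j
    rw [← Ev_neg h hodd]
    exact Ev_per h.toIsLat (M * N) _ _ (neg_out_mem _ _)
  rw [h1, Finset.prod_congr rfl fun j _ => h2 j]
  have h3 : ∏ j, -Ev Ω (M * N) (q j).out = (-1) ^ (r + 1) * ∏ j, Ev Ω (M * N) (q j).out := by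
    rw [Finset.prod_neg, Finset.card_univ, Fintype.card_fin]
  rw [h3]
  have h4 : (-1 : ℂ) ^ (r + 1) * (-1) ^ (r + 1) = 1 := by
    rw [← mul_pow]
    norm_num
  linear_combination (fF φ l (fun j => (q j).out) * ∏ j, Ev Ω (M * N) (q j).out) * h4

lemma Vl_fix (hC : D.Cfu M φ) (hdl : D.dl l ≠ 0)
    (hN : normSq ((D.dl l : RR) : ℂ) = N) [NeZero (M * N)] (hodd : Odd (M * N))
    (q : Fin (r + 1) → RM (M * N)) (hq : -q = q) :
    fF φ l (fun j => (q j).out) * ∏ j, Ev Ω (M * N) (q j).out = 0 := by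
  have h1 : ∀ j, q j = 0 := fun j => mem_of_neg hodd (congrFun hq j)
  have h2 : fF φ l (fun j => (q j).out) = 0 := by
    have h3 : fF φ l (fun j => (q j).out) = fF φ l (fun j => l j 0) := by
      refine fF_per hC.per hdl hN _ _ fun j => ?_
      rw [h1 j, map_zero, sub_zero]
      obtain ⟨t, ht⟩ := out0 (M * N)
      rw [ht]
      exact Ideal.mem_span_singleton'.2 ⟨t, mul_comm _ _⟩
    rw [h3, fF_eq hdl, hC.zero]
  rw [h2, zero_mul]

lemma v_fF_le (hv : ∀ x, v (φ x) ≤ 1) (c : Fin (r + 1) → RR) : v (fF φ l c) ≤ 1 := by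
  unfold fF
  split_ifs
  · exact hv _
  · rw [map_zero]; exact zero_le_one

lemma v_fF_lt (hv : ∀ x, v (φ x) < 1) (c : Fin (r + 1) → RR) : v (fF φ l c) < 1 := by
  unfold fF
  split_ifs
  · exact hv _
  · rw [map_zero]; exact zero_lt_one

lemma v_prod_Ev (h : HL L Ω) (h2 : v 2 < 1) {n : ℕ} [NeZero n] (hn : Odd n)
    (q : Fin (r + 1) → RM n) : v (∏ j, Ev Ω n (q j).out) ≤ 1 := by
  rw [map_prod]
  exact Finset.prod_le_one' fun j _ => Ev_val h h2 hn _

theorem Vl_le (h : HL L Ω) (h2 : v 2 < 1) (hC : D.Cfu M φ) (hdl : D.dl l ≠ 0)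
    (hN : normSq ((D.dl l : RR) : ℂ) = N) [NeZero (M * N)] (hodd : Odd (M * N))
    (hv : ∀ x, v (φ x) ≤ 1) : v (Vl Ω (M * N) φ l) ≤ v 2 := by
  unfold Vl
  refine v_invol_le (fun q => -q) (fun q => neg_neg q) _ (fun q => Vl_inv h hC hdl hN hodd q)
    (fun q hq => Vl_fix hC hdl hN hodd q hq) fun q => ?_
  rw [map_mul]
  exact mul_le_one' (v_fF_le hv _) (v_prod_Ev h h2 hodd q)

theorem Vl_lt (h : HL L Ω) (h2 : v 2 < 1) (hC : D.Cfu M φ) (hdl : D.dl l ≠ 0)
    (hN : normSq ((D.dl l : RR) : ℂ) = N) [NeZero (M * N)] (hodd : Odd (M * N))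
    (hv : ∀ x, v (φ x) < 1) : v (Vl Ω (M * N) φ l) < v 2 := by
  unfold Vl
  refine v_invol (fun q => -q) (fun q => neg_neg q) _ (fun q => Vl_inv h hC hdl hN hodd q)
    (fun q hq => Vl_fix hC hdl hN hodd q hq) ((v.ne_zero_iff).2 two_ne_zero) fun q => ?_
  rw [map_mul]
  exact mul_lt_one_of_lt_of_le (v_fF_lt hv _) (v_prod_Ev h h2 hodd q)

end GN

end Pool.Agent.K7.H56
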