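import Pool.Agent.K7.H56.T7

/-!
# The integral over the strip: convergence and holomorphy
-/

set_option autoImplicit false

open Complex Filter Topology Set MeasureTheory

namespace Pool.Agent.K7.H56

open Pool.Agent.Y688 Pool.Agent.W192.HK Pool.Agent.TH936.CM

open Equiv (Perm)

variable {r : ℕ} {A : Type*} [CommRing A] [Algebra RR A]

/-- the strip -/
def Bx (r : ℕ) : Set (Fin (r + 1) → ℝ) := {z | ∀ b : Fin r, z b.succ ∈ Icc (0 : ℝ) 1}

lemma Bx_closed : IsClosed (Bx r) := by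
  have h : Bx r = ⋂ b : Fin r, (fun z : Fin (r + 1) → ℝ => z b.succ) ⁻¹' Icc 0 1 := by
    ext z
    simp [Bx]
  rw [h]
  exact isClosed_iInter fun b => isClosed_Icc.preimage (continuous_apply _)

lemma Bx_meas : MeasurableSet (Bx r) := Bx_closed.measurableSet

lemma Bx_union : ⋃ T : ℝ, Icc (lo (r := r) T) (hi T) = Bx r := by
  ext z
  simp only [Set.mem_iUnion]
  constructor
  · rintro ⟨T, h1, h2⟩ b
    have h3 := h1 b.succ
    have h4 := h2 b.succ
    rw [lo_succ] at h3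
    rw [hi_succ] at h4
    exact ⟨h3, h4⟩
  · intro hz
    refine ⟨|z 0|, fun c => ?_, fun c => ?_⟩
    · refine Fin.cases ?_ (fun c => ?_) c
      · rw [lo_zero]
        exact neg_abs_le _
      · rw [lo_succ]
        exact (hz c).1
    · refine Fin.cases ?_ (fun c => ?_) c
      · rw [hi_zero]
        exact le_abs_self _
      · rw [hi_succ]
        exact (hz c).2

lemma box_mono : Monotone fun T : ℝ => Icc (lo (r := r) T) (hi T) := by
  intro T T' h
  refine Icc_subset_Icc (fun c => ?_) fun c => ?_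
  · refine Fin.cases ?_ (fun c => ?_) c
    · rw [lo_zero, lo_zero]
      linarith
    · rw [lo_succ, lo_succ]
  · refine Fin.cases ?_ (fun c => ?_) c
    · rw [hi_zero, hi_zero]
      exact h
    · rw [hi_succ, hi_succ]

/-- functions of the time are integrable on the strip -/
lemma strip_int {g : ℝ → ℝ} (hg : Integrable g) : IntegrableOn (fun z : Fin (r + 1) → ℝ => g (z 0))
    (Bx r) := by
  have h0 : Integrable (Set.indicator (Icc (0 : Fin r → ℝ) 1) (fun _ => (1 : ℝ))) := by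
    rw [integrable_indicator_iff measurableSet_Icc]
    exact integrableOn_const (isCompact_Icc.measure_lt_top.ne)
  have h1 : Integrable (fun p : ℝ × (Fin r → ℝ) => g p.1 *
      (Set.indicator (Icc (0 : Fin r → ℝ) 1) (fun _ => (1 : ℝ)) p.2)) (volume.prod volume) :=
    hg.mul_prod h0
  have h2 := ((volume_preserving_piFinSuccAbove (fun _ : Fin (r + 1) => ℝ) 0).integrable_comp_emb
    (MeasurableEquiv.measurableEmbedding _)).2 h1
  rw [← integrable_indicator_iff Bx_meas]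
  refine h2.congr (Eventually.of_forall fun z => ?_)
  show g (z 0) * Set.indicator (Icc (0 : Fin r → ℝ) 1) (fun _ => (1 : ℝ))
    (fun j => z ((0 : Fin (r + 1)).succAbove j)) = Set.indicator (Bx r) (fun z => g (z 0)) z
  simp only [Fin.zero_succAbove]
  by_cases hz : z ∈ Bx r
  · rw [Set.indicator_of_mem hz, Set.indicator_of_mem, mul_one]
    exact ⟨fun j => (hz j).1, fun j => (hz j).2⟩
  · rw [Set.indicator_of_notMem hz, Set.indicator_of_notMem, mul_zero]
    rintro ⟨h3, h4⟩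
    exact hz fun j => ⟨h3 j, h4 j⟩

/-- superexponential decay is integrable -/
lemma sup_int (R : ℝ) {c : ℝ} (hc : 0 < c) :
    Integrable fun t : ℝ => Real.exp (R * |t|) * Real.exp (-(c * Real.exp |t|)) := by
  have h1 := (integrable_exp_neg_mul_sq (by positivity : 0 < c / 4)).const_mul
    (Real.exp (R ^ 2 / c))
  refine h1.mono' ?_ (Eventually.of_forall fun t => ?_)
  · exact Continuous.aestronglyMeasurable (by fun_prop)
  · rw [Real.norm_eq_abs, ← Real.exp_add, Real.abs_exp, ← Real.exp_add]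
    refine Real.exp_le_exp.2 ?_
    have h2 : 1 + |t| + |t| ^ 2 / 2 ≤ Real.exp |t| := Real.quadratic_le_exp_of_nonneg (abs_nonneg t)
    have h3 : c * (|t| ^ 2 / 2) ≤ c * Real.exp |t| := by
      refine mul_le_mul_of_nonneg_left ?_ hc.le
      have := abs_nonneg t
      linarith
    have h4 : R * |t| ≤ R ^ 2 / c + c / 4 * |t| ^ 2 := by
      have h5 : 0 ≤ (R / Real.sqrt c - Real.sqrt c / 2 * |t|) ^ 2 := sq_nonneg _
      have h6 : Real.sqrt c ^ 2 = c := Real.sq_sqrt hc.le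
      have h7 : Real.sqrt c ≠ 0 := (Real.sqrt_pos.2 hc).ne'
      have h8 : (R / Real.sqrt c - Real.sqrt c / 2 * |t|) ^ 2 =
          R ^ 2 / c - R * |t| + c / 4 * |t| ^ 2 := by
        rw [sub_sq, div_pow, mul_pow, div_pow, h6]
        field_simp
        ring
      linarith
    rw [← sq_abs t]
    linarith

namespace GN

variable {D : GN A r} {M : ℕ} {φ : A → ℂ} (Λ : Fin (r + 1) → Fin (r + 1) → ℝ)

/-- decay for large times -/
lemma Om_pos' (h : D.Cfu M φ) (hΛ0 : ∀ i, Λ 0 i = 1) (ρ : Fin (r + 1) → Vx φ ⊕ Fin (r + 1)) :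
    ∃ C c : ℝ, 0 ≤ C ∧ 0 < c ∧ ∀ T ≥ 0, ∀ z : Fin (r + 1) → ℝ,
      (∀ b : Fin r, z b.succ ∈ Icc (0 : ℝ) 1) →
      ‖D.Om Λ φ ρ (Function.update z 0 T)‖ ≤ C * Real.exp (-(c * Real.exp T)) := by
  obtain ⟨K, hK, hφ⟩ := h.bd
  have h2 := LB_one Λ
  have h1 := rB_one (D.rw' ρ)
  obtain ⟨C, c, hC, hc, hd⟩ := D.decay (r + 1) (Real.exp_pos (-(LB Λ)))
  set E : ℝ := rB (D.rw' ρ) + LB Λ * Real.exp (LB Λ) with hE
  have hE0 : 0 < E := by positivity
  refine ⟨K * (r + 1).factorial * C * E ^ (r + 1) *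
    ((r + 1).factorial * (1 / (c / 2)) ^ (r + 1) * Real.exp (c / 2)), c / 2, by positivity,
    by positivity, fun T hT z hz => ?_⟩
  have h3 := hd (Real.exp T) (Real.one_le_exp hT) (D.tm Λ φ ρ (Function.update z 0 T))
    (K * ((r + 1).factorial * (E * (1 + Real.exp T)) ^ (r + 1))) (by positivity)
    (tm_zero Λ h ρ _) (fun x => tm_env (D := D) Λ hK hφ ρ (by positivity)
      (Yf_box Λ hΛ0 hz T) x)
  refine h3.trans ?_
  have h4 := pow_exp_le (r + 1) (by positivity : 0 < c / 2) (by positivity : 0 ≤ 1 + Real.exp T)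
  calc K * ((r + 1).factorial * (E * (1 + Real.exp T)) ^ (r + 1)) * C * Real.exp (-(c * Real.exp T)) =
      (K * (r + 1).factorial * C * E ^ (r + 1) * Real.exp (-(c * Real.exp T))) *
        (1 + Real.exp T) ^ (r + 1) := by rw [mul_pow]; ring
    _ ≤ (K * (r + 1).factorial * C * E ^ (r + 1) * Real.exp (-(c * Real.exp T))) *
        ((r + 1).factorial * (1 / (c / 2)) ^ (r + 1) * Real.exp (c / 2 * (1 + Real.exp T))) :=
        mul_le_mul_of_nonneg_left h4 (by positivity)
    _ = K * (r + 1).factorial * C * E ^ (r + 1) *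
        ((r + 1).factorial * (1 / (c / 2)) ^ (r + 1)) *
        (Real.exp (-(c * Real.exp T)) * Real.exp (c / 2 * (1 + Real.exp T))) := by ring
    _ = K * (r + 1).factorial * C * E ^ (r + 1) *
        ((r + 1).factorial * (1 / (c / 2)) ^ (r + 1)) *
        (Real.exp (c / 2) * Real.exp (-(c / 2 * Real.exp T))) := by
        rw [← Real.exp_add, ← Real.exp_add]
        congr 2
        ring
    _ = _ := by ring

lemma std_ne {X : Type*} {j : Fin (r + 1)} {l : X} : (std j : X ⊕ Fin (r + 1)) ≠ Sum.inl l := by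
  unfold std
  split_ifs <;> simp

/-- decay on the strip -/
lemma Om_strip [NoZeroSMulDivisors RR A] [NeZero M] (h : D.Cfu M φ) (hΛ0 : ∀ i, Λ 0 i = 1)
    {w : A} (hw0 : w ≠ 0) (hmz : Mzv M φ w) :
    ∃ C c : ℝ, 0 ≤ C ∧ 0 < c ∧ ∀ z ∈ Bx r,
      ‖D.Om Λ φ std z‖ ≤ C * Real.exp (-(c * Real.exp |z 0|)) := by
  obtain ⟨C1, c1, hC1, hc1, h1⟩ := Om_pos' (D := D) Λ h hΛ0 std
  obtain ⟨C2, c2, hc2, h2⟩ := Om_neg (D := D) Λ h hΛ0 std hw0
    (fun j l hj => absurd hj std_ne) hmz
  refine ⟨max C1 C2, min c1 c2, le_max_of_le_left hC1, lt_min hc1 hc2, fun z hz => ?_⟩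
  have hup : ∀ t : ℝ, z 0 = t → Function.update z 0 t = z := by
    intro t ht
    rw [← ht, Function.update_eq_self]
  rcases le_or_gt 0 (z 0) with h0 | h0
  · have h3 := h1 (z 0) h0 z hz
    rw [hup _ rfl] at h3
    rw [abs_of_nonneg h0]
    refine h3.trans (mul_le_mul (le_max_left _ _) (Real.exp_le_exp.2 (neg_le_neg ?_))
      (Real.exp_pos _).le (le_max_of_le_left hC1))
    exact mul_le_mul_of_nonneg_right (min_le_left _ _) (Real.exp_pos _).le
  · have h3 := h2 (-(z 0)) (by linarith) z hz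
    rw [hup _ (by ring)] at h3
    rw [abs_of_neg h0]
    have h4 : C2 * Real.exp (-(c2 * Real.exp (-z 0))) ≤
        max C1 C2 * Real.exp (-(c2 * Real.exp (-z 0))) :=
      mul_le_mul_of_nonneg_right (le_max_right _ _) (Real.exp_pos _).le
    refine h3.trans (h4.trans ?_)
    refine mul_le_mul_of_nonneg_left (Real.exp_le_exp.2 (neg_le_neg ?_)) (le_max_of_le_left hC1)
    exact mul_le_mul_of_nonneg_right (min_le_right _ _) (Real.exp_pos _).le

/-- the integral -/
noncomputable def LI (D : GN A r) (φ : A → ℂ) (s : ℂ) : ℂ :=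
  ∫ z in Bx r, cexp (((r + 1 : ℕ) : ℂ) * (s - 1) * (z 0 : ℝ)) * D.Om Λ φ std z

lemma LI_diff [NoZeroSMulDivisors RR A] [NeZero M] (h : D.Cfu M φ) (hΛ0 : ∀ i, Λ 0 i = 1)
    {w : A} (hw0 : w ≠ 0) (hmz : Mzv M φ w) : Differentiable ℂ (D.LI Λ φ) := by
  obtain ⟨C, c, hC, hc, hb⟩ := Om_strip Λ h hΛ0 hw0 hmz
  intro s0
  set R : ℝ := (r + 1 : ℕ) * (‖s0 - 1‖ + 1) with hR
  have hexp : ∀ s ∈ Metric.ball s0 1, ∀ z : Fin (r + 1) → ℝ,
      ‖cexp (((r + 1 : ℕ) : ℂ) * (s - 1) * (z 0 : ℝ))‖ ≤ Real.exp (R * |z 0|) := by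
    intro s hs z
    rw [Complex.norm_exp]
    refine Real.exp_le_exp.2 ((Complex.re_le_norm _).trans ?_)
    rw [norm_mul, norm_mul, Complex.norm_real, Real.norm_eq_abs, Complex.norm_natCast]
    refine mul_le_mul_of_nonneg_right (mul_le_mul_of_nonneg_left ?_ (by positivity)) (abs_nonneg _)
    have h1 : s - 1 = (s - s0) + (s0 - 1) := by ring
    rw [h1]
    have h2 := norm_add_le (s - s0) (s0 - 1)
    have h3 : ‖s - s0‖ < 1 := by rwa [Metric.mem_ball, dist_eq_norm] at hs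
    linarith
  have hcont : ∀ s : ℂ, Continuous fun z : Fin (r + 1) → ℝ =>
      cexp (((r + 1 : ℕ) : ℂ) * (s - 1) * (z 0 : ℝ)) * D.Om Λ φ std z := by
    intro s
    have := cont_Om (D := D) Λ h.bd (std : Fin (r + 1) → Vx φ ⊕ Fin (r + 1))
    fun_prop
  have hmain := hasDerivAt_integral_of_dominated_loc_of_deriv_le (μ := volume.restrict (Bx r))
    (F := fun s z => cexp (((r + 1 : ℕ) : ℂ) * (s - 1) * (z 0 : ℝ)) * D.Om Λ φ std z)
    (F' := fun s z => (((r + 1 : ℕ) : ℂ) * (z 0 : ℝ)) *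
      (cexp (((r + 1 : ℕ) : ℂ) * (s - 1) * (z 0 : ℝ)) * D.Om Λ φ std z))
    (bound := fun z => (r + 1 : ℕ) * C * (Real.exp ((R + 1) * |z 0|) *
      Real.exp (-(c * Real.exp |z 0|)))) (x₀ := s0) (Metric.ball_mem_nhds s0 one_pos)
    (Eventually.of_forall fun s => (hcont s).aestronglyMeasurable) ?_ ?_ ?_ ?_ ?_
  · exact hmain.2.differentiableAt
  · refine Integrable.mono' ((strip_int (sup_int R hc)).const_mul C)
      (hcont s0).aestronglyMeasurable ?_
    refine (ae_restrict_iff' Bx_meas).2 (Eventually.of_forall fun z hz => ?_)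
    rw [norm_mul]
    calc _ ≤ Real.exp (R * |z 0|) * (C * Real.exp (-(c * Real.exp |z 0|))) :=
          mul_le_mul (hexp s0 (Metric.mem_ball_self one_pos) z) (hb z hz) (norm_nonneg _)
            (Real.exp_pos _).le
      _ = _ := by ring
  · have := hcont s0
    exact Continuous.aestronglyMeasurable (by fun_prop)
  · refine (ae_restrict_iff' Bx_meas).2 (Eventually.of_forall fun z hz s hs => ?_)
    rw [norm_mul, norm_mul, norm_mul, Complex.norm_real, Real.norm_eq_abs, Complex.norm_natCast]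
    have h1 : |z 0| ≤ Real.exp |z 0| := (Real.add_one_le_exp |z 0|).trans' (by linarith)
    calc (r + 1 : ℕ) * |z 0| * (‖cexp (((r + 1 : ℕ) : ℂ) * (s - 1) * (z 0 : ℝ))‖ *
          ‖D.Om Λ φ std z‖) ≤ (r + 1 : ℕ) * Real.exp |z 0| * (Real.exp (R * |z 0|) *
          (C * Real.exp (-(c * Real.exp |z 0|)))) :=
          mul_le_mul (mul_le_mul_of_nonneg_left h1 (by positivity))
            (mul_le_mul (hexp s hs z) (hb z hz) (norm_nonneg _) (Real.exp_pos _).le)
            (by positivity) (by positivity)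
      _ = _ := by
          rw [add_mul, one_mul, Real.exp_add]
          ring
  · exact (strip_int (sup_int (R + 1) hc)).const_mul _
  · refine Eventually.of_forall fun z s _ => ?_
    have h1 : HasDerivAt (fun s : ℂ => ((r + 1 : ℕ) : ℂ) * (s - 1) * (z 0 : ℝ))
        (((r + 1 : ℕ) : ℂ) * (z 0 : ℝ)) s := by
      have h2 := ((((hasDerivAt_id s).sub_const 1).const_mul ((r + 1 : ℕ) : ℂ)).mul_const
        ((z 0 : ℝ) : ℂ))
      simpa using h2
    refine (h1.cexp.mul_const (D.Om Λ φ std z)).congr_deriv ?_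
    ring

/-- the value at one -/
lemma LI_one [NoZeroSMulDivisors RR A] [NeZero M] (h : D.Cfu M φ) (hΛ0 : ∀ i, Λ 0 i = 1)
    {w : A} (hw0 : w ≠ 0) (hmz : Mzv M φ w) {l : ℂ}
    (hl : Tendsto (fun T => ∫ z in Icc (lo (r := r) T) (hi T), D.Om Λ φ std z) atTop (𝓝 l)) :
    D.LI Λ φ 1 = l := by
  obtain ⟨C, c, hC, hc, hb⟩ := Om_strip Λ h hΛ0 hw0 hmz
  have hint : IntegrableOn (D.Om Λ φ std) (Bx r) := by
    refine Integrable.mono' ((strip_int (sup_int 0 hc)).const_mul C)
      (cont_Om (D := D) Λ h.bd _).aestronglyMeasurable ?_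
    refine (ae_restrict_iff' Bx_meas).2 (Eventually.of_forall fun z hz => ?_)
    refine (hb z hz).trans (le_of_eq ?_)
    rw [zero_mul, Real.exp_zero, one_mul]
  have h1 := tendsto_setIntegral_of_monotone (f := D.Om Λ φ std) (μ := volume)
    (fun T : ℝ => measurableSet_Icc) (box_mono (r := r)) (by rw [Bx_union]; exact hint)
  rw [Bx_union] at h1
  have h2 := tendsto_nhds_unique h1 hl
  rw [← h2]
  unfold LI
  simp

end GN

end Pool.Agent.K7.H56
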