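import Pool.Agent.K7.H56.T12
import Pool.Agent.R430.B1

/-!
# Integrals of the gamma type
-/

set_option autoImplicit false

open Complex Filter Topology Set MeasureTheory

namespace Pool.Agent.K7.H56

/-- the integrand in one variable -/
noncomputable def g1 (s : ℂ) (a : ℝ) (y : ℝ) : ℂ := cexp (s * y) * (Real.exp (-(a * Real.exp y)) : ℂ)

lemma exp_cpow (y : ℝ) (s : ℂ) : ((Real.exp y : ℝ) : ℂ) ^ s = cexp (s * y) := by
  rw [Complex.cpow_def_of_ne_zero (by rw [Complex.ofReal_ne_zero]; exact (Real.exp_pos y).ne'),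
    ← Complex.ofReal_log (Real.exp_pos y).le, Real.log_exp, mul_comm]

lemma g1_int {s : ℂ} (hs : 0 < s.re) {a : ℝ} (ha : 0 < a) : Integrable (g1 s a) ∧
    ∫ y, g1 s a y = Complex.Gamma s * (a : ℂ) ^ (-s) := by
  set g : ℝ → ℂ := fun t => (t : ℂ) ^ (s - 1) * cexp (-(a * t)) with hg
  have hd : ∀ x ∈ (univ : Set ℝ), HasDerivWithinAt Real.exp (Real.exp x) univ x :=
    fun x _ => (Real.hasDerivAt_exp x).hasDerivWithinAt
  have hi : InjOn Real.exp univ := Real.exp_injective.injOn
  have himg : Real.exp '' univ = Ioi 0 := by rw [image_univ, Real.range_exp]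
  have hpt : ∀ y : ℝ, |Real.exp y| • g (Real.exp y) = g1 s a y := by
    intro y
    rw [abs_of_pos (Real.exp_pos y), hg]
    simp only
    rw [exp_cpow, Complex.real_smul]
    unfold g1
    have h1 : ((Real.exp (-(a * Real.exp y)) : ℝ) : ℂ) = cexp (-(a * (Real.exp y : ℝ))) := by
      rw [Complex.ofReal_exp]
      congr 1
      push_cast
      ring
    have h2 : ((Real.exp y : ℝ) : ℂ) = cexp y := Complex.ofReal_exp y
    rw [h1, ← mul_assoc]
    congr 1
    conv_lhs => rw [h2, ← Complex.exp_add]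
    congr 1
    ring
  have hgi : IntegrableOn g (Ioi 0) := by
    have h1 := integrableOn_rpow_mul_exp_neg_mul_rpow (s := s.re - 1) (p := 1) (b := a)
      (by linarith) one_pos ha
    refine Integrable.mono' h1 ?_ ?_
    · refine ContinuousOn.aestronglyMeasurable ?_ measurableSet_Ioi
      refine ContinuousOn.mul ?_ (by fun_prop)
      intro x hx
      refine (ContinuousAt.cpow ?_ continuousAt_const ?_).continuousWithinAt
      · exact Complex.continuous_ofReal.continuousAt
      · exact Or.inl (by simpa using hx)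
    · refine (ae_restrict_iff' measurableSet_Ioi).2 (Eventually.of_forall fun x (hx : 0 < x) => ?_)
      rw [norm_mul, Complex.norm_cpow_eq_rpow_re_of_pos hx, Complex.norm_exp, Real.rpow_one]
      refine le_of_eq ?_
      congr 1
      congr 1
      rw [Complex.neg_re, ← Complex.ofReal_mul, Complex.ofReal_re]
      ring
  constructor
  · have h1 := (integrableOn_image_iff_integrableOn_abs_deriv_smul MeasurableSet.univ hd hi g).1
      (by rw [himg]; exact hgi)
    rw [integrableOn_univ] at h1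
    exact h1.congr (Eventually.of_forall hpt)
  · have h1 := integral_image_eq_integral_abs_deriv_smul MeasurableSet.univ hd hi g
    rw [himg, setIntegral_univ] at h1
    rw [← integral_congr_ae (Eventually.of_forall hpt), ← h1, hg,
      Complex.integral_cpow_mul_exp_neg_mul_Ioi hs ha, mul_comm]
    congr 1
    rw [one_div, Complex.cpow_neg, ← Complex.inv_cpow]
    rw [Complex.arg_ofReal_of_nonneg ha.le]
    exact Real.pi_pos.ne

variable {d : ℕ}

/-- the integrand in several variables -/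
noncomputable def gs (Λ : Fin d → Fin d → ℝ) (s : ℂ) (a : Fin d → ℝ) (z : Fin d → ℝ) : ℂ :=
  ∏ i, g1 s (a i) (Yf Λ z i)

lemma cont_g1 (s : ℂ) (a : ℝ) : Continuous (g1 s a) := by
  unfold g1
  fun_prop

lemma cont_gs (Λ : Fin d → Fin d → ℝ) (s : ℂ) (a : Fin d → ℝ) : Continuous (gs Λ s a) :=
  continuous_finsetProd _ fun i _ => (cont_g1 s (a i)).comp (cont_Yf Λ i)

theorem gs_int {Λ : Fin d → Fin d → ℝ} (hΛ : (Matrix.of Λ).det ≠ 0) {s : ℂ} (hs : 0 < s.re)
    {a : Fin d → ℝ} (ha : ∀ i, 0 < a i) : Integrable (gs Λ s a) ∧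
    ∫ z, gs Λ s a z = ((|(Matrix.of Λ).det|⁻¹ : ℝ) : ℂ) * ∏ i, (Complex.Gamma s * (a i : ℂ) ^ (-s)) := by
  set F : (Fin d → ℝ) → ℂ := fun y => ∏ i, g1 s (a i) (y i) with hF
  have hFc : Continuous F := continuous_finsetProd _ fun i _ => (cont_g1 s (a i)).comp
    (continuous_apply i)
  have hFi : Integrable F := Integrable.fintype_prod (f := fun i => g1 s (a i)) (μ := fun _ => volume)
    fun i => (g1_int hs (ha i)).1
  have hFv : ∫ y, F y = ∏ i, (Complex.Gamma s * (a i : ℂ) ^ (-s)) := by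
    rw [hF, integral_fintype_prod_volume_eq_prod (fun i => g1 s (a i))]
    exact Finset.prod_congr rfl fun i _ => (g1_int hs (ha i)).2
  set N : Matrix (Fin d) (Fin d) ℝ := (Matrix.of Λ).transpose with hN
  have hNd : N.det = (Matrix.of Λ).det := Matrix.det_transpose _
  have hmap := Real.map_matrix_volume_pi_eq_smul_volume_pi (M := N) (by rw [hNd]; exact hΛ)
  have hcont : Continuous (Matrix.toLin' N) := LinearMap.continuous_of_finiteDimensional _
  have hcomp : ∀ z, F (Matrix.toLin' N z) = gs Λ s a z := by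
    intro z
    rw [hF]
    unfold gs
    refine Finset.prod_congr rfl fun i _ => ?_
    congr 1
    rw [Matrix.toLin'_apply]
    show ∑ b, N i b * z b = Yf Λ z i
    unfold Yf
    exact Finset.sum_congr rfl fun b _ => by rw [hN]; exact mul_comm _ _
  constructor
  · have h1 : Integrable F (Measure.map (Matrix.toLin' N) volume) := by
      rw [hmap]
      exact hFi.smul_measure ENNReal.ofReal_ne_top
    rw [integrable_map_measure hFc.aestronglyMeasurable hcont.measurable.aemeasurable] at h1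
    exact h1.congr (Eventually.of_forall hcomp)
  · have h1 := integral_map (μ := volume) (f := F) hcont.measurable.aemeasurable
      hFc.aestronglyMeasurable
    rw [hmap, integral_smul_measure, ENNReal.toReal_ofReal (abs_nonneg _), hFv] at h1
    rw [← integral_congr_ae (Eventually.of_forall hcomp), ← h1, hNd, Complex.real_smul, abs_inv]

lemma g1_norm (s : ℂ) (a y : ℝ) : (‖g1 s a y‖ : ℂ) = g1 (s.re : ℂ) a y := by
  unfold g1
  rw [norm_mul, Complex.norm_exp, Complex.norm_real, Real.norm_eq_abs, Real.abs_exp]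
  push_cast
  congr 2
  rw [Complex.re_mul_ofReal]
  push_cast
  rfl

lemma gs_norm (Λ : Fin d → Fin d → ℝ) (s : ℂ) (a z : Fin d → ℝ) :
    (‖gs Λ s a z‖ : ℂ) = gs Λ (s.re : ℂ) a z := by
  unfold gs
  rw [norm_prod]
  push_cast
  exact Finset.prod_congr rfl fun i _ => g1_norm s _ _

lemma gs_norm_int {Λ : Fin d → Fin d → ℝ} (hΛ : (Matrix.of Λ).det ≠ 0) {s : ℂ} (hs : 0 < s.re)
    {a : Fin d → ℝ} (ha : ∀ i, 0 < a i) : ∫ z, ‖gs Λ s a z‖ =
      (|(Matrix.of Λ).det|⁻¹ * ‖Complex.Gamma (s.re : ℂ)‖ ^ d) * (∏ i, a i) ^ (-s.re) := by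
  have h1 := (gs_int hΛ (s := (s.re : ℂ)) (by simpa using hs) ha).2
  have h2 : ∫ z, gs Λ (s.re : ℂ) a z = ((∫ z, ‖gs Λ s a z‖ : ℝ) : ℂ) := by
    exact (integral_congr_ae (Eventually.of_forall fun z => (gs_norm Λ s a z).symm)).trans
      integral_ofReal
  rw [h2] at h1
  have h3 : ‖((∫ z, ‖gs Λ s a z‖ : ℝ) : ℂ)‖ = ‖((|(Matrix.of Λ).det|⁻¹ : ℝ) : ℂ) *
      ∏ i, (Complex.Gamma (s.re : ℂ) * (a i : ℂ) ^ (-(s.re : ℂ)))‖ := by rw [h1]
  rw [Complex.norm_real, Real.norm_of_nonneg (integral_nonneg fun _ => norm_nonneg _)] at h3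
  rw [h3, norm_mul, Complex.norm_real, Real.norm_of_nonneg (by positivity), norm_prod,
    ← Real.finsetProd_rpow _ _ (fun i _ => (ha i).le)]
  simp only [norm_mul]
  rw [Finset.prod_mul_distrib, Finset.prod_const, Finset.card_univ, Fintype.card_fin, mul_assoc]
  congr 2
  refine Finset.prod_congr rfl fun i _ => ?_
  rw [Complex.norm_cpow_eq_rpow_re_of_pos (ha i)]
  simp

end Pool.Agent.K7.H56
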