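import Pool.Agent.K7.H56.T13

/-!
# Unfolding over the units
-/

set_option autoImplicit false

open Complex Filter Topology Set MeasureTheory

namespace Pool.Agent.K7.H56

open Pool.Agent.Y688 Pool.Agent.W192.HK Pool.Agent.TH936.CM Pool.Agent.R430

open Equiv (Perm)

variable {r : ℕ} {A : Type*} [CommRing A] [Algebra RR A]

/-! ### the cells -/

/-- the cells -/
def Bm (m : Fin r → ℤ) : Set (Fin (r + 1) → ℝ) :=
  {z | ∀ b : Fin r, z b.succ ∈ Ico (m b : ℝ) (m b + 1)}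

lemma Bm_meas (m : Fin r → ℤ) : MeasurableSet (Bm m) := by
  have h : Bm m = ⋂ b : Fin r, (fun z : Fin (r + 1) → ℝ => z b.succ) ⁻¹' Ico (m b : ℝ) (m b + 1) := by
    ext z
    simp [Bm]
  rw [h]
  exact MeasurableSet.iInter fun b => (measurable_pi_apply _) measurableSet_Ico

lemma Bm_union : ⋃ m : Fin r → ℤ, Bm m = univ := by
  ext z
  simp only [mem_iUnion, mem_univ, iff_true]
  exact ⟨fun b => ⌊z b.succ⌋, fun b => ⟨Int.floor_le _, Int.lt_floor_add_one _⟩⟩

lemma Bm_disj : Pairwise (Function.onFun Disjoint (Bm (r := r))) := by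
  intro m m' hm
  rw [Function.onFun, Set.disjoint_left]
  intro z hz hz'
  apply hm
  funext b
  have h1 := Int.floor_eq_iff.2 (hz b)
  have h2 := Int.floor_eq_iff.2 (hz' b)
  rw [← h1, h2]

/-- the shifts -/
def sh (m : Fin r → ℤ) : Fin (r + 1) → ℝ := Fin.cons 0 fun b => (m b : ℝ)

lemma Bm_pre (m : Fin r → ℤ) : (fun z => z + sh m) ⁻¹' Bm m = Bm 0 := by
  ext z
  simp only [mem_preimage, Bm, mem_ofPred_eq, Pi.add_apply, Pi.zero_apply, Int.cast_zero, zero_add]
  refine forall_congr' fun b => ?_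
  show z b.succ + (m b : ℝ) ∈ _ ↔ _
  rw [mem_Ico, mem_Ico]
  constructor <;> rintro ⟨h1, h2⟩ <;> constructor <;> linarith

lemma Bx_ae : Bx r =ᵐ[volume] Bm (0 : Fin r → ℤ) := by
  refine Filter.EventuallyLE.antisymm (ae_le_set.2 ?_) (Eventually.of_forall fun z hz => ?_)
  · refine measure_mono_null (t := ⋃ b : Fin r, {z : Fin (r + 1) → ℝ | z b.succ = 1}) ?_ ?_
    · rintro z ⟨h1, h2⟩
      rw [mem_iUnion]
      by_contra h3
      push Not at h3
      apply h2
      intro b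
      rw [Pi.zero_apply, Int.cast_zero, zero_add]
      exact ⟨(h1 b).1, lt_of_le_of_ne (h1 b).2 (h3 b)⟩
    · rw [measure_iUnion_null_iff]
      intro b
      exact Measure.pi_hyperplane _ _ _
  · intro b
    have := hz b
    rw [Pi.zero_apply, Int.cast_zero, zero_add] at this
    exact ⟨this.1, this.2.le⟩

lemma fin_prod {𝕜 T β : Type*} [RCLike 𝕜] [Fintype T] {F : β → 𝕜} {S : 𝕜} (h : HasSum F S) :
    HasSum (fun p : T × β => F p.2) ((Fintype.card T : 𝕜) * S) := by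
  have h1 : HasSum (fun _ : T => (1 : 𝕜)) (Fintype.card T : 𝕜) := by
    have := hasSum_fintype (fun _ : T => (1 : 𝕜))
    simpa using this
  have h2 : Summable fun x : T × β => (1 : 𝕜) * F x.2 :=
    summable_mul_of_summable_norm (f := fun _ : T => (1 : 𝕜)) (hasSum_fintype _).summable
      h.summable.norm
  exact (h1.mul h h2).congr_fun fun p => (one_mul _).symm

namespace GN

variable {D : GN A r}

/-- the norm to the Eisenstein integers -/
lemma nn_coe (D : GN A r) (x : A) : ((Algebra.norm RR x : RR) : ℂ) = ∏ i, D.σ i x := by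
  have h1 : D.P * (Algebra.leftMulMatrix D.b x).map RR.subtype =
      Matrix.diagonal (D.sg x) * D.P := by
    ext i j
    rw [Matrix.mul_apply, Matrix.diagonal_mul]
    have h2 := D.sg_eq (x * D.b j) i
    have h3 : D.sg (x * D.b j) i = D.sg x i * D.P i j := map_mul _ _ _
    rw [← h3, h2]
    refine Finset.sum_congr rfl fun k _ => ?_
    rw [Matrix.map_apply, Algebra.leftMulMatrix_eq_repr_mul]
    rfl
  have h2 := congrArg Matrix.det h1
  rw [Matrix.det_mul, Matrix.det_mul, Matrix.det_diagonal, mul_comm] at h2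
  have h3 := mul_right_cancel₀ (show D.P.det ≠ 0 from D.det) h2
  rw [Algebra.norm_eq_matrix_det D.b]
  have h4 : ((Algebra.leftMulMatrix D.b x).map RR.subtype).det =
      (((Algebra.leftMulMatrix D.b x).det : RR) : ℂ) :=
    (RingHom.map_det RR.subtype (Algebra.leftMulMatrix D.b x)).symm
  rw [← h4, h3]
  rfl

lemma nn_unit (D : GN A r) (u : Aˣ) : normSq (∏ i, D.σ i (u : A)) = 1 := by
  rw [← D.nn_coe]
  have h1 := unit_norm1 (Units.map (Algebra.norm RR : A →* RR) u)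
  rw [Complex.normSq_eq_norm_sq]
  have h2 : ‖((Algebra.norm RR (u : A) : RR) : ℂ)‖ = 1 := h1
  rw [h2, one_pow]

lemma prod_normSq (D : GN A r) (u : Aˣ) : ∏ i, normSq (D.σ i (u : A)) = 1 := by
  rw [← map_prod]
  exact D.nn_unit u

lemma sum_log (D : GN A r) (u : Aˣ) : ∑ i, Real.log (normSq (D.σ i (u : A))) = 0 := by
  rw [← Real.log_prod fun i _ => (normSq_pos.2 (σ_unit_ne u i)).ne', prod_normSq, Real.log_one]

/-- the norm of an element -/
noncomputable def Nm (x : A) : ℝ := normSq ((Algebra.norm RR x : RR) : ℂ)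

lemma Nm_eq (D : GN A r) (x : A) : Nm x = ∏ i, normSq (D.σ i x) := by
  unfold Nm
  rw [D.nn_coe, map_prod]

variable {M : ℕ} {φ : A → ℂ} {Λ : Fin (r + 1) → Fin (r + 1) → ℝ} {ε : Fin r → Aˣ}

/-- the sum of the logarithms is the time -/
lemma sum_Yf (hΛ0 : ∀ i, Λ 0 i = 1)
    (hΛ : ∀ (b : Fin r) i, Λ b.succ i = Real.log (normSq (D.σ i (ε b)))) (z : Fin (r + 1) → ℝ) :
    ∑ i, Yf Λ z i = (r + 1 : ℕ) * z 0 := by
  unfold Yf
  rw [Finset.sum_comm, Fin.sum_univ_succ]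
  have h1 : ∑ i : Fin (r + 1), z 0 * Λ 0 i = (r + 1 : ℕ) * z 0 := by
    simp only [hΛ0, mul_one]
    rw [Finset.sum_const, Finset.card_univ, Fintype.card_fin, nsmul_eq_mul]
  have h2 : ∑ b : Fin r, ∑ i, z b.succ * Λ b.succ i = 0 := by
    refine Finset.sum_eq_zero fun b _ => ?_
    rw [← Finset.mul_sum]
    simp only [hΛ]
    rw [sum_log, mul_zero]
  rw [h1, h2, add_zero]

/-- the indices of the standard rows -/
def sidx (j : Fin (r + 1)) : Fin (r + 1) := finRotate (r + 1) j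

lemma std_eq {X : Type*} (j : Fin (r + 1)) : (std j : X ⊕ Fin (r + 1)) = Sum.inr (sidx j) := by
  unfold std sidx
  refine Fin.lastCases ?_ (fun j => ?_) j
  · rw [dif_neg (by simp), finRotate_last]
  · rw [dif_pos (by simp)]
    congr 1
    rw [finRotate_of_lt (by simp)]
    rfl

/-- the constant -/
noncomputable def kap (Λ : Fin (r + 1) → Fin (r + 1) → ℝ) : ℂ :=
  (Matrix.of fun j i => ((Λ (sidx j) i : ℝ) : ℂ)).det

lemma kap_eq (Λ : Fin (r + 1) → Fin (r + 1) → ℝ) :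
    kap Λ = ((Matrix.of Λ).det : ℝ) ∨ kap Λ = -((Matrix.of Λ).det : ℝ) := by
  have h1 : (Matrix.of fun j i => ((Λ (sidx j) i : ℝ) : ℂ)) =
      ((Matrix.of Λ).map Complex.ofRealHom).submatrix (finRotate (r + 1)) id := rfl
  unfold kap
  rw [h1, Matrix.det_permute]
  have h2 : ((Matrix.of Λ).map Complex.ofRealHom).det = (((Matrix.of Λ).det : ℝ) : ℂ) :=
    (RingHom.map_det Complex.ofRealHom (Matrix.of Λ)).symm
  rw [h2]
  rcases Int.units_eq_one_or (Perm.sign (finRotate (r + 1))) with h | h <;> rw [h]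
  · left; simp
  · right; simp

/-- the integrand of an element -/
noncomputable def gsA (D : GN A r) (Λ : Fin (r + 1) → Fin (r + 1) → ℝ) (s : ℂ) (x : A)
    (z : Fin (r + 1) → ℝ) : ℂ := gs Λ s (fun i => normSq (D.σ i x)) z

/-- the summand of the integral -/
lemma tm_std (hΛ0 : ∀ i, Λ 0 i = 1)
    (hΛ : ∀ (b : Fin r) i, Λ b.succ i = Real.log (normSq (D.σ i (ε b)))) (s : ℂ) (x : A)
    (z : Fin (r + 1) → ℝ) :
    cexp (((r + 1 : ℕ) : ℂ) * (s - 1) * (z 0 : ℝ)) * D.tm Λ φ std z x =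
      kap Λ * (φ x * (starRingEnd ℂ) ((Algebra.norm RR x : RR) : ℂ)) * D.gsA Λ s x z := by
  have h1 : ∀ j, D.rw' (std : Fin (r + 1) → Vx φ ⊕ Fin (r + 1)) j = Sum.inr (sidx j) := by
    intro j
    unfold rw'
    rw [std_eq]
    rfl
  have h2 : ∏ j, dn (D.sg x) (D.rw' (std : Fin (r + 1) → Vx φ ⊕ Fin (r + 1)) j) = 1 := by
    refine Finset.prod_eq_one fun j _ => ?_
    rw [h1]
    rfl
  have h3 : Mt Λ z (D.sg x) (D.rw' (std : Fin (r + 1) → Vx φ ⊕ Fin (r + 1))) =
      Matrix.of fun j i => (((Real.exp (Yf Λ z i) : ℝ) : ℂ) * (starRingEnd ℂ) (D.sg x i)) *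
        (Matrix.of fun j i => ((Λ (sidx j) i : ℝ) : ℂ)) j i := by
    ext j i
    show rv Λ z (D.sg x) (D.rw' std j) i = _
    rw [h1]
    show ((Λ (sidx j) i * Real.exp (Yf Λ z i) : ℝ) : ℂ) * (starRingEnd ℂ) (D.sg x i) = _
    rw [Matrix.of_apply, Matrix.of_apply]
    push_cast
    ring
  unfold tm Df
  rw [h2, h3, Matrix.det_mul_row, one_mul, Finset.prod_mul_distrib, D.nn_coe, map_prod]
  have h4 : cexp (((r + 1 : ℕ) : ℂ) * (s - 1) * (z 0 : ℝ)) *
      ∏ i, ((Real.exp (Yf Λ z i) : ℝ) : ℂ) = ∏ i, cexp (s * (Yf Λ z i : ℝ)) := by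
    have h5 := sum_Yf (D := D) hΛ0 hΛ z
    have h6 : ((r + 1 : ℕ) : ℂ) * (z 0 : ℝ) = ∑ i, ((Yf Λ z i : ℝ) : ℂ) := by
      rw [← Complex.ofReal_sum, h5]
      push_cast
      ring
    simp only [Complex.ofReal_exp]
    rw [← Complex.exp_sum, ← Complex.exp_sum, ← Complex.exp_add, ← Finset.mul_sum]
    congr 1
    linear_combination (s - 1) * h6
  have h7 : ((Real.exp (-(Hf Λ z (D.sg x))) : ℝ) : ℂ) =
      ∏ i, ((Real.exp (-(normSq (D.σ i x) * Real.exp (Yf Λ z i))) : ℝ) : ℂ) := by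
    rw [← Complex.ofReal_prod, ← Real.exp_sum]
    congr 2
    unfold Hf
    rw [Finset.sum_neg_distrib]
    congr 1
    exact Finset.sum_congr rfl fun i _ => mul_comm _ _
  unfold gsA gs g1
  rw [Finset.prod_mul_distrib, ← h4, ← h7]
  unfold kap sg
  ring

/-- the action of a unit -/
lemma gsA_shift (hΛ : ∀ (b : Fin r) i, Λ b.succ i = Real.log (normSq (D.σ i (ε b)))) (s : ℂ)
    (m : Fin r → ℤ) {ζ : Aˣ} (hζ : ∀ i, normSq (D.σ i (ζ : A)) = 1) (y : A)
    (z : Fin (r + 1) → ℝ) :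
    D.gsA Λ s (((ζ * ∏ b, ε b ^ m b : Aˣ) : A) * y) z = D.gsA Λ s y (z + sh m) := by
  have h1 : ∀ i, Yf Λ (z + sh m) i = Yf Λ z i + ∑ b : Fin r, (m b : ℝ) * Λ b.succ i := by
    intro i
    unfold Yf
    rw [Fin.sum_univ_succ, Fin.sum_univ_succ (f := fun b => z b * Λ b i), add_assoc,
      ← Finset.sum_add_distrib]
    simp only [Pi.add_apply, sh, Fin.cons_zero, Fin.cons_succ, add_zero]
    congr 1
    exact Finset.sum_congr rfl fun b _ => by ring
  have h2 : ∀ i, normSq (D.σ i (((ζ * ∏ b, ε b ^ m b : Aˣ) : A) * y)) =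
      Real.exp (∑ b : Fin r, (m b : ℝ) * Λ b.succ i) * normSq (D.σ i y) := by
    intro i
    rw [map_mul, Complex.normSq_mul, Units.val_mul, map_mul, Complex.normSq_mul, hζ, one_mul]
    congr 1
    rw [Real.exp_sum]
    have h3 : D.σ i ((∏ b, ε b ^ m b : Aˣ) : A) = ∏ b, (D.σ i (ε b : A)) ^ m b := by
      have h4 := map_prod (Units.map ((D.σ i : A →+* ℂ) : A →* ℂ)) (fun b => ε b ^ m b) Finset.univ
      have h5 := congrArg (fun u : ℂˣ => (u : ℂ)) h4
      simp only [Units.coe_map, MonoidHom.coe_coe, Units.coe_prod, map_zpow, Units.val_zpow_eq_zpow_val]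
        at h5
      rw [Units.coe_prod]
      exact h5
    rw [h3, map_prod]
    refine Finset.prod_congr rfl fun b _ => ?_
    have h6 : 0 < normSq (D.σ i (ε b : A)) := normSq_pos.2 (σ_unit_ne _ _)
    rw [map_zpow₀, hΛ, mul_comm, Real.exp_mul, Real.exp_log h6, Real.rpow_intCast]
  have h8 : ∑ i, ∑ b : Fin r, (m b : ℝ) * Λ b.succ i = 0 := by
    rw [Finset.sum_comm]
    refine Finset.sum_eq_zero fun b _ => ?_
    rw [← Finset.mul_sum]
    simp only [hΛ]
    rw [sum_log, mul_zero]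
  unfold gsA gs g1
  rw [Finset.prod_mul_distrib, Finset.prod_mul_distrib]
  congr 1
  · rw [← Complex.exp_sum, ← Complex.exp_sum]
    congr 1
    simp only [h1]
    push_cast
    rw [← Finset.mul_sum, ← Finset.mul_sum, Finset.sum_add_distrib]
    have h9 : ∑ i, ∑ b : Fin r, ((m b : ℤ) : ℂ) * ((Λ b.succ i : ℝ) : ℂ) = 0 := by
      exact_mod_cast congrArg (fun t : ℝ => (t : ℂ)) h8
    rw [h9, add_zero]
  · refine Finset.prod_congr rfl fun i _ => ?_
    beta_reduce
    rw [h1, h2, Real.exp_add]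
    congr 3
    ring

end GN

end Pool.Agent.K7.H56
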