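import Pool.Agent.K7.H56.T14

/-!
# Unfolding over the units: the Dirichlet series
-/

set_option autoImplicit false

open Complex Filter Topology Set MeasureTheory

namespace Pool.Agent.K7.H56

open Pool.Agent.Y688 Pool.Agent.W192.HK Pool.Agent.TH936.CM Pool.Agent.R430

open Equiv (Perm)

variable {r : ℕ} {A : Type*} [CommRing A] [Algebra RR A]

lemma prod_cpow {ι : Type*} (S : Finset ι) {a : ι → ℝ} (ha : ∀ i, 0 ≤ a i) (w : ℂ) :
    ∏ i ∈ S, ((a i : ℝ) : ℂ) ^ w = ((∏ i ∈ S, a i : ℝ) : ℂ) ^ w := by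
  classical
  induction S using Finset.induction_on with
  | empty => simp
  | insert i S hi ih =>
    rw [Finset.prod_insert hi, Finset.prod_insert hi, ih, Complex.ofReal_mul,
      Complex.mul_cpow_ofReal_nonneg (ha i) (Finset.prod_nonneg fun j _ => ha j)]

lemma cell_int {E : Type*} [NormedAddCommGroup E] [NormedSpace ℝ E] (f : (Fin (r + 1) → ℝ) → E)
    (m : Fin r → ℤ) : ∫ z in Bm 0, f (z + sh m) = ∫ z in Bm m, f z := by
  have h := (measurePreserving_add_right volume (sh m)).setIntegral_preimage_emb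
    (measurableEmbedding_addRight _) f (Bm m)
  rw [Bm_pre] at h
  exact h

lemma cell_sum {E : Type*} [NormedAddCommGroup E] [NormedSpace ℝ E] {f : (Fin (r + 1) → ℝ) → E}
    (hf : Integrable f) : HasSum (fun m : Fin r → ℤ => ∫ z in Bm m, f z) (∫ z, f z) := by
  have h := hasSum_integral_iUnion (f := f) (μ := volume) (Bm_meas (r := r)) Bm_disj
    (by rw [Bm_union]; exact hf.integrableOn)
  rwa [Bm_union, setIntegral_univ] at h

namespace GN

variable {D : GN A r} {M : ℕ} {φ : A → ℂ} {Λ : Fin (r + 1) → Fin (r + 1) → ℝ} {ε : Fin r → Aˣ}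

lemma norm_ne [IsDomain A] (D : GN A r) {x : A} (hx : x ≠ 0) : Algebra.norm RR x ≠ 0 := by
  have := Module.Free.of_basis D.b
  have := Module.Finite.of_basis D.b
  exact Algebra.norm_ne_zero_iff.2 hx

lemma σ_ne [IsDomain A] (D : GN A r) {x : A} (hx : x ≠ 0) (i : Fin (r + 1)) : D.σ i x ≠ 0 := by
  have h1 : ((Algebra.norm RR x : RR) : ℂ) ≠ 0 := by exact_mod_cast D.norm_ne hx
  rw [D.nn_coe] at h1
  exact Finset.prod_ne_zero_iff.1 h1 i (Finset.mem_univ i)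

/-- the coefficient -/
noncomputable def cx (φ : A → ℂ) (x : A) : ℂ := φ x * (starRingEnd ℂ) ((Algebra.norm RR x : RR) : ℂ)

lemma cx_unit (h : D.Cfu M φ) (u : Aˣ) (x : A) : cx φ ((u : A) * x) = cx φ x := by
  unfold cx
  rw [h.unit, map_mul]
  push_cast
  rw [map_mul, ← D.nn_coe]
  have h1 := Complex.mul_conj ((Algebra.norm RR (u : A) : RR) : ℂ)
  rw [D.nn_coe, D.nn_unit u] at h1
  rw [D.nn_coe (u : A)]
  push_cast at h1
  linear_combination (φ x * (starRingEnd ℂ) ((Algebra.norm RR x : RR) : ℂ)) * h1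

lemma tors_norm {T : Subgroup Aˣ} [Finite T] (ζ : T) (i : Fin (r + 1)) :
    normSq (D.σ i ((ζ : Aˣ) : A)) = 1 := by
  have h1 : (ζ : T) ^ Nat.card T = 1 := pow_card_eq_one'
  have h2 : ((ζ : Aˣ) : A) ^ Nat.card T = 1 := by
    have h4 : (ζ : Aˣ) ^ Nat.card T = 1 := by rw [← Subgroup.coe_pow, h1, Subgroup.coe_one]
    rw [← Units.val_pow_eq_pow_val, h4, Units.val_one]
  have h3 : (normSq (D.σ i ((ζ : Aˣ) : A))) ^ Nat.card T = 1 := by
    rw [← map_pow, ← map_pow, h2, map_one, map_one]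
  exact (pow_eq_one_iff_of_nonneg (normSq_nonneg _) Nat.card_pos.ne').1 h3

/-- the equivalence -/
noncomputable def tE [IsDomain A] {T : Subgroup Aˣ}
    (hU : Function.Bijective (fun p : T × (Fin r → ℤ) => (p.1 : Aˣ) * ∏ b, ε b ^ p.2 b)) :
    PI A × (T × (Fin r → ℤ)) ≃ {α : A // α ≠ 0} :=
  ((Equiv.refl _).prodCongr (Equiv.ofBijective _ hU)).trans nzp

lemma tE_val [IsDomain A] {T : Subgroup Aˣ}
    (hU : Function.Bijective (fun p : T × (Fin r → ℤ) => (p.1 : Aˣ) * ∏ b, ε b ^ p.2 b))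
    (I : PI A) (ζ : T) (m : Fin r → ℤ) : ((tE hU (I, (ζ, m)) : {α : A // α ≠ 0}) : A) =
      (((ζ : Aˣ) * ∏ b, ε b ^ m b : Aˣ) : A) * gp I := rfl

/-- the term of the Dirichlet series -/
noncomputable def Dt (φ : A → ℂ) (s : ℂ) (x : A) : ℂ :=
  cx φ x * (Nm x : ℂ) ^ (-s)

theorem unfold_sum [IsDomain A] (h : D.Cfu M φ) (hΛ0 : ∀ i, Λ 0 i = 1)
    (hΛ : ∀ (b : Fin r) i, Λ b.succ i = Real.log (normSq (D.σ i (ε b))))
    (hdet : (Matrix.of Λ).det ≠ 0) {T : Subgroup Aˣ} [Finite T]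
    (hU : Function.Bijective (fun p : T × (Fin r → ℤ) => (p.1 : Aˣ) * ∏ b, ε b ^ p.2 b))
    (hsum : ∀ t : ℝ, 1 < t → Summable (fun I : PI A => Nm (gp I) ^ (-t)))
    {s : ℂ} (hs : 3 / 2 < s.re) :
    HasSum (fun I : PI A => ((Nat.card T : ℂ) * (kap Λ * ((|(Matrix.of Λ).det|⁻¹ : ℝ) : ℂ)) *
      Complex.Gamma s ^ (r + 1)) * Dt φ s (gp I)) (D.LI Λ φ s) := by
  classical
  have hs0 : 0 < s.re := by linarith
  obtain ⟨K, hK, hφ⟩ := h.bd
  have hTf : Fintype T := Fintype.ofFinite T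
  -- countability
  have hcA : Countable A := (D.b.equivFun.toEquiv.injective).countable
  -- positivity
  have hpos : ∀ x : A, x ≠ 0 → ∀ i, 0 < normSq (D.σ i x) := fun x hx i =>
    normSq_pos.2 (D.σ_ne hx i)
  have hgi : ∀ x : A, x ≠ 0 → Integrable (D.gsA Λ s x) := fun x hx =>
    (gs_int hdet hs0 (hpos x hx)).1
  obtain ⟨F, hF⟩ : ∃ F : {x : A // x ≠ 0} → (Fin (r + 1) → ℝ) → ℂ,
    F = fun x z => kap Λ * cx φ x.1 * D.gsA Λ s x.1 z := ⟨_, rfl⟩
  have hFi : ∀ x, Integrable (F x) (volume.restrict (Bm 0)) := by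
    intro x
    rw [hF]
    exact ((hgi x.1 x.2).const_mul _).restrict
  -- the values on the cells
  have hcell : ∀ (I : PI A) (ζ : T) (m : Fin r → ℤ), ∫ z in Bm 0, F (tE hU (I, (ζ, m))) z =
      (kap Λ * cx φ (gp I)) * ∫ z in Bm m, D.gsA Λ s (gp I) z := by
    intro I ζ m
    rw [← cell_int (D.gsA Λ s (gp I)) m, ← integral_const_mul]
    refine integral_congr_ae (Eventually.of_forall fun z => ?_)
    rw [hF]
    simp only
    rw [tE_val, cx_unit h, gsA_shift hΛ s m (fun i => tors_norm ζ i)]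
  have hcelln : ∀ (I : PI A) (ζ : T) (m : Fin r → ℤ), ∫ z in Bm 0, ‖F (tE hU (I, (ζ, m))) z‖ =
      ‖kap Λ * cx φ (gp I)‖ * ∫ z in Bm m, ‖D.gsA Λ s (gp I) z‖ := by
    intro I ζ m
    rw [← cell_int (fun z => ‖D.gsA Λ s (gp I) z‖) m, ← integral_const_mul]
    refine integral_congr_ae (Eventually.of_forall fun z => ?_)
    rw [hF]
    simp only
    rw [tE_val, cx_unit h, gsA_shift hΛ s m (fun i => tors_norm ζ i), norm_mul]
  -- sums over the units
  have hsI : ∀ I : PI A, HasSum (fun p : T × (Fin r → ℤ) => ∫ z in Bm 0, F (tE hU (I, p)) z)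
      ((Fintype.card T : ℂ) * ((kap Λ * cx φ (gp I)) * ∫ z, D.gsA Λ s (gp I) z)) := by
    intro I
    have h1 := fin_prod (T := T) ((cell_sum (hgi _ (gp_ne I))).mul_left (kap Λ * cx φ (gp I)))
    exact h1.congr_fun fun p => hcell I p.1 p.2
  have hsn : ∀ I : PI A, HasSum (fun p : T × (Fin r → ℤ) => ∫ z in Bm 0, ‖F (tE hU (I, p)) z‖)
      ((Fintype.card T : ℝ) * (‖kap Λ * cx φ (gp I)‖ * ∫ z, ‖D.gsA Λ s (gp I) z‖)) := by
    intro I
    have h1 := fin_prod (T := T) ((cell_sum (hgi _ (gp_ne I)).norm).mul_left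
      (‖kap Λ * cx φ (gp I)‖))
    exact h1.congr_fun fun p => hcelln I p.1 p.2
  -- summability
  have hS : Summable fun x : {x : A // x ≠ 0} => ∫ z in Bm 0, ‖F x z‖ := by
    rw [← (tE hU).summable_iff]
    refine (summable_prod_of_nonneg (fun p => integral_nonneg fun _ => norm_nonneg _)).2
      ⟨fun I => (hsn I).summable, ?_⟩
    have h1 := (hsum (s.re - 1 / 2) (by linarith)).mul_left ((Fintype.card T : ℝ) * (‖kap Λ‖ * K *
      (|(Matrix.of Λ).det|⁻¹ * ‖Complex.Gamma (s.re : ℂ)‖ ^ (r + 1))))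
    refine Summable.of_nonneg_of_le (fun I => tsum_nonneg fun _ =>
      integral_nonneg fun _ => norm_nonneg _) (fun I => ?_) h1
    have h2 : ∑' y, ∫ z in Bm 0, ‖F (tE hU (I, y)) z‖ =
      ((Fintype.card T : ℝ) * (‖kap Λ * cx φ (gp I)‖ * ∫ z, ‖D.gsA Λ s (gp I) z‖)) :=
      (hsn I).tsum_eq
    refine (le_of_eq h2).trans ?_
    have h3 : ∫ z, ‖D.gsA Λ s (gp I) z‖ = (|(Matrix.of Λ).det|⁻¹ *
        ‖Complex.Gamma (s.re : ℂ)‖ ^ (r + 1)) * Nm (gp I) ^ (-s.re) := by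
      rw [D.Nm_eq]
      exact gs_norm_int hdet hs0 (hpos _ (gp_ne I))
    have hN0 : 0 < Nm (gp I) := by
      rw [D.Nm_eq]
      exact Finset.prod_pos fun i _ => hpos _ (gp_ne I) i
    have h4 : ‖cx φ (gp I)‖ ≤ K * Nm (gp I) ^ (1 / 2 : ℝ) := by
      unfold cx
      rw [norm_mul, Complex.norm_conj]
      refine mul_le_mul (hφ _) (le_of_eq ?_) (norm_nonneg _) hK
      unfold Nm
      rw [Complex.normSq_eq_norm_sq, ← Real.sqrt_eq_rpow, Real.sqrt_sq (norm_nonneg _)]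
    rw [h3, norm_mul]
    have h5 : Nm (gp I) ^ (-(s.re - 1 / 2)) = Nm (gp I) ^ (1 / 2 : ℝ) * Nm (gp I) ^ (-s.re) := by
      rw [← Real.rpow_add hN0]
      congr 1
      ring
    rw [h5]
    calc (Fintype.card T : ℝ) * (‖kap Λ‖ * ‖cx φ (gp I)‖ * ((|(Matrix.of Λ).det|⁻¹ *
        ‖Complex.Gamma (s.re : ℂ)‖ ^ (r + 1)) * Nm (gp I) ^ (-s.re))) ≤
        (Fintype.card T : ℝ) * (‖kap Λ‖ * (K * Nm (gp I) ^ (1 / 2 : ℝ)) * ((|(Matrix.of Λ).det|⁻¹ *
        ‖Complex.Gamma (s.re : ℂ)‖ ^ (r + 1)) * Nm (gp I) ^ (-s.re))) := by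
          gcongr
      _ = _ := by ring
  have hmain := hasSum_integral_of_summable_integral_norm hFi hS
  -- the integral
  have hLI : ∫ z in Bm 0, ∑' x, F x z = D.LI Λ φ s := by
    unfold LI
    rw [setIntegral_congr_set Bx_ae]
    refine integral_congr_ae (Eventually.of_forall fun z => ?_)
    simp only
    unfold Om
    rw [← tsum_mul_left]
    have h1 : ∀ x : A, cexp (((r + 1 : ℕ) : ℂ) * (s - 1) * (z 0 : ℝ)) * D.tm Λ φ std z x =
        kap Λ * cx φ x * D.gsA Λ s x z := fun x => tm_std hΛ0 hΛ s x z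
    simp only [h1]
    rw [← tsum_subtype_eq_of_support_subset (s := {x : A | x ≠ 0})
      (f := fun x => kap Λ * cx φ x * D.gsA Λ s x z)]
    · rw [hF]
      rfl
    · intro x hx hx0
      refine hx ?_
      simp only
      unfold cx
      rw [hx0, h.zero, zero_mul, mul_zero, zero_mul]
  rw [hLI] at hmain
  have h1 := ((tE hU).hasSum_iff (f := fun x => ∫ z in Bm 0, F x z)).2 hmain
  have h2 := h1.prod_fiberwise hsI
  refine h2.congr_fun fun I => ?_
  have h3 : ∫ z, D.gsA Λ s (gp I) z = ((|(Matrix.of Λ).det|⁻¹ : ℝ) : ℂ) *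
      (Complex.Gamma s ^ (r + 1) * (Nm (gp I) : ℂ) ^ (-s)) := by
    have h4 : ∫ z, D.gsA Λ s (gp I) z = _ := (gs_int hdet hs0 (hpos _ (gp_ne I))).2
    rw [h4, Finset.prod_mul_distrib, Finset.prod_const, Finset.card_univ, Fintype.card_fin, D.Nm_eq]
    congr 2
    exact prod_cpow _ (fun i => normSq_nonneg _) _
  rw [h3, Nat.card_eq_fintype_card]
  unfold Dt
  ring

end GN

end Pool.Agent.K7.H56
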