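import Pool.Agent.K7.H56.T15
import Pool.Agent.K7.H56.Iface2
import Pool.Agent.R430.B2

/-!
# The coefficient functions attached to characters
-/

set_option autoImplicit false
set_option linter.unusedSectionVars false

open Complex Filter Topology Set MeasureTheory
open scoped PeriodPair

namespace Pool.Agent.K7.H56

open Pool.Agent.Y688 Pool.Agent.W192.HK Pool.Agent.TH936.CM Pool.Agent.R430 Pool.Agent.Y688.HF H667R3
open GN (Nm Dt cx Cfu)

variable {r : ℕ} {A : Type} [CommRing A] [Algebra RR A]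

/-- norms and congruences -/
lemma norm_cong (D : GN A r) (M : ℕ) (x γ : A) : ∃ t : RR,
    Algebra.norm RR (x + M * γ) = Algebra.norm RR x + M * t := by
  have h0 : (Ideal.Quotient.mk (sp (M : RR))) (Algebra.norm RR (x + M * γ)) =
      (Ideal.Quotient.mk (sp (M : RR))) (Algebra.norm RR x) := by
    rw [Algebra.norm_eq_matrix_det D.b, Algebra.norm_eq_matrix_det D.b, RingHom.map_det,
      RingHom.map_det]
    congr 1
    rw [map_add, map_mul, map_natCast, map_add, map_mul, map_natCast]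
    have h1 : ((M : ℕ) : RR ⧸ sp (M : RR)) = 0 := by
      rw [← map_natCast (Ideal.Quotient.mk (sp (M : RR))), Ideal.Quotient.eq_zero_iff_mem]
      exact Ideal.mem_span_singleton_self _
    have h2 : ((M : ℕ) : Matrix (Fin (r + 1)) (Fin (r + 1)) (RR ⧸ sp (M : RR))) = 0 := by
      rw [← Matrix.diagonal_natCast, h1]
      exact Matrix.diagonal_zero
    rw [h2, zero_mul, add_zero]
  rw [Ideal.Quotient.eq, Ideal.mem_span_singleton] at h0
  obtain ⟨t, ht⟩ := h0
  exact ⟨t, by linear_combination ht⟩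

lemma norm_zero' (D : GN A r) : Algebra.norm RR (0 : A) = 0 := by
  apply Subtype.ext
  have h1 := D.nn_coe 0
  rw [h1]
  simp

/-- the coefficient function -/
noncomputable def cc (χ : A → ℂ) (x : A) : ℂ := χ x * ups (Algebra.norm RR x)

/-- norms of units -/
noncomputable def nU (u : Aˣ) : RRˣ := Units.map (Algebra.norm RR : A →* RR) u

lemma nU_coe (u : Aˣ) : ((nU u : RRˣ) : RR) = Algebra.norm RR (u : A) := rfl

lemma cc_unit {M : ℕ} {χ : A → ℂ} (h : Chw M χ) (u : Aˣ) (x : A) :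
    cc χ (u * x) = ((Algebra.norm RR (u : A) : RR) : ℂ) * cc χ x := by
  unfold cc
  rw [h.unit, map_mul, ups_mul, ← nU_coe, ups_u]
  ring

lemma cc_cfu (D : GN A r) {M : ℕ} {χ : A → ℂ} (h : Chw M χ) : D.Cfu M (cc χ) where
  bd := ⟨1, zero_le_one, fun x => by
    unfold cc
    rw [norm_mul]
    exact mul_le_one₀ (h.bd _) (norm_nonneg _) (ups_norm _)⟩
  zero := by
    unfold cc
    rw [norm_zero' D, ups_lam (dvd_zero _), mul_zero]
  per x γ := by
    obtain ⟨k, hk⟩ := h.three
    unfold cc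
    obtain ⟨t, ht⟩ := norm_cong D M x γ
    rw [h.per, ht]
    have : Algebra.norm RR x + (M : RR) * t = Algebra.norm RR x + 3 * (k * t) := by
      rw [hk]
      push_cast
      ring
    rw [this, ups_per]
  unit u x := by rw [cc_unit h, D.nn_coe]

variable {D : GN A r} {M : ℕ} {φ : A → ℂ}

/-- divisibility and congruences -/
lemma dv_cong {π : A} {N : ℕ} (hN : π ∣ (N : A)) (x γ : A) : dv π (x + N * γ) = dv π x := by
  refine dv_congr ?_
  rw [(dvd_add_left (hN.mul_right γ))]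

/-- the modification of a coefficient function -/
noncomputable def md (φ : A → ℂ) (κ : ℂ) (π : A) (x : A) : ℂ := φ x * (1 - κ * dv π x)

lemma md_cfu (h : D.Cfu M φ) (κ : ℂ) {π : A} {N : ℕ} (hN : π ∣ (N : A)) :
    D.Cfu (M * N) (md φ κ π) where
  bd := by
    obtain ⟨K, hK, h1⟩ := h.bd
    refine ⟨K * (1 + ‖κ‖), by positivity, fun x => ?_⟩
    unfold md
    rw [norm_mul]
    refine mul_le_mul (h1 x) ?_ (norm_nonneg _) hK
    refine (norm_sub_le _ _).trans ?_
    rw [norm_one, norm_mul]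
    have := dv_norm π x
    have := norm_nonneg κ
    nlinarith
  zero := by unfold md; rw [h.zero, zero_mul]
  per x γ := by
    unfold md
    have e1 : x + ((M * N : ℕ) : A) * γ = x + M * (N * γ) := by push_cast; ring
    have e2 : x + ((M * N : ℕ) : A) * γ = x + N * (M * γ) := by push_cast; ring
    have h1 : φ (x + ((M * N : ℕ) : A) * γ) = φ x := by rw [e1, h.per]
    have h2 : dv π (x + ((M * N : ℕ) : A) * γ) = dv π x := by rw [e2, dv_cong hN]
    rw [h1, h2]
  unit u x := by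
    unfold md
    rw [h.unit, dv_unit]
    ring

/-! ### mean zero -/

lemma cyn_line {l : A} (h : Cyn l) {w : A} (hw : IsCoprime w l) (α : A) :
    ∃ s : RR, ∀ q : RR, l ∣ α + q • w ↔ Algebra.norm RR l ∣ q - s := by
  obtain ⟨b, a, hab⟩ := hw
  obtain ⟨s, hs⟩ := h.res (-(α * b))
  refine ⟨s, fun q => ?_⟩
  rw [← h.dvd, map_sub, Algebra.smul_def]
  constructor
  · intro h1
    have e : algebraMap RR A q - algebraMap RR A s = b * (α + algebraMap RR A q * w) +
        l * (a * algebraMap RR A q) +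
        (-(α * b) - algebraMap RR A s) := by linear_combination -(algebraMap RR A q) * hab
    rw [e]
    exact dvd_add (dvd_add (h1.mul_left _) (Dvd.intro _ rfl)) hs
  · intro h1
    have e : α + algebraMap RR A q * w = w * (algebraMap RR A q - algebraMap RR A s) +
        l * (α * a) - (-(α * b) - algebraMap RR A s) * w := by linear_combination -α * hab
    rw [e]
    exact dvd_sub (dvd_add (h1.mul_left _) (Dvd.intro _ rfl)) (hs.mul_right _)

/-- **Mean zero.** -/
theorem mzv_cyn [IsDomain A] (D : GN A r) {M0 : ℕ} {φ : A → ℂ}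
    (hper : ∀ x γ, φ (x + M0 * γ) = φ x) {l : A} (h : Cyn l)
    (hcop : IsCoprime (M0 : RR) (Algebra.norm RR l)) {N : ℕ} [NeZero (M0 * N)]
    (hN : Algebra.norm RR l ∣ (N : RR)) {w : A} (hw : IsCoprime w l) :
    Mzv (M0 * N) (md φ (Complex.normSq ((Algebra.norm RR l : RR) : ℂ) : ℂ) l) w := by
  intro α
  obtain ⟨s, hs⟩ := cyn_line h hw α
  set p := Algebra.norm RR l with hp
  set n := M0 * N with hn
  have hpn : p ∣ (n : RR) := by
    rw [hn]
    push_cast
    exact hN.mul_left _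
  have hp0 : p ≠ 0 := D.norm_ne h.ne
  obtain ⟨c, hc0, hc1, hc2⟩ := cnt hp0 hpn
  set f : RR → ℂ := fun q => φ (α + q • w) with hf
  set g : RR → ℂ := fun q => dv p (q - s) with hg
  have hf0 : ∀ q r : RR, f (q + M0 * r) = f q := by
    intro q r
    simp only [hf]
    have e : α + (q + (M0 : RR) * r) • w = (α + q • w) + M0 * (r • w) := by
      rw [add_smul, GN.smul_nat]
      ring
    rw [e, hper]
  have hfP : Per n f := by
    refine per_of fun x r => ?_
    rw [hn]
    push_cast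
    rw [mul_assoc]
    exact hf0 x (N * r)
  have hgP : Per n g := dv_add_mul hpn s
  have hck : ∀ q : RR, md φ (Complex.normSq (p : ℂ) : ℂ) l (α + q • w) =
      f q - (Complex.normSq (p : ℂ) : ℂ) * (f q * g q) := by
    intro q
    unfold md
    rw [dv_congr (hs q)]
    simp only [hf, hg]
    ring
  have hkey : ∀ t : RR, ∑ q : RM n, f q.out * g q.out = ∑ q : RM n, f q.out * g (q.out + M0 * t) := by
    intro t
    have hP : Per n (fun q => f q * g q) := by
      intro y y' hy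
      show f y * g y = f y' * g y'
      rw [hfP y y' hy, hgP y y' hy]
    have h1 := shiftP hP (M0 * t)
    simp only [hf0] at h1
    exact h1.symm
  obtain ⟨a, b, hab⟩ := hcop
  have hinner : ∀ q : RR, ∑ t : RM n, g (q + M0 * t.out) = c := by
    intro q
    rw [← hc1 (a * (s - q))]
    refine Finset.sum_congr rfl fun t _ => dv_congr ?_
    constructor
    · rintro ⟨z, hz⟩
      exact ⟨a * z + b * t.out, by linear_combination a * hz - (t.out : RR) * hab⟩
    · rintro ⟨z, hz⟩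
      exact ⟨M0 * z - b * (s - q), by linear_combination (M0 : RR) * hz + (s - q) * hab⟩
  have hS : (Fintype.card (RM n) : ℂ) * ∑ q : RM n, f q.out * g q.out = c * ∑ q : RM n, f q.out := by
    have h1 : ∑ t : RM n, ∑ q : RM n, f q.out * g q.out =
        ∑ t : RM n, ∑ q : RM n, f q.out * g (q.out + M0 * t.out) :=
      Finset.sum_congr rfl fun t _ => hkey t.out
    rw [Finset.sum_const, Finset.card_univ, nsmul_eq_mul, Finset.sum_comm] at h1
    rw [h1, Finset.mul_sum]
    refine Finset.sum_congr rfl fun q _ => ?_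
    rw [← Finset.mul_sum, hinner]
    ring
  have h2 : (Complex.normSq (p : ℂ) : ℂ) * ∑ q : RM n, f q.out * g q.out = ∑ q : RM n, f q.out := by
    rw [hc2] at hS
    refine mul_left_cancel₀ hc0 ?_
    linear_combination hS
  rw [Finset.sum_congr rfl fun q _ => hck q.out, Finset.sum_sub_distrib, ← Finset.mul_sum, h2,
    sub_self]

/-! ### the Dirichlet series -/

lemma Nm_nonneg (x : A) : 0 ≤ Nm x := Complex.normSq_nonneg _

lemma Nm_mul (x y : A) : Nm (x * y) = Nm x * Nm y := by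
  unfold GN.Nm
  rw [map_mul, ← Complex.normSq_mul]
  rfl

lemma Nm_pos [IsDomain A] (D : GN A r) {x : A} (hx : x ≠ 0) : 0 < Nm x := by
  unfold GN.Nm
  rw [Complex.normSq_pos]
  have := D.norm_ne hx
  exact fun h0 => this (Subtype.ext h0)

/-- the factor of an element -/
noncomputable def Ft (s : ℂ) (α : A) : ℂ :=
  ups (Algebra.norm RR α) * (starRingEnd ℂ) ((Algebra.norm RR α : RR) : ℂ) * (Nm α : ℂ) ^ (-s)

lemma Dt_mulx {χ : A → ℂ} {l : A} {x : ℂ} (hx : ∀ β, χ (l * β) = x * χ β) (s : ℂ) (β : A) :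
    Dt (cc χ) s (l * β) = x * Ft s l * Dt (cc χ) s β := by
  unfold GN.Dt GN.cx cc Ft
  rw [hx, map_mul, ups_mul, Nm_mul, Complex.ofReal_mul,
    Complex.mul_cpow_ofReal_nonneg (Nm_nonneg l) (Nm_nonneg β)]
  push_cast
  rw [map_mul]
  ring

lemma Dt_md (φ : A → ℂ) (κ : ℂ) (π : A) (s : ℂ) (x : A) :
    Dt (md φ κ π) s x = Dt φ s x * (1 - κ * dv π x) := by
  unfold GN.Dt GN.cx md
  ring

lemma Nm_unit (D : GN A r) (u : Aˣ) (x : A) : Nm ((u : A) * x) = Nm x := by
  rw [Nm_mul]
  have : Nm (u : A) = 1 := by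
    rw [GN.Nm, D.nn_coe, D.nn_unit]
  rw [this, one_mul]

lemma Dt_unit (h : D.Cfu M φ) (s : ℂ) (u : Aˣ) (x : A) : Dt φ s ((u : A) * x) = Dt φ s x := by
  unfold GN.Dt
  rw [GN.cx_unit h, Nm_unit D]

/-- modification of an Euler factor -/
lemma sum_md [IsDomain A] (h : D.Cfu M φ) {π : A} (hπ : π ≠ 0) {s y S : ℂ} (κ : ℂ)
    (hy : ∀ β, Dt φ s (π * β) = y * Dt φ s β)
    (hS : HasSum (fun I : PI A => Dt φ s (gp I)) S) :
    HasSum (fun I : PI A => Dt (md φ κ π) s (gp I)) ((1 - κ * y) * S) := by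
  have h4 := rem_sump (Dt_unit h s) hπ hy hS
  have h5 := hS.sub (h4.mul_left κ)
  have e : (1 - κ * y) * S = S - κ * (y * S) := by ring
  rw [e]
  refine h5.congr_fun fun I => ?_
  rw [Dt_md]
  ring

lemma Ft_entire [IsDomain A] (D : GN A r) {α : A} (hα : α ≠ 0) :
    Differentiable ℂ (fun s => Ft s α) := by
  unfold Ft
  have hN : (Nm α : ℂ) ≠ 0 := by
    have := Nm_pos D hα
    exact_mod_cast this.ne'
  refine Differentiable.const_mul ?_ _
  exact (differentiable_id.neg).const_cpow (Or.inl hN)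

/-- convergence -/
lemma Dt_norm [IsDomain A] (D : GN A r) {χ : A → ℂ} (h : Chw M χ) (s : ℂ) {x : A} (hx : x ≠ 0) :
    ‖Dt (cc χ) s x‖ ≤ Nm x ^ (-(s.re - 1 / 2)) := by
  have hp := Nm_pos D hx
  unfold GN.Dt GN.cx
  rw [norm_mul, norm_mul, RCLike.norm_conj, Complex.norm_cpow_eq_rpow_re_of_pos hp]
  have h1 : ‖cc χ x‖ ≤ 1 := by
    unfold cc
    rw [norm_mul]
    exact mul_le_one₀ (h.bd _) (norm_nonneg _) (ups_norm _)
  have h2 : ‖((Algebra.norm RR x : RR) : ℂ)‖ = Nm x ^ (1 / 2 : ℝ) := by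
    unfold GN.Nm
    rw [Complex.normSq_eq_norm_sq, ← Real.sqrt_eq_rpow, Real.sqrt_sq (norm_nonneg _)]
  rw [h2]
  have e : Nm x ^ (-(s.re - 1 / 2)) = Nm x ^ (1 / 2 : ℝ) * Nm x ^ ((-s).re) := by
    rw [← Real.rpow_add hp]
    congr 1
    rw [Complex.neg_re]
    ring
  rw [e]
  have p1 : 0 ≤ Nm x ^ (1 / 2 : ℝ) := Real.rpow_nonneg hp.le _
  have p2 : 0 ≤ Nm x ^ ((-s).re) := Real.rpow_nonneg hp.le _
  calc _ ≤ 1 * Nm x ^ (1 / 2 : ℝ) * Nm x ^ ((-s).re) := by gcongr
    _ = _ := by ring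

lemma Dt_summ [IsDomain A] (D : GN A r) {χ : A → ℂ} (h : Chw M χ)
    (hsum : ∀ t : ℝ, 1 < t → Summable (fun I : PI A => Nm (gp I) ^ (-t))) {s : ℂ}
    (hs : 3 / 2 < s.re) : Summable (fun I : PI A => Dt (cc χ) s (gp I)) := by
  refine Summable.of_norm_bounded (hsum (s.re - 1 / 2) (by linarith)) fun I => ?_
  exact Dt_norm D h s (gp_ne I)

end Pool.Agent.K7.H56
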