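import Pool.Agent.K7.H56.T16

/-!
# The vertices and the auxiliary elements
-/

set_option autoImplicit false
set_option linter.unusedSectionVars false

open Complex Filter Topology Set MeasureTheory
open scoped PeriodPair

namespace Pool.Agent.K7.H56

open Pool.Agent.Y688 Pool.Agent.W192.HK Pool.Agent.TH936.CM Pool.Agent.R430 Pool.Agent.Y688.HF H667R3
open Equiv (Perm)
open GN (Nm Dt cx Cfu Vx gV Good)

variable {r : ℕ} {A : Type} [CommRing A] [Algebra RR A]

/-- an element divides its norm -/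
lemma dvd_alg (D : GN A r) (x : A) : x ∣ algebraMap RR A (Algebra.norm RR x) := by
  set Mx := Algebra.leftMulMatrix D.b x with hMx
  set y : A := D.b.equivFun.symm (Mx.adjugate.mulVec (D.b.repr 1)) with hy
  refine ⟨y, ?_⟩
  apply D.b.repr.injective
  apply DFunLike.coe_injective
  have h1 : (D.b.repr y : Fin (r + 1) → RR) = Mx.adjugate.mulVec (D.b.repr 1) := by
    have := D.b.equivFun.apply_symm_apply (Mx.adjugate.mulVec (D.b.repr 1))
    rw [← hy] at this
    rw [← this]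
    rfl
  rw [← Algebra.leftMulMatrix_mulVec_repr D.b x y, ← hMx, h1, Matrix.mulVec_mulVec,
    Matrix.mul_adjugate, Matrix.smul_mulVec, Matrix.one_mulVec, Algebra.norm_eq_matrix_det D.b,
    ← hMx, Algebra.algebraMap_eq_smul_one, map_smul]
  rfl

lemma odd_nsq {x : RR} {N : ℕ} (hN : normSq (x : ℂ) = N) (h2 : ¬ (2 : RR) ∣ x) : Odd N := by
  by_contra h3
  rw [Nat.not_odd_iff_even] at h3
  obtain ⟨y, hy⟩ := dvd_nsq _ hN
  obtain ⟨k, hk⟩ := h3
  have h4 : (2 : RR) ∣ x * y := ⟨k, by rw [← hy, hk]; push_cast; ring⟩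
  rcases two_prime.dvd_or_dvd h4 with h5 | h5
  · exact h2 h5
  · obtain ⟨t, ht⟩ := h5
    have hx0 : x ≠ 0 := by
      rintro rfl
      exact h2 (dvd_zero _)
    have hyc : (y : ℂ) = (starRingEnd ℂ) (x : ℂ) := by
      have h6 : (x : ℂ) * y = (x : ℂ) * (starRingEnd ℂ) (x : ℂ) := by
        rw [Complex.mul_conj, hN]
        have := congrArg (fun z : RR => (z : ℂ)) hy
        push_cast at this
        exact this.symm
      have h7 : (x : ℂ) ≠ 0 := by exact_mod_cast hx0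
      exact mul_left_cancel₀ h7 h6
    apply h2
    refine ⟨⟨(starRingEnd ℂ) (t : ℂ), Pool.Agent.W287.HK.conj_mem qr _⟩, ?_⟩
    apply Subtype.ext
    have h8 := congrArg (fun z : RR => (z : ℂ)) ht
    push_cast at h8
    have h9 : ((2 : RR) : ℂ) = 2 := rfl
    push_cast
    rw [h9, ← Complex.conj_conj (x : ℂ), ← hyc, h8, map_mul, h9]
    congr 1
    exact Complex.conj_ofNat 2

/-- the natural number of an element -/
lemma exists_nat (D : GN A r) [IsDomain A] {w : A} (hw : w ≠ 0) :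
    ∃ N : ℕ, N ≠ 0 ∧ Nm w = N ∧ Algebra.norm RR w ∣ (N : RR) ∧ w ∣ (N : A) := by
  obtain ⟨N, hN⟩ := normSq_RR (Algebra.norm RR w)
  obtain ⟨y, hy⟩ := dvd_nsq _ hN
  refine ⟨N, ?_, hN, ⟨y, hy⟩, ?_⟩
  · rintro rfl
    have h1 := Nm_pos D hw
    unfold GN.Nm at h1
    rw [hN] at h1
    simp at h1
  · have h1 : algebraMap RR A (Algebra.norm RR w) ∣ algebraMap RR A (N : RR) :=
      map_dvd _ ⟨y, hy⟩
    rw [map_natCast] at h1
    exact (dvd_alg D w).trans h1

/-- the choice of the auxiliary modulus -/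
lemma exists_W0 (D : GN A r) [IsDomain A] (S : Finset A) (h0 : ∀ w ∈ S, w ≠ 0) :
    ∃ W : ℕ, Odd W ∧ ∀ l : A, IsCoprime (Algebra.norm RR l) ((2 * W : ℕ) : RR) →
      ∀ w ∈ S, IsCoprime w l := by
  classical
  induction S using Finset.induction_on with
  | empty => exact ⟨1, odd_one, by simp⟩
  | insert a S ha ih =>
    obtain ⟨W, hW, hl⟩ := ih fun w hw => h0 w (Finset.mem_insert_of_mem hw)
    obtain ⟨N, hN0, _, _, hN⟩ := exists_nat D (h0 a (Finset.mem_insert_self _ _))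
    obtain ⟨k, m, hm, hkm⟩ := Nat.exists_eq_two_pow_mul_odd hN0
    refine ⟨m * W, hm.mul hW, fun l hc w hw => ?_⟩
    have hc2 : IsCoprime (Algebra.norm RR l) (2 : RR) := by
      refine hc.of_isCoprime_of_dvd_right ⟨(m * W : RR), ?_⟩
      push_cast
      ring
    have hcm : IsCoprime (Algebra.norm RR l) (m : RR) := by
      refine hc.of_isCoprime_of_dvd_right ⟨(2 * W : RR), ?_⟩
      push_cast
      ring
    have hcW : IsCoprime (Algebra.norm RR l) ((2 * W : ℕ) : RR) := by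
      refine hc.of_isCoprime_of_dvd_right ⟨(m : RR), ?_⟩
      push_cast
      ring
    rcases Finset.mem_insert.1 hw with rfl | hw
    · have h1 : IsCoprime (Algebra.norm RR l) (N : RR) := by
        rw [hkm]
        push_cast
        exact (hc2.pow_right).mul_right hcm
      have h2 : IsCoprime (algebraMap RR A (Algebra.norm RR l)) (N : A) := by
        have := h1.map (algebraMap RR A)
        rwa [map_natCast] at this
      exact ((h2.of_isCoprime_of_dvd_left (dvd_alg D l)).of_isCoprime_of_dvd_right hN).symm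
    · exact hl l hcW w hw

/-! ### the residue map -/

lemma exists_pi {g : A} (h : Cyn g) : ∃ π : A →+* (RR ⧸ sp (Algebra.norm RR g)),
    (∀ x, π x = 0 ↔ g ∣ x) ∧ ∀ a : RR, π (algebraMap RR A a) = Ideal.Quotient.mk _ a := by
  set f : (RR ⧸ sp (Algebra.norm RR g)) →+* (A ⧸ Ideal.span {g}) :=
    Ideal.Quotient.lift _ ((Ideal.Quotient.mk (Ideal.span {g})).comp (algebraMap RR A)) (by
      intro a ha
      rw [Ideal.mem_span_singleton] at ha
      rw [RingHom.comp_apply, Ideal.Quotient.eq_zero_iff_mem, Ideal.mem_span_singleton]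
      exact (h.dvd a).2 ha) with hf
  have hfa : ∀ a : RR, f (Ideal.Quotient.mk _ a) = Ideal.Quotient.mk _ (algebraMap RR A a) := by
    intro a
    rw [hf, Ideal.Quotient.lift_mk]
    rfl
  have hinj : Function.Injective f := by
    rw [injective_iff_map_eq_zero]
    intro a ha
    obtain ⟨a, rfl⟩ := Ideal.Quotient.mk_surjective a
    rw [hfa, Ideal.Quotient.eq_zero_iff_mem, Ideal.mem_span_singleton, h.dvd] at ha
    rw [Ideal.Quotient.eq_zero_iff_mem]
    exact Ideal.mem_span_singleton.2 ha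
  have hsurj : Function.Surjective f := by
    intro y
    obtain ⟨y, rfl⟩ := Ideal.Quotient.mk_surjective y
    obtain ⟨a, ha⟩ := h.res y
    refine ⟨Ideal.Quotient.mk _ a, ?_⟩
    rw [hfa, eq_comm, Ideal.Quotient.eq, Ideal.mem_span_singleton]
    exact ha
  set e := RingEquiv.ofBijective f ⟨hinj, hsurj⟩ with he
  refine ⟨(e.symm : (A ⧸ Ideal.span {g}) →+* _).comp (Ideal.Quotient.mk _), fun x => ?_,
    fun a => ?_⟩
  · rw [RingHom.comp_apply]
    show e.symm _ = 0 ↔ _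
    rw [EmbeddingLike.map_eq_zero_iff, Ideal.Quotient.eq_zero_iff_mem, Ideal.mem_span_singleton]
  · rw [RingHom.comp_apply]
    show e.symm _ = _
    rw [RingEquiv.symm_apply_eq]
    exact (hfa a).symm

lemma exists_l0 (D : GN A r) {γ : RR} (π : A →+* (RR ⧸ sp γ))
    (hπ : ∀ a : RR, π (algebraMap RR A a) = Ideal.Quotient.mk _ a) :
    ∃ l : A →ₗ[RR] RR, l ∈ Xg π := by
  refine ⟨D.b.constr RR (fun j => (π (D.b j)).out), 1, isUnit_one, fun x => ?_⟩
  rw [one_mul, Module.Basis.constr_apply_fintype, map_sum]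
  conv_rhs => rw [← D.b.sum_repr x, map_sum]
  refine Finset.sum_congr rfl fun j _ => ?_
  rw [smul_eq_mul, map_mul, Algebra.smul_def, map_mul, hπ, Ideal.Quotient.mk_out]
  rfl

/-! ### the vertices of the paths -/

/-- the action of the units on the linear forms -/
noncomputable def gA (ε : Fin r → Aˣ) (b : Fin r) (l : A →ₗ[RR] RR) : A →ₗ[RR] RR :=
  l.comp (LinearMap.mulLeft RR (((ε b)⁻¹ : Aˣ) : A))

lemma gA_mem {γ : RR} {π : A →+* (RR ⧸ sp γ)} (ε : Fin r → Aˣ) (b : Fin r) {l : A →ₗ[RR] RR}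
    (hl : l ∈ Xg π) : gA ε b l ∈ Xg π := by
  obtain ⟨c, hc, h⟩ := hl
  refine ⟨c * π (((ε b)⁻¹ : Aˣ) : A), hc.mul ((Units.isUnit _).map π), fun x => ?_⟩
  unfold gA
  rw [LinearMap.comp_apply, LinearMap.mulLeft_apply, h, map_mul, mul_assoc]

lemma vt_gA_mem {γ : RR} {π : A →+* (RR ⧸ sp γ)} (ε : Fin r → Aˣ) {l : A →ₗ[RR] RR}
    (hl : l ∈ Xg π) (τ : Perm (Fin r)) (j : ℕ) : vt (gA ε) l τ j ∈ Xg π := by
  induction j with
  | zero => exact hl
  | succ j ih =>
    by_cases h : j < r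
    · rw [vt_succ h]
      exact gA_mem ε _ ih
    · rw [vt_ge (by omega)]
      exact ih

lemma vt_gV {D : GN A r} {M : ℕ} {φ : A → ℂ} (h : D.Cfu M φ) (ε : Fin r → Aˣ) (x0 : Vx φ)
    (τ : Perm (Fin r)) (j : ℕ) : (vt (gV h ε) x0 τ j).1 = vt (gA ε) x0.1 τ j := by
  induction j with
  | zero => rfl
  | succ j ih =>
    by_cases h' : j < r
    · rw [vt_succ h', vt_succ h', ← ih]
      rfl
    · rw [vt_ge (by omega), vt_ge (by omega)]
      exact ih

/-- few linear forms have a common zero -/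
lemma exists_kill (D : GN A r) (k : ℕ) (hk : k < r) (l : ℕ → (A →ₗ[RR] RR)) :
    ∃ w : A, w ≠ 0 ∧ ∀ j ≤ k, l j w = 0 := by
  set f : (Fin (r + 1) → RR) →ₗ[RR] (Fin (k + 1) → RR) :=
    (LinearMap.pi fun j : Fin (k + 1) => l j).comp D.b.equivFun.symm.toLinearMap with hf
  have h1 : ¬ Function.Injective f := by
    intro hi
    have := card_le_of_injective RR f hi
    rw [Fintype.card_fin, Fintype.card_fin] at this
    omega
  rw [injective_iff_map_eq_zero] at h1
  push Not at h1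
  obtain ⟨x, hx, hx0⟩ := h1
  refine ⟨D.b.equivFun.symm x, ?_, fun j hj => ?_⟩
  · intro h0
    exact hx0 ((LinearEquiv.map_eq_zero_iff _).1 h0)
  · exact congrFun hx (⟨j, by omega⟩ : Fin (k + 1))

/-! ### linearity of the regularized sums -/

lemma Ls_summ {D : GN A r} {φ : A → ℂ} (hφ : ∃ K : ℝ, 0 ≤ K ∧ ∀ x, ‖φ x‖ ≤ K)
    (l : Fin (r + 1) → (A →ₗ[RR] RR)) {ρ : ℝ} (hρ : 0 < ρ) :
    Summable (fun x : A => φ x * ((∏ j, ((l j x : RR) : ℂ)⁻¹) *
      (Real.exp (-(ρ * nrm (D.sg x))) : ℂ))) := by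
  obtain ⟨K, hK, h⟩ := hφ
  have h1 := (D.summ 0 hρ).mul_left K
  refine Summable.of_norm_bounded h1 fun x => ?_
  rw [norm_mul, norm_mul, pow_zero, one_mul, Complex.norm_real, Real.norm_eq_abs, Real.abs_exp]
  have h2 : ‖∏ j, ((l j x : RR) : ℂ)⁻¹‖ ≤ 1 := by
    rw [norm_prod]
    refine Finset.prod_le_one (fun _ _ => norm_nonneg _) fun j _ => ?_
    rw [norm_inv]
    by_cases h0 : l j x = 0
    · rw [h0]
      simp
    · have h3 := one_le_normSq h0
      rw [Complex.normSq_eq_norm_sq] at h3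
      have h4 : 1 ≤ ‖((l j x : RR) : ℂ)‖ := by
        nlinarith [norm_nonneg ((l j x : RR) : ℂ)]
      exact inv_le_one_of_one_le₀ h4
  have h3 := Real.exp_nonneg (-(ρ * nrm (D.sg x)))
  calc _ ≤ K * (1 * Real.exp (-(ρ * nrm (D.sg x)))) := by
        gcongr
        exact h x
    _ = _ := by rw [one_mul]

lemma Ls_sub {D : GN A r} {φ φ' : A → ℂ} (hφ : ∃ K : ℝ, 0 ≤ K ∧ ∀ x, ‖φ x‖ ≤ K)
    (hφ' : ∃ K : ℝ, 0 ≤ K ∧ ∀ x, ‖φ' x‖ ≤ K) (l : Fin (r + 1) → (A →ₗ[RR] RR)) {ρ : ℝ}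
    (hρ : 0 < ρ) : D.Ls (fun x => φ x - φ' x) l ρ = D.Ls φ l ρ - D.Ls φ' l ρ := by
  unfold GN.Ls
  rw [← (Ls_summ hφ l hρ).tsum_sub (Ls_summ hφ' l hρ)]
  exact tsum_congr fun x => by ring

lemma Cfu_sub {D : GN A r} {M : ℕ} {φ φ' : A → ℂ} (h : D.Cfu M φ) (h' : D.Cfu M φ') :
    D.Cfu M (fun x => φ x - φ' x) where
  bd := by
    obtain ⟨K, hK, h1⟩ := h.bd
    obtain ⟨K', hK', h1'⟩ := h'.bd
    exact ⟨K + K', by positivity, fun x => (norm_sub_le _ _).trans (add_le_add (h1 x) (h1' x))⟩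
  zero := by rw [h.zero, h'.zero, sub_zero]
  per x γ := by rw [h.per, h'.per]
  unit u x := by rw [h.unit, h'.unit]; ring

lemma Mzv_sub {M : ℕ} [NeZero M] {φ φ' : A → ℂ} {w : A} (h : Mzv M φ w) (h' : Mzv M φ' w) :
    Mzv M (fun x => φ x - φ' x) w := by
  intro x
  rw [Finset.sum_sub_distrib, h x, h' x, sub_zero]

end Pool.Agent.K7.H56
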