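import Pool.Agent.K7.H56.T17

/-!
# The value at one
-/

set_option autoImplicit false
set_option linter.unusedSectionVars false

open Complex Filter Topology Set MeasureTheory
open scoped PeriodPair

namespace Pool.Agent.K7.H56

open Pool.Agent.Y688 Pool.Agent.W192.HK Pool.Agent.TH936.CM Pool.Agent.R430 Pool.Agent.Y688.HF H667R3
open Equiv (Perm)
open GN (Nm Dt cx Cfu Vx gV Good)

variable {r : ℕ} {A : Type} [CommRing A] [Algebra RR A]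

lemma v_SS {Γ : Type} [LinearOrderedCommGroupWithZero Γ] (v : Valuation ℂ Γ) (c : ℂ) (B : Γ)
    (l : Perm (Fin r) → ℂ) : ((∀ τ, v (c * l τ) ≤ B) → v (c * SS l) ≤ B) ∧
    (B ≠ 0 → (∀ τ, v (c * l τ) < B) → v (c * SS l) < B) := by
  have e : c * SS l = ∑ τ, ((Perm.sign τ : ℤ) : ℂ) * (c * l τ) := by
    unfold SS
    rw [Finset.mul_sum]
    exact Finset.sum_congr rfl fun τ _ => by ring
  have hs : ∀ (τ : Perm (Fin r)) (z : ℂ), v (((Perm.sign τ : ℤ) : ℂ) * z) = v z := by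
    intro τ z
    rcases Int.units_eq_one_or (Perm.sign τ) with h | h
    · rw [h]
      simp
    · rw [h]
      simp
  rw [e]
  refine ⟨fun h => v.map_sum_le fun τ _ => ?_, fun hB h => v.map_sum_lt hB fun τ _ => ?_⟩
  · rw [hs]
    exact h τ
  · rw [hs]
    exact h τ

section val
variable {D : GN A r} [NoZeroSMulDivisors RR A] {ε : Fin r → Aˣ}
  {Λ : Fin (r + 1) → Fin (r + 1) → ℝ}
  {γ : RR} {π : A →+* (RR ⧸ sp γ)} {l0 : A →ₗ[RR] RR}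
  {S : Perm (Fin r) → Finset A} {n : ℕ} [NeZero n]

/-- the data of a coefficient function -/
structure Ok (D : GN A r) (ε : Fin r → Aˣ) (π : A →+* (RR ⧸ sp γ)) (l0 : A →ₗ[RR] RR)
    (S : Perm (Fin r) → Finset A) (n : ℕ) [NeZero n] (φ : A → ℂ) : Prop where
  cfu : D.Cfu n φ
  supp : ∀ x, φ x ≠ 0 → π x ≠ 0
  mz : ∀ τ, ∀ w ∈ S τ, Mzv n φ w
  kill : ∀ (τ : Perm (Fin r)) k, k < r → ∃ w : A, w ≠ 0 ∧ (∀ j ≤ k, vt (gA ε) l0 τ j w = 0) ∧
    Mzv n φ w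
  one : ∃ w : A, w ≠ 0 ∧ Mzv n φ w

theorem Ok.val (hΛ0 : ∀ i, Λ 0 i = 1)
    (hΛ : ∀ (b : Fin r) i, Λ b.succ i = Real.log (normSq (D.σ i (ε b : A))))
    (hl0 : l0 ∈ Xg π) (hS : ∀ τ, Good D π (fun j : Fin (r + 1) => vt (gA ε) l0 τ j) (S τ))
    (hn : Odd n) {φ : A → ℂ} (h : Ok D ε π l0 S n φ) :
    Differentiable ℂ (D.LI Λ φ) ∧ ∃ l : Perm (Fin r) → ℂ,
      (∀ τ, Tendsto (fun ρ => D.Ls φ (fun j : Fin (r + 1) => vt (gA ε) l0 τ j) ρ *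
        D.dv (fun j : Fin (r + 1) => vt (gA ε) l0 τ j)) (𝓝[>] 0) (𝓝 (l τ))) ∧
      D.LI Λ φ 1 = SS l ∧
      ∀ (L : PeriodPair) (Ω : ℂ), HL L Ω → ∀ (Γ : Type) [LinearOrderedCommGroupWithZero Γ]
        (v : Valuation ℂ Γ), v 2 < 1 →
        ((∀ x, v (φ x) ≤ 1) → v (D.P.det * SS l) ≤ v 2 * v Ω ^ (r + 1)) ∧
        ((∀ x, v (φ x) < 1) → v (D.P.det * SS l) < v 2 * v Ω ^ (r + 1)) := by
  obtain ⟨w1, hw1, hm1⟩ := h.one
  refine ⟨GN.LI_diff Λ h.cfu hΛ0 hw1 hm1, ?_⟩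
  choose l hl hv using fun τ => hS τ n φ hn h.cfu h.supp (h.mz τ)
  refine ⟨l, hl, ?_, fun L Ω hL Γ _ v h2 => ?_⟩
  · set x0 : Vx φ := ⟨l0, fun x hx => Xg_ne hl0 (h.supp x hx)⟩ with hx0
    have e : ∀ (τ : Perm (Fin r)) (j : ℕ), (vt (gV h.cfu ε) x0 τ j).1 = vt (gA ε) l0 τ j :=
      fun τ j => vt_gV h.cfu ε x0 τ j
    refine GN.LI_one Λ h.cfu hΛ0 hw1 hm1 ?_
    refine GN.stokesA Λ h.cfu hΛ0 hΛ x0 ?_ l ?_
    · intro τ k hk
      obtain ⟨w, hw, hk', hm⟩ := h.kill τ k hk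
      refine ⟨w, hw, fun j hj => ?_, hm⟩
      rw [e]
      exact hk' j hj
    · intro τ
      simp only [e]
      exact hl τ
  · constructor
    · intro h0
      exact (v_SS v D.P.det _ l).1 fun τ => (hv τ L Ω hL Γ v h2).1 h0
    · intro h0
      refine (v_SS v D.P.det _ l).2 ?_ fun τ => (hv τ L Ω hL Γ v h2).2 h0
      exact mul_ne_zero ((v.ne_zero_iff).2 two_ne_zero) (pow_ne_zero _ ((v.ne_zero_iff).2 hL.ne))

lemma Ok.sub {φ φ' : A → ℂ} {S' : Finset A} (h : Ok D ε π l0 S n φ) (h' : Ok D ε π l0 S n φ')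
    (hk : ∀ (τ : Perm (Fin r)) k, k < r → ∃ w ∈ S', w ≠ 0 ∧ (∀ j ≤ k, vt (gA ε) l0 τ j w = 0))
    (hS' : ∀ w ∈ S', Mzv n φ w) (hS'' : ∀ w ∈ S', Mzv n φ' w)
    (h1 : ∃ w ∈ S', w ≠ 0) :
    Ok D ε π l0 S n (fun x => φ x - φ' x) where
  cfu := Cfu_sub h.cfu h'.cfu
  supp x hx := by
    by_cases h0 : φ x = 0
    · refine h'.supp x fun h2 => hx ?_
      rw [h0, h2, sub_zero]
    · exact h.supp x h0
  mz τ w hw := Mzv_sub (h.mz τ w hw) (h'.mz τ w hw)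
  kill τ k hk' := by
    obtain ⟨w, hw, h0, h2⟩ := hk τ k hk'
    exact ⟨w, h0, h2, Mzv_sub (hS' w hw) (hS'' w hw)⟩
  one := by
    obtain ⟨w, hw, h0⟩ := h1
    exact ⟨w, h0, Mzv_sub (hS' w hw) (hS'' w hw)⟩

end val

/-- the modified coefficient function -/
noncomputable def Phi (g l : A) (χ : A → ℂ) : A → ℂ :=
  md (md (cc χ) 1 g) (Nm l : ℂ) l

lemma Phi_sub (g l : A) (χ χ' : A → ℂ) (x : A) :
    Phi g l χ x - Phi g l χ' x = (χ x - χ' x) * (ups (Algebra.norm RR x) * (1 - 1 * dv g x) *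
      (1 - (Nm l : ℂ) * dv l x)) := by
  unfold Phi md cc
  ring

section vals
variable {Γ : Type} [LinearOrderedCommGroupWithZero Γ] {v : Valuation ℂ Γ}

lemma v_dv (π α : A) : v (dv π α) ≤ 1 := by
  unfold Pool.Agent.Y688.dv
  split_ifs <;> simp

lemma v_ups (_ : v 2 < 1) (a : RR) : v (ups a) ≤ 1 := by
  rcases ups_cases a with h | ⟨u, h, _⟩
  · rw [h, map_zero]
    exact zero_le
  · rw [h]
    exact v_RR _

lemma v_Nm {l : A} : v (Nm l : ℂ) ≤ 1 := by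
  obtain ⟨N, hN⟩ := normSq_RR (Algebra.norm RR l)
  unfold GN.Nm
  rw [hN]
  have := v_RR (v := v) (N : RR)
  exact_mod_cast this

lemma v_fac (h2 : v 2 < 1) (g l x : A) :
    v (ups (Algebra.norm RR x) * (1 - 1 * dv g x) * (1 - (Nm l : ℂ) * dv l x)) ≤ 1 := by
  rw [map_mul, map_mul]
  refine mul_le_one' (mul_le_one' (v_ups h2 _) ?_) ?_
  · refine (v.map_sub _ _).trans (max_le (by rw [map_one]) ?_)
    rw [one_mul]
    exact v_dv _ _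
  · refine (v.map_sub _ _).trans (max_le (by rw [map_one]) ?_)
    rw [map_mul]
    exact mul_le_one' v_Nm (v_dv _ _)

lemma v_Phi_le (h2 : v 2 < 1) (g l : A) {χ : A → ℂ} (h : ∀ α, v (χ α) ≤ 1) (x : A) :
    v (Phi g l χ x) ≤ 1 := by
  have e : Phi g l χ x = χ x * (ups (Algebra.norm RR x) * (1 - 1 * dv g x) *
      (1 - (Nm l : ℂ) * dv l x)) := by
    unfold Phi md cc
    ring
  rw [e, map_mul]
  exact mul_le_one' (h x) (v_fac h2 g l x)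

lemma v_Phi_lt (h2 : v 2 < 1) (g l : A) {χ χ' : A → ℂ} (h : ∀ α, v (χ α - χ' α) < 1) (x : A) :
    v (Phi g l χ x - Phi g l χ' x) < 1 := by
  rw [Phi_sub, map_mul]
  exact mul_lt_one_of_lt_of_le (h x) (v_fac h2 g l x)

end vals

/-- the conditions on the auxiliary elements -/
structure Ax (M : ℕ) (g : A) : Prop where
  ne : g ≠ 0
  np : ¬ Pr1 (Algebra.norm RR g)
  c2 : IsCoprime (Algebra.norm RR g) 2
  c3 : IsCoprime (Algebra.norm RR g) 3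
  cM : IsCoprime (Algebra.norm RR g) (M : RR)

lemma Ax.of {M W : ℕ} {g : A} (h : Cyn g) (hp : ¬ Pr1 (Algebra.norm RR g))
    (hc : IsCoprime (Algebra.norm RR g) ((2 * (3 * W) : ℕ) : RR)) (hM : M ∣ W) : Ax M g where
  ne := h.ne
  np := hp
  c2 := hc.of_isCoprime_of_dvd_right ⟨(3 * W : RR), by push_cast; ring⟩
  c3 := hc.of_isCoprime_of_dvd_right ⟨(2 * W : RR), by push_cast; ring⟩
  cM := by
    obtain ⟨k, rfl⟩ := hM
    exact hc.of_isCoprime_of_dvd_right ⟨(2 * 3 * k : RR), by push_cast; ring⟩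

lemma Ax.cop {M : ℕ} {g : A} (D : GN A r) (h : Ax M g) : IsCoprime g (M : A) := by
  have h1 := h.cM.map (algebraMap RR A)
  rw [map_natCast] at h1
  exact h1.of_isCoprime_of_dvd_left (dvd_alg D g)

lemma coprime_not_dvd {x : RR} (h : IsCoprime x 2) : ¬ (2 : RR) ∣ x := fun h2 =>
  two_prime.not_isUnit (h.isUnit_of_dvd' h2 dvd_rfl)

theorem core_A [IsDomain A] [NoZeroSMulDivisors RR A] (D : GN A r) (ε : Fin r → Aˣ)
    (Λ : Fin (r + 1) → Fin (r + 1) → ℝ) (hΛ0 : ∀ i, Λ 0 i = 1)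
    (hΛ : ∀ (b : Fin r) i, Λ b.succ i = Real.log (normSq (D.σ i (ε b : A)))) {M : ℕ} (hM : Odd M)
    (cyn : ∀ W : ℕ, Odd W → ∃ l : A, Cyn l ∧ ¬ Pr1 (Algebra.norm RR l) ∧
      IsCoprime (Algebra.norm RR l) ((2 * (3 * W) : ℕ) : RR)) :
    ∃ (g l : A) (n : ℕ), Ax M g ∧ Ax M l ∧ IsCoprime g l ∧
      (∀ χ, Chw M χ → D.Cfu n (Phi g l χ) ∧ Differentiable ℂ (D.LI Λ (Phi g l χ))) ∧
      ∀ (L : PeriodPair) (Ω : ℂ), HL L Ω → ∀ (Γ : Type) [LinearOrderedCommGroupWithZero Γ]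
        (v : Valuation ℂ Γ), v 2 < 1 →
        (∀ χ, Chw M χ → (∀ α, v (χ α) ≤ 1) →
          v (D.P.det * D.LI Λ (Phi g l χ) 1) ≤ v 2 * v Ω ^ (r + 1)) ∧
        (∀ χ χ', Chw M χ → Chw M χ' → (∀ α, v (χ α - χ' α) < 1) →
          v (D.P.det * (D.LI Λ (Phi g l χ) 1 - D.LI Λ (Phi g l χ') 1)) < v 2 * v Ω ^ (r + 1)) := by
  classical
  obtain ⟨g, hg, hgp, hgc⟩ := cyn M hM
  have hag : Ax M g := Ax.of hg hgp hgc dvd_rfl
  obtain ⟨π, hπ0, hπ⟩ := exists_pi hg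
  obtain ⟨l0, hl0⟩ := exists_l0 D π hπ
  choose w hw0 hwk using fun (τ : Perm (Fin r)) (k : Fin r) =>
    exists_kill D k k.2 (fun j => vt (gA ε) l0 τ j)
  choose S hS0 hS using fun τ => GN.good_all (D := D) hag.c2
    (fun j : Fin (r + 1) => vt (gA ε) l0 τ j) (fun j => vt_gA_mem ε hl0 τ j)
  set S' : Finset A := insert 1 (Finset.univ.biUnion fun τ => Finset.univ.image (w τ)) with hS'
  set S'' : Finset A := S' ∪ Finset.univ.biUnion S with hS''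
  have hS''0 : ∀ w ∈ S'', w ≠ 0 := by
    intro x hx
    rcases Finset.mem_union.1 hx with hx | hx
    · rcases Finset.mem_insert.1 hx with rfl | hx
      · exact one_ne_zero
      · obtain ⟨τ, _, hx⟩ := Finset.mem_biUnion.1 hx
        obtain ⟨k, _, rfl⟩ := Finset.mem_image.1 hx
        exact hw0 τ k
    · obtain ⟨τ, _, hx⟩ := Finset.mem_biUnion.1 hx
      exact hS0 τ x hx
  obtain ⟨W, hW, hWl⟩ := exists_W0 D S'' hS''0
  obtain ⟨Ng, hNg0, hNg, hgn, hgd⟩ := exists_nat D hg.ne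
  have hNgo : Odd Ng := odd_nsq hNg (coprime_not_dvd hag.c2)
  obtain ⟨l, hl, hlp, hlc⟩ := cyn (W * (M * Ng)) (hW.mul (hM.mul hNgo))
  have hal : Ax M l := Ax.of hl hlp hlc ⟨W * Ng, by ring⟩
  have halg : Ax (M * Ng) l := Ax.of hl hlp hlc ⟨W, by ring⟩
  obtain ⟨Nl, hNl0, hNl, hln, hld⟩ := exists_nat D hl.ne
  have hNlo : Odd Nl := odd_nsq hNl (coprime_not_dvd hal.c2)
  have hM0 : M ≠ 0 := by
    rintro rfl
    exact absurd hM (by decide)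
  have hcop : ∀ w ∈ S'', IsCoprime w l := by
    refine hWl l ?_
    exact hlc.of_isCoprime_of_dvd_right ⟨(3 * (M * Ng) : RR), by push_cast; ring⟩
  set n := M * Ng * Nl with hn
  have hno : Odd n := (hM.mul hNgo).mul hNlo
  have : NeZero n := ⟨mul_ne_zero (mul_ne_zero hM0 hNg0) hNl0⟩
  have hcfu1 : ∀ χ, Chw M χ → D.Cfu (M * Ng) (md (cc χ) 1 g) := fun χ hχ =>
    md_cfu (cc_cfu D hχ) 1 hgd
  have hcfu : ∀ χ, Chw M χ → D.Cfu n (Phi g l χ) := fun χ hχ => md_cfu (hcfu1 χ hχ) _ hld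
  have hmz : ∀ χ, Chw M χ → ∀ w ∈ S'', Mzv n (Phi g l χ) w := by
    intro χ hχ w hw
    exact mzv_cyn D (hcfu1 χ hχ).per hl halg.cM.symm hln (hcop w hw)
  have hk : ∀ (τ : Perm (Fin r)) k, k < r → ∃ w ∈ S', w ≠ 0 ∧
      (∀ j ≤ k, vt (gA ε) l0 τ j w = 0) := by
    intro τ k hk
    refine ⟨w τ ⟨k, hk⟩, ?_, hw0 τ ⟨k, hk⟩, hwk τ ⟨k, hk⟩⟩
    exact Finset.mem_insert_of_mem (Finset.mem_biUnion.2 ⟨τ, Finset.mem_univ _,
      Finset.mem_image_of_mem _ (Finset.mem_univ _)⟩)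
  have hone : ∃ w ∈ S', w ≠ 0 := ⟨1, Finset.mem_insert_self _ _, one_ne_zero⟩
  have hsub1 : ∀ w ∈ S', w ∈ S'' := fun w hw => Finset.mem_union_left _ hw
  have hok : ∀ χ, Chw M χ → Ok D ε π l0 S n (Phi g l χ) := by
    intro χ hχ
    refine ⟨hcfu χ hχ, ?_, ?_, ?_, ?_⟩
    · intro x hx h0
      apply hx
      rw [hπ0] at h0
      unfold Phi md Pool.Agent.Y688.dv
      rw [if_pos h0]
      ring
    · intro τ w hw
      exact hmz χ hχ w (Finset.mem_union_right _ (Finset.mem_biUnion.2 ⟨τ, Finset.mem_univ _, hw⟩))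
    · intro τ k hk'
      obtain ⟨w, hw, h0, h2⟩ := hk τ k hk'
      exact ⟨w, h0, h2, hmz χ hχ w (hsub1 w hw)⟩
    · obtain ⟨w, hw, h0⟩ := hone
      exact ⟨w, h0, hmz χ hχ w (hsub1 w hw)⟩
  have hval : ∀ φ, Ok D ε π l0 S n φ → _ := fun φ h => Ok.val hΛ0 hΛ hl0 hS hno h
  have hgl : IsCoprime g l := by
    have h1 := halg.cop D
    refine (h1.of_isCoprime_of_dvd_right ?_).symm
    rw [Nat.cast_mul]
    exact hgd.mul_left _
  refine ⟨g, l, n, hag, hal, hgl, fun χ hχ => ⟨hcfu χ hχ, (hval _ (hok χ hχ)).1⟩,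
    fun L Ω hL Γ _ v h2 => ⟨fun χ hχ hv => ?_, fun χ χ' hχ hχ' hv => ?_⟩⟩
  · obtain ⟨_, lm, _, h1, h3⟩ := hval _ (hok χ hχ)
    rw [h1]
    exact (h3 L Ω hL Γ v h2).1 (v_Phi_le h2 g l hv)
  · obtain ⟨_, lm, hlm, h1, _⟩ := hval _ (hok χ hχ)
    obtain ⟨_, lm', hlm', h1', _⟩ := hval _ (hok χ' hχ')
    have hsub := (hok χ hχ).sub (hok χ' hχ') hk (fun w hw => hmz χ hχ w (hsub1 w hw))
      (fun w hw => hmz χ' hχ' w (hsub1 w hw)) hone
    obtain ⟨_, lm2, hlm2, _, h3⟩ := hval _ hsub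
    have e : lm2 = fun τ => lm τ - lm' τ := by
      funext τ
      refine tendsto_nhds_unique (hlm2 τ) ?_
      refine ((hlm τ).sub (hlm' τ)).congr' ?_
      filter_upwards [self_mem_nhdsWithin] with ρ (hρ : 0 < ρ)
      rw [Ls_sub (hcfu χ hχ).bd (hcfu χ' hχ').bd _ hρ]
      ring
    have e2 : SS lm2 = SS lm - SS lm' := by
      rw [e]
      unfold SS
      rw [← Finset.sum_sub_distrib]
      exact Finset.sum_congr rfl fun τ _ => by ring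
    rw [h1, h1', ← e2]
    exact (h3 L Ω hL Γ v h2).2 (v_Phi_lt h2 g l hv)

end Pool.Agent.K7.H56
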