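import Pool.Agent.K7.H56.T18
import Pool.Agent.R430.C14

/-!
# The Euler factors of the auxiliary elements
-/

set_option autoImplicit false
set_option linter.unusedSectionVars false

open Complex Filter Topology Set MeasureTheory
open scoped PeriodPair

namespace Pool.Agent.K7.H56

open Pool.Agent.Y688 Pool.Agent.W192.HK Pool.Agent.TH936.CM Pool.Agent.R430 Pool.Agent.Y688.HF H667R3
open GN (Nm Dt cx Cfu Vx gV Good)

/-! ### numbers coprime to three -/

lemma ups_one_norm {n : RR} (h3 : IsCoprime n 3) : ‖ups n‖ = 1 := by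
  rcases three_cases n with hl | ⟨u, r, hur⟩
  · exfalso
    exact not_unit_lam (h3.isUnit_of_dvd' hl lam_dvd_three)
  · rw [hur, ups_unit, unit_norm1]

lemma unit_of_nsq {n : RR} (h : normSq (n : ℂ) = 1) : IsUnit n := by
  obtain ⟨y, hy⟩ := dvd_nsq n (N := 1) (by rw [h]; simp)
  exact IsUnit.of_mul_eq_one y (by rw [← hy]; simp)

section vals
variable {Γ : Type} [LinearOrderedCommGroupWithZero Γ] {v : Valuation ℂ Γ}

lemma v_ne2 (h2 : v 2 < 1) {n : RR} (hc : IsCoprime n 2) : v (n : ℂ) = 1 :=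
  v_unit2 h2 fun ⟨s, hs⟩ => coprime_not_dvd hc ⟨s, hs⟩

lemma v_one_sub {z : ℂ} (h : v z < 1) : v (1 - z) = 1 := by
  rw [sub_eq_add_neg]
  exact v.map_one_add_of_lt (by rwa [v.map_neg])

/-- the first factor -/
lemma v_fac1 (h2 : v 2 < 1) {n : RR} (hc : IsCoprime n 2) (h3 : IsCoprime n 3) (hp : ¬ Pr1 n)
    {x : ℂ} (hx : v (x - 1) < 1) : v ((n : ℂ) - x * ups n) = 1 := by
  obtain ⟨N, hN⟩ := normSq_RR n
  have hNo : Odd N := odd_nsq hN (coprime_not_dvd hc)
  have hs := v_smooth h2 h3 hp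
  have hn := v_ne2 h2 hc
  have h4 : v ((n : ℂ) * (1 - ups n * (starRingEnd ℂ) (n : ℂ))) = 1 := by
    rw [map_mul, hs, hn, one_mul]
  obtain ⟨k, hk⟩ := hNo
  have h5 : (n : ℂ) * (starRingEnd ℂ) (n : ℂ) = N := by rw [Complex.mul_conj, hN]; simp
  have e : (n : ℂ) - x * ups n = (n : ℂ) * (1 - ups n * (starRingEnd ℂ) (n : ℂ)) +
      (2 * k * ups n - (x - 1) * ups n) := by
    have h6 : (N : ℂ) = 2 * k + 1 := by rw [hk]; push_cast; ring
    linear_combination (ups n) * h6 + (ups n) * h5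
  have hu := v_ups (v := v) h2 n
  have h7 : v (2 * (k : ℂ) * ups n - (x - 1) * ups n) < 1 := by
    refine v.map_sub_lt ?_ ?_
    · rw [map_mul, map_mul]
      have hk' : v (k : ℂ) ≤ 1 := by
        have := v_RR (v := v) (k : RR)
        exact_mod_cast this
      calc v 2 * v (k : ℂ) * v (ups n) ≤ v 2 * 1 * 1 := by gcongr
        _ = v 2 := by rw [mul_one, mul_one]
        _ < 1 := h2
    · rw [map_mul]
      exact mul_lt_one_of_lt_of_le hx hu
  rw [e, v.map_add_eq_of_lt_left (by rw [h4]; exact h7), h4]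

/-- the second factor -/
lemma v_fac2 (h2 : v 2 < 1) {n : RR} (h3 : IsCoprime n 3) (hp : ¬ Pr1 n)
    {x : ℂ} (hx : v (x - 1) < 1) : v (1 - x * (ups n * (starRingEnd ℂ) (n : ℂ))) = 1 := by
  have hs := v_smooth h2 h3 hp
  have e : 1 - x * (ups n * (starRingEnd ℂ) (n : ℂ)) =
      (1 - ups n * (starRingEnd ℂ) (n : ℂ)) + (-((x - 1) * (ups n * (starRingEnd ℂ) (n : ℂ)))) := by
    ring
  have h7 : v (-((x - 1) * (ups n * (starRingEnd ℂ) (n : ℂ)))) < 1 := by
    rw [v.map_neg, map_mul, map_mul]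
    refine mul_lt_one_of_lt_of_le hx (mul_le_one' (v_ups h2 n) ?_)
    exact v_RR (⟨(starRingEnd ℂ) (n : ℂ), Pool.Agent.W287.HK.conj_mem qr n⟩ : RR)
  rw [e, v.map_add_eq_of_lt_left (by rw [hs]; exact h7), hs]

end vals

variable {r : ℕ} {A : Type} [CommRing A] [Algebra RR A]

lemma Ax.Nm_gt [IsDomain A] (D : GN A r) {M : ℕ} {g : A} (h : Ax M g) : 1 < Nm g := by
  obtain ⟨N, hN⟩ := normSq_RR (Algebra.norm RR g)
  have h0 := Nm_pos D h.ne
  have hN' : Nm g = N := hN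
  rw [hN'] at h0 ⊢
  have h1 : N ≠ 1 := by
    rintro rfl
    obtain ⟨u, hu⟩ := unit_of_nsq (n := Algebra.norm RR g) (by rw [hN]; simp)
    exact h.np ⟨u, 0, by rw [hu]; ring⟩
  have h2 : 0 < N := by exact_mod_cast h0
  have h3 : 1 < N := by omega
  exact_mod_cast h3

lemma Ft_norm [IsDomain A] (D : GN A r) {M : ℕ} {g : A} (h : Ax M g) (s : ℂ) :
    ‖Ft s g‖ = Nm g ^ (1 / 2 - s.re) := by
  have hp := Nm_pos D h.ne
  unfold Ft
  rw [norm_mul, norm_mul, RCLike.norm_conj, ups_one_norm h.c3, one_mul,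
    Complex.norm_cpow_eq_rpow_re_of_pos hp]
  have h2 : ‖((Algebra.norm RR g : RR) : ℂ)‖ = Nm g ^ (1 / 2 : ℝ) := by
    unfold GN.Nm
    rw [Complex.normSq_eq_norm_sq, ← Real.sqrt_eq_rpow, Real.sqrt_sq (norm_nonneg _)]
  rw [h2, ← Real.rpow_add hp, Complex.neg_re]
  congr 1

lemma Ft_one [IsDomain A] (D : GN A r) {M : ℕ} {g : A} (h : Ax M g) :
    Ft 1 g * ((Algebra.norm RR g : RR) : ℂ) = ups (Algebra.norm RR g) := by
  have hp := Nm_pos D h.ne
  unfold Ft
  rw [Complex.cpow_neg_one]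
  have h1 : ((Algebra.norm RR g : RR) : ℂ) * (starRingEnd ℂ) ((Algebra.norm RR g : RR) : ℂ) =
      (Nm g : ℂ) := by
    rw [Complex.mul_conj]
    rfl
  have h0 : (Nm g : ℂ) ≠ 0 := by exact_mod_cast hp.ne'
  field_simp
  linear_combination (ups (Algebra.norm RR g)) * h1

/-- the modified Euler factors -/
noncomputable def Ef (g l : A) (xg xl : ℂ) (s : ℂ) : ℂ :=
  (1 - 1 * (xg * Ft s g)) * (1 - (Nm l : ℂ) * (xl * Ft s l))

lemma Ef_entire [IsDomain A] (D : GN A r) {g l : A} (hg : g ≠ 0) (hl : l ≠ 0) (xg xl : ℂ) :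
    Differentiable ℂ (Ef g l xg xl) := by
  unfold Ef
  refine Differentiable.mul ?_ ?_
  · exact (differentiable_const _).sub (((Ft_entire D hg).const_mul xg).const_mul 1)
  · exact (differentiable_const _).sub (((Ft_entire D hl).const_mul xl).const_mul _)

lemma Ef_ne [IsDomain A] (D : GN A r) {M : ℕ} {g l : A} (hg : Ax M g) (hl : Ax M l) {xg xl : ℂ}
    (hxg : ‖xg‖ = 1) (hxl : ‖xl‖ = 1) {s : ℂ} (hs : 3 / 2 < s.re ∨ s = 1) :
    Ef g l xg xl s ≠ 0 := by
  have hre : 1 / 2 < s.re := by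
    rcases hs with h | h
    · linarith
    · rw [h]
      norm_num
  have hg1 := hg.Nm_gt D
  have hl1 := hl.Nm_gt D
  have hl0 : (0 : ℝ) < Nm l := by linarith
  unfold Ef
  refine mul_ne_zero ?_ ?_
  · intro h0
    have h1 : ‖xg * Ft s g‖ = 1 := by
      have : xg * Ft s g = 1 := by linear_combination -h0
      rw [this, norm_one]
    rw [norm_mul, hxg, one_mul, Ft_norm D hg] at h1
    have h2 : Nm g ^ (1 / 2 - s.re) < 1 := Real.rpow_lt_one_of_one_lt_of_neg hg1 (by linarith)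
    exact h2.ne h1
  · intro h0
    have h1 : ‖(Nm l : ℂ) * (xl * Ft s l)‖ = 1 := by
      have : (Nm l : ℂ) * (xl * Ft s l) = 1 := by linear_combination -h0
      rw [this, norm_one]
    rw [norm_mul, norm_mul, hxl, one_mul, Ft_norm D hl, Complex.norm_real, Real.norm_eq_abs,
      abs_of_pos hl0] at h1
    have h2 : Nm l * Nm l ^ (1 / 2 - s.re) = Nm l ^ (3 / 2 - s.re) := by
      have : (3 / 2 - s.re : ℝ) = 1 + (1 / 2 - s.re) := by ring
      rw [this, Real.rpow_add hl0, Real.rpow_one]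
    rw [h2] at h1
    rcases hs with h | h
    · exact (Real.rpow_lt_one_of_one_lt_of_neg hl1 (by linarith)).ne h1
    · rw [h, Complex.one_re] at h1
      exact (Real.one_lt_rpow hl1 (by norm_num)).ne' h1

section vals2
variable {Γ : Type} [LinearOrderedCommGroupWithZero Γ] {v : Valuation ℂ Γ}

lemma Ef_eq [IsDomain A] (D : GN A r) {M : ℕ} {g l : A} (hg : Ax M g) (hl : Ax M l)
    (xg xl : ℂ) : Ef g l xg xl 1 = (1 - xg * (ups (Algebra.norm RR g) /
      ((Algebra.norm RR g : RR) : ℂ))) * (1 - xl * (ups (Algebra.norm RR l) *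
        (starRingEnd ℂ) ((Algebra.norm RR l : RR) : ℂ))) := by
  have h1 := Ft_one D hg
  have h2 := Ft_one D hl
  have ng : ((Algebra.norm RR g : RR) : ℂ) ≠ 0 := by exact_mod_cast D.norm_ne hg.ne
  have nl : ((Algebra.norm RR l : RR) : ℂ) ≠ 0 := by exact_mod_cast D.norm_ne hl.ne
  have h1' : Ft 1 g = ups (Algebra.norm RR g) / ((Algebra.norm RR g : RR) : ℂ) := by
    rw [eq_div_iff ng, h1]
  have h3 : ((Algebra.norm RR l : RR) : ℂ) * (starRingEnd ℂ) ((Algebra.norm RR l : RR) : ℂ) =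
      (Nm l : ℂ) := by
    rw [Complex.mul_conj]
    rfl
  unfold Ef
  rw [h1', one_mul]
  congr 1
  congr 1
  rw [← h3, ← h2]
  ring

lemma Ef_v [IsDomain A] (D : GN A r) {M : ℕ} {g l : A} (hg : Ax M g) (hl : Ax M l)
    (h2 : v 2 < 1) {xg xl : ℂ} (hxg : v (xg - 1) < 1) (hxl : v (xl - 1) < 1) :
    v (Ef g l xg xl 1) = 1 := by
  have ng : ((Algebra.norm RR g : RR) : ℂ) ≠ 0 := by exact_mod_cast D.norm_ne hg.ne
  rw [Ef_eq D hg hl, map_mul, v_fac2 h2 hl.c3 hl.np hxl, mul_one]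
  have e : 1 - xg * (ups (Algebra.norm RR g) / ((Algebra.norm RR g : RR) : ℂ)) =
      (((Algebra.norm RR g : RR) : ℂ) - xg * ups (Algebra.norm RR g)) /
        ((Algebra.norm RR g : RR) : ℂ) := by
    field_simp
  rw [e, map_div₀, v_fac1 h2 hg.c2 hg.c3 hg.np hxg, v_ne2 h2 hg.c2, div_one]

lemma Ef_v_sub [IsDomain A] (D : GN A r) {M : ℕ} {g l : A} (hg : Ax M g) (hl : Ax M l)
    (h2 : v 2 < 1) {xg xl xg' xl' : ℂ} (hxg : v (xg - 1) < 1) (hxl : v (xl - 1) < 1)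
    (hxg' : v (xg' - 1) < 1) (hxl' : v (xl' - 1) < 1) :
    v (Ef g l xg xl 1 - Ef g l xg' xl' 1) < 1 := by
  rw [Ef_eq D hg hl, Ef_eq D hg hl]
  set a : ℂ := ups (Algebra.norm RR g) / ((Algebra.norm RR g : RR) : ℂ) with ha
  set b : ℂ := ups (Algebra.norm RR l) * (starRingEnd ℂ) ((Algebra.norm RR l : RR) : ℂ) with hb
  have va : v a ≤ 1 := by
    rw [ha, map_div₀, v_ne2 h2 hg.c2, div_one]
    exact v_ups h2 _
  have vb : v b ≤ 1 := by
    rw [hb, map_mul]
    refine mul_le_one' (v_ups h2 _) ?_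
    exact v_RR (⟨(starRingEnd ℂ) ((Algebra.norm RR l : RR) : ℂ),
      Pool.Agent.W287.HK.conj_mem qr _⟩ : RR)
  have hle : ∀ {x : ℂ}, v (x - 1) < 1 → v x ≤ 1 := by
    intro x hx
    have e : x = (x - 1) + 1 := by ring
    rw [e]
    exact (v.map_add _ _).trans (max_le hx.le (by rw [map_one]))
  have e : (1 - xg * a) * (1 - xl * b) - (1 - xg' * a) * (1 - xl' * b) =
      -(((xg - 1) - (xg' - 1)) * (a * (1 - xl * b))) -
        ((xl - 1) - (xl' - 1)) * (b * (1 - xg' * a)) := by ring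
  rw [e]
  have k1 : ∀ {x y : ℂ}, v x ≤ 1 → v y ≤ 1 → v (1 - x * y) ≤ 1 := by
    intro x y hx hy
    refine (v.map_sub _ _).trans (max_le (by rw [map_one]) ?_)
    rw [map_mul]
    exact mul_le_one' hx hy
  refine v.map_sub_lt ?_ ?_
  · rw [v.map_neg, map_mul, map_mul]
    exact mul_lt_one_of_lt_of_le (v.map_sub_lt hxg hxg') (mul_le_one' va (k1 (hle hxl) vb))
  · rw [map_mul, map_mul]
    exact mul_lt_one_of_lt_of_le (v.map_sub_lt hxl hxl') (mul_le_one' vb (k1 (hle hxg') va))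

end vals2

end Pool.Agent.K7.H56
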