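import Mathlib

/-!
# Integrals over boxes
-/

set_option autoImplicit false

open MeasureTheory Set Filter Topology

namespace Pool.Agent.K7.H56

variable {n : ℕ}

lemma mem_box_iff (b : Fin (n + 1)) {lo hi : Fin (n + 1) → ℝ} {t : ℝ} {y : Fin n → ℝ} :
    b.insertNth (α := fun _ => ℝ) t y ∈ Icc lo hi ↔ t ∈ Icc (lo b) (hi b) ∧
      y ∈ Icc (fun j => lo (b.succAbove j)) (fun j => hi (b.succAbove j)) := by
  simp only [mem_Icc, Pi.le_def]
  constructor
  · rintro ⟨h1, h2⟩
    refine ⟨⟨?_, ?_⟩, fun j => ?_, fun j => ?_⟩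
    · simpa using h1 b
    · simpa using h2 b
    · simpa using h1 (b.succAbove j)
    · simpa using h2 (b.succAbove j)
  · rintro ⟨⟨h1, h2⟩, h3, h4⟩
    constructor
    · intro i
      rcases Fin.eq_self_or_eq_succAbove b i with rfl | ⟨j, rfl⟩
      · simpa using h1
      · simpa using h3 j
    · intro i
      rcases Fin.eq_self_or_eq_succAbove b i with rfl | ⟨j, rfl⟩
      · simpa using h2
      · simpa using h4 j

lemma cont_ins (b : Fin (n + 1)) :
    Continuous fun p : ℝ × (Fin n → ℝ) => b.insertNth (α := fun _ => ℝ) p.1 p.2 :=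
  Continuous.finInsertNth b continuous_fst continuous_snd

/-- Fubini for boxes -/
lemma int_box (b : Fin (n + 1)) {lo hi : Fin (n + 1) → ℝ} (hle : lo b ≤ hi b)
    {F : (Fin (n + 1) → ℝ) → ℂ} (hF : Continuous F) :
    ∫ z in Icc lo hi, F z = ∫ y in Icc (fun j => lo (b.succAbove j)) (fun j => hi (b.succAbove j)),
      ∫ t in (lo b)..(hi b), F (b.insertNth t y) := by
  have h1 := (volume_preserving_piFinSuccAbove (fun _ : Fin (n + 1) => ℝ) b).symm
  have h2 := h1.setIntegral_preimage_emb (MeasurableEquiv.measurableEmbedding _) F (Icc lo hi)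
  have hs : (MeasurableEquiv.piFinSuccAbove (fun _ : Fin (n + 1) => ℝ) b).symm ⁻¹' (Icc lo hi) =
      Icc (lo b) (hi b) ×ˢ Icc (fun j => lo (b.succAbove j)) (fun j => hi (b.succAbove j)) := by
    ext ⟨t, y⟩
    exact mem_box_iff b
  rw [hs] at h2
  rw [← h2]
  have h3 : ∀ p : ℝ × (Fin n → ℝ), F ((MeasurableEquiv.piFinSuccAbove (fun _ : Fin (n + 1) => ℝ) b).symm p) =
      F (b.insertNth p.1 p.2) := fun p => rfl
  simp only [h3]
  have hc : Continuous fun p : ℝ × (Fin n → ℝ) => F (b.insertNth p.1 p.2) := hF.comp (cont_ins b)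
  have hint : IntegrableOn (fun p : (Fin n → ℝ) × ℝ => F (b.insertNth p.2 p.1))
      (Icc (fun j => lo (b.succAbove j)) (fun j => hi (b.succAbove j)) ×ˢ Icc (lo b) (hi b))
      (volume.prod volume) := by
    refine ContinuousOn.integrableOn_compact (isCompact_Icc.prod isCompact_Icc) ?_
    exact (hc.comp continuous_swap).continuousOn
  rw [Measure.volume_eq_prod, ← setIntegral_prod_swap]
  simp only [Prod.swap]
  rw [setIntegral_prod _ hint]
  refine integral_congr_ae (Eventually.of_forall fun y => ?_)
  simp only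
  rw [intervalIntegral.integral_of_le hle, integral_Icc_eq_integral_Ioc]

/-- The fundamental theorem of calculus in one direction. -/
theorem ftc_box (b : Fin (n + 1)) {lo hi : Fin (n + 1) → ℝ} (hlt : lo b < hi b)
    {G G' : (Fin (n + 1) → ℝ) → ℂ} (hG : Continuous G) (hG' : Continuous G')
    (hd : ∀ z t, HasDerivAt (fun t => G (Function.update z b t)) (G' (Function.update z b t)) t) :
    ∫ z in Icc lo hi, G' z = ∫ z in Icc lo hi, ((hi b - lo b : ℝ) : ℂ)⁻¹ *
      (G (Function.update z b (hi b)) - G (Function.update z b (lo b))) := by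
  have hc : ∀ s : ℝ, Continuous fun z : Fin (n + 1) → ℝ => Function.update z b s := fun s =>
    continuous_id.update b continuous_const
  have hF : Continuous fun z : Fin (n + 1) → ℝ => ((hi b - lo b : ℝ) : ℂ)⁻¹ *
      (G (Function.update z b (hi b)) - G (Function.update z b (lo b))) :=
    continuous_const.mul ((hG.comp (hc _)).sub (hG.comp (hc _)))
  rw [int_box b hlt.le hG', int_box b hlt.le hF]
  refine integral_congr_ae (Eventually.of_forall fun y => ?_)
  simp only [Fin.update_insertNth]
  rw [intervalIntegral.integral_const]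
  have h1 : ∀ t : ℝ, HasDerivAt (fun t => G (b.insertNth t y)) (G' (b.insertNth t y)) t := by
    intro t
    have := hd (b.insertNth 0 y) t
    simpa only [Fin.update_insertNth] using this
  rw [intervalIntegral.integral_eq_sub_of_hasDerivAt (fun t _ => h1 t)
    ((hG'.comp ((cont_ins b).comp (Continuous.prodMk_left y))).intervalIntegrable _ _)]
  have hne : ((hi b - lo b : ℝ) : ℂ) ≠ 0 := by
    exact_mod_cast (sub_pos.2 hlt).ne'
  rw [Complex.real_smul, ← mul_assoc, mul_inv_cancel₀ hne, one_mul]

/-! ### the boxes -/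

/-- the box `[-T, T] × [0, 1] ^ r` -/
def lo {r : ℕ} (T : ℝ) : Fin (r + 1) → ℝ := Fin.cons (-T) (fun _ => 0)

def hi {r : ℕ} (T : ℝ) : Fin (r + 1) → ℝ := Fin.cons T (fun _ => 1)

@[simp] lemma lo_zero {r : ℕ} (T : ℝ) : lo (r := r) T 0 = -T := rfl
@[simp] lemma hi_zero {r : ℕ} (T : ℝ) : hi (r := r) T 0 = T := rfl
@[simp] lemma lo_succ {r : ℕ} (T : ℝ) (b : Fin r) : lo T b.succ = 0 := rfl
@[simp] lemma hi_succ {r : ℕ} (T : ℝ) (b : Fin r) : hi T b.succ = 1 := rfl

/-- the face on which the coordinates in `J` are zero -/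
def fc {r : ℕ} (J : Finset (Fin r)) (z : Fin (r + 1) → ℝ) : Fin (r + 1) → ℝ :=
  Fin.cons (z 0) (fun b => if b ∈ J then 0 else z b.succ)

variable {r : ℕ} {J : Finset (Fin r)}

@[simp] lemma fc_zero (z : Fin (r + 1) → ℝ) : fc J z 0 = z 0 := rfl

@[simp] lemma fc_succ (z : Fin (r + 1) → ℝ) (b : Fin r) :
    fc J z b.succ = if b ∈ J then 0 else z b.succ := rfl

lemma fc_empty (z : Fin (r + 1) → ℝ) : fc ∅ z = z := by
  funext i
  refine Fin.cases ?_ (fun b => ?_) i
  · rfl
  · simp

lemma cont_fc : Continuous (fc J) := by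
  refine continuous_pi fun i => ?_
  refine Fin.cases ?_ (fun b => ?_) i
  · exact continuous_apply 0
  · simp only [fc_succ]
    split_ifs
    · exact continuous_const
    · exact continuous_apply _

lemma fc_update {b : Fin r} (hb : b ∉ J) (z : Fin (r + 1) → ℝ) (t : ℝ) :
    fc J (Function.update z b.succ t) = Function.update (fc J z) b.succ t := by
  funext i
  refine Fin.cases ?_ (fun c => ?_) i
  · rw [fc_zero, Function.update_of_ne (Fin.succ_ne_zero b).symm,
      Function.update_of_ne (Fin.succ_ne_zero b).symm, fc_zero]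
  · by_cases hc : c = b
    · subst hc
      simp [hb]
    · have hne : c.succ ≠ b.succ := fun h => hc (Fin.succ_injective _ h)
      rw [fc_succ, Function.update_of_ne hne, Function.update_of_ne hne, fc_succ]

lemma fc_update_zero (z : Fin (r + 1) → ℝ) (t : ℝ) :
    fc J (Function.update z 0 t) = Function.update (fc J z) 0 t := by
  funext i
  refine Fin.cases ?_ (fun c => ?_) i
  · rw [fc_zero, Function.update_self, Function.update_self]
  · have hne : c.succ ≠ 0 := Fin.succ_ne_zero c
    rw [fc_succ, Function.update_of_ne hne, Function.update_of_ne hne, fc_succ]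

lemma fc_insert (b : Fin r) (z : Fin (r + 1) → ℝ) :
    fc (insert b J) z = Function.update (fc J z) b.succ 0 := by
  funext i
  refine Fin.cases ?_ (fun c => ?_) i
  · rw [fc_zero, Function.update_of_ne (Fin.succ_ne_zero b).symm, fc_zero]
  · by_cases hc : c = b
    · subst hc
      simp
    · have hne : c.succ ≠ b.succ := fun h => hc (Fin.succ_injective _ h)
      rw [fc_succ, Function.update_of_ne hne, fc_succ]
      simp [hc]

lemma fc_insert_one (b : Fin r) (z : Fin (r + 1) → ℝ) :
    Function.update (fc J z) b.succ 1 =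
      fun c => fc (insert b J) z c + if c = b.succ then 1 else 0 := by
  rw [fc_insert]
  funext i
  by_cases hi : i = b.succ
  · subst hi
    simp
  · rw [Function.update_of_ne hi, Function.update_of_ne hi, if_neg hi, add_zero]

/-- the integral over the face -/
noncomputable def fI {r : ℕ} (T : ℝ) (J : Finset (Fin r)) (G : (Fin (r + 1) → ℝ) → ℂ) : ℂ :=
  ∫ z in Icc (lo (r := r) T) (hi T), G (fc J z)

/-- the derivative in a direction along the box -/
lemma fI_deriv (T : ℝ) {b : Fin r} (hb : b ∉ J) {G G' : (Fin (r + 1) → ℝ) → ℂ}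
    (hG : Continuous G) (hG' : Continuous G')
    (hd : ∀ z t, HasDerivAt (fun t => G (Function.update z b.succ t))
      (G' (Function.update z b.succ t)) t) :
    fI T J G' = fI T (insert b J) (fun z => G (fun c => z c + if c = b.succ then 1 else 0)) -
      fI T (insert b J) G := by
  unfold fI
  have hc1 : Continuous fun z : Fin (r + 1) → ℝ => (fun c => z c + if c = b.succ then (1 : ℝ) else 0) :=
    continuous_pi fun c => (continuous_apply c).add continuous_const
  rw [ftc_box (b := b.succ) (lo := lo T) (hi := hi T) (G := fun z => G (fc J z))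
    (G' := fun z => G' (fc J z)) (by simp) (hG.comp cont_fc) (hG'.comp cont_fc)
    (fun z t => by simpa only [fc_update hb] using hd (fc J z) t)]
  rw [← integral_sub]
  · refine integral_congr_ae (Eventually.of_forall fun z => ?_)
    simp only [hi_succ, lo_succ, sub_zero, Complex.ofReal_one, inv_one, one_mul, fc_update hb]
    rw [fc_insert_one, ← fc_insert]
  · exact ContinuousOn.integrableOn_compact isCompact_Icc
      ((hG.comp (hc1.comp cont_fc)).continuousOn)
  · exact ContinuousOn.integrableOn_compact isCompact_Icc ((hG.comp cont_fc).continuousOn)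

/-- the derivative in the direction of time -/
lemma fI_time {T : ℝ} (hT : 0 < T) {G G' : (Fin (r + 1) → ℝ) → ℂ}
    (hG : Continuous G) (hG' : Continuous G')
    (hd : ∀ z t, HasDerivAt (fun t => G (Function.update z 0 t)) (G' (Function.update z 0 t)) t) :
    fI T J G' = ((T - -T : ℝ) : ℂ)⁻¹ * (fI T J (fun z => G (Function.update z 0 T)) -
      fI T J (fun z => G (Function.update z 0 (-T)))) := by
  unfold fI
  have hc : ∀ s : ℝ, Continuous fun z : Fin (r + 1) → ℝ => Function.update z 0 s := fun s =>
    continuous_id.update 0 continuous_const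
  rw [ftc_box (b := 0) (lo := lo T) (hi := hi T) (G := fun z => G (fc J z))
    (G' := fun z => G' (fc J z)) (by simp; linarith) (hG.comp cont_fc) (hG'.comp cont_fc)
    (fun z t => by simpa only [fc_update_zero] using hd (fc J z) t)]
  rw [← integral_sub, ← integral_const_mul]
  · refine integral_congr_ae (Eventually.of_forall fun z => ?_)
    simp only [hi_zero, lo_zero, fc_update_zero]
  · exact ContinuousOn.integrableOn_compact isCompact_Icc
      ((hG.comp ((hc T).comp cont_fc)).continuousOn)
  · exact ContinuousOn.integrableOn_compact isCompact_Icc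
      ((hG.comp ((hc (-T)).comp cont_fc)).continuousOn)

lemma vol_box {T : ℝ} (hT : 0 < T) : volume.real (Icc (lo (r := r) T) (hi T)) = 2 * T := by
  rw [Measure.real, Real.volume_Icc_pi, Fin.prod_univ_succ]
  simp only [hi_zero, lo_zero, hi_succ, lo_succ, sub_zero, ENNReal.ofReal_one, Finset.prod_const_one,
    mul_one]
  rw [ENNReal.toReal_ofReal (by linarith)]
  ring

lemma fI_bound {T : ℝ} (hT : 0 < T) {G : (Fin (r + 1) → ℝ) → ℂ} {C : ℝ}
    (h : ∀ z, (∀ b : Fin r, z b.succ ∈ Icc (0 : ℝ) 1) → ‖G z‖ ≤ C) :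
    ‖fI T J G‖ ≤ C * (2 * T) := by
  unfold fI
  rw [← vol_box (r := r) hT]
  refine norm_setIntegral_le_of_norm_le_const isCompact_Icc.measure_lt_top fun z hz => ?_
  refine h _ fun b => ?_
  rw [fc_succ]
  split_ifs
  · exact ⟨le_rfl, zero_le_one⟩
  · exact ⟨hz.1 b.succ, hz.2 b.succ⟩

end Pool.Agent.K7.H56
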