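import Pool.Agent.K7.H56.T19

/-!
# The partial zeta functions of a ring
-/

set_option autoImplicit false
set_option linter.unusedSectionVars false

open Complex Filter Topology Set MeasureTheory
open scoped PeriodPair

namespace Pool.Agent.K7.H56

open Pool.Agent.Y688 Pool.Agent.W192.HK Pool.Agent.TH936.CM Pool.Agent.R430 Pool.Agent.Y688.HF H667R3
open Equiv (Perm)
open GN (Nm Dt cx Cfu Vx gV Good kap)

variable {r : ℕ} {A : Type} [CommRing A] [Algebra RR A]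

/-- continuation of the sum over the principal ideals -/
structure PVA (χ : A → ℂ) (f : ℂ → ℂ) : Prop where
  mero : MeromorphicOn f Set.univ
  an : AnalyticAt ℂ f 1
  sum : ∀ s : ℂ, 3 / 2 < s.re → HasSum (fun I : PI A => Dt (cc χ) s (gp I)) (f s)

/-- the constant -/
noncomputable def cst (Λ : Fin (r + 1) → Fin (r + 1) → ℝ) : ℂ :=
  kap Λ * ((|(Matrix.of Λ).det|⁻¹ : ℝ) : ℂ)

lemma cst_eq {Λ : Fin (r + 1) → Fin (r + 1) → ℝ} (hdet : (Matrix.of Λ).det ≠ 0) :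
    cst Λ = 1 ∨ cst Λ = -1 := by
  unfold cst
  have h0 : (((Matrix.of Λ).det : ℝ) : ℂ) ≠ 0 := by exact_mod_cast hdet
  rcases GN.kap_eq Λ with h | h
  · rcases le_total 0 (Matrix.of Λ).det with h1 | h1
    · left
      rw [h, abs_of_nonneg h1, Complex.ofReal_inv, mul_inv_cancel₀ h0]
    · right
      rw [h, abs_of_nonpos h1, Complex.ofReal_inv, Complex.ofReal_neg, inv_neg, mul_neg,
        mul_inv_cancel₀ h0]
  · rcases le_total 0 (Matrix.of Λ).det with h1 | h1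
    · right
      rw [h, abs_of_nonneg h1, Complex.ofReal_inv, neg_mul, mul_inv_cancel₀ h0]
    · left
      rw [h, abs_of_nonpos h1, Complex.ofReal_inv, Complex.ofReal_neg, inv_neg, neg_mul_neg,
        mul_inv_cancel₀ h0]

/-- the value function -/
noncomputable def fv (D : GN A r) (Λ : Fin (r + 1) → Fin (r + 1) → ℝ) (c0 : ℂ) (g l : A)
    (χ : A → ℂ) (xg xl : ℂ) (s : ℂ) : ℂ :=
  c0⁻¹ * ((Complex.Gamma s)⁻¹ ^ (r + 1) * D.LI Λ (Phi g l χ) s) / Ef g l xg xl s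

lemma fv_pva [IsDomain A] (D : GN A r) {ε : Fin r → Aˣ}
    {Λ : Fin (r + 1) → Fin (r + 1) → ℝ} (hΛ0 : ∀ i, Λ 0 i = 1)
    (hΛ : ∀ (b : Fin r) i, Λ b.succ i = Real.log (normSq (D.σ i (ε b : A))))
    (hdet : (Matrix.of Λ).det ≠ 0) {T : Subgroup Aˣ} [Finite T]
    (hU : Function.Bijective (fun p : T × (Fin r → ℤ) => (p.1 : Aˣ) * ∏ b, ε b ^ p.2 b))
    (hsum : ∀ t : ℝ, 1 < t → Summable (fun I : PI A => Nm (gp I) ^ (-t))) {M n : ℕ} {g l : A}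
    (hg : Ax M g) (hl : Ax M l) (hgl : IsCoprime g l) {χ : A → ℂ} (hχ : Chw M χ)
    (hc : D.Cfu n (Phi g l χ)) (hL : Differentiable ℂ (D.LI Λ (Phi g l χ))) {xg xl : ℂ}
    (hxg : ∀ β, χ (g * β) = xg * χ β) (hxl : ∀ β, χ (l * β) = xl * χ β)
    (hxg1 : ‖xg‖ = 1) (hxl1 : ‖xl‖ = 1) :
    PVA χ (fv D Λ ((Nat.card T : ℂ) * cst Λ) g l χ xg xl) := by
  have hEd := Ef_entire D hg.ne hl.ne xg xl
  have hnum : Differentiable ℂ (fun s => ((Nat.card T : ℂ) * cst Λ)⁻¹ *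
      ((Complex.Gamma s)⁻¹ ^ (r + 1) * D.LI Λ (Phi g l χ) s)) :=
    ((Complex.differentiable_one_div_Gamma.pow (r + 1)).mul hL).const_mul _
  refine ⟨fun s _ => ?_, ?_, fun s hs => ?_⟩
  · exact (hnum.analyticAt s).meromorphicAt.div (hEd.analyticAt s).meromorphicAt
  · exact (hnum.analyticAt 1).div (hEd.analyticAt 1) (Ef_ne D hg hl hxg1 hxl1 (Or.inr rfl))
  · have h1 := GN.unfold_sum hc hΛ0 hΛ hdet hU hsum hs
    have h2 := (Dt_summ D hχ hsum hs).hasSum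
    set S := ∑' I : PI A, Dt (cc χ) s (gp I) with hS
    have hc1 := cc_cfu D hχ
    obtain ⟨Ng, _, _, _, hgd⟩ := exists_nat D hg.ne
    have hc2 := md_cfu hc1 1 hgd
    have h3 := sum_md hc1 hg.ne 1 (Dt_mulx hxg s) h2
    have h4 := sum_md hc2 hl.ne (Nm l : ℂ) (y := xl * Ft s l) (fun β => by
      rw [Dt_md, Dt_md, Dt_mulx hxl s β]
      have e : dv g (l * β) = dv g β := dv_congr ⟨fun h => hgl.dvd_of_dvd_mul_left h,
        fun h => h.mul_left _⟩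
      rw [e]
      ring) h3
    have hcard : (Nat.card T : ℂ) ≠ 0 := by
      have : 0 < Nat.card T := Nat.card_pos
      exact_mod_cast this.ne'
    have hcs : cst Λ ≠ 0 := by
      rcases cst_eq hdet with h | h
      · rw [h]
        exact one_ne_zero
      · rw [h]
        exact neg_ne_zero.2 one_ne_zero
    have hG : Complex.Gamma s ≠ 0 := Complex.Gamma_ne_zero_of_re_pos (by linarith)
    have hE := Ef_ne D hg hl hxg1 hxl1 (Or.inl hs : 3 / 2 < s.re ∨ s = 1)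
    have h5 := h4.mul_left ((Nat.card T : ℂ) * (kap Λ * ((|(Matrix.of Λ).det|⁻¹ : ℝ) : ℂ)) *
      Complex.Gamma s ^ (r + 1))
    have h6 : D.LI Λ (Phi g l χ) s = _ := h1.unique h5
    have e : fv D Λ ((Nat.card T : ℂ) * cst Λ) g l χ xg xl s = S := by
      unfold fv
      rw [h6]
      have e2 : (1 - (Nm l : ℂ) * (xl * Ft s l)) * ((1 - 1 * (xg * Ft s g)) * S) =
          Ef g l xg xl s * S := by
        unfold Ef
        ring
      rw [e2]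
      have e3 : kap Λ * ((|(Matrix.of Λ).det|⁻¹ : ℝ) : ℂ) = cst Λ := rfl
      rw [e3]
      field_simp
      rw [one_div, ← mul_pow, inv_mul_cancel₀ hG, one_pow, one_mul]
    rw [e]
    exact h2

lemma norm_root {x : ℂ} {k : ℕ} (h : x ^ 2 ^ k = 1) : ‖x‖ = 1 :=
  norm_eq_one_of_pow_eq_one h (pow_ne_zero k two_ne_zero)

theorem pz_A [IsDomain A] [NoZeroSMulDivisors RR A] (D : GN A r) (ε : Fin r → Aˣ)
    (Λ : Fin (r + 1) → Fin (r + 1) → ℝ) (hΛ0 : ∀ i, Λ 0 i = 1)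
    (hΛ : ∀ (b : Fin r) i, Λ b.succ i = Real.log (normSq (D.σ i (ε b : A))))
    (hdet : (Matrix.of Λ).det ≠ 0) {T : Subgroup Aˣ} [Finite T]
    (hU : Function.Bijective (fun p : T × (Fin r → ℤ) => (p.1 : Aˣ) * ∏ b, ε b ^ p.2 b))
    (hsum : ∀ t : ℝ, 1 < t → Summable (fun I : PI A => Nm (gp I) ^ (-t)))
    (cyn : ∀ W : ℕ, Odd W → ∃ l : A, Cyn l ∧ ¬ Pr1 (Algebra.norm RR l) ∧
      IsCoprime (Algebra.norm RR l) ((2 * (3 * W) : ℕ) : RR))
    {M : ℕ} {χ χ' : A → ℂ} (hχ : Chw M χ) (hχ' : Chw M χ') (hm : Mlt M χ) (hm' : Mlt M χ') :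
    ∃ f f' : ℂ → ℂ, PVA χ f ∧ PVA χ' f' ∧
      ∀ (L : PeriodPair) (Ω : ℂ), HL L Ω → ∀ (Γ : Type) [LinearOrderedCommGroupWithZero Γ]
        (v : Valuation ℂ Γ), v 2 < 1 → v D.P.det = 1 → v (Nat.card T : ℂ) = v 2 →
        (∀ α, v (χ α) ≤ 1) → (∀ α, v (χ α - χ' α) < 1) →
        v (f 1) ≤ v Ω ^ (r + 1) ∧ v (f 1 - f' 1) < v Ω ^ (r + 1) := by
  obtain ⟨g, l, n, hg, hl, hgl, hC, hV⟩ := core_A D ε Λ hΛ0 hΛ hχ.odd cyn
  obtain ⟨xg, ⟨kg, hkg⟩, hxg⟩ := hm g (hg.cop D)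
  obtain ⟨xl, ⟨kl, hkl⟩, hxl⟩ := hm l (hl.cop D)
  obtain ⟨xg', ⟨kg', hkg'⟩, hxg'⟩ := hm' g (hg.cop D)
  obtain ⟨xl', ⟨kl', hkl'⟩, hxl'⟩ := hm' l (hl.cop D)
  refine ⟨_, _, fv_pva D hΛ0 hΛ hdet hU hsum hg hl hgl hχ (hC χ hχ).1 (hC χ hχ).2 hxg hxl
    (norm_root hkg) (norm_root hkl), fv_pva D hΛ0 hΛ hdet hU hsum hg hl hgl hχ' (hC χ' hχ').1
    (hC χ' hχ').2 hxg' hxl' (norm_root hkg') (norm_root hkl'),
    fun L Ω hL Γ _ v h2 hdP hcT hv hvs => ?_⟩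
  obtain ⟨hV1, hV2⟩ := hV L Ω hL Γ v h2
  have hv' : ∀ α, v (χ' α) ≤ 1 := by
    intro α
    have e : χ' α = χ α - (χ α - χ' α) := by ring
    rw [e]
    exact (v.map_sub _ _).trans (max_le (hv α) (hvs α).le)
  have a1 := hV1 χ hχ hv
  have a2 := hV1 χ' hχ' hv'
  have a3 := hV2 χ χ' hχ hχ' hvs
  rw [map_mul, hdP, one_mul] at a1 a2 a3
  set E := Ef g l xg xl 1 with hE
  set E' := Ef g l xg' xl' 1 with hE'
  have bE : v E = 1 := Ef_v D hg hl h2 (v_sub_one h2 kg hkg) (v_sub_one h2 kl hkl)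
  have bE' : v E' = 1 := Ef_v D hg hl h2 (v_sub_one h2 kg' hkg') (v_sub_one h2 kl' hkl')
  have bEE : v (E - E') < 1 := Ef_v_sub D hg hl h2 (v_sub_one h2 kg hkg) (v_sub_one h2 kl hkl)
    (v_sub_one h2 kg' hkg') (v_sub_one h2 kl' hkl')
  set c0 : ℂ := (Nat.card T : ℂ) * cst Λ with hc0
  have hvc : v c0 = v 2 := by
    rw [hc0, map_mul, hcT]
    rcases cst_eq hdet with h | h
    · rw [h, map_one, mul_one]
    · rw [h, v.map_neg, map_one, mul_one]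
  have h20 : v 2 ≠ 0 := (v.ne_zero_iff).2 two_ne_zero
  have hΩ0 : v Ω ^ (r + 1) ≠ 0 := pow_ne_zero _ ((v.ne_zero_iff).2 hL.ne)
  have hE0 : E ≠ 0 := by
    intro h0
    rw [h0, map_zero] at bE
    exact zero_ne_one bE
  have hE0' : E' ≠ 0 := by
    intro h0
    rw [h0, map_zero] at bE'
    exact zero_ne_one bE'
  have f1 : fv D Λ c0 g l χ xg xl 1 = c0⁻¹ * D.LI Λ (Phi g l χ) 1 / E := by
    unfold fv
    rw [Complex.Gamma_one, inv_one, one_pow, one_mul]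
  have f2 : fv D Λ c0 g l χ' xg' xl' 1 = c0⁻¹ * D.LI Λ (Phi g l χ') 1 / E' := by
    unfold fv
    rw [Complex.Gamma_one, inv_one, one_pow, one_mul]
  have d1 : ∀ z : ℂ, v z ≤ v 2 * v Ω ^ (r + 1) → v (c0⁻¹ * z) ≤ v Ω ^ (r + 1) := by
    intro z hz
    rw [map_mul, map_inv₀, hvc]
    calc (v 2)⁻¹ * v z ≤ (v 2)⁻¹ * (v 2 * v Ω ^ (r + 1)) := by gcongr
      _ = _ := inv_mul_cancel_left₀ h20 _
  have d2 : ∀ z : ℂ, v z < v 2 * v Ω ^ (r + 1) → v (c0⁻¹ * z) < v Ω ^ (r + 1) := by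
    intro z hz
    rw [map_mul, map_inv₀, hvc]
    calc (v 2)⁻¹ * v z < (v 2)⁻¹ * (v 2 * v Ω ^ (r + 1)) := by
          exact mul_lt_mul_of_pos_left hz (zero_lt_iff.2 (inv_ne_zero h20))
      _ = _ := inv_mul_cancel_left₀ h20 _
  rw [f1, f2]
  refine ⟨?_, ?_⟩
  · rw [map_div₀, bE, div_one]
    exact d1 _ a1
  · have e : c0⁻¹ * D.LI Λ (Phi g l χ) 1 / E - c0⁻¹ * D.LI Λ (Phi g l χ') 1 / E' =
        c0⁻¹ * (D.LI Λ (Phi g l χ) 1 - D.LI Λ (Phi g l χ') 1) / E -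
          (c0⁻¹ * D.LI Λ (Phi g l χ') 1) * ((E - E') / (E * E')) := by
      field_simp
      ring
    rw [e]
    refine v.map_sub_lt ?_ ?_
    · rw [map_div₀, bE, div_one]
      exact d2 _ a3
    · have e4 : v ((E - E') / (E * E')) = v (E - E') := by
        rw [map_div₀, map_mul, bE, bE', mul_one, div_one]
      rw [map_mul, e4]
      calc v (c0⁻¹ * D.LI Λ (Phi g l χ') 1) * v (E - E') ≤ v Ω ^ (r + 1) * v (E - E') := by
            gcongr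
            exact d1 _ a2
        _ < v Ω ^ (r + 1) * 1 := mul_lt_mul_of_pos_left bEE (zero_lt_iff.2 hΩ0)
        _ = _ := mul_one _

end Pool.Agent.K7.H56
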