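import Pool.Agent.K7.H56.T1
import Pool.Agent.K7.H56.T2

/-!
# The iterated Stokes formula
-/

set_option autoImplicit false

open MeasureTheory Set Filter Topology

namespace Pool.Agent.K7.H56

open Equiv (Perm)

variable {r : ℕ} {X : Type*}

/-- deletion of an index -/
def del (j i : ℕ) : ℕ := if i < j then i else i + 1

lemma val_succAbove {n : ℕ} (j : Fin (n + 1)) (i : Fin n) : ((j.succAbove i : Fin (n + 1)) : ℕ) = del j i := by
  unfold del
  by_cases h : (i : ℕ) < (j : ℕ)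
  · rw [if_pos h, Fin.succAbove_of_castSucc_lt _ _ (by rw [Fin.lt_def]; exact h)]
    rfl
  · rw [if_neg h, Fin.succAbove_of_le_castSucc _ _ (by rw [Fin.le_def]; show (j : ℕ) ≤ (i : ℕ); omega)]
    rfl

/-- the abstract properties of the forms -/
structure Fam (r : ℕ) (X : Type*) (Om : (Fin (r + 1) → X ⊕ Fin (r + 1)) → (Fin (r + 1) → ℝ) → ℂ)
    (Od : (Fin (r + 1) → X ⊕ Fin (r + 1)) → (Fin (r + 1) → ℝ) → Fin (r + 1) → ℂ)
    (g : Fin r → X → X) : Prop where
  cont : ∀ ρ, Continuous (Om ρ)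
  contd : ∀ ρ b, Continuous (fun z => Od ρ z b)
  deriv : ∀ ρ z b t, HasDerivAt (fun t => Om ρ (Function.update z b t))
    (Od ρ (Function.update z b t) b) t
  key : ∀ (ρ : Fin (r + 2) → X ⊕ Fin (r + 1)) z,
    inrS ρ (fun j b => (-1) ^ (j : ℕ) * Od (fun i => ρ (j.succAbove i)) z b) =
      inlS ρ (fun j => (-1) ^ (j : ℕ) * Om (fun i => ρ (j.succAbove i)) z)
  trans : ∀ ρ z (b : Fin r), Om ρ (fun c => z c + if c = b.succ then 1 else 0) =
    Om (fun j => Sum.map (g b) id (ρ j)) z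
  perm : ∀ ρ (σ : Perm (Fin (r + 1))) z, Om (fun i => ρ (σ i)) z =
    ((Perm.sign σ : ℤ) : ℂ) * Om ρ z
  comm : ∀ b c x, g b (g c x) = g c (g b x)

/-- the vertices of a path -/
def vt (g : Fin r → X → X) (x0 : X) (τ : Perm (Fin r)) : ℕ → X
  | 0 => x0
  | j + 1 => if h : j < r then g (τ ⟨j, h⟩) (vt g x0 τ j) else vt g x0 τ j

/-- the rows -/
def Rw (g : Fin r → X → X) (x0 : X) (τ : Perm (Fin r)) (k j : ℕ) : X ⊕ Fin (r + 1) :=
  if j ≤ k then Sum.inl (vt g x0 τ j) else
    if h : j - 1 < r then Sum.inr (τ ⟨j - 1, h⟩).succ else Sum.inr 0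

/-- the face -/
def jk (k : ℕ) (τ : Perm (Fin r)) : Finset (Fin r) :=
  Finset.univ.filter (fun b => (τ.symm b : ℕ) < k)

variable {g : Fin r → X → X} {x0 : X} {τ : Perm (Fin r)} {k j p : ℕ}

lemma Rw_le (h : j ≤ k) : Rw g x0 τ k j = Sum.inl (vt g x0 τ j) := if_pos h

lemma Rw_mid (h1 : k ≤ j) (h2 : j < r) : Rw g x0 τ k (j + 1) = Sum.inr (τ ⟨j, h2⟩).succ := by
  unfold Rw
  rw [if_neg (by omega), dif_pos (by omega : j + 1 - 1 < r)]
  rfl

lemma Rw_last (h1 : k ≤ j) (h2 : r ≤ j) : Rw g x0 τ k (j + 1) = Sum.inr 0 := by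
  unfold Rw
  rw [if_neg (by omega), dif_neg (by omega)]

lemma vt_succ (h : j < r) : vt g x0 τ (j + 1) = g (τ ⟨j, h⟩) (vt g x0 τ j) := by
  rw [vt, dif_pos h]

lemma vt_ge (h : r ≤ j) : vt g x0 τ (j + 1) = vt g x0 τ j := by
  rw [vt, dif_neg (by omega)]

/-! ### adjacent transpositions -/

/-- the transposition -/
def sw (r p : ℕ) (h : p + 1 < r) : Perm (Fin r) :=
  Equiv.swap ⟨p, by omega⟩ ⟨p + 1, h⟩

lemma sw_p (h : p + 1 < r) : sw r p h ⟨p, by omega⟩ = ⟨p + 1, h⟩ := Equiv.swap_apply_left _ _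

lemma sw_p1 (h : p + 1 < r) : sw r p h ⟨p + 1, h⟩ = ⟨p, by omega⟩ := Equiv.swap_apply_right _ _

lemma sw_ne (h : p + 1 < r) {i : ℕ} (hi : i < r) (h1 : i ≠ p) (h2 : i ≠ p + 1) :
    sw r p h ⟨i, hi⟩ = ⟨i, hi⟩ := by
  refine Equiv.swap_apply_of_ne_of_ne ?_ ?_
  · rw [Ne, Fin.mk.injEq]; exact h1
  · rw [Ne, Fin.mk.injEq]; exact h2

lemma sw_sign (h : p + 1 < r) : Perm.sign (sw r p h) = -1 :=
  Perm.sign_swap (by rw [Ne, Fin.mk.injEq]; omega)

lemma vt_swap (hg : ∀ b c x, g b (g c x) = g c (g b x)) (h : p + 1 < r) :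
    ∀ j, j ≠ p + 1 → vt g x0 (τ * sw r p h) j = vt g x0 τ j := by
  have h1 : ∀ j, j ≤ p → vt g x0 (τ * sw r p h) j = vt g x0 τ j := by
    intro j
    induction j with
    | zero => intro _; rfl
    | succ j ih =>
      intro hj
      rw [vt_succ (by omega : j < r), vt_succ (by omega : j < r), ih (by omega), Perm.mul_apply,
        sw_ne h _ (by omega) (by omega)]
  have h2 : vt g x0 (τ * sw r p h) (p + 2) = vt g x0 τ (p + 2) := by
    rw [vt_succ (by omega : p + 1 < r), vt_succ (by omega : p < r), vt_succ (by omega : p + 1 < r),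
      vt_succ (by omega : p < r), h1 p le_rfl, Perm.mul_apply, Perm.mul_apply, sw_p, sw_p1, hg]
  have h3 : ∀ j, p + 2 ≤ j → vt g x0 (τ * sw r p h) j = vt g x0 τ j := by
    intro j hj
    induction j, hj using Nat.le_induction with
    | base => exact h2
    | succ j hj ih =>
      by_cases hr : j < r
      · rw [vt_succ hr, vt_succ hr, ih, Perm.mul_apply, sw_ne h _ (by omega) (by omega)]
      · rw [vt_ge (by omega), vt_ge (by omega), ih]
  intro j hj
  rcases Nat.lt_or_ge j (p + 1) with h4 | h4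
  · exact h1 j (by omega)
  · exact h3 j (by omega)

lemma jk_swap (h : p + 1 < r) (hk : p + 1 ≠ k) : jk k (τ * sw r p h) = jk k τ := by
  ext b
  simp only [jk, Finset.mem_filter, Finset.mem_univ, true_and]
  have h1 : (τ * sw r p h).symm b = sw r p h (τ.symm b) := by
    show (Equiv.swap _ _).symm (τ.symm b) = _
    rw [Equiv.symm_swap]
    rfl
  rw [h1]
  obtain ⟨i, hi⟩ := τ.symm b
  by_cases hi1 : i = p
  · subst hi1
    rw [sw_p]
    show i + 1 < k ↔ i < k
    omega
  · by_cases hi2 : i = p + 1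
    · subst hi2
      rw [sw_p1]
      show p < k ↔ p + 1 < k
      omega
    · rw [sw_ne h hi hi1 hi2]

lemma Rw_swap_in (hg : ∀ b c x, g b (g c x) = g c (g b x)) (h : p + 1 < r) (hk : p + 1 < k) (j : ℕ)
    (hj : j ≠ p + 1) : Rw g x0 (τ * sw r p h) k j = Rw g x0 τ k j := by
  rcases Nat.lt_or_ge k j with h1 | h1
  · obtain ⟨i, rfl⟩ : ∃ i, j = i + 1 := ⟨j - 1, by omega⟩
    rcases Nat.lt_or_ge i r with h2 | h2
    · rw [Rw_mid (by omega) h2, Rw_mid (by omega) h2, Perm.mul_apply, sw_ne h _ (by omega) (by omega)]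
    · rw [Rw_last (by omega) h2, Rw_last (by omega) h2]
  · rw [Rw_le h1, Rw_le h1, vt_swap hg h _ hj]

lemma Rw_swap_out (hg : ∀ b c x, g b (g c x) = g c (g b x)) (h : p + 1 < r) (hk : k ≤ p) (i : ℕ) :
    Rw g x0 (τ * sw r p h) k (del (p + 1) i) = Rw g x0 τ k (del (p + 2) i) := by
  unfold del
  rcases Nat.lt_trichotomy i (p + 1) with h1 | h1 | h1
  · rw [if_pos h1, if_pos (by omega)]
    rcases Nat.lt_or_ge k i with h2 | h2
    · obtain ⟨i, rfl⟩ : ∃ i', i = i' + 1 := ⟨i - 1, by omega⟩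
      rw [Rw_mid (by omega) (by omega), Rw_mid (by omega) (by omega), Perm.mul_apply,
        sw_ne h _ (by omega) (by omega)]
    · rw [Rw_le h2, Rw_le h2, vt_swap hg h _ (by omega)]
  · subst h1
    rw [if_neg (by omega), if_pos (by omega), Rw_mid (by omega) h, Rw_mid hk (by omega),
      Perm.mul_apply, sw_p1]
  · rw [if_neg (by omega), if_neg (by omega)]
    rcases Nat.lt_or_ge i r with h2 | h2
    · rw [Rw_mid (by omega) h2, Rw_mid (by omega) h2, Perm.mul_apply, sw_ne h _ (by omega) (by omega)]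
    · rw [Rw_last (by omega) h2, Rw_last (by omega) h2]

/-! ### the cycle -/

/-- the cycle -/
def cy (r k : ℕ) (h : k < r) : Perm (Fin r) := Fin.cycleRange ⟨k, h⟩

lemma cy_sign (h : k < r) : Perm.sign (cy r k h) = (-1) ^ k := Fin.sign_cycleRange _

lemma cy_lt (h : k < r) {i : ℕ} (hi : i < k) : cy r k h ⟨i, by omega⟩ = ⟨i + 1, by omega⟩ := by
  apply Fin.ext
  have h1 : (⟨i, by omega⟩ : Fin r) < ⟨k, h⟩ := hi
  exact Fin.coe_cycleRange_of_lt h1

lemma cy_eq (h : k < r) : cy r k h ⟨k, h⟩ = ⟨0, by omega⟩ := by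
  have : NeZero r := ⟨by omega⟩
  have h1 := Fin.cycleRange_self (⟨k, h⟩ : Fin r)
  exact h1

lemma cy_gt (h : k < r) {i : ℕ} (hi : i < r) (hk : k < i) : cy r k h ⟨i, hi⟩ = ⟨i, hi⟩ :=
  Fin.cycleRange_of_gt hk

lemma vt_cycle (hg : ∀ b c x, g b (g c x) = g c (g b x)) (h : k < r) :
    ∀ j, j ≤ k → g ((τ * cy r k h) ⟨k, h⟩) (vt g x0 (τ * cy r k h) j) = vt g x0 τ (j + 1) := by
  have h0 : (τ * cy r k h) ⟨k, h⟩ = τ ⟨0, by omega⟩ := by rw [Perm.mul_apply, cy_eq]
  intro j
  induction j with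
  | zero =>
    intro _
    rw [h0, vt_succ (by omega : 0 < r)]
    rfl
  | succ j ih =>
    intro hj
    rw [vt_succ (by omega : j < r), hg, ih (by omega), vt_succ (by omega : j + 1 < r),
      Perm.mul_apply, cy_lt h (by omega)]

lemma jk_cycle (h : k < r) : jk (k + 1) (τ * cy r k h) = jk (k + 1) τ := by
  ext b
  simp only [jk, Finset.mem_filter, Finset.mem_univ, true_and]
  have h1 : τ.symm b = cy r k h ((τ * cy r k h).symm b) := by
    show _ = cy r k h ((cy r k h).symm (τ.symm b))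
    rw [Equiv.apply_symm_apply]
  rw [h1]
  obtain ⟨i, hi⟩ := (τ * cy r k h).symm b
  rcases Nat.lt_trichotomy i k with h2 | h2 | h2
  · rw [cy_lt h h2]
    show i < k + 1 ↔ i + 1 < k + 1
    omega
  · subst h2
    rw [cy_eq]
    show i < i + 1 ↔ 0 < i + 1
    omega
  · rw [cy_gt h hi h2]

lemma Rw_cycle (hg : ∀ b c x, g b (g c x) = g c (g b x)) (h : k < r) (i : ℕ) :
    Sum.map (g ((τ * cy r k h) ⟨k, h⟩)) id (Rw g x0 (τ * cy r k h) k (del (k + 1) i)) =
      Rw g x0 τ (k + 1) (del 0 i) := by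
  unfold del
  rw [if_neg (by omega : ¬ i < 0)]
  rcases Nat.lt_or_ge i (k + 1) with h1 | h1
  · rw [if_pos h1, Rw_le (by omega), Rw_le (by omega), Sum.map_inl, vt_cycle hg h _ (by omega)]
  · rw [if_neg (by omega)]
    rcases Nat.lt_or_ge i r with h2 | h2
    · rw [Rw_mid (by omega) h2, Rw_mid (by omega) h2, Sum.map_inr, Perm.mul_apply τ _ ⟨i, h2⟩,
        cy_gt h h2 (by omega)]
      rfl
    · rw [Rw_last (by omega) h2, Rw_last (by omega) h2]
      rfl

lemma Rw_next (i : ℕ) : Rw g x0 τ k (del (k + 1) i) = Rw g x0 τ (k + 1) (del (k + 1) i) := by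
  unfold del
  rcases Nat.lt_or_ge i (k + 1) with h1 | h1
  · rw [if_pos h1, Rw_le (by omega), Rw_le (by omega)]
  · rw [if_neg (by omega)]
    rcases Nat.lt_or_ge i r with h2 | h2
    · rw [Rw_mid (by omega) h2, Rw_mid (by omega) h2]
    · rw [Rw_last (by omega) h2, Rw_last (by omega) h2]

lemma jk_insert (h : k < r) : insert (τ ⟨k, h⟩) (jk k τ) = jk (k + 1) τ := by
  ext b
  simp only [jk, Finset.mem_insert, Finset.mem_filter, Finset.mem_univ, true_and]
  constructor
  · rintro (rfl | h1)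
    · rw [Equiv.symm_apply_apply]
      show k < k + 1
      omega
    · omega
  · intro h1
    by_cases h2 : (τ.symm b : ℕ) < k
    · exact Or.inr h2
    · left
      have h3 : τ.symm b = ⟨k, h⟩ := Fin.ext (by show (τ.symm b : ℕ) = k; omega)
      rw [← h3, Equiv.apply_symm_apply]

lemma not_mem_jk (h : j < r) (hk : k ≤ j) : τ ⟨j, h⟩ ∉ jk k τ := by
  simp only [jk, Finset.mem_filter, Finset.mem_univ, true_and, Equiv.symm_apply_apply]
  omega

/-! ### signed sums over the permutations -/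

/-- signed sum -/
noncomputable def SS (f : Perm (Fin r) → ℂ) : ℂ := ∑ τ, ((Perm.sign τ : ℤ) : ℂ) * f τ

lemma SS_mul (π : Perm (Fin r)) (f : Perm (Fin r) → ℂ) :
    SS f = ((Perm.sign π : ℤ) : ℂ) * SS (fun τ => f (τ * π)) := by
  unfold SS
  rw [Finset.mul_sum, ← Equiv.sum_comp (Equiv.mulRight π)]
  refine Finset.sum_congr rfl fun τ _ => ?_
  simp only [Equiv.coe_mulRight, map_mul]
  push_cast
  ring

lemma SS_congr {f f' : Perm (Fin r) → ℂ} (h : ∀ τ, f τ = f' τ) : SS f = SS f' := by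
  unfold SS
  exact Finset.sum_congr rfl fun τ _ => by rw [h]

lemma SS_add (f f' : Perm (Fin r) → ℂ) : SS (fun τ => f τ + f' τ) = SS f + SS f' := by
  unfold SS
  rw [← Finset.sum_add_distrib]
  exact Finset.sum_congr rfl fun τ _ => by ring

lemma SS_sub (f f' : Perm (Fin r) → ℂ) : SS (fun τ => f τ - f' τ) = SS f - SS f' := by
  unfold SS
  rw [← Finset.sum_sub_distrib]
  exact Finset.sum_congr rfl fun τ _ => by ring

lemma SS_smul (c : ℂ) (f : Perm (Fin r) → ℂ) : SS (fun τ => c * f τ) = c * SS f := by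
  unfold SS
  rw [Finset.mul_sum]
  exact Finset.sum_congr rfl fun τ _ => by ring

lemma SS_sum {ι : Type*} (s : Finset ι) (f : ι → Perm (Fin r) → ℂ) :
    SS (fun τ => ∑ i ∈ s, f i τ) = ∑ i ∈ s, SS (f i) := by
  unfold SS
  simp only [Finset.mul_sum]
  rw [Finset.sum_comm]

lemma SS_zero_of_swap (h : p + 1 < r) {f : Perm (Fin r) → ℂ}
    (hf : ∀ τ, f (τ * sw r p h) = f τ) : SS f = 0 := by
  have h1 := SS_mul (sw r p h) f
  rw [sw_sign, SS_congr hf] at h1
  push_cast at h1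
  have h2 : SS f + SS f = 0 := by linear_combination h1
  exact self_eq_neg.1 (by linear_combination h2)


/-! ### the iteration -/

variable {Om : (Fin (r + 1) → X ⊕ Fin (r + 1)) → (Fin (r + 1) → ℝ) → ℂ}
    {Od : (Fin (r + 1) → X ⊕ Fin (r + 1)) → (Fin (r + 1) → ℝ) → Fin (r + 1) → ℂ}

/-- the rows without the `j`-th one -/
def rows (g : Fin r → X → X) (x0 : X) (τ : Perm (Fin r)) (k j : ℕ) : Fin (r + 1) → X ⊕ Fin (r + 1) :=
  fun i => Rw g x0 τ k (del j i)

/-- the inner terms -/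
noncomputable def aT (Om : (Fin (r + 1) → X ⊕ Fin (r + 1)) → (Fin (r + 1) → ℝ) → ℂ)
    (g : Fin r → X → X) (x0 : X) (T : ℝ) (k j : ℕ) (τ : Perm (Fin r)) : ℂ :=
  fI T (jk k τ) (Om (rows g x0 τ k j))

/-- the outer terms -/
noncomputable def bT (Om : (Fin (r + 1) → X ⊕ Fin (r + 1)) → (Fin (r + 1) → ℝ) → ℂ)
    (g : Fin r → X → X) (x0 : X) (T : ℝ) (k j : ℕ) (τ : Perm (Fin r)) : ℂ :=
  if h : j < r then
    fI T (insert (τ ⟨j, h⟩) (jk k τ)) (Om (fun i => Sum.map (g (τ ⟨j, h⟩)) id (rows g x0 τ k (j + 1) i)))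
      - fI T (insert (τ ⟨j, h⟩) (jk k τ)) (Om (rows g x0 τ k (j + 1)))
  else 0

/-- the time terms -/
noncomputable def tT (Om : (Fin (r + 1) → X ⊕ Fin (r + 1)) → (Fin (r + 1) → ℝ) → ℂ)
    (g : Fin r → X → X) (x0 : X) (T : ℝ) (k : ℕ) (τ : Perm (Fin r)) : ℂ :=
  ((T - -T : ℝ) : ℂ)⁻¹ * (fI T (jk k τ) (fun z => Om (rows g x0 τ k (r + 1)) (Function.update z 0 T)) -
      fI T (jk k τ) (fun z => Om (rows g x0 τ k (r + 1)) (Function.update z 0 (-T))))

lemma fI_add {T : ℝ} {J : Finset (Fin r)} {G G' : (Fin (r + 1) → ℝ) → ℂ} (hG : Continuous G)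
    (hG' : Continuous G') : fI T J (fun z => G z + G' z) = fI T J G + fI T J G' := by
  unfold fI
  exact integral_add ((hG.comp cont_fc).continuousOn.integrableOn_compact isCompact_Icc)
    ((hG'.comp cont_fc).continuousOn.integrableOn_compact isCompact_Icc)

lemma fI_smul {T : ℝ} {J : Finset (Fin r)} (c : ℂ) (G : (Fin (r + 1) → ℝ) → ℂ) :
    fI T J (fun z => c * G z) = c * fI T J G := by
  unfold fI
  exact integral_const_mul c _

lemma fI_sum {ι : Type*} {T : ℝ} {J : Finset (Fin r)} (s : Finset ι)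
    {G : ι → (Fin (r + 1) → ℝ) → ℂ} (hG : ∀ i ∈ s, Continuous (G i)) :
    fI T J (fun z => ∑ i ∈ s, G i z) = ∑ i ∈ s, fI T J (G i) := by
  unfold fI
  exact integral_finset_sum s fun i hi =>
    (((hG i hi).comp cont_fc).continuousOn.integrableOn_compact isCompact_Icc)

/-- the identity for one path -/
lemma one_path (hF : Fam r X Om Od g) (x0 : X) {T : ℝ} (hT : 0 < T) {k : ℕ} (hk : k ≤ r)
    (τ : Perm (Fin r)) :
    ∑ j ∈ Finset.range (k + 1), (-1) ^ j * aT Om g x0 T k j τ =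
      (∑ j ∈ Finset.Ico k r, (-1) ^ (j + 1) * bT Om g x0 T k j τ) +
        (-1) ^ (r + 1) * tT Om g x0 T k τ := by
  set ρ : Fin (r + 2) → X ⊕ Fin (r + 1) := fun j => Rw g x0 τ k j with hρ
  have hdel : ∀ j : Fin (r + 2), (fun i => ρ (j.succAbove i)) = rows g x0 τ k j := by
    intro j
    funext i
    rw [hρ]
    show Rw g x0 τ k ((j.succAbove i : Fin (r + 2)) : ℕ) = _
    rw [val_succAbove]
    rfl
  -- the pointwise identity
  have hpt : ∀ z, ∑ j ∈ Finset.range (k + 1), (-1) ^ j * Om (rows g x0 τ k j) z =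
      (∑ j ∈ Finset.Ico k r, (-1) ^ (j + 1) * (if h : j < r then
        Od (rows g x0 τ k (j + 1)) z (τ ⟨j, h⟩).succ else 0)) +
        (-1) ^ (r + 1) * Od (rows g x0 τ k (r + 1)) z 0 := by
    intro z
    have h1 := hF.key ρ z
    simp only [hdel] at h1
    have hR : inlS ρ (fun j => (-1) ^ (j : ℕ) * Om (rows g x0 τ k (j : ℕ)) z) =
        ∑ j ∈ Finset.range (k + 1), (-1) ^ j * Om (rows g x0 τ k j) z := by
      have h2 : inlS ρ (fun j => (-1) ^ (j : ℕ) * Om (rows g x0 τ k (j : ℕ)) z) =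
          ∑ j : Fin (r + 2), (fun m : ℕ => if m < k + 1 then
            (-1) ^ m * Om (rows g x0 τ k m) z else 0) (j : ℕ) := by
        unfold inlS
        refine Finset.sum_congr rfl fun j _ => ?_
        rw [hρ]
        simp only
        rcases Nat.lt_or_ge k j with h3 | h3
        · rw [if_neg (by omega)]
          obtain ⟨i, hi⟩ : ∃ i, (j : ℕ) = i + 1 := ⟨(j : ℕ) - 1, by omega⟩
          rw [hi]
          rcases Nat.lt_or_ge i r with h4 | h4
          · rw [Rw_mid (by omega) h4]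
            rfl
          · rw [Rw_last (by omega) h4]
            rfl
        · rw [if_pos (by omega), Rw_le h3]
          rfl
      rw [h2, Fin.sum_univ_eq_sum_range (fun m : ℕ => if m < k + 1 then
            (-1) ^ m * Om (rows g x0 τ k m) z else 0) (r + 2), ← Finset.sum_filter]
      refine Finset.sum_congr ?_ fun _ _ => rfl
      ext m
      simp only [Finset.mem_filter, Finset.mem_range]
      omega
    have hLL : inrS ρ (fun j b => (-1) ^ (j : ℕ) * Od (rows g x0 τ k (j : ℕ)) z b) =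
        (∑ j ∈ Finset.Ico k r, (-1) ^ (j + 1) * (if h : j < r then
        Od (rows g x0 τ k (j + 1)) z (τ ⟨j, h⟩).succ else 0)) +
        (-1) ^ (r + 1) * Od (rows g x0 τ k (r + 1)) z 0 := by
      have h2 : inrS ρ (fun j b => (-1) ^ (j : ℕ) * Od (rows g x0 τ k (j : ℕ)) z b) =
          ∑ j : Fin (r + 2), (fun m : ℕ => if m = 0 then 0 else if k ≤ m - 1 then
            ((-1) ^ (m - 1 + 1) * (if h : m - 1 < r then
              Od (rows g x0 τ k (m - 1 + 1)) z (τ ⟨m - 1, h⟩).succ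
              else Od (rows g x0 τ k (m - 1 + 1)) z 0)) else 0) (j : ℕ) := by
        unfold inrS
        refine Finset.sum_congr rfl fun j _ => ?_
        rw [hρ]
        simp only
        rcases Nat.eq_zero_or_pos (j : ℕ) with h3 | h3
        · rw [if_pos h3, h3, Rw_le (by omega)]
          rfl
        · obtain ⟨i, hi⟩ : ∃ i, (j : ℕ) = i + 1 := ⟨(j : ℕ) - 1, by omega⟩
          rw [if_neg (by omega), hi]
          simp only [Nat.add_sub_cancel]
          rcases Nat.lt_or_ge i k with h4 | h4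
          · rw [if_neg (by omega), Rw_le (by omega)]
            rfl
          · rw [if_pos h4]
            rcases Nat.lt_or_ge i r with h5 | h5
            · rw [Rw_mid (by omega) h5, dif_pos h5]
              rfl
            · rw [Rw_last (by omega) h5, dif_neg (by omega)]
              rfl
      rw [h2, Fin.sum_univ_eq_sum_range (fun m : ℕ => if m = 0 then (0 : ℂ) else if k ≤ m - 1 then
            ((-1) ^ (m - 1 + 1) * (if h : m - 1 < r then
              Od (rows g x0 τ k (m - 1 + 1)) z (τ ⟨m - 1, h⟩).succ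
              else Od (rows g x0 τ k (m - 1 + 1)) z 0)) else 0) (r + 2), Finset.sum_range_succ']
      simp only [Nat.add_sub_cancel, if_true, add_zero, Nat.succ_ne_zero, if_false]
      rw [Finset.sum_range_succ, if_pos hk, dif_neg (lt_irrefl r)]
      congr 1
      rw [← Finset.sum_filter]
      refine Finset.sum_congr ?_ fun m hm => ?_
      · ext m
        simp only [Finset.mem_filter, Finset.mem_range, Finset.mem_Ico]
        omega
      · have h6 := (Finset.mem_Ico.1 hm).2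
        rw [dif_pos h6, dif_pos h6]
    rw [hR, hLL] at h1
    exact h1.symm
  -- integrate
  have hc1 : ∀ j, Continuous fun z => (-1) ^ j * Om (rows g x0 τ k j) z :=
    fun j => continuous_const.mul (hF.cont _)
  have hc2 : ∀ j, Continuous fun z => (-1) ^ (j + 1) * (if h : j < r then
        Od (rows g x0 τ k (j + 1)) z (τ ⟨j, h⟩).succ else (0 : ℂ)) := by
    intro j
    refine continuous_const.mul ?_
    by_cases h : j < r
    · simp only [dif_pos h]
      exact hF.contd _ _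
    · simp only [dif_neg h]
      exact continuous_const
  have hc3 : Continuous fun z => (-1) ^ (r + 1) * Od (rows g x0 τ k (r + 1)) z 0 :=
    continuous_const.mul (hF.contd _ _)
  have hI : fI T (jk k τ) (fun z => ∑ j ∈ Finset.range (k + 1), (-1) ^ j * Om (rows g x0 τ k j) z) =
      fI T (jk k τ) (fun z => (∑ j ∈ Finset.Ico k r, (-1) ^ (j + 1) * (if h : j < r then
        Od (rows g x0 τ k (j + 1)) z (τ ⟨j, h⟩).succ else (0 : ℂ))) +
        (-1) ^ (r + 1) * Od (rows g x0 τ k (r + 1)) z 0) := by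
    congr 1
    funext z
    exact hpt z
  rw [fI_sum _ fun j _ => hc1 j, fI_add (continuous_finset_sum _ fun j _ => hc2 j) hc3,
    fI_sum _ fun j _ => hc2 j, fI_smul] at hI
  simp only [fI_smul] at hI
  rw [show ∑ j ∈ Finset.range (k + 1), (-1) ^ j * aT Om g x0 T k j τ =
    ∑ j ∈ Finset.range (k + 1), (-1) ^ j * fI T (jk k τ) (Om (rows g x0 τ k j)) from rfl, hI]
  congr 1
  · refine Finset.sum_congr rfl fun j hj => ?_
    obtain ⟨hj1, hj2⟩ := Finset.mem_Ico.1 hj
    congr 1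
    unfold bT
    rw [dif_pos hj2]
    simp only [dif_pos hj2]
    have h7 := fI_deriv T (not_mem_jk (τ := τ) hj2 hj1) (hF.cont (rows g x0 τ k (j + 1)))
      (hF.contd (rows g x0 τ k (j + 1)) (τ ⟨j, hj2⟩).succ)
      (fun z t => hF.deriv _ z _ t)
    rw [h7]
    congr 2
    funext z
    exact hF.trans _ z _
  · congr 1
    exact fI_time hT (hF.cont _) (hF.contd _ 0) fun z t => hF.deriv _ z _ t

/-- the inner terms cancel -/
lemma aT_zero (hF : Fam r X Om Od g) (x0 : X) (T : ℝ) {k p : ℕ} (hk : k ≤ r) (hp : p + 1 < k) :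
    SS (aT Om g x0 T k (p + 1)) = 0 := by
  refine SS_zero_of_swap (p := p) (by omega) fun τ => ?_
  unfold aT
  rw [jk_swap _ (by omega)]
  congr 2
  funext i
  unfold rows
  refine Rw_swap_in hF.comm _ (by omega) _ ?_
  unfold del
  split_ifs <;> omega

/-- the outer terms agree -/
lemma bT_swap (hF : Fam r X Om Od g) (x0 : X) (T : ℝ) {k j : ℕ} (hk : k ≤ j) (hj : j + 1 < r) :
    SS (bT Om g x0 T k (j + 1)) = - SS (bT Om g x0 T k j) := by
  rw [SS_mul (sw r j hj) (bT Om g x0 T k j), sw_sign]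
  push_cast
  rw [neg_one_mul, neg_neg]
  refine SS_congr fun τ => ?_
  unfold bT
  rw [dif_pos hj, dif_pos (by omega : j < r), jk_swap _ (by omega)]
  have h1 : (τ * sw r j hj) ⟨j, by omega⟩ = τ ⟨j + 1, hj⟩ := by rw [Perm.mul_apply, sw_p]
  have h2 : rows g x0 (τ * sw r j hj) k (j + 1) = rows g x0 τ k (j + 1 + 1) := by
    funext i
    exact Rw_swap_out hF.comm hj hk i
  rw [h1, h2]

lemma bT_all (hF : Fam r X Om Od g) (x0 : X) (T : ℝ) {k j : ℕ} (hk : k ≤ j) (hj : j < r) :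
    (-1) ^ (j + 1) * SS (bT Om g x0 T k j) = (-1) ^ (k + 1) * SS (bT Om g x0 T k k) := by
  induction j, hk using Nat.le_induction with
  | base => rfl
  | succ j hj1 ih =>
    rw [bT_swap hF x0 T hj1 hj, ← ih (by omega)]
    ring

lemma bT_first (hF : Fam r X Om Od g) (x0 : X) (T : ℝ) {k : ℕ} (hk : k < r) :
    SS (bT Om g x0 T k k) = (-1) ^ k * SS (aT Om g x0 T (k + 1) 0) -
      SS (aT Om g x0 T (k + 1) (k + 1)) := by
  have h1 : SS (bT Om g x0 T k k) = SS (fun τ => fI T (jk (k + 1) τ)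
      (Om (fun i => Sum.map (g (τ ⟨k, hk⟩)) id (rows g x0 τ k (k + 1) i)))) -
      SS (aT Om g x0 T (k + 1) (k + 1)) := by
    rw [← SS_sub]
    refine SS_congr fun τ => ?_
    unfold bT aT
    rw [dif_pos hk, jk_insert hk]
    congr 3
    funext i
    exact Rw_next _
  rw [h1, SS_mul (cy r k hk), cy_sign]
  push_cast
  congr 2
  refine SS_congr fun τ => ?_
  unfold aT
  rw [jk_cycle]
  congr 2
  funext i
  exact Rw_cycle hF.comm hk _

/-- the chain -/
noncomputable def IT (Om : (Fin (r + 1) → X ⊕ Fin (r + 1)) → (Fin (r + 1) → ℝ) → ℂ)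
    (g : Fin r → X → X) (x0 : X) (T : ℝ) (k : ℕ) : ℂ :=
  ∑ j ∈ Finset.range (k + 1), (-1) ^ j * SS (aT Om g x0 T k j)

lemma IT_succ (hF : Fam r X Om Od g) (x0 : X) (T : ℝ) {k : ℕ} (hk : k < r) :
    IT Om g x0 T (k + 1) = SS (aT Om g x0 T (k + 1) 0) +
      (-1) ^ (k + 1) * SS (aT Om g x0 T (k + 1) (k + 1)) := by
  unfold IT
  rw [Finset.sum_range_succ, Finset.sum_range_succ']
  rw [Finset.sum_eq_zero fun j hj => by
    rw [aT_zero hF x0 T (by omega : k + 1 ≤ r) (by have := Finset.mem_range.1 hj; omega), mul_zero]]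
  rw [pow_zero, one_mul, zero_add]

theorem IT_step (hF : Fam r X Om Od g) (x0 : X) {T : ℝ} (hT : 0 < T) {k : ℕ} (hk : k < r) :
    IT Om g x0 T k = -((r - k : ℕ) : ℂ) * IT Om g x0 T (k + 1) +
      (-1) ^ (r + 1) * SS (tT Om g x0 T k) := by
  have h1 : IT Om g x0 T k = SS (fun τ => ∑ j ∈ Finset.range (k + 1), (-1) ^ j * aT Om g x0 T k j τ) := by
    unfold IT
    rw [SS_sum]
    exact Finset.sum_congr rfl fun j _ => (SS_smul _ _).symm
  rw [h1, SS_congr (one_path hF x0 hT hk.le), SS_add, SS_smul, SS_sum]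
  congr 1
  rw [Finset.sum_congr rfl fun j hj => (by
    rw [SS_smul]
    exact bT_all hF x0 T (Finset.mem_Ico.1 hj).1 (Finset.mem_Ico.1 hj).2 :
    SS (fun τ => (-1) ^ (j + 1) * bT Om g x0 T k j τ) = (-1) ^ (k + 1) * SS (bT Om g x0 T k k)),
    Finset.sum_const, Nat.card_Ico, nsmul_eq_mul, bT_first hF x0 T hk, IT_succ hF x0 T hk]
  have h2 : ((-1 : ℂ)) ^ (k + 1) * (-1) ^ k = -1 := by
    rw [← pow_add, show k + 1 + k = 2 * k + 1 by ring, pow_succ, pow_mul]
    norm_num
  linear_combination ((r - k : ℕ) : ℂ) * SS (aT Om g x0 T (k + 1) 0) * h2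

theorem IT_last (hF : Fam r X Om Od g) (x0 : X) {T : ℝ} (hT : 0 < T) :
    IT Om g x0 T r = (-1) ^ (r + 1) * SS (tT Om g x0 T r) := by
  have h1 : IT Om g x0 T r = SS (fun τ => ∑ j ∈ Finset.range (r + 1), (-1) ^ j * aT Om g x0 T r j τ) := by
    unfold IT
    rw [SS_sum]
    exact Finset.sum_congr rfl fun j _ => (SS_smul _ _).symm
  rw [h1, SS_congr (one_path hF x0 hT le_rfl), SS_add, SS_smul, SS_sum, Finset.Ico_self,
    Finset.sum_empty, zero_add]

/-- the standard rows -/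
def std {r : ℕ} {X : Type*} : Fin (r + 1) → X ⊕ Fin (r + 1) :=
  fun i => if h : (i : ℕ) < r then Sum.inr (⟨i, h⟩ : Fin r).succ else Sum.inr 0

/-- the extended permutation -/
def ext (τ : Perm (Fin r)) : Perm (Fin (r + 1)) :=
  finSuccEquivLast.symm.permCongr (Equiv.optionCongr τ)

lemma ext_sign (τ : Perm (Fin r)) : Perm.sign (ext τ) = Perm.sign τ := by
  unfold ext
  rw [Perm.sign_permCongr, Equiv.optionCongr_sign]

lemma ext_castSucc (τ : Perm (Fin r)) (i : Fin r) : ext τ i.castSucc = (τ i).castSucc := by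
  simp [ext, Equiv.permCongr_apply]

lemma ext_last (τ : Perm (Fin r)) : ext τ (Fin.last r) = Fin.last r := by
  simp [ext, Equiv.permCongr_apply]

lemma rows_zero (τ : Perm (Fin r)) : rows g x0 τ 0 0 = fun i => std (ext τ i) := by
  funext i
  unfold rows del
  rw [if_neg (by omega)]
  induction i using Fin.lastCases with
  | last =>
    rw [ext_last, Fin.val_last, Rw_last (by omega) le_rfl]
    unfold std
    rw [dif_neg (by simp)]
  | cast i =>
    rw [ext_castSucc]
    show Rw g x0 τ 0 ((i : ℕ) + 1) = _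
    rw [Rw_mid (by omega) i.2]
    unfold std
    rw [dif_pos (by rw [Fin.val_castSucc]; exact (τ i).2)]
    rfl

lemma jk_zero (τ : Perm (Fin r)) : jk 0 τ = ∅ := by
  ext b
  simp [jk]

lemma jk_r (τ : Perm (Fin r)) : jk r τ = Finset.univ := by
  ext b
  simp [jk]

lemma IT_zero (hF : Fam r X Om Od g) (x0 : X) (T : ℝ) :
    IT Om g x0 T 0 = (r.factorial : ℂ) * ∫ z in Icc (lo (r := r) T) (hi T), Om std z := by
  unfold IT
  rw [Finset.sum_range_one, pow_zero, one_mul]
  have h1 : ∀ τ : Perm (Fin r), ((Perm.sign τ : ℤ) : ℂ) * aT Om g x0 T 0 0 τ =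
      ∫ z in Icc (lo (r := r) T) (hi T), Om std z := by
    intro τ
    unfold aT fI
    rw [jk_zero, rows_zero]
    simp only [fc_empty, hF.perm, ext_sign]
    rw [integral_const_mul, ← mul_assoc]
    have h2 : ((Perm.sign τ : ℤ) : ℂ) * ((Perm.sign τ : ℤ) : ℂ) = 1 := by
      rcases Int.units_eq_one_or (Perm.sign τ) with h | h <;> simp [h]
    rw [h2, one_mul]
  unfold SS
  rw [Finset.sum_congr rfl fun τ _ => h1 τ, Finset.sum_const, Finset.card_univ, Fintype.card_perm,
    Fintype.card_fin, nsmul_eq_mul]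

lemma rows_end {k : ℕ} (τ : Perm (Fin r)) :
    rows g x0 τ k (r + 1) = fun i : Fin (r + 1) => Rw g x0 τ k i := by
  funext i
  unfold rows del
  rw [if_pos i.2]

/-- the time terms vanish in the limit -/
lemma tT_lim (Om : (Fin (r + 1) → X ⊕ Fin (r + 1)) → (Fin (r + 1) → ℝ) → ℂ) (x0 : X) (k : ℕ)
    (τ : Perm (Fin r)) {D : ℝ → ℝ} (hD : Tendsto D atTop (𝓝 0))
    (h : ∀ T > 0, ∀ z : Fin (r + 1) → ℝ, (∀ b : Fin r, z b.succ ∈ Icc (0 : ℝ) 1) →
      ‖Om (fun i => Rw g x0 τ k i) (Function.update z 0 T)‖ ≤ D T ∧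
      ‖Om (fun i => Rw g x0 τ k i) (Function.update z 0 (-T))‖ ≤ D T) :
    Tendsto (fun T => tT Om g x0 T k τ) atTop (𝓝 0) := by
  refine squeeze_zero_norm' (a := fun T => 2 * D T) ?_ (by simpa using hD.const_mul 2)
  filter_upwards [eventually_gt_atTop (0 : ℝ)] with T hT
  unfold tT
  rw [rows_end]
  have h1 := fI_bound (J := jk k τ) hT (fun z hz => (h T hT z hz).1)
  have h2 := fI_bound (J := jk k τ) hT (fun z hz => (h T hT z hz).2)
  rw [norm_mul, norm_inv]
  have h3 : ‖((T - -T : ℝ) : ℂ)‖ = 2 * T := by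
    rw [Complex.norm_real, Real.norm_of_nonneg (by linarith)]
    ring
  rw [h3]
  have h4 := (norm_sub_le (fI T (jk k τ) (fun z => Om (fun i => Rw g x0 τ k i) (Function.update z 0 T)))
    (fI T (jk k τ) (fun z => Om (fun i => Rw g x0 τ k i) (Function.update z 0 (-T))))).trans
      (add_le_add h1 h2)
  calc (2 * T)⁻¹ * _ ≤ (2 * T)⁻¹ * (D T * (2 * T) + D T * (2 * T)) :=
        mul_le_mul_of_nonneg_left h4 (by positivity)
    _ = 2 * D T := by field_simp; ring

lemma fI_univ {T : ℝ} (hT : 0 < T) (G : (Fin (r + 1) → ℝ) → ℂ) (t : ℝ) :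
    fI T (Finset.univ : Finset (Fin r)) (fun z => G (Function.update z 0 t)) =
      (2 * T : ℝ) * G (Function.update 0 0 t) := by
  unfold fI
  have h1 : ∀ z : Fin (r + 1) → ℝ, Function.update (fc Finset.univ z) 0 t =
      Function.update (0 : Fin (r + 1) → ℝ) 0 t := by
    intro z
    funext c
    refine Fin.cases ?_ (fun c => ?_) c
    · simp
    · rw [Function.update_of_ne (Fin.succ_ne_zero c), Function.update_of_ne (Fin.succ_ne_zero c)]
      simp
  simp only [h1]
  rw [setIntegral_const, vol_box hT]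
  exact Complex.real_smul

/-- **The iterated Stokes formula.** -/
theorem stokes (hF : Fam r X Om Od g) (x0 : X)
    (hdec : ∀ τ k, k < r → ∃ D : ℝ → ℝ, Tendsto D atTop (𝓝 0) ∧
      ∀ T > 0, ∀ z : Fin (r + 1) → ℝ, (∀ b : Fin r, z b.succ ∈ Icc (0 : ℝ) 1) →
      ‖Om (fun i => Rw g x0 τ k i) (Function.update z 0 T)‖ ≤ D T ∧
      ‖Om (fun i => Rw g x0 τ k i) (Function.update z 0 (-T))‖ ≤ D T)
    (hpos : ∀ τ : Perm (Fin r), Tendsto (fun T : ℝ => Om (fun i => Sum.inl (vt g x0 τ i))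
      (Function.update 0 0 T)) atTop (𝓝 0))
    (L : Perm (Fin r) → ℂ)
    (hL : ∀ τ : Perm (Fin r), Tendsto (fun T : ℝ => Om (fun i => Sum.inl (vt g x0 τ i))
      (Function.update 0 0 (-T))) atTop (𝓝 (L τ))) :
    Tendsto (fun T => ∫ z in Icc (lo (r := r) T) (hi T), Om std z) atTop (𝓝 (SS L)) := by
  have hSS : ∀ {f : ℝ → Perm (Fin r) → ℂ} {l : Perm (Fin r) → ℂ},
      (∀ τ, Tendsto (fun T => f T τ) atTop (𝓝 (l τ))) →
      Tendsto (fun T => SS (f T)) atTop (𝓝 (SS l)) := by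
    intro f l h
    unfold SS
    exact tendsto_finset_sum _ fun τ _ => (h τ).const_mul _
  have hlast : Tendsto (fun T => IT Om g x0 T r) atTop (𝓝 ((-1) ^ r * SS L)) := by
    have h1 : ∀ τ, Tendsto (fun T => tT Om g x0 T r τ) atTop (𝓝 (0 - L τ)) := by
      intro τ
      have h2 := (hpos τ).sub (hL τ)
      refine h2.congr' ?_
      filter_upwards [eventually_gt_atTop (0 : ℝ)] with T hT
      unfold tT
      have h3 : rows g x0 τ r (r + 1) = fun i : Fin (r + 1) => Sum.inl (vt g x0 τ i) := by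
        rw [rows_end]
        funext i
        exact Rw_le (by omega)
      have h4 : ((2 * T : ℝ) : ℂ) ≠ 0 := by
        rw [Complex.ofReal_ne_zero]
        positivity
      rw [jk_r, fI_univ hT, fI_univ hT, h3, show T - -T = 2 * T by ring, ← mul_sub,
        inv_mul_cancel_left₀ h4]
    have h5 := (hSS h1).const_mul ((-1 : ℂ) ^ (r + 1))
    have h6 : (-1 : ℂ) ^ (r + 1) * SS (fun τ => 0 - L τ) = (-1) ^ r * SS L := by
      rw [show (fun τ : Perm (Fin r) => 0 - L τ) = fun τ => (-1) * L τ by funext τ; ring, SS_smul]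
      ring
    rw [h6] at h5
    refine h5.congr' ?_
    filter_upwards [eventually_gt_atTop (0 : ℝ)] with T hT
    exact (IT_last hF x0 hT).symm
  have hstep : ∀ m, m ≤ r → Tendsto (fun T => IT Om g x0 T (r - m)) atTop
      (𝓝 ((-1) ^ (r - m) * (m.factorial : ℂ) * SS L)) := by
    intro m
    induction m with
    | zero =>
      intro _
      simpa using hlast
    | succ m ih =>
      intro hm
      have h1 := ih (by omega)
      have h2 : ∀ τ, Tendsto (fun T => tT Om g x0 T (r - (m + 1)) τ) atTop (𝓝 0) := by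
        intro τ
        obtain ⟨D, hD, h3⟩ := hdec τ (r - (m + 1)) (by omega)
        exact tT_lim Om x0 _ τ hD h3
      have h4 := (h1.const_mul (-((m + 1 : ℕ) : ℂ))).add
        ((hSS h2).const_mul ((-1 : ℂ) ^ (r + 1)))
      have h5 : SS (fun _ : Perm (Fin r) => (0 : ℂ)) = 0 := by
        unfold SS
        simp
      have h6 : -((m + 1 : ℕ) : ℂ) * ((-1) ^ (r - m) * (m.factorial : ℂ) * SS L) +
          (-1) ^ (r + 1) * SS (fun _ : Perm (Fin r) => (0 : ℂ)) =
          (-1) ^ (r - (m + 1)) * ((m + 1).factorial : ℂ) * SS L := by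
        rw [h5, show r - m = (r - (m + 1)) + 1 by omega, Nat.factorial_succ]
        push_cast
        ring
      rw [h6] at h4
      refine h4.congr' ?_
      filter_upwards [eventually_gt_atTop (0 : ℝ)] with T hT
      have h7 := IT_step hF x0 hT (k := r - (m + 1)) (by omega)
      rw [h7, show r - (m + 1) + 1 = r - m by omega, show r - (r - (m + 1)) = m + 1 by omega]
  have h1 := hstep r le_rfl
  rw [Nat.sub_self, pow_zero, one_mul] at h1
  have h2 := h1.const_mul ((r.factorial : ℂ)⁻¹)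
  have h3 : (r.factorial : ℂ) ≠ 0 := by exact_mod_cast r.factorial_ne_zero
  rw [inv_mul_cancel_left₀ h3] at h2
  refine h2.congr fun T => ?_
  rw [IT_zero hF, inv_mul_cancel_left₀ h3]

end Pool.Agent.K7.H56
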