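import Pool.Agent.Y688.G4
import Pool.Agent.K7.H56.T3

/-!
# Sums over a lattice of higher rank: growth and decay
-/

set_option autoImplicit false

open Complex Filter Topology

namespace Pool.Agent.K7.H56

open Pool.Agent.Y688 Pool.Agent.W192.HK Pool.Agent.TH936.CM

/-! ### products of sums -/

lemma pi_sum {X R : Type*} [NormedField R] [CompleteSpace R] : ∀ (n : ℕ) (f : Fin n → X → R),
    (∀ j, Summable (fun x => ‖f j x‖)) → Summable (fun a : Fin n → X => ‖∏ j, f j (a j)‖) ∧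
      ∑' a : Fin n → X, ∏ j, f j (a j) = ∏ j, ∑' x, f j x := by
  intro n
  induction n with
  | zero =>
    intro f _
    refine ⟨(hasSum_fintype _).summable, ?_⟩
    rw [tsum_fintype]
    simp
  | succ n ih =>
    intro f hf
    obtain ⟨h1, h2⟩ := ih (fun j => f j.succ) fun j => hf j.succ
    have he : ∀ p : X × (Fin n → X), ∏ j, f j ((Fin.consEquiv (fun _ => X)) p j) =
        f 0 p.1 * ∏ j : Fin n, f j.succ (p.2 j) := by
      intro p
      rw [Fin.prod_univ_succ]
      rfl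
    constructor
    · rw [← (Fin.consEquiv (fun _ => X)).summable_iff]
      refine (Summable.mul_norm (hf 0) h1).congr fun p => ?_
      show _ = ‖∏ j, f j ((Fin.consEquiv (fun _ => X)) p j)‖
      rw [he p]
    · rw [← (Fin.consEquiv (fun _ => X)).tsum_eq, Fin.prod_univ_succ, ← h2,
        tsum_mul_tsum_of_summable_norm (hf 0) h1]
      exact tsum_congr fun p => he p

/-! ### norms -/

/-- the square of the norm -/
noncomputable def nrm {d : ℕ} (y : Fin d → ℂ) : ℝ := ∑ i, normSq (y i)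

section nrm

variable {d : ℕ}

lemma nrm_nonneg (y : Fin d → ℂ) : 0 ≤ nrm y := Finset.sum_nonneg fun i _ => normSq_nonneg _

lemma normSq_le_nrm (y : Fin d → ℂ) (i : Fin d) : normSq (y i) ≤ nrm y :=
  Finset.single_le_sum (f := fun i => normSq (y i)) (fun _ _ => normSq_nonneg _) (Finset.mem_univ i)

lemma norm_le_nrm (y : Fin d → ℂ) (i : Fin d) : ‖y i‖ ≤ 1 + nrm y := by
  have h1 := normSq_le_nrm y i
  rw [Complex.normSq_eq_norm_sq] at h1
  nlinarith [norm_nonneg (y i), sq_nonneg (‖y i‖ - 1)]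

lemma pr_le (l y : Fin d → ℂ) : normSq (pr l y) ≤ nrm l * nrm y := by
  have h1 : ‖pr l y‖ ≤ ∑ i, ‖l i‖ * ‖y i‖ := by
    refine (norm_sum_le _ _).trans (le_of_eq ?_)
    exact Finset.sum_congr rfl fun i _ => norm_mul _ _
  have h2 := Finset.sum_mul_sq_le_sq_mul_sq Finset.univ (fun i => ‖l i‖) (fun i => ‖y i‖)
  rw [Complex.normSq_eq_norm_sq]
  unfold nrm
  simp only [Complex.normSq_eq_norm_sq]
  exact (pow_le_pow_left₀ (norm_nonneg _) h1 2).trans h2

lemma prod_norm_le {ι : Type*} (S : Finset ι) (s : ι → Fin d) (y : Fin d → ℂ) {k : ℕ}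
    (hk : S.card ≤ k) : ‖∏ j ∈ S, (starRingEnd ℂ) (y (s j))‖ ≤ (1 + nrm y) ^ k := by
  have h0 := nrm_nonneg y
  rw [norm_prod]
  calc ∏ j ∈ S, ‖(starRingEnd ℂ) (y (s j))‖ ≤ ∏ j ∈ S, (1 + nrm y) := by
        refine Finset.prod_le_prod (fun j _ => norm_nonneg _) fun j _ => ?_
        rw [Complex.norm_conj]
        exact norm_le_nrm y _
    _ = (1 + nrm y) ^ S.card := by rw [Finset.prod_const]
    _ ≤ (1 + nrm y) ^ k := pow_le_pow_right₀ (by linarith) hk

/-- absorption of polynomials -/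
lemma absorb (k : ℕ) {n ρ κ : ℝ} (hκ : 0 < κ) (hn : 0 ≤ n) (hρ : 0 < ρ) (hρ1 : ρ ≤ 1) :
    (1 + n) ^ k ≤ (k.factorial * (1 / κ) ^ k * Real.exp κ) * (1 / ρ) ^ k * Real.exp (ρ * κ * n) := by
  have h1 := pow_exp_le k (mul_pos hρ hκ) (by linarith : 0 ≤ 1 + n)
  refine h1.trans ?_
  have h2 : Real.exp (ρ * κ * (1 + n)) ≤ Real.exp κ * Real.exp (ρ * κ * n) := by
    rw [← Real.exp_add]
    refine Real.exp_le_exp.2 ?_
    nlinarith
  calc k.factorial * (1 / (ρ * κ)) ^ k * Real.exp (ρ * κ * (1 + n)) ≤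
        k.factorial * (1 / (ρ * κ)) ^ k * (Real.exp κ * Real.exp (ρ * κ * n)) :=
        mul_le_mul_of_nonneg_left h2 (by positivity)
    _ = _ := by
        rw [show 1 / (ρ * κ) = 1 / κ * (1 / ρ) by field_simp, mul_pow]
        ring

end nrm

/-! ### Hermitian forms -/

/-- Hermitian forms, by their restrictions to lines -/
def Herm {d : ℕ} (q : (Fin d → ℂ) → ℝ) : Prop :=
  ∀ x W : Fin d → ℂ, ∃ β : ℂ, ∀ s : ℂ,
    q (fun i => x i + s * W i) = q x + 2 * (s * β).re + normSq s * q W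

section herm

variable {d : ℕ} {q q' : (Fin d → ℂ) → ℝ}

lemma Herm.add (h : Herm q) (h' : Herm q') : Herm (fun y => q y + q' y) := by
  intro x W
  obtain ⟨β, hβ⟩ := h x W
  obtain ⟨β', hβ'⟩ := h' x W
  refine ⟨β + β', fun s => ?_⟩
  simp only [hβ s, hβ' s, mul_add, Complex.add_re]
  ring

lemma Herm.smul (c : ℝ) (h : Herm q) : Herm (fun y => c * q y) := by
  intro x W
  obtain ⟨β, hβ⟩ := h x W
  refine ⟨c * β, fun s => ?_⟩
  simp only [hβ s]
  have : (s * (c * β)).re = c * (s * β).re := by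
    rw [show s * (c * β) = c * (s * β) by ring, Complex.re_ofReal_mul]
  rw [this]
  ring

lemma Herm.sum {ι : Type*} (S : Finset ι) {Q : ι → (Fin d → ℂ) → ℝ} (h : ∀ i, Herm (Q i)) :
    Herm (fun y => ∑ i ∈ S, Q i y) := by
  classical
  induction S using Finset.induction_on with
  | empty =>
    intro x W
    exact ⟨0, fun s => by simp⟩
  | insert a S ha ih =>
    simp only [Finset.sum_insert ha]
    exact (h a).add ih

lemma herm_pr (l : Fin d → ℂ) : Herm (fun y => normSq (pr l y)) := by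
  intro x W
  refine ⟨pr l W * (starRingEnd ℂ) (pr l x), fun s => ?_⟩
  have h1 : pr l (fun i => x i + s * W i) = pr l x + s * pr l W := by
    unfold pr
    rw [Finset.mul_sum, ← Finset.sum_add_distrib]
    exact Finset.sum_congr rfl fun i _ => by ring
  show normSq (pr l fun i => x i + s * W i) = normSq (pr l x) + 2 * _ + normSq s * normSq (pr l W)
  rw [h1, Complex.normSq_add, Complex.normSq_mul]
  have h2 : (pr l x * (starRingEnd ℂ) (s * pr l W)).re =
      (s * (pr l W * (starRingEnd ℂ) (pr l x))).re := by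
    rw [← Complex.conj_re]
    congr 1
    rw [map_mul, Complex.conj_conj]
    ring
  rw [h2]
  ring

lemma herm_coord (i : Fin d) : Herm (fun y => normSq (y i)) := by
  intro x W
  refine ⟨W i * (starRingEnd ℂ) (x i), fun s => ?_⟩
  simp only
  rw [Complex.normSq_add, Complex.normSq_mul]
  have h2 : (x i * (starRingEnd ℂ) (s * W i)).re = (s * (W i * (starRingEnd ℂ) (x i))).re := by
    rw [← Complex.conj_re]
    congr 1
    rw [map_mul, Complex.conj_conj]
    ring
  rw [h2]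
  ring

/-- completing the square -/
lemma Herm.square (h : Herm q) (x W : Fin d → ℂ) (hW : 0 < q W) : ∃ u : ℂ, ∀ s : ℂ,
    q (fun i => x i + s * W i) = q W * normSq (s - u) + q (fun i => x i + u * W i) := by
  obtain ⟨β, hβ⟩ := h x W
  refine ⟨-(starRingEnd ℂ) β / q W, fun s => ?_⟩
  set u : ℂ := -(starRingEnd ℂ) β / q W with hu
  have hq : (q W : ℂ) ≠ 0 := by
    rw [Complex.ofReal_ne_zero]
    exact hW.ne'
  have hβ2 : β = -(q W * (starRingEnd ℂ) u) := by
    rw [hu, map_div₀, map_neg, Complex.conj_conj, Complex.conj_ofReal]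
    field_simp
  rw [hβ s, hβ u, Complex.normSq_sub, hβ2]
  have h1 : ∀ t : ℂ, (t * -(q W * (starRingEnd ℂ) u)).re = -(q W * (t * (starRingEnd ℂ) u).re) := by
    intro t
    rw [show t * -(q W * (starRingEnd ℂ) u) = -(q W * (t * (starRingEnd ℂ) u)) by ring,
      Complex.neg_re, Complex.re_ofReal_mul]
  rw [h1, h1, Complex.mul_conj, Complex.ofReal_re]
  ring

end herm

/-! ### lattices -/

/-- a free ring of finite rank over the Eisenstein integers, with its embeddings -/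
structure GN (A : Type*) [CommRing A] [Algebra RR A] (r : ℕ) where
  b : Module.Basis (Fin (r + 1)) RR A
  σ : Fin (r + 1) → A →+* ℂ
  hσ : ∀ i (a : RR), σ i (algebraMap RR A a) = (a : ℂ)
  det : (Matrix.of fun i j => σ i (b j)).det ≠ 0

variable {r : ℕ} {A : Type*} [CommRing A] [Algebra RR A]

namespace GN

variable (D : GN A r)

/-- the matrix of the embeddings -/
noncomputable def P : Matrix (Fin (r + 1)) (Fin (r + 1)) ℂ := Matrix.of fun i j => D.σ i (D.b j)

/-- all embeddings -/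
noncomputable def sg (x : A) : Fin (r + 1) → ℂ := fun i => D.σ i x

lemma sg_add (x y : A) : D.sg (x + y) = fun i => D.sg x i + D.sg y i := by
  funext i
  exact map_add _ _ _

lemma σ_smul (i : Fin (r + 1)) (a : RR) (x : A) : D.σ i (a • x) = a * D.σ i x := by
  rw [Algebra.smul_def, map_mul, D.hσ]

lemma sg_line (x : A) (a : RR) (w : A) : D.sg (x + a • w) = fun i => D.sg x i + a * D.sg w i := by
  funext i
  show D.σ i (x + a • w) = _
  rw [map_add, D.σ_smul]
  rfl

lemma sg_zero : D.sg 0 = 0 := by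
  funext i
  exact map_zero _

/-- the inverse matrix -/
noncomputable def Q : Matrix (Fin (r + 1)) (Fin (r + 1)) ℂ := D.P⁻¹

lemma sg_eq (x : A) (i : Fin (r + 1)) : D.sg x i = ∑ j, D.P i j * (D.b.repr x j : RR) := by
  have h1 : D.σ i x = D.σ i (∑ j, D.b.repr x j • D.b j) := by rw [D.b.sum_repr]
  show D.σ i x = _
  rw [h1, map_sum]
  refine Finset.sum_congr rfl fun j _ => ?_
  rw [D.σ_smul, mul_comm]
  rfl

lemma isUnit_det : IsUnit D.P.det := (Ne.isUnit D.det)

lemma repr_eq (x : A) (j : Fin (r + 1)) : ((D.b.repr x j : RR) : ℂ) = pr (D.Q j) (D.sg x) := by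
  have h1 : D.sg x = D.P.mulVec (fun j => ((D.b.repr x j : RR) : ℂ)) := by
    funext i
    exact D.sg_eq x i
  have h2 : pr (D.Q j) (D.sg x) = (D.Q.mulVec (D.sg x)) j := rfl
  rw [h2, h1, Matrix.mulVec_mulVec, Q, Matrix.nonsing_inv_mul _ D.isUnit_det, Matrix.one_mulVec]

lemma sg_inj : Function.Injective D.sg := by
  intro x y h
  refine D.b.repr.injective ?_
  ext j
  rw [D.repr_eq, D.repr_eq, h]

/-- the norm dominates the coordinates -/
lemma low : ∃ q : ℝ, 0 < q ∧ ∀ x : A, q * ∑ j, normSq ((D.b.repr x j : RR) : ℂ) ≤ nrm (D.sg x) := by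
  set s : ℝ := 1 + ∑ j, nrm (D.Q j) with hs
  have hs0 : 0 < s := by
    have := Finset.sum_nonneg fun (j : Fin (r + 1)) (_ : j ∈ Finset.univ) => nrm_nonneg (D.Q j)
    linarith
  refine ⟨s⁻¹, inv_pos.2 hs0, fun x => ?_⟩
  rw [inv_mul_le_iff₀ hs0]
  calc ∑ j, normSq ((D.b.repr x j : RR) : ℂ) ≤ ∑ j, nrm (D.Q j) * nrm (D.sg x) := by
        refine Finset.sum_le_sum fun j _ => ?_
        rw [D.repr_eq]
        exact pr_le _ _
    _ = (∑ j, nrm (D.Q j)) * nrm (D.sg x) := by rw [Finset.sum_mul]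
    _ ≤ s * nrm (D.sg x) := mul_le_mul_of_nonneg_right (by linarith) (nrm_nonneg _)

lemma nrm_pos : ∃ q : ℝ, 0 < q ∧ ∀ x : A, x ≠ 0 → q ≤ nrm (D.sg x) := by
  obtain ⟨q, hq, h⟩ := D.low
  refine ⟨q, hq, fun x hx => ?_⟩
  refine le_trans ?_ (h x)
  have h1 : ∃ j, D.b.repr x j ≠ 0 := by
    by_contra h2
    push Not at h2
    exact hx ((LinearEquiv.map_eq_zero_iff D.b.repr).1 (Finsupp.ext h2))
  obtain ⟨j, hj⟩ := h1
  have h2 : (1 : ℝ) ≤ ∑ j, normSq ((D.b.repr x j : RR) : ℂ) :=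
    (one_le_normSq hj).trans (Finset.single_le_sum
      (f := fun j => normSq ((D.b.repr x j : RR) : ℂ)) (fun _ _ => normSq_nonneg _)
      (Finset.mem_univ j))
  nlinarith

lemma nrm_sg_pos {w : A} (hw : w ≠ 0) : 0 < nrm (D.sg w) := by
  obtain ⟨q, hq, h⟩ := D.nrm_pos
  exact hq.trans_le (h w hw)

/-- **Growth.** -/
theorem growth (k : ℕ) {κ : ℝ} (hκ : 0 < κ) : ∃ C : ℝ, 0 < C ∧ ∃ m : ℕ, ∀ ρ : ℝ, 0 < ρ → ρ ≤ 1 →
    Summable (fun x : A => (1 + nrm (D.sg x)) ^ k * Real.exp (-(ρ * κ * nrm (D.sg x)))) ∧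
    ∑' x : A, (1 + nrm (D.sg x)) ^ k * Real.exp (-(ρ * κ * nrm (D.sg x))) ≤ C * (1 / ρ) ^ m := by
  obtain ⟨q, hq, hlow⟩ := D.low
  have hκ2 : 0 < κ / 2 := by positivity
  have hq2 : 0 < κ / 2 * q := by positivity
  obtain ⟨C1, hC1, m, h1⟩ := gauss_growth 0 hq2
  set B : ℝ := k.factorial * (1 / (κ / 2)) ^ k * Real.exp (κ / 2) with hB
  have hB0 : 0 < B := by positivity
  refine ⟨B * C1 ^ (r + 1), by positivity, k + m * (r + 1), fun ρ hρ hρ1 => ?_⟩
  -- the product function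
  set f : Fin (r + 1) → RR → ℝ := fun _ a => Real.exp (-(ρ * (κ / 2 * q) * normSq (a : ℂ))) with hf
  have hfs : ∀ j : Fin (r + 1), Summable (fun a => ‖f j a‖) := by
    intro j
    have h2 := summable_gauss 0 (mul_pos hρ hq2)
    refine h2.congr fun a => ?_
    rw [hf]
    simp only [pow_zero, one_mul, Real.norm_eq_abs, Real.abs_exp]
  obtain ⟨h3, h4⟩ := pi_sum (r + 1) f hfs
  have h5 : ∀ j : Fin (r + 1), ∑' a, f j a ≤ C1 * (1 / ρ) ^ m := by
    intro j
    have h6 := h1 ρ hρ hρ1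
    simpa [hf] using h6
  have h6 : ∑' a : Fin (r + 1) → RR, ∏ j, f j (a j) ≤ (C1 * (1 / ρ) ^ m) ^ (r + 1) := by
    rw [h4]
    refine (Finset.prod_le_prod (fun j _ => tsum_nonneg fun a => ?_) fun j _ => h5 j).trans
      (le_of_eq ?_)
    · rw [hf]; positivity
    · rw [Finset.prod_const, Finset.card_univ, Fintype.card_fin]
  have h7 : Summable (fun a : Fin (r + 1) → RR => ∏ j, f j (a j)) := h3.of_norm
  -- transport
  have h8 : Summable (fun x : A => ∏ j, f j (D.b.equivFun x j)) :=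
    (D.b.equivFun.toEquiv.summable_iff (f := fun a : Fin (r + 1) → RR => ∏ j, f j (a j))).2 h7
  have h9 : ∑' x : A, ∏ j, f j (D.b.equivFun x j) = ∑' a : Fin (r + 1) → RR, ∏ j, f j (a j) :=
    D.b.equivFun.toEquiv.tsum_eq (fun a : Fin (r + 1) → RR => ∏ j, f j (a j))
  have h10 : ∀ x : A, (1 + nrm (D.sg x)) ^ k * Real.exp (-(ρ * κ * nrm (D.sg x))) ≤
      (B * (1 / ρ) ^ k) * ∏ j, f j (D.b.equivFun x j) := by
    intro x
    have h11 := absorb k hκ2 (nrm_nonneg (D.sg x)) hρ hρ1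
    have h12 : ∏ j, f j (D.b.equivFun x j) =
        Real.exp (-(ρ * (κ / 2) * (q * ∑ j, normSq ((D.b.repr x j : RR) : ℂ)))) := by
      rw [hf]
      simp only
      rw [← Real.exp_sum]
      congr 1
      rw [Finset.mul_sum, Finset.mul_sum, ← Finset.sum_neg_distrib]
      refine Finset.sum_congr rfl fun j _ => ?_
      rw [Module.Basis.equivFun_apply]
      ring
    rw [h12]
    calc (1 + nrm (D.sg x)) ^ k * Real.exp (-(ρ * κ * nrm (D.sg x))) ≤
          (B * (1 / ρ) ^ k * Real.exp (ρ * (κ / 2) * nrm (D.sg x))) *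
            Real.exp (-(ρ * κ * nrm (D.sg x))) :=
          mul_le_mul_of_nonneg_right h11 (Real.exp_pos _).le
      _ = B * (1 / ρ) ^ k * Real.exp (-(ρ * (κ / 2) * nrm (D.sg x))) := by
          rw [mul_assoc, ← Real.exp_add]
          congr 2
          ring
      _ ≤ _ := by
          refine mul_le_mul_of_nonneg_left (Real.exp_le_exp.2 ?_) (by positivity)
          have := mul_le_mul_of_nonneg_left (hlow x) (by positivity : 0 ≤ ρ * (κ / 2))
          linarith
  have h11 : Summable (fun x : A => (1 + nrm (D.sg x)) ^ k *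
      Real.exp (-(ρ * κ * nrm (D.sg x)))) := by
    refine Summable.of_nonneg_of_le (fun x => ?_) h10 (h8.mul_left _)
    have := nrm_nonneg (D.sg x)
    positivity
  refine ⟨h11, (h11.tsum_le_tsum h10 (h8.mul_left _)).trans ?_⟩
  rw [tsum_mul_left, h9]
  calc B * (1 / ρ) ^ k * ∑' a : Fin (r + 1) → RR, ∏ j, f j (a j) ≤
      B * (1 / ρ) ^ k * (C1 * (1 / ρ) ^ m) ^ (r + 1) :=
        mul_le_mul_of_nonneg_left h6 (by positivity)
    _ = _ := by
        rw [mul_pow, ← pow_mul, pow_add]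
        ring

lemma summ (k : ℕ) {κ : ℝ} (hκ : 0 < κ) :
    Summable (fun x : A => (1 + nrm (D.sg x)) ^ k * Real.exp (-(κ * nrm (D.sg x)))) := by
  obtain ⟨_, _, _, h⟩ := D.growth k hκ
  simpa using (h 1 one_pos le_rfl).1

/-- **Decay.** -/
theorem decay (k : ℕ) {κ : ℝ} (hκ : 0 < κ) : ∃ C c : ℝ, 0 < C ∧ 0 < c ∧ ∀ ρ : ℝ, 1 ≤ ρ →
    ∀ (F : A → ℂ) (K : ℝ), 0 ≤ K → F 0 = 0 → (∀ x, ‖F x‖ ≤ K * ((1 + nrm (D.sg x)) ^ k *
      Real.exp (-(ρ * κ * nrm (D.sg x))))) → ‖∑' x, F x‖ ≤ K * C * Real.exp (-(c * ρ)) := by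
  obtain ⟨q, hq, hlow⟩ := D.nrm_pos
  have h1 := D.summ k (by positivity : 0 < κ / 2)
  refine ⟨1 + ∑' x : A, (1 + nrm (D.sg x)) ^ k * Real.exp (-(κ / 2 * nrm (D.sg x))), κ * q / 2,
    ?_, by positivity, fun ρ hρ F K hK hF0 hF => ?_⟩
  · have : 0 ≤ ∑' x : A, (1 + nrm (D.sg x)) ^ k * Real.exp (-(κ / 2 * nrm (D.sg x))) :=
      tsum_nonneg fun x => by
        have := nrm_nonneg (D.sg x)
        positivity
    linarith
  · have h2 : ∀ x, ‖F x‖ ≤ (K * Real.exp (-(κ * q / 2 * ρ))) *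
        ((1 + nrm (D.sg x)) ^ k * Real.exp (-(κ / 2 * nrm (D.sg x)))) := by
      intro x
      have hn := nrm_nonneg (D.sg x)
      by_cases hx : x = 0
      · subst hx
        rw [hF0, norm_zero]
        positivity
      · refine (hF x).trans ?_
        have h3 := hlow x hx
        have h4 : Real.exp (-(ρ * κ * nrm (D.sg x))) ≤
            Real.exp (-(κ * q / 2 * ρ)) * Real.exp (-(κ / 2 * nrm (D.sg x))) := by
          rw [← Real.exp_add]
          refine Real.exp_le_exp.2 ?_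
          have h5 : κ / 2 * ρ * q ≤ κ / 2 * ρ * nrm (D.sg x) :=
            mul_le_mul_of_nonneg_left h3 (by positivity)
          have h6 : κ / 2 * nrm (D.sg x) * 1 ≤ κ / 2 * nrm (D.sg x) * ρ :=
            mul_le_mul_of_nonneg_left hρ (by positivity)
          linarith
        calc K * ((1 + nrm (D.sg x)) ^ k * Real.exp (-(ρ * κ * nrm (D.sg x)))) ≤
            K * ((1 + nrm (D.sg x)) ^ k * (Real.exp (-(κ * q / 2 * ρ)) *
              Real.exp (-(κ / 2 * nrm (D.sg x))))) := by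
              refine mul_le_mul_of_nonneg_left (mul_le_mul_of_nonneg_left h4 (by positivity)) hK
          _ = _ := by ring
    have h3 := tsum_of_norm_bounded ((h1.mul_left (K * Real.exp (-(κ * q / 2 * ρ)))).hasSum) h2
    rw [tsum_mul_left] at h3
    refine h3.trans ?_
    have h4 : 0 ≤ K * Real.exp (-(κ * q / 2 * ρ)) := by positivity
    nlinarith

/-! ### oscillation -/

/-- the lines in the direction `w` -/
lemma exists_lines [NoZeroSMulDivisors RR A] {w : A} (hw : w ≠ 0) :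
    Function.Bijective (fun p : (A ⧸ (Submodule.span RR {w})) × RR => p.1.out + p.2 • w) := by
  have hmk : ∀ c : A ⧸ (Submodule.span RR {w}), Submodule.Quotient.mk c.out = c :=
    fun c => Quotient.out_eq c
  have hmk2 : ∀ (c : A ⧸ (Submodule.span RR {w})) (a : RR),
      (Submodule.Quotient.mk (c.out + a • w) : A ⧸ (Submodule.span RR {w})) = c := by
    intro c a
    conv_rhs => rw [← hmk c]
    rw [Submodule.Quotient.eq, add_sub_cancel_left]
    exact Submodule.smul_mem _ _ (Submodule.mem_span_singleton_self w)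
  constructor
  · rintro ⟨c, a⟩ ⟨c', a'⟩ h
    simp only at h
    have h1 : c = c' := by
      rw [← hmk2 c a, ← hmk2 c' a', h]
    subst h1
    have h2 : a • w = a' • w := add_left_cancel h
    have h3 : (a - a') • w = 0 := by rw [sub_smul, h2, sub_self]
    rcases smul_eq_zero.1 h3 with h4 | h4
    · rw [sub_eq_zero.1 h4]
    · exact absurd h4 hw
  · intro x
    have h1 : (Submodule.Quotient.mk x : A ⧸ (Submodule.span RR {w})) =
        Submodule.Quotient.mk (Submodule.Quotient.mk x : A ⧸ (Submodule.span RR {w})).out :=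
      (hmk _).symm
    rw [Submodule.Quotient.eq] at h1
    obtain ⟨a, ha⟩ := Submodule.mem_span_singleton.1 h1
    exact ⟨(Submodule.Quotient.mk x, a), by
      show _ + a • w = x
      rw [ha]
      abel⟩


/-- **Oscillation.** -/
theorem osc [NoZeroSMulDivisors RR A] {M : ℕ} [NeZero M] {w : A} (hw : w ≠ 0) {κ κ' K : ℝ}
    (hκ : 0 < κ) (hκ' : 0 < κ') (hK : 0 ≤ K) : ∃ C c : ℝ, 0 < C ∧ 0 < c ∧ ∀ φ : A → ℂ,
      (∀ x, ‖φ x‖ ≤ K) → (∀ x (a : RR), φ (x + (M * a) • w) = φ x) →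
      (∀ x, ∑ q : RM M, φ (x + q.out • w) = 0) → ∀ ρ : ℝ, 0 < ρ → ρ ≤ 1 →
      ∀ q : (Fin (r + 1) → ℂ) → ℝ, Herm q → (∀ y, ρ * κ * nrm y ≤ q y ∧ q y ≤ ρ * κ' * nrm y) →
      ∀ S0 : Finset (Fin (r + 1)),
      ‖∑' x : A, φ x * ((∏ j ∈ S0, (starRingEnd ℂ) (D.sg x j)) * (Real.exp (-(q (D.sg x))) : ℂ))‖ ≤
        C * Real.exp (-(c / ρ)) := by
  classical
  obtain ⟨k, hk⟩ : ∃ k, k = r + 1 := ⟨_, rfl⟩
  set W := D.sg w with hW
  have hnW : 0 < nrm W := D.nrm_sg_pos hw
  have hδm : 0 < κ' * nrm W := mul_pos hκ' hnW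
  obtain ⟨C1, c1, hC1, hc1, hper⟩ := per_bound' M hδm K hK k
  obtain ⟨C2, hC2, m, hgr⟩ := D.growth 0 (by positivity : 0 < κ / 2)
  have hκ2 : 0 < κ / 2 := by positivity
  set B : ℝ := k.factorial * (1 / (κ / 2)) ^ k * Real.exp (κ / 2) with hB
  have hB0 : 0 < B := by positivity
  set c2 : ℝ := c1 / (κ' * nrm W) with hc2
  have hc20 : 0 < c2 := by positivity
  set E : ℝ := 2 ^ k * ((1 + nrm W) ^ k * C1 * B) with hE
  have hE0 : 0 < E := by positivity
  refine ⟨E * Real.exp (κ' * nrm W) * C2 * ((k + m).factorial * (1 / (c2 / 2)) ^ (k + m)), c2 / 2,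
    by positivity, by positivity, ?_⟩
  intro φ hφ hφp hφz ρ hρ hρ1 q hq hqb S0
  have hSc : ∀ S : Finset (Fin (r + 1)), S.card ≤ k := fun S => by
    rw [hk]; simpa using Finset.card_le_univ S
  -- summability
  have hs : Summable fun x : A => φ x * ((∏ j ∈ S0, (starRingEnd ℂ) (D.sg x j)) *
      (Real.exp (-(q (D.sg x))) : ℂ)) := by
    refine Summable.of_norm_bounded (((D.growth k hκ).choose_spec.2.choose_spec ρ hρ hρ1).1.mul_left K)
      fun x => ?_
    rw [norm_mul, norm_mul, Complex.norm_real, Real.norm_eq_abs, Real.abs_exp]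
    have h1 := prod_norm_le S0 id (D.sg x) (hSc S0)
    have h2 : Real.exp (-(q (D.sg x))) ≤ Real.exp (-(ρ * κ * nrm (D.sg x))) :=
      Real.exp_le_exp.2 (neg_le_neg (hqb _).1)
    exact mul_le_mul (hφ x) (mul_le_mul h1 h2 (Real.exp_pos _).le (by
      have := nrm_nonneg (D.sg x)
      positivity)) (by positivity) hK
  set e := Equiv.ofBijective _ (exists_lines hw) with he
  have hs' : Summable fun p : (A ⧸ (Submodule.span RR {w})) × RR =>
      φ (e p) * ((∏ j ∈ S0, (starRingEnd ℂ) (D.sg (e p) j)) *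
      (Real.exp (-(q (D.sg (e p)))) : ℂ)) := (e.summable_iff (f := fun x : A =>
        φ x * ((∏ j ∈ S0, (starRingEnd ℂ) (D.sg x j)) * (Real.exp (-(q (D.sg x))) : ℂ)))).2 hs
  rw [← e.tsum_eq, hs'.tsum_prod]
  -- the inner sums
  set h : ℝ := q W with hh
  have hh1 : 0 < h := lt_of_lt_of_le (by positivity) (hqb W).1
  have hh2 : h ≤ κ' * nrm W := by
    refine (hqb W).2.trans ?_
    have : ρ * (κ' * nrm W) ≤ 1 * (κ' * nrm W) := mul_le_mul_of_nonneg_right hρ1 hδm.le
    linarith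
  have hh3 : c2 / ρ ≤ c1 / h := by
    rw [hc2, div_div]
    refine div_le_div_of_nonneg_left hc1.le hh1 ?_
    have := (hqb W).2
    linarith
  choose u hu using fun c : A ⧸ (Submodule.span RR {w}) => hq.square (D.sg c.out) W hh1
  set y : (A ⧸ (Submodule.span RR {w})) → Fin (r + 1) → ℂ :=
    fun c i => D.sg c.out i + u c * W i with hy
  have hq0 : ∀ c, 0 ≤ q (y c) := fun c =>
    (mul_nonneg (mul_nonneg hρ.le hκ.le) (nrm_nonneg _)).trans (hqb (y c)).1
  have hinner : ∀ c : A ⧸ (Submodule.span RR {w}),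
      ‖∑' a : RR, φ (e (c, a)) * ((∏ j ∈ S0, (starRingEnd ℂ) (D.sg (e (c, a)) j)) *
      (Real.exp (-(q (D.sg (e (c, a))))) : ℂ))‖ ≤
      E * Real.exp (-(c2 / ρ)) * (1 / ρ) ^ k * Real.exp (-(q (y c) / 2)) := by
    intro c
    have h1 : ∀ a : RR, φ (e (c, a)) * ((∏ j ∈ S0, (starRingEnd ℂ) (D.sg (e (c, a)) j)) *
      (Real.exp (-(q (D.sg (e (c, a))))) : ℂ)) =
      (Real.exp (-(q (y c))) : ℂ) * ∑ S ∈ S0.powerset,
        ((∏ j ∈ S, (starRingEnd ℂ) (W j)) * (∏ j ∈ S0 \ S, (starRingEnd ℂ) (y c j))) *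
        (φ (c.out + a • w) * gt S.card h ((a : ℂ) - u c)) := by
      intro a
      have h2 : e (c, a) = c.out + a • w := rfl
      have h3 : D.sg (c.out + a • w) = fun i => D.sg c.out i + (a : ℂ) * W i := D.sg_line _ _ _
      have h4 : q (D.sg (c.out + a • w)) = h * normSq ((a : ℂ) - u c) + q (y c) := by
        rw [h3]
        exact hu c a
      have h5 : ∏ j ∈ S0, (starRingEnd ℂ) (D.sg (c.out + a • w) j) =
          ∑ S ∈ S0.powerset,
          (∏ j ∈ S, (starRingEnd ℂ) ((a : ℂ) - u c) * (starRingEnd ℂ) (W j)) *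
            ∏ j ∈ S0 \ S, (starRingEnd ℂ) (y c j) := by
        rw [← Finset.prod_add]
        refine Finset.prod_congr rfl fun j _ => ?_
        rw [h3, hy, ← map_mul, ← map_add]
        congr 1
        ring
      rw [h2, h4, h5, Finset.mul_sum, Finset.sum_mul, Finset.mul_sum]
      refine Finset.sum_congr rfl fun S _ => ?_
      rw [Finset.prod_mul_distrib, Finset.prod_const]
      unfold gt
      have h6 : (Real.exp (-(h * normSq ((a : ℂ) - u c) + q (y c))) : ℂ) =
          (Real.exp (-(h * normSq ((a : ℂ) - u c))) : ℂ) * (Real.exp (-(q (y c))) : ℂ) := by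
        rw [← Complex.ofReal_mul, ← Real.exp_add]
        congr 2
        ring
      rw [h6]
      ring
    simp only [h1]
    have hb1 : ∀ a : RR, ‖φ (c.out + a • w)‖ ≤ K := fun a => hφ _
    have hPer : Per M (fun a : RR => φ (c.out + a • w)) := by
      intro a a' haa
      obtain ⟨t, ht⟩ := Ideal.mem_span_singleton.1 haa
      show φ (c.out + a • w) = φ (c.out + a' • w)
      have h2 : c.out + a • w = c.out + a' • w + ((M : RR) * t) • w := by
        rw [← ht, sub_smul]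
        abel
      rw [h2, hφp]
    rw [tsum_mul_left, Summable.tsum_finsetSum fun S _ => (summ_bgt hb1 _ hh1 (u c)).mul_left _]
    simp only [tsum_mul_left]
    rw [norm_mul, Complex.norm_real, Real.norm_eq_abs, Real.abs_exp]
    have h2 : ‖∑ S ∈ S0.powerset,
        ((∏ j ∈ S, (starRingEnd ℂ) (W j)) * (∏ j ∈ S0 \ S, (starRingEnd ℂ) (y c j))) *
        ∑' a : RR, (φ (c.out + a • w) * gt S.card h ((a : ℂ) - u c))‖ ≤
        2 ^ k * ((1 + nrm W) ^ k * (1 + nrm (y c)) ^ k * (C1 * Real.exp (-(c2 / ρ)))) := by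
      refine (norm_sum_le _ _).trans ?_
      have h3 : ∀ S ∈ S0.powerset,
          ‖((∏ j ∈ S, (starRingEnd ℂ) (W j)) *
            (∏ j ∈ S0 \ S, (starRingEnd ℂ) (y c j))) *
            ∑' a : RR, (φ (c.out + a • w) * gt S.card h ((a : ℂ) - u c))‖ ≤
            (1 + nrm W) ^ k * (1 + nrm (y c)) ^ k * (C1 * Real.exp (-(c2 / ρ))) := by
        intro S _
        have hSk : S.card ≤ k := hSc S
        have hSk' : (S0 \ S).card ≤ k := hSc _
        rw [norm_mul, norm_mul]
        have h4 := prod_norm_le S id W hSk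
        have h5 := prod_norm_le (S0 \ S) id (y c) hSk'
        have h6 := hper S.card hSk _ hPer hb1 (hφz _) h hh1 hh2 (u c)
        have h7 : Real.exp (-(c1 / h)) ≤ Real.exp (-(c2 / ρ)) :=
          Real.exp_le_exp.2 (neg_le_neg hh3)
        have h8 := nrm_nonneg (y c)
        refine mul_le_mul (mul_le_mul h4 h5 (norm_nonneg _) (by positivity))
          (h6.trans (mul_le_mul_of_nonneg_left h7 hC1.le)) (norm_nonneg _) (by positivity)
      have h31 := nrm_nonneg (y c)
      refine (Finset.sum_le_card_nsmul _ _ _ h3).trans ?_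
      rw [Finset.card_powerset, nsmul_eq_mul]
      push_cast
      rw [mul_comm]
      rw [mul_comm ((2 : ℝ) ^ k)]
      exact mul_le_mul_of_nonneg_left (pow_le_pow_right₀ one_le_two (hSc S0)) (by positivity)
    have h9 := absorb k hκ2 (nrm_nonneg (y c)) hρ hρ1
    have h10 : (1 + nrm (y c)) ^ k * Real.exp (-(q (y c))) ≤
        B * (1 / ρ) ^ k * Real.exp (-(q (y c) / 2)) := by
      calc (1 + nrm (y c)) ^ k * Real.exp (-(q (y c))) ≤
          (B * (1 / ρ) ^ k * Real.exp (ρ * (κ / 2) * nrm (y c))) * Real.exp (-(q (y c))) :=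
            mul_le_mul_of_nonneg_right h9 (Real.exp_pos _).le
        _ = B * (1 / ρ) ^ k * Real.exp (ρ * (κ / 2) * nrm (y c) + -(q (y c))) := by
            rw [mul_assoc, ← Real.exp_add]
        _ ≤ _ := by
            refine mul_le_mul_of_nonneg_left (Real.exp_le_exp.2 ?_) (by positivity)
            have := (hqb (y c)).1
            linarith
    calc Real.exp (-(q (y c))) * _ ≤ Real.exp (-(q (y c))) *
          (2 ^ k * ((1 + nrm W) ^ k * (1 + nrm (y c)) ^ k * (C1 * Real.exp (-(c2 / ρ))))) :=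
          mul_le_mul_of_nonneg_left h2 (Real.exp_pos _).le
      _ = (2 ^ k * ((1 + nrm W) ^ k * C1) * Real.exp (-(c2 / ρ))) *
          ((1 + nrm (y c)) ^ k * Real.exp (-(q (y c)))) := by ring
      _ ≤ (2 ^ k * ((1 + nrm W) ^ k * C1) * Real.exp (-(c2 / ρ))) *
          (B * (1 / ρ) ^ k * Real.exp (-(q (y c) / 2))) :=
          mul_le_mul_of_nonneg_left h10 (by positivity)
      _ = _ := by rw [hE]; ring
  -- the outer sum
  choose a ha using fun c : A ⧸ (Submodule.span RR {w}) => exists_near (u c)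
  have hinj : Function.Injective fun c : A ⧸ (Submodule.span RR {w}) => e (c, a c) := by
    intro c c' hcc
    exact (Prod.ext_iff.1 (e.injective hcc)).1
  have hg := hgr ρ hρ hρ1
  simp only [pow_zero, one_mul] at hg
  have hout : ∀ c : A ⧸ (Submodule.span RR {w}), Real.exp (-(q (y c) / 2)) ≤
      Real.exp (κ' * nrm W) * Real.exp (-(ρ * (κ / 2) * nrm (D.sg (e (c, a c))))) := by
    intro c
    rw [← Real.exp_add]
    refine Real.exp_le_exp.2 ?_
    have h1 : q (D.sg (e (c, a c))) = h * normSq ((a c : ℂ) - u c) + q (y c) := by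
      have h3 : D.sg (e (c, a c)) = fun i => D.sg c.out i + (a c : ℂ) * W i := D.sg_line _ _ _
      rw [h3]
      exact hu c (a c)
    have h2 := (hqb (D.sg (e (c, a c)))).1
    have h4 : normSq ((a c : ℂ) - u c) ≤ 1 := by
      rw [← Complex.normSq_neg, neg_sub]
      linarith [ha c]
    have h5 : h * normSq ((a c : ℂ) - u c) ≤ h * 1 := mul_le_mul_of_nonneg_left h4 hh1.le
    nlinarith
  have hS1 : Summable fun c : A ⧸ (Submodule.span RR {w}) => Real.exp (κ' * nrm W) *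
      Real.exp (-(ρ * (κ / 2) * nrm (D.sg (e (c, a c))))) :=
    (hg.1.comp_injective hinj).mul_left _
  have hS2 : ∑' c : A ⧸ (Submodule.span RR {w}), Real.exp (κ' * nrm W) *
      Real.exp (-(ρ * (κ / 2) * nrm (D.sg (e (c, a c))))) ≤
      Real.exp (κ' * nrm W) * (C2 * (1 / ρ) ^ m) := by
    rw [tsum_mul_left]
    refine mul_le_mul_of_nonneg_left ?_ (Real.exp_pos _).le
    exact (tsum_comp_le_tsum_of_inj hg.1 (fun _ => (Real.exp_pos _).le) hinj).trans hg.2
  have hfin := tsum_of_norm_bounded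
    ((hS1.mul_left (E * Real.exp (-(c2 / ρ)) * (1 / ρ) ^ k)).hasSum)
    (fun c => (hinner c).trans (mul_le_mul_of_nonneg_left (hout c) (by positivity)))
  refine hfin.trans ?_
  rw [tsum_mul_left]
  have hpow : (1 / ρ) ^ (k + m) ≤ (k + m).factorial * (1 / (c2 / 2)) ^ (k + m) *
      Real.exp (c2 / 2 * (1 / ρ)) := pow_exp_le (k + m) (by positivity) (by positivity)
  calc E * Real.exp (-(c2 / ρ)) * (1 / ρ) ^ k * _ ≤
      E * Real.exp (-(c2 / ρ)) * (1 / ρ) ^ k * (Real.exp (κ' * nrm W) * (C2 * (1 / ρ) ^ m)) :=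
        mul_le_mul_of_nonneg_left hS2 (by positivity)
    _ = (E * Real.exp (κ' * nrm W) * C2 * Real.exp (-(c2 / ρ))) * (1 / ρ) ^ (k + m) := by
        rw [pow_add]; ring
    _ ≤ (E * Real.exp (κ' * nrm W) * C2 * Real.exp (-(c2 / ρ))) *
        ((k + m).factorial * (1 / (c2 / 2)) ^ (k + m) * Real.exp (c2 / 2 * (1 / ρ))) :=
        mul_le_mul_of_nonneg_left hpow (by positivity)
    _ = E * Real.exp (κ' * nrm W) * C2 * ((k + m).factorial * (1 / (c2 / 2)) ^ (k + m)) *
        (Real.exp (-(c2 / ρ)) * Real.exp (c2 / 2 * (1 / ρ))) := by ring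
    _ = _ := by
        rw [← Real.exp_add]
        congr 2
        ring

end GN

end Pool.Agent.K7.H56
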