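import Pool.Agent.K7.H56.T4

/-!
# The family of forms attached to a lattice
-/

set_option autoImplicit false

open Complex Filter Topology Set

namespace Pool.Agent.K7.H56

open Pool.Agent.Y688 Pool.Agent.W192.HK Pool.Agent.TH936.CM

open Equiv (Perm)

/-! ### bounds for the forms -/

section bounds

variable {d : ℕ}

lemma det_norm_le {n : ℕ} {M : Matrix (Fin n) (Fin n) ℂ} {B : ℝ} (h : ∀ i j, ‖M i j‖ ≤ B) :
    ‖M.det‖ ≤ n.factorial * B ^ n := by
  rw [Matrix.det_apply]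
  refine (norm_sum_le _ _).trans ?_
  refine (Finset.sum_le_card_nsmul _ _ (B ^ n) fun σ _ => ?_).trans (le_of_eq ?_)
  · have h1 : ‖Perm.sign σ • ∏ i, M (σ i) i‖ = ‖∏ i, M (σ i) i‖ := by
      rcases Int.units_eq_one_or (Perm.sign σ) with h | h <;> rw [h]
      · rw [one_smul]
      · rw [Units.neg_smul, one_smul, norm_neg]
    rw [h1, norm_prod]
    refine (Finset.prod_le_prod (fun i _ => norm_nonneg _) fun i _ => h (σ i) i).trans (le_of_eq ?_)
    rw [Finset.prod_const, Finset.card_univ, Fintype.card_fin]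
  · rw [Finset.card_univ, Fintype.card_perm, Fintype.card_fin, nsmul_eq_mul]

/-- size of the logarithms -/
noncomputable def LB (Λ : Fin d → Fin d → ℝ) : ℝ := 1 + ∑ b, ∑ i, |Λ b i|

/-- size of the rows -/
noncomputable def rB (ρ : Fin d → (Fin d → ℂ) ⊕ Fin d) : ℝ :=
  1 + ∑ j, Sum.elim (fun l => nrm l) (fun _ => 0) (ρ j)

lemma LB_one (Λ : Fin d → Fin d → ℝ) : 1 ≤ LB Λ := by
  unfold LB
  have : 0 ≤ ∑ b, ∑ i, |Λ b i| :=
    Finset.sum_nonneg fun _ _ => Finset.sum_nonneg fun _ _ => abs_nonneg _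
  linarith

lemma sum_row_le (Λ : Fin d → Fin d → ℝ) (b : Fin d) : ∑ i, |Λ b i| ≤ LB Λ := by
  have h2 : ∑ i, |Λ b i| ≤ ∑ b, ∑ i, |Λ b i| :=
    Finset.single_le_sum (f := fun b => ∑ i, |Λ b i|)
      (fun _ _ => Finset.sum_nonneg fun _ _ => abs_nonneg _) (Finset.mem_univ b)
  unfold LB
  linarith

lemma le_LB (Λ : Fin d → Fin d → ℝ) (b i : Fin d) : |Λ b i| ≤ LB Λ := by
  have h1 : |Λ b i| ≤ ∑ i, |Λ b i| :=
    Finset.single_le_sum (f := fun i => |Λ b i|) (fun _ _ => abs_nonneg _) (Finset.mem_univ i)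
  exact h1.trans (sum_row_le Λ b)

lemma rB_nn (ρ : Fin d → (Fin d → ℂ) ⊕ Fin d) (j : Fin d) :
    0 ≤ Sum.elim (fun l => nrm l) (fun _ => (0 : ℝ)) (ρ j) := by
  rcases ρ j with l | b
  · exact nrm_nonneg l
  · exact le_rfl

lemma rB_one (ρ : Fin d → (Fin d → ℂ) ⊕ Fin d) : 1 ≤ rB ρ := by
  unfold rB
  have := Finset.sum_nonneg fun j (_ : j ∈ Finset.univ) => rB_nn ρ j
  linarith

lemma le_rB {ρ : Fin d → (Fin d → ℂ) ⊕ Fin d} {j : Fin d} {l : Fin d → ℂ} (h : ρ j = Sum.inl l)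
    (i : Fin d) : ‖l i‖ ≤ rB ρ := by
  refine (norm_le_nrm l i).trans ?_
  unfold rB
  have := Finset.single_le_sum (f := fun j => Sum.elim (fun l => nrm l) (fun _ => (0 : ℝ)) (ρ j))
    (fun j _ => rB_nn ρ j) (Finset.mem_univ j)
  rw [h] at this
  simp only [Sum.elim_inl] at this
  linarith

variable (Λ : Fin d → Fin d → ℝ) (ρ : Fin d → (Fin d → ℂ) ⊕ Fin d) {x : Fin d → ℂ} {z : Fin d → ℝ}
  {t m : ℝ}

/-- the size of the entries -/
noncomputable def wB (t m : ℝ) (x : Fin d → ℂ) : ℝ :=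
  (rB ρ + LB Λ * Real.exp m) * (1 + Real.exp t) * (1 + nrm x)

lemma wB_pos : 0 < wB Λ ρ t m x := by
  have h1 := rB_one ρ
  have h2 := LB_one Λ
  have h3 := nrm_nonneg x
  unfold wB
  positivity

lemma le_wB1 : rB ρ + LB Λ * Real.exp m ≤ wB Λ ρ t m x := by
  have h1 := rB_one ρ
  have h2 := LB_one Λ
  have h3 := nrm_nonneg x
  have h4 : 0 < rB ρ + LB Λ * Real.exp m := by positivity
  have h5 : 1 ≤ (1 + Real.exp t) * (1 + nrm x) := by
    have := Real.exp_pos t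
    nlinarith [mul_nonneg this.le h3]
  unfold wB
  rw [mul_assoc]
  exact le_mul_of_one_le_right h4.le h5

lemma le_wB2 : LB Λ * Real.exp (t + m) * (1 + nrm x) ≤ wB Λ ρ t m x := by
  have h1 := rB_one ρ
  have h2 := LB_one Λ
  have h3 := nrm_nonneg x
  unfold wB
  refine mul_le_mul_of_nonneg_right ?_ (by positivity)
  rw [Real.exp_add]
  have h4 := Real.exp_pos t
  have h5 := Real.exp_pos m
  have h6 : 0 < LB Λ * Real.exp m := by positivity
  nlinarith [mul_pos h6 h4, mul_pos (by linarith : 0 < rB ρ) h4]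

lemma rv_le (hY : ∀ i, |Yf Λ z i - t| ≤ m) (j i : Fin d) :
    ‖rv Λ z x (ρ j) i‖ ≤ wB Λ ρ t m x := by
  have h1 := rB_one ρ
  have h2 := LB_one Λ
  rcases hρ : ρ j with l | b
  · refine (le_rB hρ i).trans (le_trans ?_ (le_wB1 Λ ρ))
    have : 0 ≤ LB Λ * Real.exp m := by positivity
    linarith
  · show ‖((Λ b i * Real.exp (Yf Λ z i) : ℝ) : ℂ) * (starRingEnd ℂ) (x i)‖ ≤ _
    rw [norm_mul, Complex.norm_real, Complex.norm_conj, Real.norm_eq_abs, abs_mul, Real.abs_exp]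
    refine le_trans ?_ (le_wB2 Λ ρ)
    have h3 : Real.exp (Yf Λ z i) ≤ Real.exp (t + m) :=
      Real.exp_le_exp.2 (by have := (abs_le.1 (hY i)).2; linarith)
    exact mul_le_mul (mul_le_mul (le_LB Λ b i) h3 (Real.exp_pos _).le (by positivity))
      (norm_le_nrm x i) (norm_nonneg _) (by positivity)

lemma ac_le (hm : 0 ≤ m) (l j : Fin d) : ‖ac Λ l (ρ j)‖ ≤ wB Λ ρ t m x := by
  have h1 := rB_one ρ
  have h2 := LB_one Λ
  rcases hρ : ρ j with v | b
  · rw [ac_inl, norm_zero]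
    exact (wB_pos Λ ρ).le
  · rw [ac_inr, Complex.norm_real, Real.norm_eq_abs]
    refine (le_LB Λ b l).trans (le_trans ?_ (le_wB1 Λ ρ))
    have h3 : 1 ≤ Real.exp m := Real.one_le_exp hm
    nlinarith

lemma Hf_low (hY : ∀ i, |Yf Λ z i - t| ≤ m) (x : Fin d → ℂ) :
    Real.exp t * Real.exp (-m) * nrm x ≤ Hf Λ z x := by
  unfold Hf nrm
  rw [Finset.mul_sum]
  refine Finset.sum_le_sum fun i _ => mul_le_mul_of_nonneg_right ?_ (normSq_nonneg _)
  rw [← Real.exp_add]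
  exact Real.exp_le_exp.2 (by have := (abs_le.1 (hY i)).1; linarith)

lemma Hf_up (hY : ∀ i, |Yf Λ z i - t| ≤ m) (x : Fin d → ℂ) :
    Hf Λ z x ≤ Real.exp t * Real.exp m * nrm x := by
  unfold Hf nrm
  rw [Finset.mul_sum]
  refine Finset.sum_le_sum fun i _ => mul_le_mul_of_nonneg_right ?_ (normSq_nonneg _)
  rw [← Real.exp_add]
  exact Real.exp_le_exp.2 (by have := (abs_le.1 (hY i)).2; linarith)

lemma dn_prod_le (hdn : ∀ j, ‖dn x (ρ j)‖ ≤ 1) : ‖∏ j, dn x (ρ j)‖ ≤ 1 := by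
  rw [norm_prod]
  exact Finset.prod_le_one (fun _ _ => norm_nonneg _) fun j _ => hdn j

lemma Df_env (hm : 0 ≤ m) (hY : ∀ i, |Yf Λ z i - t| ≤ m) (hdn : ∀ j, ‖dn x (ρ j)‖ ≤ 1) :
    ‖Df Λ ρ x z‖ ≤ d.factorial * wB Λ ρ t m x ^ d *
      Real.exp (-(Real.exp t * Real.exp (-m) * nrm x)) := by
  unfold Df
  rw [norm_mul, norm_mul, Complex.norm_real, Real.norm_eq_abs, Real.abs_exp]
  have h1 := det_norm_le (M := Mt Λ z x ρ) fun j i => rv_le Λ ρ hY j i
  have h2 : Real.exp (-(Hf Λ z x)) ≤ Real.exp (-(Real.exp t * Real.exp (-m) * nrm x)) :=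
    Real.exp_le_exp.2 (neg_le_neg (Hf_low Λ hY x))
  have h3 := wB_pos Λ ρ (t := t) (m := m) (x := x)
  calc ‖∏ j, dn x (ρ j)‖ * Real.exp (-(Hf Λ z x)) * ‖(Mt Λ z x ρ).det‖ ≤
      1 * Real.exp (-(Real.exp t * Real.exp (-m) * nrm x)) * (d.factorial * wB Λ ρ t m x ^ d) :=
        mul_le_mul (mul_le_mul (dn_prod_le ρ hdn) h2 (Real.exp_pos _).le zero_le_one) h1
          (norm_nonneg _) (by positivity)
    _ = _ := by ring

lemma Hd_le (hY : ∀ i, |Yf Λ z i - t| ≤ m) (b : Fin d) : |Hd Λ z x b| ≤ wB Λ ρ t m x := by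
  have h2 := LB_one Λ
  have h3 := nrm_nonneg x
  refine le_trans ?_ (le_wB2 Λ ρ)
  unfold Hd
  refine (Finset.abs_sum_le_sum_abs _ _).trans ?_
  calc ∑ i, |Λ b i * Real.exp (Yf Λ z i) * normSq (x i)| ≤
      ∑ i, |Λ b i| * (Real.exp (t + m) * (1 + nrm x)) := by
        refine Finset.sum_le_sum fun i _ => ?_
        rw [abs_mul, abs_mul, Real.abs_exp, abs_of_nonneg (normSq_nonneg _), mul_assoc]
        refine mul_le_mul_of_nonneg_left ?_ (abs_nonneg _)
        have h3' : Real.exp (Yf Λ z i) ≤ Real.exp (t + m) :=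
          Real.exp_le_exp.2 (by have := (abs_le.1 (hY i)).2; linarith)
        exact mul_le_mul h3' ((normSq_le_nrm x i).trans (by linarith)) (normSq_nonneg _)
          (Real.exp_pos _).le
    _ = (∑ i, |Λ b i|) * (Real.exp (t + m) * (1 + nrm x)) := by rw [Finset.sum_mul]
    _ ≤ LB Λ * (Real.exp (t + m) * (1 + nrm x)) :=
        mul_le_mul_of_nonneg_right (sum_row_le Λ b) (by positivity)
    _ = _ := by ring

lemma Md_le (hm : 0 ≤ m) (hY : ∀ i, |Yf Λ z i - t| ≤ m) (b : Fin d) :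
    ‖Md Λ ρ x z b‖ ≤ d * (wB Λ ρ t m x * (d.factorial * wB Λ ρ t m x ^ d)) := by
  have hW := wB_pos Λ ρ (t := t) (m := m) (x := x)
  unfold Md
  refine (norm_sum_le _ _).trans ((Finset.sum_le_card_nsmul _ _
    (wB Λ ρ t m x * (d.factorial * wB Λ ρ t m x ^ d)) fun l _ => ?_).trans (le_of_eq ?_))
  · rw [norm_mul]
    refine mul_le_mul ?_ ?_ (norm_nonneg _) hW.le
    · exact rv_le Λ (fun _ => Sum.inr b) hY l l |>.trans (by
        unfold wB
        have h1 : rB (fun _ : Fin d => (Sum.inr b : (Fin d → ℂ) ⊕ Fin d)) = 1 := by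
          unfold rB
          simp
        rw [h1]
        have h3 := nrm_nonneg x
        have h4 := rB_one ρ
        gcongr)
    · refine det_norm_le fun j i => ?_
      rw [Matrix.updateCol_apply]
      split_ifs
      · exact ac_le Λ ρ hm l j
      · exact rv_le Λ ρ hY j i
  · rw [Finset.card_univ, Fintype.card_fin, nsmul_eq_mul]

lemma Dd_env (hm : 0 ≤ m) (hY : ∀ i, |Yf Λ z i - t| ≤ m) (hdn : ∀ j, ‖dn x (ρ j)‖ ≤ 1) (b : Fin d) :
    ‖Dd Λ ρ x z b‖ ≤ (d + 1).factorial * wB Λ ρ t m x ^ (d + 1) *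
      Real.exp (-(Real.exp t * Real.exp (-m) * nrm x)) := by
  unfold Dd
  rw [norm_mul, norm_mul, Complex.norm_real, Real.norm_eq_abs, Real.abs_exp]
  have h1 := det_norm_le (M := Mt Λ z x ρ) fun j i => rv_le Λ ρ hY j i
  have h2 : Real.exp (-(Hf Λ z x)) ≤ Real.exp (-(Real.exp t * Real.exp (-m) * nrm x)) :=
    Real.exp_le_exp.2 (neg_le_neg (Hf_low Λ hY x))
  have hW := wB_pos Λ ρ (t := t) (m := m) (x := x)
  have h3 : ‖-(Hd Λ z x b : ℂ) * (Mt Λ z x ρ).det + Md Λ ρ x z b‖ ≤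
      (d + 1).factorial * wB Λ ρ t m x ^ (d + 1) := by
    refine (norm_add_le _ _).trans ?_
    rw [norm_mul, norm_neg, Complex.norm_real, Real.norm_eq_abs]
    calc |Hd Λ z x b| * ‖(Mt Λ z x ρ).det‖ + ‖Md Λ ρ x z b‖ ≤
        wB Λ ρ t m x * (d.factorial * wB Λ ρ t m x ^ d) +
          d * (wB Λ ρ t m x * (d.factorial * wB Λ ρ t m x ^ d)) :=
          add_le_add (mul_le_mul (Hd_le Λ ρ hY b) h1 (norm_nonneg _) hW.le) (Md_le Λ ρ hm hY b)
      _ = _ := by
          rw [Nat.factorial_succ]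
          push_cast
          ring
  calc ‖∏ j, dn x (ρ j)‖ * Real.exp (-(Hf Λ z x)) * _ ≤
      1 * Real.exp (-(Real.exp t * Real.exp (-m) * nrm x)) *
        ((d + 1).factorial * wB Λ ρ t m x ^ (d + 1)) :=
        mul_le_mul (mul_le_mul (dn_prod_le ρ hdn) h2 (Real.exp_pos _).le zero_le_one) h3
          (norm_nonneg _) (by positivity)
    _ = _ := by ring

/-! ### continuity -/

lemma cont_Yf (i : Fin d) : Continuous fun z => Yf Λ z i := by
  unfold Yf
  fun_prop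

lemma cont_Hf (x : Fin d → ℂ) : Continuous fun z => Hf Λ z x := by
  unfold Hf
  have := cont_Yf Λ
  exact continuous_finsetSum _ fun i _ => (Real.continuous_exp.comp (this i)).mul continuous_const

lemma cont_rv (x : Fin d → ℂ) (p : (Fin d → ℂ) ⊕ Fin d) (i : Fin d) :
    Continuous fun z => rv Λ z x p i := by
  rcases p with l | b
  · exact continuous_const
  · show Continuous fun z => ((Λ b i * Real.exp (Yf Λ z i) : ℝ) : ℂ) * (starRingEnd ℂ) (x i)
    exact (Complex.continuous_ofReal.comp (continuous_const.mul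
      (Real.continuous_exp.comp (cont_Yf Λ i)))).mul continuous_const

lemma cont_Mt {n : ℕ} (x : Fin d → ℂ) (ρ : Fin n → (Fin d → ℂ) ⊕ Fin d) :
    Continuous fun z => Mt Λ z x ρ :=
  continuous_matrix fun j i => cont_rv Λ x (ρ j) i

lemma cont_Df (x : Fin d → ℂ) : Continuous fun z => Df Λ ρ x z := by
  unfold Df
  exact (continuous_const.mul (Complex.continuous_ofReal.comp
    (Real.continuous_exp.comp (cont_Hf Λ x).neg))).mul (cont_Mt Λ x ρ).matrix_det

lemma cont_Dd (x : Fin d → ℂ) (b : Fin d) : Continuous fun z => Dd Λ ρ x z b := by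
  unfold Dd Hd Md
  refine (continuous_const.mul (Complex.continuous_ofReal.comp
    (Real.continuous_exp.comp (cont_Hf Λ x).neg))).mul (Continuous.add (Continuous.mul
      (Continuous.neg (Complex.continuous_ofReal.comp ?_)) (cont_Mt Λ x ρ).matrix_det) ?_)
  · exact continuous_finsetSum _ fun i _ => (continuous_const.mul
      (Real.continuous_exp.comp (cont_Yf Λ i))).mul continuous_const
  · refine continuous_finsetSum _ fun l _ => (cont_rv Λ x (Sum.inr b) l).mul ?_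
    refine Continuous.matrix_det (continuous_matrix fun j i => ?_)
    simp only [Matrix.updateCol_apply]
    split_ifs
    · exact continuous_const
    · exact cont_rv Λ x (ρ j) i

end bounds

end Pool.Agent.K7.H56
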