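import Pool.Agent.K7.H56.T5

/-!
# The family of forms attached to a lattice: the axioms of the Stokes formula
-/

set_option autoImplicit false

open Complex Filter Topology Set

namespace Pool.Agent.K7.H56

open Pool.Agent.Y688 Pool.Agent.W192.HK Pool.Agent.TH936.CM

open Equiv (Perm)

variable {r : ℕ} {A : Type*} [CommRing A] [Algebra RR A]

lemma Yf_le {d : ℕ} (Λ : Fin d → Fin d → ℝ) {z : Fin d → ℝ} {R : ℝ} (hR : 0 ≤ R)
    (h : ∀ b, |z b| ≤ R) (i : Fin d) : |Yf Λ z i - 0| ≤ R * LB Λ := by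
  rw [sub_zero]
  unfold Yf
  refine (Finset.abs_sum_le_sum_abs _ _).trans ?_
  calc ∑ b, |z b * Λ b i| ≤ ∑ b, R * ∑ i, |Λ b i| := by
        refine Finset.sum_le_sum fun b _ => ?_
        rw [abs_mul]
        exact mul_le_mul (h b) (Finset.single_le_sum (f := fun i => |Λ b i|)
          (fun _ _ => abs_nonneg _) (Finset.mem_univ i)) (abs_nonneg _) hR
    _ = R * ∑ b, ∑ i, |Λ b i| := by rw [Finset.mul_sum]
    _ ≤ R * LB Λ := mul_le_mul_of_nonneg_left (by unfold LB; linarith) hR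

namespace GN

variable (D : GN A r)

/-- the vector of a linear form -/
noncomputable def vec (l : A →ₗ[RR] RR) : Fin (r + 1) → ℂ :=
  fun i => ∑ j, ((l (D.b j) : RR) : ℂ) * D.Q j i

lemma pr_vec (l : A →ₗ[RR] RR) (x : A) : pr (D.vec l) (D.sg x) = ((l x : RR) : ℂ) := by
  have h1 : l x = ∑ j, D.b.repr x j * l (D.b j) := by
    conv_lhs => rw [← D.b.sum_repr x]
    rw [map_sum]
    exact Finset.sum_congr rfl fun j _ => by rw [map_smul, smul_eq_mul]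
  rw [h1]
  push_cast
  have h2 : ∀ j, ((D.b.repr x j : RR) : ℂ) * ((l (D.b j) : RR) : ℂ) =
      ∑ i, ((l (D.b j) : RR) : ℂ) * D.Q j i * D.sg x i := by
    intro j
    rw [D.repr_eq]
    unfold pr
    rw [Finset.sum_mul]
    exact Finset.sum_congr rfl fun i _ => by ring
  rw [Finset.sum_congr rfl fun j _ => h2 j, Finset.sum_comm]
  unfold pr vec
  exact Finset.sum_congr rfl fun i _ => by rw [Finset.sum_mul]

lemma vec_uniq {v v' : Fin (r + 1) → ℂ} (h : ∀ x, pr v (D.sg x) = pr v' (D.sg x)) : v = v' := by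
  have h1 : Matrix.vecMul v D.P = Matrix.vecMul v' D.P := by
    funext j
    exact h (D.b j)
  have h2 : ∀ u : Fin (r + 1) → ℂ, Matrix.vecMul (Matrix.vecMul u D.P) D.Q = u := by
    intro u
    rw [Matrix.vecMul_vecMul, Q, Matrix.mul_nonsing_inv _ D.isUnit_det, Matrix.vecMul_one]
  rw [← h2 v, h1, h2 v']

/-- the coefficient functions -/
structure Cfu (M : ℕ) (φ : A → ℂ) : Prop where
  bd : ∃ K : ℝ, 0 ≤ K ∧ ∀ x, ‖φ x‖ ≤ K
  zero : φ 0 = 0
  per : ∀ x γ, φ (x + M * γ) = φ x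
  unit : ∀ (u : Aˣ) x, φ ((u : A) * x) = (∏ i, D.σ i (u : A)) * φ x

/-- the vertices -/
def Vx (φ : A → ℂ) : Type _ := {l : A →ₗ[RR] RR // ∀ x, φ x ≠ 0 → l x ≠ 0}

variable {D} {M : ℕ} {ε : Fin r → Aˣ} {φ : A → ℂ}

lemma norm_unit_ne (u : Aˣ) : ∏ i, D.σ i (u : A) ≠ 0 :=
  Finset.prod_ne_zero_iff.2 fun i _ => by
    intro h
    have h1 : D.σ i ((u : A) * ((u⁻¹ : Aˣ) : A)) = 1 := by rw [Units.mul_inv, map_one]
    rw [map_mul, h, zero_mul] at h1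
    exact zero_ne_one h1

lemma σ_unit_ne (u : Aˣ) (i : Fin (r + 1)) : D.σ i (u : A) ≠ 0 :=
  Finset.prod_ne_zero_iff.1 (norm_unit_ne (D := D) u) i (Finset.mem_univ i)

/-- the action of the units on the vertices -/
noncomputable def gV (h : D.Cfu M φ) (ε : Fin r → Aˣ) (b : Fin r) (l : Vx φ) : Vx φ :=
  ⟨l.1.comp (LinearMap.mulLeft RR (((ε b)⁻¹ : Aˣ) : A)), fun x hx => l.2 _ (by
    intro h0
    refine hx ?_
    have h1 := h.unit (ε b) ((((ε b)⁻¹ : Aˣ) : A) * x)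
    rw [Units.mul_inv_cancel_left] at h1
    rw [h1, show φ ((((ε b)⁻¹ : Aˣ) : A) * x) = 0 from h0, mul_zero])⟩

lemma gV_apply (h : D.Cfu M φ) (b : Fin r) (l : Vx φ) (x : A) :
    (gV h ε b l).1 x = l.1 ((((ε b)⁻¹ : Aˣ) : A) * x) := rfl

/-- the rows -/
noncomputable def rw' (D : GN A r) {n : ℕ} (ρ : Fin n → Vx φ ⊕ Fin (r + 1)) :
    Fin n → (Fin (r + 1) → ℂ) ⊕ Fin (r + 1) :=
  fun j => Sum.map (fun l => D.vec l.1) id (ρ j)

lemma rw'_inl {n : ℕ} {ρ : Fin n → Vx φ ⊕ Fin (r + 1)} {j : Fin n} {l : Fin (r + 1) → ℂ}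
    (h : D.rw' ρ j = Sum.inl l) : ∃ l' : Vx φ, ρ j = Sum.inl l' ∧ l = D.vec l'.1 := by
  unfold rw' at h
  rcases hρ : ρ j with l' | b
  · rw [hρ] at h
    exact ⟨l', rfl, (Sum.inl_injective h).symm⟩
  · rw [hρ] at h
    exact absurd h (by simp)

lemma pr_ne {n : ℕ} {ρ : Fin n → Vx φ ⊕ Fin (r + 1)} {x : A} (hx : φ x ≠ 0) (j : Fin n)
    (l : Fin (r + 1) → ℂ) (h : D.rw' ρ j = Sum.inl l) : pr l (D.sg x) ≠ 0 := by
  obtain ⟨l', _, rfl⟩ := rw'_inl h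
  rw [D.pr_vec]
  intro h1
  exact l'.2 x hx (by exact_mod_cast h1)

lemma dn_le {n : ℕ} {ρ : Fin n → Vx φ ⊕ Fin (r + 1)} {x : A} (hx : φ x ≠ 0) (j : Fin n) :
    ‖dn (D.sg x) (D.rw' ρ j)‖ ≤ 1 := by
  rcases h : D.rw' ρ j with l | b
  · obtain ⟨l', _, rfl⟩ := rw'_inl h
    rw [dn_inl, D.pr_vec, norm_inv]
    exact inv_le_one_of_one_le₀ (one_le_norm (l'.2 x hx))
  · rw [dn_inr, norm_one]

variable (D) (Λ : Fin (r + 1) → Fin (r + 1) → ℝ)

/-- the summand -/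
noncomputable def tm (φ : A → ℂ) (ρ : Fin (r + 1) → Vx φ ⊕ Fin (r + 1)) (z : Fin (r + 1) → ℝ)
    (x : A) : ℂ := φ x * Df Λ (D.rw' ρ) (D.sg x) z

/-- the derivative of the summand -/
noncomputable def td (φ : A → ℂ) (ρ : Fin (r + 1) → Vx φ ⊕ Fin (r + 1)) (z : Fin (r + 1) → ℝ)
    (b : Fin (r + 1)) (x : A) : ℂ := φ x * Dd Λ (D.rw' ρ) (D.sg x) z b

/-- the forms -/
noncomputable def Om (φ : A → ℂ) (ρ : Fin (r + 1) → Vx φ ⊕ Fin (r + 1))
    (z : Fin (r + 1) → ℝ) : ℂ := ∑' x, D.tm Λ φ ρ z x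

/-- the derivatives of the forms -/
noncomputable def Od (φ : A → ℂ) (ρ : Fin (r + 1) → Vx φ ⊕ Fin (r + 1))
    (z : Fin (r + 1) → ℝ) (b : Fin (r + 1)) : ℂ := ∑' x, D.td Λ φ ρ z b x

variable {D} {K : ℝ}

lemma tm_env (hK : 0 ≤ K) (hφ : ∀ x, ‖φ x‖ ≤ K) (ρ : Fin (r + 1) → Vx φ ⊕ Fin (r + 1))
    {z : Fin (r + 1) → ℝ} {t m : ℝ} (hm : 0 ≤ m) (hY : ∀ i, |Yf Λ z i - t| ≤ m) (x : A) :
    ‖D.tm Λ φ ρ z x‖ ≤ (K * ((r + 1).factorial *
      ((rB (D.rw' ρ) + LB Λ * Real.exp m) * (1 + Real.exp t)) ^ (r + 1))) *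
      ((1 + nrm (D.sg x)) ^ (r + 1) * Real.exp (-(Real.exp t * Real.exp (-m) * nrm (D.sg x)))) := by
  have h1 := rB_one (D.rw' ρ)
  have h2 := LB_one Λ
  have h3 := nrm_nonneg (D.sg x)
  unfold tm
  by_cases hx : φ x = 0
  · rw [hx, zero_mul, norm_zero]
    positivity
  · rw [norm_mul]
    have h4 := Df_env Λ (D.rw' ρ) (x := D.sg x) hm hY fun j => dn_le hx j
    refine (mul_le_mul (hφ x) h4 (norm_nonneg _) hK).trans (le_of_eq ?_)
    unfold wB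
    rw [mul_pow _ (1 + nrm (D.sg x))]
    ring

lemma td_env (hK : 0 ≤ K) (hφ : ∀ x, ‖φ x‖ ≤ K) (ρ : Fin (r + 1) → Vx φ ⊕ Fin (r + 1))
    {z : Fin (r + 1) → ℝ} {t m : ℝ} (hm : 0 ≤ m) (hY : ∀ i, |Yf Λ z i - t| ≤ m)
    (b : Fin (r + 1)) (x : A) :
    ‖D.td Λ φ ρ z b x‖ ≤ (K * ((r + 1 + 1).factorial *
      ((rB (D.rw' ρ) + LB Λ * Real.exp m) * (1 + Real.exp t)) ^ (r + 1 + 1))) *
      ((1 + nrm (D.sg x)) ^ (r + 1 + 1) * Real.exp (-(Real.exp t * Real.exp (-m) * nrm (D.sg x)))) := by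
  have h1 := rB_one (D.rw' ρ)
  have h2 := LB_one Λ
  have h3 := nrm_nonneg (D.sg x)
  unfold td
  by_cases hx : φ x = 0
  · rw [hx, zero_mul, norm_zero]
    positivity
  · rw [norm_mul]
    have h4 := Dd_env Λ (D.rw' ρ) (x := D.sg x) hm hY (fun j => dn_le hx j) b
    refine (mul_le_mul (hφ x) h4 (norm_nonneg _) hK).trans (le_of_eq ?_)
    unfold wB
    rw [mul_pow _ (1 + nrm (D.sg x))]
    ring

lemma tm_summ (hφ : ∃ K : ℝ, 0 ≤ K ∧ ∀ x, ‖φ x‖ ≤ K) (ρ : Fin (r + 1) → Vx φ ⊕ Fin (r + 1))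
    (z : Fin (r + 1) → ℝ) : Summable (D.tm Λ φ ρ z) := by
  obtain ⟨K, hK, hφ⟩ := hφ
  have h2 := LB_one Λ
  have h0 : (0 : ℝ) ≤ ∑ b, |z b| := Finset.sum_nonneg fun _ _ => abs_nonneg _
  have h1 := tm_env (D := D) Λ hK hφ ρ (by positivity) (Yf_le Λ (z := z) h0
    fun b => Finset.single_le_sum (f := fun b => |z b|) (fun _ _ => abs_nonneg _)
      (Finset.mem_univ b))
  exact Summable.of_norm_bounded ((D.summ (r + 1) (by positivity)).mul_left _) h1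

lemma td_summ (hφ : ∃ K : ℝ, 0 ≤ K ∧ ∀ x, ‖φ x‖ ≤ K) (ρ : Fin (r + 1) → Vx φ ⊕ Fin (r + 1))
    (z : Fin (r + 1) → ℝ) (b : Fin (r + 1)) : Summable (D.td Λ φ ρ z b) := by
  obtain ⟨K, hK, hφ⟩ := hφ
  have h2 := LB_one Λ
  have h0 : (0 : ℝ) ≤ ∑ b, |z b| := Finset.sum_nonneg fun _ _ => abs_nonneg _
  have h1 := fun x => td_env (D := D) Λ hK hφ ρ (by positivity) (Yf_le Λ (z := z) h0
    fun b => Finset.single_le_sum (f := fun b => |z b|) (fun _ _ => abs_nonneg _)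
      (Finset.mem_univ b)) b x
  exact Summable.of_norm_bounded ((D.summ (r + 1 + 1) (by positivity)).mul_left _) h1

lemma isOpen_box (R : ℝ) : IsOpen {z : Fin (r + 1) → ℝ | ∀ b, |z b| < R} := by
  simp only [Set.ofPred_forall]
  exact isOpen_iInter_of_finite fun b => isOpen_lt (continuous_abs.comp (continuous_apply b))
    continuous_const

lemma cont_Om (hφ : ∃ K : ℝ, 0 ≤ K ∧ ∀ x, ‖φ x‖ ≤ K) (ρ : Fin (r + 1) → Vx φ ⊕ Fin (r + 1)) :
    Continuous (D.Om Λ φ ρ) := by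
  obtain ⟨K, hK, hφ⟩ := hφ
  have h2 := LB_one Λ
  rw [continuous_iff_continuousAt]
  intro z0
  have hs : ∀ b, |z0 b| ≤ ∑ b, |z0 b| := fun b => Finset.single_le_sum (f := fun b => |z0 b|)
    (fun _ _ => abs_nonneg _) (Finset.mem_univ b)
  have h0 : (0 : ℝ) ≤ ∑ b, |z0 b| := Finset.sum_nonneg fun _ _ => abs_nonneg _
  set R : ℝ := 1 + ∑ b, |z0 b| with hR
  have hR0 : 0 ≤ R := by linarith
  have h3 : ContinuousOn (D.Om Λ φ ρ) {z : Fin (r + 1) → ℝ | ∀ b, |z b| < R} :=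
    continuousOn_tsum (fun x => (continuous_const.mul (cont_Df Λ (D.rw' ρ) (D.sg x))).continuousOn)
      ((D.summ (r + 1) (by positivity)).mul_left _) fun x z hz =>
        tm_env (D := D) Λ hK hφ ρ (by positivity) (Yf_le Λ hR0 fun b => (hz b).le) x
  exact h3.continuousAt ((isOpen_box R).mem_nhds fun b => by have := hs b; linarith)

lemma cont_Od (hφ : ∃ K : ℝ, 0 ≤ K ∧ ∀ x, ‖φ x‖ ≤ K) (ρ : Fin (r + 1) → Vx φ ⊕ Fin (r + 1))
    (b : Fin (r + 1)) : Continuous fun z => D.Od Λ φ ρ z b := by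
  obtain ⟨K, hK, hφ⟩ := hφ
  have h2 := LB_one Λ
  rw [continuous_iff_continuousAt]
  intro z0
  have hs : ∀ b, |z0 b| ≤ ∑ b, |z0 b| := fun b => Finset.single_le_sum (f := fun b => |z0 b|)
    (fun _ _ => abs_nonneg _) (Finset.mem_univ b)
  have h0 : (0 : ℝ) ≤ ∑ b, |z0 b| := Finset.sum_nonneg fun _ _ => abs_nonneg _
  set R : ℝ := 1 + ∑ b, |z0 b| with hR
  have hR0 : 0 ≤ R := by linarith
  have h3 : ContinuousOn (fun z => D.Od Λ φ ρ z b) {z : Fin (r + 1) → ℝ | ∀ b, |z b| < R} :=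
    continuousOn_tsum (fun x => (continuous_const.mul (cont_Dd Λ (D.rw' ρ) (D.sg x) b)).continuousOn)
      ((D.summ (r + 1 + 1) (by positivity)).mul_left _) fun x z hz =>
        td_env (D := D) Λ hK hφ ρ (by positivity) (Yf_le Λ hR0 fun b => (hz b).le) b x
  exact h3.continuousAt ((isOpen_box R).mem_nhds fun b => by have := hs b; linarith)

lemma deriv_Om (hφ' : ∃ K : ℝ, 0 ≤ K ∧ ∀ x, ‖φ x‖ ≤ K) (ρ : Fin (r + 1) → Vx φ ⊕ Fin (r + 1))
    (z : Fin (r + 1) → ℝ) (b : Fin (r + 1)) (t : ℝ) :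
    HasDerivAt (fun t => D.Om Λ φ ρ (Function.update z b t))
      (D.Od Λ φ ρ (Function.update z b t) b) t := by
  obtain ⟨K, hK, hφ⟩ := hφ'
  have h2 := LB_one Λ
  have hs : ∀ b, |z b| ≤ ∑ b, |z b| := fun b => Finset.single_le_sum (f := fun b => |z b|)
    (fun _ _ => abs_nonneg _) (Finset.mem_univ b)
  have h0 : (0 : ℝ) ≤ ∑ b, |z b| := Finset.sum_nonneg fun _ _ => abs_nonneg _
  set R : ℝ := 1 + ∑ b, |z b| + |t| with hR
  have ht0 := abs_nonneg t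
  have hR0 : 0 ≤ R := by linarith
  have hmem : t ∈ Ioo (-R) R := by
    rw [mem_Ioo, ← abs_lt]
    linarith
  have h3 : ∀ s ∈ Ioo (-R) R, ∀ c, |Function.update z b s c| ≤ R := by
    intro s hs' c
    rw [mem_Ioo, ← abs_lt] at hs'
    by_cases hc : c = b
    · subst hc
      rw [Function.update_self]
      exact hs'.le
    · rw [Function.update_of_ne hc]
      have := hs c
      linarith
  exact hasDerivAt_tsum_of_isPreconnected ((D.summ (r + 1 + 1) (by positivity)).mul_left _)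
    isOpen_Ioo isPreconnected_Ioo
    (fun x s _ => (hasDeriv_D Λ (D.rw' ρ) (D.sg x) z b s).const_mul (φ x))
    (fun x s hs' => td_env (D := D) Λ hK hφ ρ (by positivity) (Yf_le Λ hR0 (h3 s hs')) b x)
    hmem (tm_summ Λ ⟨K, hK, hφ⟩ ρ _) hmem

lemma rw'_perm (ρ : Fin (r + 1) → Vx φ ⊕ Fin (r + 1)) (σ : Perm (Fin (r + 1))) :
    D.rw' (fun i => ρ (σ i)) = fun i => D.rw' ρ (σ i) := rfl

lemma key_Om (hφ : ∃ K : ℝ, 0 ≤ K ∧ ∀ x, ‖φ x‖ ≤ K) (ρ : Fin (r + 2) → Vx φ ⊕ Fin (r + 1))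
    (z : Fin (r + 1) → ℝ) :
    inrS ρ (fun j b => (-1) ^ (j : ℕ) * D.Od Λ φ (fun i => ρ (j.succAbove i)) z b) =
      inlS ρ (fun j => (-1) ^ (j : ℕ) * D.Om Λ φ (fun i => ρ (j.succAbove i)) z) := by
  have h1 : HasSum (fun x => inrS ρ (fun j b => (-1) ^ (j : ℕ) *
      D.td Λ φ (fun i => ρ (j.succAbove i)) z b x))
      (inrS ρ (fun j b => (-1) ^ (j : ℕ) * D.Od Λ φ (fun i => ρ (j.succAbove i)) z b)) := by
    refine hasSum_sum fun j _ => ?_
    rcases ρ j with l | b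
    · exact hasSum_zero
    · exact ((td_summ Λ hφ _ z b).hasSum).mul_left _
  have h2 : HasSum (fun x => inlS ρ (fun j => (-1) ^ (j : ℕ) *
      D.tm Λ φ (fun i => ρ (j.succAbove i)) z x))
      (inlS ρ (fun j => (-1) ^ (j : ℕ) * D.Om Λ φ (fun i => ρ (j.succAbove i)) z)) := by
    refine hasSum_sum fun j _ => ?_
    rcases ρ j with l | b
    · exact ((tm_summ Λ hφ _ z).hasSum).mul_left _
    · exact hasSum_zero
  have hR : ∀ (F : Fin (r + 2) → Fin (r + 1) → ℂ), inrS (D.rw' ρ) F = inrS ρ F := by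
    intro F
    unfold inrS rw'
    refine Finset.sum_congr rfl fun j _ => ?_
    rcases ρ j with l | b <;> rfl
  have hL : ∀ (F : Fin (r + 2) → ℂ), inlS (D.rw' ρ) F = inlS ρ F := by
    intro F
    unfold inlS rw'
    refine Finset.sum_congr rfl fun j _ => ?_
    rcases ρ j with l | b <;> rfl
  have hRm : ∀ (c : ℂ) (F : Fin (r + 2) → Fin (r + 1) → ℂ),
      inrS ρ (fun j b => c * F j b) = c * inrS ρ F := by
    intro c F
    unfold inrS
    rw [Finset.mul_sum]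
    refine Finset.sum_congr rfl fun j _ => ?_
    rcases ρ j with l | b
    · exact (mul_zero c).symm
    · rfl
  have hLm : ∀ (c : ℂ) (F : Fin (r + 2) → ℂ),
      inlS ρ (fun j => c * F j) = c * inlS ρ F := by
    intro c F
    unfold inlS
    rw [Finset.mul_sum]
    refine Finset.sum_congr rfl fun j _ => ?_
    rcases ρ j with l | b
    · rfl
    · exact (mul_zero c).symm
  have hpt : ∀ x, inrS ρ (fun j b => (-1) ^ (j : ℕ) *
      D.td Λ φ (fun i => ρ (j.succAbove i)) z b x) =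
      inlS ρ (fun j => (-1) ^ (j : ℕ) * D.tm Λ φ (fun i => ρ (j.succAbove i)) z x) := by
    intro x
    unfold td tm
    have e1 : (fun (j : Fin (r + 2)) (b : Fin (r + 1)) => (-1) ^ (j : ℕ) *
        (φ x * Dd Λ (D.rw' fun i => ρ (j.succAbove i)) (D.sg x) z b)) =
        fun (j : Fin (r + 2)) b =>
          φ x * ((-1) ^ (j : ℕ) * Dd Λ (fun i => D.rw' ρ (j.succAbove i)) (D.sg x) z b) := by
      funext j b
      rw [mul_left_comm]
      rfl
    have e2 : (fun (j : Fin (r + 2)) => (-1) ^ (j : ℕ) *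
        (φ x * Df Λ (D.rw' fun i => ρ (j.succAbove i)) (D.sg x) z)) =
        fun (j : Fin (r + 2)) =>
          φ x * ((-1) ^ (j : ℕ) * Df Λ (fun i => D.rw' ρ (j.succAbove i)) (D.sg x) z) := by
      funext j
      rw [mul_left_comm]
      rfl
    rw [e1, e2, hRm, hLm]
    by_cases hx : φ x = 0
    · rw [hx, zero_mul, zero_mul]
    · rw [← hR, ← hL, key Λ (D.rw' ρ) (D.sg x) z fun j l h => pr_ne hx j l h]
  rw [show (fun x => inrS ρ (fun j b => (-1) ^ (j : ℕ) *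
      D.td Λ φ (fun i => ρ (j.succAbove i)) z b x)) = fun x => inlS ρ (fun j => (-1) ^ (j : ℕ) *
      D.tm Λ φ (fun i => ρ (j.succAbove i)) z x) from funext hpt] at h1
  exact h1.unique h2

/-- multiplication by a unit, as a bijection -/
def mulE (u : Aˣ) : A ≃ A where
  toFun x := (u : A) * x
  invFun x := ((u⁻¹ : Aˣ) : A) * x
  left_inv x := Units.inv_mul_cancel_left u x
  right_inv x := Units.mul_inv_cancel_left u x

lemma ua_rw (h : D.Cfu M φ) {n : ℕ} (ρ : Fin n → Vx φ ⊕ Fin (r + 1)) (b : Fin r) (j : Fin n) :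
    ua (fun i => D.σ i (ε b : A)) (D.rw' ρ j) = D.rw' (fun j => Sum.map (gV h ε b) id (ρ j)) j := by
  unfold rw'
  show ua (fun i => D.σ i (ε b : A)) (Sum.map (fun l => D.vec l.1) id (ρ j)) =
    Sum.map (fun l => D.vec l.1) id (Sum.map (gV h ε b) id (ρ j))
  rcases ρ j with l | c
  · show Sum.inl (fun i => D.vec l.1 i / D.σ i (ε b : A)) = Sum.inl (D.vec (gV h ε b l).1)
    congr 1
    refine D.vec_uniq fun x => ?_
    rw [D.pr_vec, gV_apply, ← D.pr_vec]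
    unfold pr
    refine Finset.sum_congr rfl fun i _ => ?_
    have h1 : D.sg ((((ε b)⁻¹ : Aˣ) : A) * x) i = D.sg x i / D.σ i (ε b : A) := by
      rw [eq_div_iff (σ_unit_ne _ _)]
      show D.σ i _ * _ = D.σ i x
      rw [← map_mul]
      congr 1
      rw [mul_comm, Units.mul_inv_cancel_left]
    rw [h1]
    ring
  · rfl

lemma trans_Om (h : D.Cfu M φ) (hΛ : ∀ (b : Fin r) i, Λ b.succ i = Real.log (normSq (D.σ i (ε b))))
    (ρ : Fin (r + 1) → Vx φ ⊕ Fin (r + 1)) (z : Fin (r + 1) → ℝ) (b : Fin r) :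
    D.Om Λ φ ρ (fun c => z c + if c = b.succ then 1 else 0) =
      D.Om Λ φ (fun j => Sum.map (gV h ε b) id (ρ j)) z := by
  unfold Om
  rw [← (mulE (ε b)).tsum_eq (D.tm Λ φ (fun j => Sum.map (gV h ε b) id (ρ j)) z)]
  refine tsum_congr fun x => ?_
  unfold tm
  rw [Df_trans Λ (D.rw' ρ) (D.sg x) z b.succ (fun i => D.σ i (ε b : A))
    (fun i => σ_unit_ne _ _) (hΛ b)]
  show _ = φ ((ε b : A) * x) * Df Λ _ (D.sg ((ε b : A) * x)) z
  rw [h.unit]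
  have h1 : D.sg ((ε b : A) * x) = fun i => D.σ i (ε b : A) * D.sg x i := by
    funext i
    exact map_mul _ _ _
  have h2 : (fun j => ua (fun i => D.σ i (ε b : A)) (D.rw' ρ j)) =
      D.rw' (fun j => Sum.map (gV h ε b) id (ρ j)) := funext fun j => ua_rw h ρ b j
  rw [h1, h2]
  ring

lemma perm_Om (ρ : Fin (r + 1) → Vx φ ⊕ Fin (r + 1)) (σ : Perm (Fin (r + 1)))
    (z : Fin (r + 1) → ℝ) :
    D.Om Λ φ (fun i => ρ (σ i)) z = ((Perm.sign σ : ℤ) : ℂ) * D.Om Λ φ ρ z := by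
  unfold Om
  rw [← tsum_mul_left]
  refine tsum_congr fun x => ?_
  unfold tm
  rw [rw'_perm, Df_perm]
  ring

/-- the axioms -/
theorem fam (h : D.Cfu M φ) (hΛ : ∀ (b : Fin r) i, Λ b.succ i = Real.log (normSq (D.σ i (ε b)))) :
    Fam r (Vx φ) (D.Om Λ φ) (D.Od Λ φ) (gV h ε) where
  cont := cont_Om Λ h.bd
  contd := cont_Od Λ h.bd
  deriv ρ z b t := deriv_Om Λ h.bd ρ z b t
  key := key_Om Λ h.bd
  trans ρ z b := trans_Om Λ h hΛ ρ z b
  perm := perm_Om Λ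
  comm b c l := by
    apply Subtype.ext
    apply LinearMap.ext
    intro x
    rw [gV_apply, gV_apply, gV_apply, gV_apply, mul_left_comm]

end GN

end Pool.Agent.K7.H56
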