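import Pool.Agent.K7.H56.T6

/-!
# The Stokes formula for the forms of a lattice
-/

set_option autoImplicit false

open Complex Filter Topology Set MeasureTheory

namespace Pool.Agent.K7.H56

open Pool.Agent.Y688 Pool.Agent.W192.HK Pool.Agent.TH936.CM

open Equiv (Perm)

variable {r : ℕ} {A : Type*} [CommRing A] [Algebra RR A]

/-- mean zero in the direction `w` -/
def Mzv (M : ℕ) [NeZero M] (φ : A → ℂ) (w : A) : Prop := ∀ x, ∑ q : RM M, φ (x + q.out • w) = 0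

lemma Yf_box (Λ : Fin (r + 1) → Fin (r + 1) → ℝ) (hΛ0 : ∀ i, Λ 0 i = 1) {z : Fin (r + 1) → ℝ}
    (hz : ∀ b : Fin r, z b.succ ∈ Icc (0 : ℝ) 1) (t : ℝ) (i : Fin (r + 1)) :
    |Yf Λ (Function.update z 0 t) i - t| ≤ LB Λ := by
  unfold Yf
  rw [Fin.sum_univ_succ, Function.update_self, hΛ0, mul_one, add_sub_cancel_left]
  simp only [Function.update_of_ne (Fin.succ_ne_zero _)]
  refine (Finset.abs_sum_le_sum_abs _ _).trans ?_
  have h1 : ∑ b : Fin r, |z b.succ * Λ b.succ i| ≤ ∑ b : Fin r, ∑ i, |Λ b.succ i| := by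
    refine Finset.sum_le_sum fun b _ => ?_
    rw [abs_mul, abs_of_nonneg (hz b).1]
    have h2 : |Λ b.succ i| ≤ ∑ i, |Λ b.succ i| :=
      Finset.single_le_sum (f := fun i => |Λ b.succ i|) (fun _ _ => abs_nonneg _) (Finset.mem_univ i)
    have h3 := mul_le_mul (hz b).2 h2 (abs_nonneg _) zero_le_one
    linarith
  refine h1.trans ?_
  unfold LB
  rw [Fin.sum_univ_succ (f := fun b => ∑ i, |Λ b i|)]
  have h2 : 0 ≤ ∑ i, |Λ 0 i| := Finset.sum_nonneg fun _ _ => abs_nonneg _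
  linarith

lemma tendsto_pow_exp (a c E : ℝ) (n : ℕ) (hc : 0 < c) :
    Tendsto (fun T : ℝ => a * ((E * (1 + Real.exp T)) ^ n) * Real.exp (-(c * Real.exp T))) atTop
      (𝓝 0) := by
  have h1 : Tendsto (fun y : ℝ => a * ((E * (1 + y)) ^ n) * Real.exp (-(c * y))) atTop (𝓝 0) := by
    have h2 : Tendsto (fun y : ℝ => (1 + y) ^ n * Real.exp (-(c * (1 + y)))) atTop (𝓝 0) := by
      have h3 := (Real.tendsto_pow_mul_exp_neg_atTop_nhds_zero n).comp
        (tendsto_atTop_add_const_left atTop (1 : ℝ) tendsto_id |>.const_mul_atTop hc)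
      have h4 := h3.const_mul ((1 / c) ^ n)
      rw [mul_zero] at h4
      refine h4.congr fun y => ?_
      simp only [Function.comp_apply, id]
      rw [mul_pow, ← mul_assoc, ← mul_assoc, ← mul_pow, one_div_mul_cancel hc.ne', one_pow, one_mul]
    have h3 := h2.const_mul (a * E ^ n * Real.exp c)
    rw [mul_zero] at h3
    refine h3.congr fun y => ?_
    rw [mul_pow, show -(c * y) = c + -(c * (1 + y)) by ring, Real.exp_add]
    ring
  exact h1.comp Real.tendsto_exp_atTop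

namespace GN

variable {D : GN A r} {M : ℕ} {ε : Fin r → Aˣ} {φ : A → ℂ} (Λ : Fin (r + 1) → Fin (r + 1) → ℝ)

lemma tm_zero (h : D.Cfu M φ) (ρ : Fin (r + 1) → Vx φ ⊕ Fin (r + 1)) (z : Fin (r + 1) → ℝ) :
    D.tm Λ φ ρ z 0 = 0 := by
  unfold tm
  rw [h.zero, zero_mul]

/-- decay for large times -/
lemma Om_pos (h : D.Cfu M φ) (hΛ0 : ∀ i, Λ 0 i = 1) (ρ : Fin (r + 1) → Vx φ ⊕ Fin (r + 1)) :
    ∃ E : ℝ → ℝ, Tendsto E atTop (𝓝 0) ∧ ∀ T > 0, ∀ z : Fin (r + 1) → ℝ,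
      (∀ b : Fin r, z b.succ ∈ Icc (0 : ℝ) 1) →
      ‖D.Om Λ φ ρ (Function.update z 0 T)‖ ≤ E T := by
  obtain ⟨K, hK, hφ⟩ := h.bd
  have h2 := LB_one Λ
  have h1 := rB_one (D.rw' ρ)
  obtain ⟨C, c, hC, hc, hd⟩ := D.decay (r + 1) (Real.exp_pos (-(LB Λ)))
  refine ⟨fun T => (K * (r + 1).factorial * C) *
    (((rB (D.rw' ρ) + LB Λ * Real.exp (LB Λ)) * (1 + Real.exp T)) ^ (r + 1)) *
      Real.exp (-(c * Real.exp T)), tendsto_pow_exp _ _ _ _ hc, fun T hT z hz => ?_⟩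
  have h3 := hd (Real.exp T) (Real.one_le_exp hT.le) (D.tm Λ φ ρ (Function.update z 0 T))
    (K * ((r + 1).factorial *
      ((rB (D.rw' ρ) + LB Λ * Real.exp (LB Λ)) * (1 + Real.exp T)) ^ (r + 1))) (by positivity)
    (tm_zero Λ h ρ _) (fun x => tm_env (D := D) Λ hK hφ ρ (by positivity)
      (Yf_box Λ hΛ0 hz T) x)
  refine h3.trans (le_of_eq ?_)
  ring

/-! ### small times -/

/-- the coefficients of the expansion of the determinant -/
noncomputable def cfr (z : Fin (r + 1) → ℝ) (p : (Fin (r + 1) → ℂ) ⊕ Fin (r + 1))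
    (i : Fin (r + 1)) : ℂ :=
  Sum.elim (fun l => l i) (fun b => ((Λ b i * Real.exp (Yf Λ z i) : ℝ) : ℂ)) p

open Classical in
lemma det_expand (z : Fin (r + 1) → ℝ) (y : Fin (r + 1) → ℂ)
    (ρ : Fin (r + 1) → (Fin (r + 1) → ℂ) ⊕ Fin (r + 1)) :
    (Mt Λ z y ρ).det = ∑ π : Perm (Fin (r + 1)), (((Perm.sign π : ℤ) : ℂ) *
      ∏ i, cfr Λ z (ρ (π i)) i) *
      ∏ i ∈ Finset.univ.filter (fun i => (ρ (π i)).isRight), (starRingEnd ℂ) (y i) := by
  rw [Matrix.det_apply']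
  refine Finset.sum_congr rfl fun π _ => ?_
  rw [mul_assoc, Finset.prod_filter, ← Finset.prod_mul_distrib]
  congr 1
  refine Finset.prod_congr rfl fun i _ => ?_
  show rv Λ z y (ρ (π i)) i = _
  rcases ρ (π i) with l | b
  · simp [rv, cfr]
  · simp [rv, cfr]

lemma cfr_le (ρ : Fin (r + 1) → (Fin (r + 1) → ℂ) ⊕ Fin (r + 1)) {z : Fin (r + 1) → ℝ} {t m : ℝ}
    (ht : t ≤ 0) (hY : ∀ i, |Yf Λ z i - t| ≤ m) (j i : Fin (r + 1)) :
    ‖cfr Λ z (ρ j) i‖ ≤ rB ρ + LB Λ * Real.exp m := by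
  have h1 := rB_one ρ
  have h2 := LB_one Λ
  unfold cfr
  rcases hρ : ρ j with l | b
  · refine (le_rB hρ i).trans ?_
    have : 0 ≤ LB Λ * Real.exp m := by positivity
    linarith
  · simp only [Sum.elim_inr]
    rw [Complex.norm_real, Real.norm_eq_abs, abs_mul, Real.abs_exp]
    have h3 : Real.exp (Yf Λ z i) ≤ Real.exp m :=
      Real.exp_le_exp.2 (by have := (abs_le.1 (hY i)).2; linarith)
    have h4 := mul_le_mul (le_LB Λ b i) h3 (Real.exp_pos _).le (by positivity)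
    linarith

lemma dn_line {n : ℕ} (ρ : Fin n → Vx φ ⊕ Fin (r + 1)) {w : A}
    (hw : ∀ j l, ρ j = Sum.inl l → l.1 w = 0) (x : A) (a : RR) (j : Fin n) :
    dn (D.sg (x + a • w)) (D.rw' ρ j) = dn (D.sg x) (D.rw' ρ j) := by
  rcases h : D.rw' ρ j with l | b
  · obtain ⟨l', hl', rfl⟩ := rw'_inl h
    rw [dn_inl, dn_inl, D.pr_vec, D.pr_vec, map_add, map_smul, hw j l' hl', smul_zero, add_zero]
  · rfl

lemma smul_nat (a : RR) (w : A) : ((M : RR) * a) • w = (M : A) * (a • w) := by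
  rw [mul_smul, Nat.cast_smul_eq_nsmul, nsmul_eq_mul]

/-- decay for small times -/
lemma Om_neg [NoZeroSMulDivisors RR A] [NeZero M] (h : D.Cfu M φ) (hΛ0 : ∀ i, Λ 0 i = 1)
    (ρ : Fin (r + 1) → Vx φ ⊕ Fin (r + 1)) {w : A} (hw0 : w ≠ 0)
    (hw : ∀ j l, ρ j = Sum.inl l → l.1 w = 0) (hmz : Mzv M φ w) :
    ∃ C c : ℝ, 0 < c ∧ ∀ T > 0, ∀ z : Fin (r + 1) → ℝ,
      (∀ b : Fin r, z b.succ ∈ Icc (0 : ℝ) 1) →
      ‖D.Om Λ φ ρ (Function.update z 0 (-T))‖ ≤ C * Real.exp (-(c * Real.exp T)) := by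
  classical
  obtain ⟨K, hK, hφ⟩ := h.bd
  have h2 := LB_one Λ
  have h1 := rB_one (D.rw' ρ)
  obtain ⟨C, c, hC, hc, hosc⟩ := D.osc (M := M) hw0 (Real.exp_pos (-(LB Λ)))
    (Real.exp_pos (LB Λ)) hK
  set E : ℝ := rB (D.rw' ρ) + LB Λ * Real.exp (LB Λ) with hE
  have hE0 : 0 < E := by positivity
  refine ⟨(r + 1).factorial * (E ^ (r + 1) * C), c, hc, fun T hT z hz => ?_⟩
  set z' := Function.update z 0 (-T) with hz'
  have hY := Yf_box Λ hΛ0 hz (-T)
  obtain ⟨φ', hφ'⟩ : ∃ φ' : A → ℂ, φ' = fun x => φ x * ∏ j, dn (D.sg x) (D.rw' ρ j) := ⟨_, rfl⟩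
  have hb : ∀ x, ‖φ' x‖ ≤ K := by
    intro x
    rw [hφ']
    by_cases hx : φ x = 0
    · simp only [hx, zero_mul, norm_zero]
      exact hK
    · simp only
      rw [norm_mul]
      have h3 := dn_prod_le (D.rw' ρ) (x := D.sg x) fun j => dn_le hx j
      have h4 := mul_le_mul (hφ x) h3 (norm_nonneg _) hK
      rwa [mul_one] at h4
  have hdn : ∀ x (a : RR), ∏ j, dn (D.sg (x + a • w)) (D.rw' ρ j) = ∏ j, dn (D.sg x) (D.rw' ρ j) :=
    fun x a => Finset.prod_congr rfl fun j _ => dn_line ρ hw x a j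
  have hp : ∀ x (a : RR), φ' (x + ((M : RR) * a) • w) = φ' x := by
    intro x a
    rw [hφ']
    simp only [hdn]
    rw [smul_nat, h.per]
  have hz0 : ∀ x, ∑ q : RM M, φ' (x + q.out • w) = 0 := by
    intro x
    rw [hφ']
    simp only [hdn]
    rw [← Finset.sum_mul, hmz x, zero_mul]
  have hherm : Herm (Hf Λ z') := by
    unfold Hf
    exact Herm.sum _ fun i => (herm_coord i).smul _
  have hρ0 : 0 < Real.exp (-T) := Real.exp_pos _
  have hρ1 : Real.exp (-T) ≤ 1 := Real.exp_le_one_iff.2 (by linarith)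
  have hS := fun S0 => hosc φ' hb hp hz0 (Real.exp (-T)) hρ0 hρ1 (Hf Λ z') hherm
    (fun y => ⟨Hf_low Λ hY y, Hf_up Λ hY y⟩) S0
  -- the expansion
  have hsm : ∀ S0 : Finset (Fin (r + 1)), Summable fun x : A => φ' x *
      ((∏ j ∈ S0, (starRingEnd ℂ) (D.sg x j)) * (Real.exp (-(Hf Λ z' (D.sg x))) : ℂ)) := by
    intro S0
    obtain ⟨_, _, _, hg⟩ := D.growth (r + 1) (Real.exp_pos (-(LB Λ)))
    refine Summable.of_norm_bounded ((hg _ hρ0 hρ1).1.mul_left K) fun x => ?_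
    rw [norm_mul, norm_mul, Complex.norm_real, Real.norm_eq_abs, Real.abs_exp]
    have h3 := prod_norm_le S0 id (D.sg x) (k := r + 1) (by simpa using Finset.card_le_univ S0)
    have h4 : Real.exp (-(Hf Λ z' (D.sg x))) ≤
        Real.exp (-(Real.exp (-T) * Real.exp (-(LB Λ)) * nrm (D.sg x))) :=
      Real.exp_le_exp.2 (neg_le_neg (Hf_low Λ hY _))
    exact mul_le_mul (hb x) (mul_le_mul h3 h4 (Real.exp_pos _).le (by
      have := nrm_nonneg (D.sg x)
      positivity)) (by positivity) hK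
  have hexp : D.Om Λ φ ρ z' = ∑ π : Perm (Fin (r + 1)), (((Perm.sign π : ℤ) : ℂ) *
      ∏ i, cfr Λ z' (D.rw' ρ (π i)) i) * ∑' x, φ' x *
      ((∏ i ∈ Finset.univ.filter (fun i => (D.rw' ρ (π i)).isRight), (starRingEnd ℂ) (D.sg x i)) *
        (Real.exp (-(Hf Λ z' (D.sg x))) : ℂ)) := by
    simp only [← tsum_mul_left]
    rw [← Summable.tsum_finsetSum fun π _ => (hsm _).mul_left _]
    refine tsum_congr fun x => ?_
    unfold tm Df
    rw [det_expand, hφ', Finset.mul_sum, Finset.mul_sum]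
    refine Finset.sum_congr rfl fun π _ => ?_
    ring
  rw [hexp]
  refine (norm_sum_le _ _).trans ((Finset.sum_le_card_nsmul _ _
    (E ^ (r + 1) * (C * Real.exp (-(c / Real.exp (-T))))) fun π _ => ?_).trans (le_of_eq ?_))
  · rw [norm_mul, norm_mul]
    have h3 : ‖((Perm.sign π : ℤ) : ℂ)‖ = 1 := by
      rcases Int.units_eq_one_or (Perm.sign π) with h | h <;> simp [h]
    rw [h3, one_mul]
    refine mul_le_mul ?_ (hS _) (norm_nonneg _) (by positivity)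
    rw [norm_prod]
    refine (Finset.prod_le_prod (fun _ _ => norm_nonneg _) fun i _ =>
      cfr_le Λ (D.rw' ρ) (by linarith) hY (π i) i).trans (le_of_eq ?_)
    rw [Finset.prod_const, Finset.card_univ, Fintype.card_fin]
  · rw [Finset.card_univ, Fintype.card_perm, Fintype.card_fin, nsmul_eq_mul,
      show Real.exp (-T) = (Real.exp T)⁻¹ from Real.exp_neg T, div_inv_eq_mul]
    ring

/-- the regularized sum -/
noncomputable def Ls (D : GN A r) (φ : A → ℂ) (l : Fin (r + 1) → (A →ₗ[RR] RR)) (ρ : ℝ) : ℂ :=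
  ∑' x : A, φ x * ((∏ j, ((l j x : RR) : ℂ)⁻¹) * (Real.exp (-(ρ * nrm (D.sg x))) : ℂ))

/-- the determinant of a family of linear forms -/
noncomputable def dv (D : GN A r) (l : Fin (r + 1) → (A →ₗ[RR] RR)) : ℂ :=
  (Matrix.of fun j => D.vec (l j)).det

lemma Om_inl (hΛ0 : ∀ i, Λ 0 i = 1) (l : Fin (r + 1) → Vx φ) (t : ℝ) :
    D.Om Λ φ (fun j => Sum.inl (l j)) (Function.update 0 0 t) =
      D.Ls φ (fun j => (l j).1) (Real.exp t) * D.dv (fun j => (l j).1) := by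
  unfold Om Ls
  rw [← tsum_mul_right]
  refine tsum_congr fun x => ?_
  unfold tm Df dv
  have h1 : Hf Λ (Function.update 0 0 t) (D.sg x) = Real.exp t * nrm (D.sg x) := by
    unfold Hf nrm
    rw [Finset.mul_sum]
    refine Finset.sum_congr rfl fun i _ => ?_
    congr 2
    unfold Yf
    rw [Fin.sum_univ_succ, Function.update_self, hΛ0, mul_one]
    simp only [Function.update_of_ne (Fin.succ_ne_zero _), Pi.zero_apply, zero_mul,
      Finset.sum_const_zero, add_zero]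
  have h2 : ∀ j, dn (D.sg x) (D.rw' (fun j => Sum.inl (l j)) j) = (((l j).1 x : RR) : ℂ)⁻¹ := by
    intro j
    show dn (D.sg x) (Sum.inl (D.vec (l j).1)) = _
    rw [dn_inl, D.pr_vec]
  have h3 : Mt Λ (Function.update 0 0 t) (D.sg x) (D.rw' (fun j => Sum.inl (l j))) =
      Matrix.of fun j => D.vec (l j).1 := rfl
  rw [h1, h3, Finset.prod_congr rfl fun j _ => h2 j]
  ring

/-- **The Stokes formula.** -/
theorem stokesA [NoZeroSMulDivisors RR A] [NeZero M] (h : D.Cfu M φ) (hΛ0 : ∀ i, Λ 0 i = 1)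
    (hΛ : ∀ (b : Fin r) i, Λ b.succ i = Real.log (normSq (D.σ i (ε b)))) (x0 : Vx φ)
    (hw : ∀ (τ : Perm (Fin r)) k, k < r → ∃ w : A, w ≠ 0 ∧
      (∀ j ≤ k, (vt (gV h ε) x0 τ j).1 w = 0) ∧ Mzv M φ w)
    (l : Perm (Fin r) → ℂ)
    (hl : ∀ τ : Perm (Fin r), Tendsto (fun ρ => D.Ls φ (fun j => (vt (gV h ε) x0 τ j).1) ρ *
      D.dv (fun j => (vt (gV h ε) x0 τ j).1)) (𝓝[>] 0) (𝓝 (l τ))) :
    Tendsto (fun T => ∫ z in Icc (lo (r := r) T) (hi T), D.Om Λ φ std z) atTop (𝓝 (SS l)) := by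
  refine stokes (fam Λ h hΛ) x0 ?_ ?_ _ ?_
  · intro τ k hk
    obtain ⟨E, hE, hE1⟩ := Om_pos (D := D) Λ h hΛ0 (fun i => Rw (gV h ε) x0 τ k i)
    obtain ⟨w, hw0, hw1, hw2⟩ := hw τ k hk
    obtain ⟨C, c, hc, hn⟩ := Om_neg (D := D) Λ h hΛ0 (fun i => Rw (gV h ε) x0 τ k i) hw0 (by
      intro j l' hj
      replace hj : Rw (gV h ε) x0 τ k (j : ℕ) = Sum.inl l' := hj
      rcases Nat.lt_or_ge k j with h1 | h1
      · obtain ⟨i, hi⟩ : ∃ i, (j : ℕ) = i + 1 := ⟨(j : ℕ) - 1, by omega⟩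
        rw [hi] at hj
        rcases Nat.lt_or_ge i r with h2 | h2
        · rw [Rw_mid (by omega) h2] at hj
          exact absurd hj (by simp)
        · rw [Rw_last (by omega) h2] at hj
          exact absurd hj (by simp)
      · rw [Rw_le h1] at hj
        rw [← Sum.inl_injective hj]
        exact hw1 _ h1) hw2
    refine ⟨fun T => max (E T) (C * ((1 * (1 + Real.exp T)) ^ 0) * Real.exp (-(c * Real.exp T))), ?_,
      fun T hT z hz => ⟨(hE1 T hT z hz).trans (le_max_left _ _), (hn T hT z hz).trans ?_⟩⟩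
    · have := hE.max (tendsto_pow_exp C c 1 0 hc)
      simpa using this
    · refine le_trans (le_of_eq ?_) (le_max_right _ _)
      ring
  · intro τ
    obtain ⟨E, hE, hE1⟩ := Om_pos (D := D) Λ h hΛ0 (fun i : Fin (r + 1) => Sum.inl (vt (gV h ε) x0 τ i))
    refine squeeze_zero_norm' (a := E) ?_ hE
    filter_upwards [eventually_gt_atTop (0 : ℝ)] with T hT
    exact hE1 T hT 0 fun b => ⟨le_rfl, zero_le_one⟩
  · intro τ
    simp only [Om_inl Λ hΛ0]
    refine (hl τ).comp ?_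
    rw [tendsto_nhdsWithin_iff]
    exact ⟨Real.tendsto_exp_neg_atTop_nhds_zero, Eventually.of_forall fun T => Real.exp_pos _⟩

end GN

end Pool.Agent.K7.H56
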