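import Pool.Agent.K7.H56.T7
import Pool.Agent.R430.C3

/-!
# The limit of the regularized sums
-/

set_option autoImplicit false

open Complex Filter Topology Set MeasureTheory

namespace Pool.Agent.K7.H56

open Pool.Agent.Y688 Pool.Agent.W192.HK Pool.Agent.TH936.CM Pool.Agent.R430

variable {r : ℕ} {A : Type*} [CommRing A] [Algebra RR A]

lemma tendsto_exp_inv {c : ℝ} (hc : 0 < c) :
    Tendsto (fun ρ : ℝ => Real.exp (-(c / ρ))) (𝓝[>] 0) (𝓝 0) := by
  have h : Tendsto (fun ρ : ℝ => c / ρ) (𝓝[>] 0) atTop := by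
    simp only [div_eq_mul_inv]
    exact tendsto_inv_nhdsGT_zero.const_mul_atTop hc
  exact Real.tendsto_exp_neg_atTop_nhds_zero.comp h

namespace GN

variable (D : GN A r)

/-- the sum regularized by the linear forms -/
noncomputable def Lp (φ : A → ℂ) (l : Fin (r + 1) → (A →ₗ[RR] RR)) (ρ : ℝ) : ℂ :=
  ∑' x : A, φ x * ((∏ j, ((l j x : RR) : ℂ)⁻¹) *
    (Real.exp (-(ρ * ∑ j, normSq ((l j x : RR) : ℂ))) : ℂ))

/-- the form of a family of linear forms -/
noncomputable def ql (l : Fin (r + 1) → (A →ₗ[RR] RR)) (y : Fin (r + 1) → ℂ) : ℝ :=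
  ∑ j, normSq (pr (D.vec (l j)) y)

lemma ql_sg (l : Fin (r + 1) → (A →ₗ[RR] RR)) (x : A) :
    D.ql l (D.sg x) = ∑ j, normSq ((l j x : RR) : ℂ) := by
  unfold ql
  exact Finset.sum_congr rfl fun j _ => by rw [D.pr_vec]

lemma ql_herm (l : Fin (r + 1) → (A →ₗ[RR] RR)) : Herm (D.ql l) :=
  Herm.sum _ fun _ => herm_pr _

lemma nrm_herm {d : ℕ} : Herm (nrm : (Fin d → ℂ) → ℝ) := Herm.sum _ fun i => herm_coord i

/-- the matrix of the vectors -/
noncomputable def Vm (l : Fin (r + 1) → (A →ₗ[RR] RR)) : Matrix (Fin (r + 1)) (Fin (r + 1)) ℂ :=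
  Matrix.of fun j => D.vec (l j)

variable {D} {l : Fin (r + 1) → (A →ₗ[RR] RR)}

lemma Vm_inv (hdv : D.dv l ≠ 0) (y : Fin (r + 1) → ℂ) (i : Fin (r + 1)) :
    y i = ∑ j, (D.Vm l)⁻¹ i j * pr (D.vec (l j)) y := by
  have h1 : (D.Vm l).mulVec y = fun j => pr (D.vec (l j)) y := rfl
  have h2 : ((D.Vm l)⁻¹.mulVec ((D.Vm l).mulVec y)) i = y i := by
    rw [Matrix.mulVec_mulVec, Matrix.nonsing_inv_mul (D.Vm l) (Ne.isUnit hdv), Matrix.one_mulVec]
  rw [← h2, h1]
  rfl

lemma ql_bounds (hdv : D.dv l ≠ 0) : ∃ κ κ' : ℝ, 0 < κ ∧ κ ≤ 1 ∧ 1 ≤ κ' ∧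
    ∀ y : Fin (r + 1) → ℂ, κ * nrm y ≤ D.ql l y ∧ D.ql l y ≤ κ' * nrm y := by
  set s : ℝ := ∑ i, nrm ((D.Vm l)⁻¹ i) with hs
  have hs0 : 0 ≤ s := Finset.sum_nonneg fun _ _ => nrm_nonneg _
  refine ⟨(1 + s)⁻¹, 1 + ∑ j, nrm (D.vec (l j)), by positivity,
    inv_le_one_of_one_le₀ (by linarith), ?_, fun y => ⟨?_, ?_⟩⟩
  · have : 0 ≤ ∑ j, nrm (D.vec (l j)) := Finset.sum_nonneg fun _ _ => nrm_nonneg _
    linarith
  · have hq0 : 0 ≤ D.ql l y := Finset.sum_nonneg fun _ _ => normSq_nonneg _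
    rw [inv_mul_le_iff₀ (by positivity)]
    have h1 : nrm y ≤ s * D.ql l y := by
      rw [hs, Finset.sum_mul]
      refine Finset.sum_le_sum fun i _ => ?_
      have h2 : y i = pr ((D.Vm l)⁻¹ i) (fun j => pr (D.vec (l j)) y) := Vm_inv hdv y i
      rw [h2]
      exact pr_le _ _
    linarith
  · unfold ql
    rw [add_mul, one_mul, Finset.sum_mul]
    have h1 : ∑ j, normSq (pr (D.vec (l j)) y) ≤ ∑ j, nrm (D.vec (l j)) * nrm y :=
      Finset.sum_le_sum fun j _ => pr_le _ _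
    have := nrm_nonneg y
    linarith

/-- the coefficients of the derivative -/
noncomputable def cof (D : GN A r) (l : Fin (r + 1) → (A →ₗ[RR] RR)) (i j : Fin (r + 1)) : ℂ :=
  (starRingEnd ℂ) (D.vec (l j) i) - (D.Vm l)⁻¹ i j

lemma cof_eq (hdv : D.dv l ≠ 0) (x : A) (hx : ∀ j, l j x ≠ 0) :
    ((D.ql l (D.sg x) - nrm (D.sg x) : ℝ) : ℂ) * ∏ j, ((l j x : RR) : ℂ)⁻¹ =
      ∑ i, ∑ j, D.cof l i j * ((∏ k ∈ Finset.univ.erase j, ((l k x : RR) : ℂ)⁻¹) *
        (starRingEnd ℂ) (D.sg x i)) := by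
  have h1 : ((D.ql l (D.sg x) : ℝ) : ℂ) = ∑ i, ∑ j, (starRingEnd ℂ) (D.vec (l j) i) *
      (((l j x : RR) : ℂ) * (starRingEnd ℂ) (D.sg x i)) := by
    rw [Finset.sum_comm]
    unfold ql
    push_cast
    refine Finset.sum_congr rfl fun j _ => ?_
    rw [← Complex.mul_conj, D.pr_vec, ← D.pr_vec (l j) x]
    conv_lhs => rw [show (starRingEnd ℂ) (pr (D.vec (l j)) (D.sg x)) =
      ∑ i, (starRingEnd ℂ) (D.vec (l j) i) * (starRingEnd ℂ) (D.sg x i) by
        unfold pr
        rw [map_sum]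
        exact Finset.sum_congr rfl fun i _ => map_mul _ _ _]
    rw [Finset.mul_sum]
    exact Finset.sum_congr rfl fun i _ => by ring
  have h2 : ((nrm (D.sg x) : ℝ) : ℂ) = ∑ i, ∑ j, (D.Vm l)⁻¹ i j *
      (((l j x : RR) : ℂ) * (starRingEnd ℂ) (D.sg x i)) := by
    unfold nrm
    push_cast
    refine Finset.sum_congr rfl fun i _ => ?_
    rw [← Complex.mul_conj]
    conv_lhs => rw [Vm_inv hdv (D.sg x) i]
    rw [map_sum, Finset.sum_mul]
    have h3 : ∑ j, (D.Vm l)⁻¹ i j * (((l j x : RR) : ℂ) * (starRingEnd ℂ) (D.sg x i)) =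
        (∑ j, (D.Vm l)⁻¹ i j * pr (D.vec (l j)) (D.sg x)) * (starRingEnd ℂ) (D.sg x i) := by
      rw [Finset.sum_mul]
      exact Finset.sum_congr rfl fun j _ => by rw [D.pr_vec]; ring
    rw [h3, Finset.sum_mul]
    refine Finset.sum_congr rfl fun j _ => ?_
    congr 1
    rw [← map_sum, ← Vm_inv hdv (D.sg x) i]
  rw [Complex.ofReal_sub, h1, h2, ← Finset.sum_sub_distrib, Finset.sum_mul]
  refine Finset.sum_congr rfl fun i _ => ?_
  rw [← Finset.sum_sub_distrib, Finset.sum_mul]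
  refine Finset.sum_congr rfl fun j _ => ?_
  have h4 : ((l j x : RR) : ℂ) ≠ 0 := by exact_mod_cast hx j
  rw [← Finset.mul_prod_erase Finset.univ (fun k => ((l k x : RR) : ℂ)⁻¹) (Finset.mem_univ j)]
  unfold cof
  field_simp

/-- **Deformation.** -/
theorem deform [NoZeroSMulDivisors RR A] {M : ℕ} [NeZero M] {φ : A → ℂ}
    (hφ' : ∃ K : ℝ, 0 ≤ K ∧ ∀ x, ‖φ x‖ ≤ K) (hper : ∀ x γ, φ (x + M * γ) = φ x)
    (hl : ∀ x j, φ x ≠ 0 → l j x ≠ 0) (hdv : D.dv l ≠ 0)
    (hw : ∀ j, ∃ w : A, w ≠ 0 ∧ (∀ i, i ≠ j → l i w = 0) ∧ Mzv M φ w) :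
    Tendsto (fun ρ => Lp φ l ρ - D.Ls φ l ρ) (𝓝[>] 0) (𝓝 0) := by
  classical
  obtain ⟨K, hK, hφ⟩ := hφ'
  obtain ⟨κ, κ', hκ, hκ1, hκ'1, hq⟩ := ql_bounds hdv
  have hκ' : 0 < κ' := by linarith
  choose w hw0 hw1 hw2 using hw
  have hosc := fun j => D.osc (M := M) (hw0 j) hκ hκ' hK
  choose C c hC hc hosc using hosc
  refine squeeze_zero_norm' (a := fun ρ => ∑ i, ∑ j, ‖D.cof l i j‖ *
    (C j * Real.exp (-(c j / ρ)))) ?_ ?_
  swap
  · have h : Tendsto (fun ρ : ℝ => ∑ i, ∑ j, ‖D.cof l i j‖ * (C j * Real.exp (-(c j / ρ))))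
        (𝓝[>] 0) (𝓝 (∑ i : Fin (r + 1), ∑ j : Fin (r + 1), ‖D.cof l i j‖ * (C j * 0))) :=
      tendsto_finsetSum _ fun i _ => tendsto_finsetSum _ fun j _ =>
        ((tendsto_exp_inv (hc j)).const_mul _).const_mul _
    simpa using h
  filter_upwards [Ioc_mem_nhdsGT (zero_lt_one' ℝ)] with ρ hρ
  obtain ⟨hρ0, hρ1⟩ := hρ
  -- the family of forms
  set q : ℝ → (Fin (r + 1) → ℂ) → ℝ := fun t y => nrm y + t * (D.ql l y - nrm y) with hqd
  obtain ⟨P, hP⟩ : ∃ P : A → ℂ, P = fun x => φ x * ∏ j, ((l j x : RR) : ℂ)⁻¹ := ⟨_, rfl⟩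
  have hPb : ∀ x, ‖P x‖ ≤ K := by
    intro x
    rw [hP]
    by_cases hx : φ x = 0
    · simp only [hx, zero_mul, norm_zero]; exact hK
    · simp only
      rw [norm_mul, norm_prod]
      have h1 : ∏ j, ‖((l j x : RR) : ℂ)⁻¹‖ ≤ 1 := Finset.prod_le_one (fun _ _ => norm_nonneg _)
        fun j _ => by
          rw [norm_inv]
          exact inv_le_one_of_one_le₀ (one_le_norm (hl x j hx))
      have h4 := mul_le_mul (hφ x) h1 (Finset.prod_nonneg fun _ _ => norm_nonneg _) hK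
      rwa [mul_one] at h4
  set F : ℝ → ℂ := fun t => ∑' x : A, P x * (Real.exp (-(ρ * q t (D.sg x))) : ℂ) with hF
  set F' : ℝ → ℂ := fun t => ∑' x : A, P x * (((-(ρ * (D.ql l (D.sg x) - nrm (D.sg x))) : ℝ) : ℂ) *
    (Real.exp (-(ρ * q t (D.sg x))) : ℂ)) with hF'
  have hF1 : F 1 = Lp φ l ρ := by
    rw [hF]
    unfold Lp
    refine tsum_congr fun x => ?_
    rw [hP, hqd]
    simp only [one_mul]
    rw [show nrm (D.sg x) + (D.ql l (D.sg x) - nrm (D.sg x)) = D.ql l (D.sg x) by ring, D.ql_sg]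
    ring
  have hF0 : F 0 = D.Ls φ l ρ := by
    rw [hF]
    unfold Ls
    refine tsum_congr fun x => ?_
    rw [hP, hqd]
    simp only [zero_mul, add_zero]
    ring
  -- the lower bound near the segment
  set δ : ℝ := κ / (2 * κ') with hδ
  have hδ0 : 0 < δ := by positivity
  have hδ1 : δ * κ' = κ / 2 := by rw [hδ]; field_simp
  have hδ2 : δ ≤ κ / 2 := by nlinarith
  have hlow : ∀ t ∈ Ioo (-δ) (1 + δ), ∀ y : Fin (r + 1) → ℂ, κ / 2 * nrm y ≤ q t y := by
    intro t ht y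
    obtain ⟨ht1, ht2⟩ := ht
    obtain ⟨hq1, hq2⟩ := hq y
    have hn := nrm_nonneg y
    rw [hqd]
    simp only
    have hd1 : D.ql l y - nrm y ≤ (κ' - 1) * nrm y := by linarith
    have hd2 : -nrm y ≤ D.ql l y - nrm y := by
      have : 0 ≤ κ * nrm y := by positivity
      linarith
    rcases le_total t 0 with h0 | h0
    · have h1 : t * (D.ql l y - nrm y) ≥ t * ((κ' - 1) * nrm y) :=
        mul_le_mul_of_nonpos_left hd1 h0
      have h2 : t * ((κ' - 1) * nrm y) ≥ -δ * ((κ' - 1) * nrm y) :=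
        mul_le_mul_of_nonneg_right ht1.le (mul_nonneg (by linarith) hn)
      have h3 : δ * κ' * nrm y = κ / 2 * nrm y := by rw [hδ1]
      have h4 : 0 ≤ δ * nrm y := by positivity
      have h5 : κ * nrm y ≤ 1 * nrm y := mul_le_mul_of_nonneg_right hκ1 hn
      nlinarith
    · rcases le_total t 1 with h1 | h1
      · have h2 : κ * nrm y ≤ 1 * nrm y := mul_le_mul_of_nonneg_right hκ1 hn
        have h3 : (1 - t) * (κ * nrm y) ≤ (1 - t) * nrm y :=
          mul_le_mul_of_nonneg_left (by linarith) (by linarith)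
        have h4 : t * (κ * nrm y) ≤ t * D.ql l y := mul_le_mul_of_nonneg_left hq1 h0
        have h5 : 0 ≤ κ * nrm y := by positivity
        nlinarith
      · have h2 : (t - 1) * (-nrm y) ≤ (t - 1) * (D.ql l y - nrm y) :=
          mul_le_mul_of_nonneg_left hd2 (by linarith)
        have h3 : (t - 1) * nrm y ≤ κ / 2 * nrm y :=
          mul_le_mul_of_nonneg_right (by linarith) hn
        nlinarith
  have hlow' : ∀ t ∈ Icc (0 : ℝ) 1, ∀ y : Fin (r + 1) → ℂ, κ * nrm y ≤ q t y ∧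
      q t y ≤ κ' * nrm y := by
    intro t ht y
    obtain ⟨h0, h1⟩ := ht
    obtain ⟨hq1, hq2⟩ := hq y
    have hn := nrm_nonneg y
    rw [hqd]
    simp only
    have h2 : κ * nrm y ≤ 1 * nrm y := mul_le_mul_of_nonneg_right hκ1 hn
    have h2' : 1 * nrm y ≤ κ' * nrm y := mul_le_mul_of_nonneg_right hκ'1 hn
    have h3 : (1 - t) * (κ * nrm y) ≤ (1 - t) * nrm y :=
      mul_le_mul_of_nonneg_left (by linarith) (by linarith)
    have h4 : t * (κ * nrm y) ≤ t * D.ql l y := mul_le_mul_of_nonneg_left hq1 h0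
    have h3' : (1 - t) * nrm y ≤ (1 - t) * (κ' * nrm y) :=
      mul_le_mul_of_nonneg_left (by linarith) (by linarith)
    have h4' : t * D.ql l y ≤ t * (κ' * nrm y) := mul_le_mul_of_nonneg_left hq2 h0
    constructor <;> nlinarith
  have hherm : ∀ t, Herm (fun y => ρ * q t y) := by
    intro t
    refine Herm.smul ρ (nrm_herm.add (Herm.smul t ?_))
    have h1 := (D.ql_herm l).add (Herm.smul (-1) (nrm_herm (d := r + 1)))
    have h2 : (fun y => D.ql l y + -1 * nrm y) = fun y : Fin (r + 1) → ℂ => D.ql l y - nrm y := by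
      funext y; ring
    rwa [h2] at h1
  -- the derivative
  obtain ⟨_, _, _, hg1⟩ := D.growth 1 (by positivity : 0 < κ / 2)
  have hs1 := (hg1 ρ hρ0 hρ1).1
  have hder : ∀ t ∈ Ioo (-δ) (1 + δ), HasDerivAt F (F' t) t := by
    intro t ht
    refine hasDerivAt_tsum_of_isPreconnected
      (g := fun (x : A) (t : ℝ) => P x * (Real.exp (-(ρ * q t (D.sg x))) : ℂ))
      (g' := fun (x : A) (t : ℝ) => P x * (((-(ρ * (D.ql l (D.sg x) - nrm (D.sg x))) : ℝ) : ℂ) *
        (Real.exp (-(ρ * q t (D.sg x))) : ℂ))) (hs1.mul_left (K * (ρ * κ'))) isOpen_Ioo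
      isPreconnected_Ioo (fun x s _ => ?_) (fun x s hs => ?_) (y₀ := t) ht ?_ ht
    · have h1 : HasDerivAt (fun t => -(ρ * q t (D.sg x)))
          (-(ρ * (D.ql l (D.sg x) - nrm (D.sg x)))) s := by
        rw [hqd]
        simp only
        have h2 := ((hasDerivAt_id s).mul_const (D.ql l (D.sg x) - nrm (D.sg x))).const_add
          (nrm (D.sg x))
        have h3 : HasDerivAt (fun t => -(ρ * (nrm (D.sg x) + t * (D.ql l (D.sg x) - nrm (D.sg x)))))
            (-(ρ * (1 * (D.ql l (D.sg x) - nrm (D.sg x))))) s := (h2.const_mul ρ).neg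
        rwa [one_mul] at h3
      have h4 := (h1.exp).ofReal_comp
      refine (h4.const_mul (P x)).congr_deriv ?_
      push_cast
      ring
    · rw [norm_mul, norm_mul, Complex.norm_real, Complex.norm_real, Real.norm_eq_abs,
        Real.norm_eq_abs, Real.abs_exp, abs_neg, abs_mul, abs_of_pos hρ0]
      have hn := nrm_nonneg (D.sg x)
      obtain ⟨hq1, hq2⟩ := hq (D.sg x)
      have h1 : |D.ql l (D.sg x) - nrm (D.sg x)| ≤ κ' * (1 + nrm (D.sg x)) := by
        rw [abs_le]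
        have : 0 ≤ κ * nrm (D.sg x) := by positivity
        constructor <;> nlinarith
      have h2 : Real.exp (-(ρ * q s (D.sg x))) ≤ Real.exp (-(ρ * (κ / 2) * nrm (D.sg x))) := by
        refine Real.exp_le_exp.2 (neg_le_neg ?_)
        rw [mul_assoc]
        exact mul_le_mul_of_nonneg_left (hlow s hs (D.sg x)) hρ0.le
      calc ‖P x‖ * (ρ * |D.ql l (D.sg x) - nrm (D.sg x)| * Real.exp (-(ρ * q s (D.sg x)))) ≤
          K * (ρ * (κ' * (1 + nrm (D.sg x))) * Real.exp (-(ρ * (κ / 2) * nrm (D.sg x)))) :=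
            mul_le_mul (hPb x) (mul_le_mul (mul_le_mul_of_nonneg_left h1 hρ0.le) h2
              (Real.exp_pos _).le (by positivity)) (by positivity) hK
        _ = _ := by ring
    · obtain ⟨_, _, _, hg0⟩ := D.growth 0 (by positivity : 0 < κ / 2)
      have hs0 := (hg0 ρ hρ0 hρ1).1
      refine Summable.of_norm_bounded (hs0.mul_left K) fun x => ?_
      rw [norm_mul, Complex.norm_real, Real.norm_eq_abs, Real.abs_exp, pow_zero, one_mul]
      refine mul_le_mul (hPb x) (Real.exp_le_exp.2 (neg_le_neg ?_)) (Real.exp_pos _).le hK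
      rw [mul_assoc]
      exact mul_le_mul_of_nonneg_left (hlow t ht (D.sg x)) hρ0.le
  -- the bound for the derivative
  have hbd : ∀ t ∈ Icc (0 : ℝ) 1, ‖F' t‖ ≤ ∑ i, ∑ j, ‖D.cof l i j‖ *
      (C j * Real.exp (-(c j / ρ))) := by
    intro t ht
    obtain ⟨φj, hφj⟩ : ∃ φj : Fin (r + 1) → A → ℂ, φj = fun j x => φ x *
      ∏ k ∈ Finset.univ.erase j, ((l k x : RR) : ℂ)⁻¹ := ⟨_, rfl⟩
    have hjb : ∀ j x, ‖φj j x‖ ≤ K := by
      intro j x
      rw [hφj]
      by_cases hx : φ x = 0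
      · simp only [hx, zero_mul, norm_zero]; exact hK
      · simp only
        rw [norm_mul, norm_prod]
        have h1 : ∏ k ∈ Finset.univ.erase j, ‖((l k x : RR) : ℂ)⁻¹‖ ≤ 1 :=
          Finset.prod_le_one (fun _ _ => norm_nonneg _) fun k _ => by
            rw [norm_inv]
            exact inv_le_one_of_one_le₀ (one_le_norm (hl x k hx))
        have h4 := mul_le_mul (hφ x) h1 (Finset.prod_nonneg fun _ _ => norm_nonneg _) hK
        rwa [mul_one] at h4
    have hline : ∀ j x (a : RR), ∏ k ∈ Finset.univ.erase j, ((l k (x + a • w j) : RR) : ℂ)⁻¹ =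
        ∏ k ∈ Finset.univ.erase j, ((l k x : RR) : ℂ)⁻¹ := by
      intro j x a
      refine Finset.prod_congr rfl fun k hk => ?_
      rw [map_add, map_smul, hw1 j k (Finset.ne_of_mem_erase hk), smul_zero, add_zero]
    have hjp : ∀ j x (a : RR), φj j (x + ((M : RR) * a) • w j) = φj j x := by
      intro j x a
      rw [hφj]
      simp only [hline]
      rw [smul_nat, hper]
    have hjz : ∀ j x, ∑ q : RM M, φj j (x + q.out • w j) = 0 := by
      intro j x
      rw [hφj]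
      simp only [hline]
      rw [← Finset.sum_mul, hw2 j x, zero_mul]
    have hb := fun i j => hosc j (φj j) (hjb j) (hjp j) (hjz j) ρ hρ0 hρ1 (fun y => ρ * q t y)
      (hherm t) (fun y => ⟨by
        rw [mul_assoc]
        exact mul_le_mul_of_nonneg_left (hlow' t ht y).1 hρ0.le, by
        rw [mul_assoc]
        exact mul_le_mul_of_nonneg_left (hlow' t ht y).2 hρ0.le⟩) {i}
    simp only [Finset.prod_singleton] at hb
    have hsm : ∀ i j, Summable fun x : A => φj j x * ((starRingEnd ℂ) (D.sg x i) *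
        (Real.exp (-(ρ * q t (D.sg x))) : ℂ)) := by
      intro i j
      refine Summable.of_norm_bounded (hs1.mul_left K) fun x => ?_
      have hn := nrm_nonneg (D.sg x)
      rw [norm_mul, norm_mul, Complex.norm_real, Real.norm_eq_abs, Real.abs_exp,
        Complex.norm_conj, pow_one]
      refine mul_le_mul (hjb j x) (mul_le_mul (norm_le_nrm _ i) (Real.exp_le_exp.2 (neg_le_neg ?_))
        (Real.exp_pos _).le (by positivity)) (by positivity) hK
      have h5 := mul_le_mul_of_nonneg_left (hlow' t ht (D.sg x)).1 hρ0.le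
      have h6 : 0 ≤ ρ * (κ * nrm (D.sg x)) := by positivity
      nlinarith
    have hexp : F' t = ∑ i, ∑ j, ((-ρ : ℝ) : ℂ) * D.cof l i j * ∑' x : A, φj j x *
        ((starRingEnd ℂ) (D.sg x i) * (Real.exp (-(ρ * q t (D.sg x))) : ℂ)) := by
      simp only [← tsum_mul_left]
      rw [Finset.sum_congr rfl fun i _ => (Summable.tsum_finsetSum
        fun j _ => (hsm i j).mul_left _).symm]
      rw [← Summable.tsum_finsetSum fun i _ => summable_sum fun j _ => (hsm i j).mul_left _]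
      rw [hF']
      refine tsum_congr fun x => ?_
      rw [hP, hφj]
      simp only
      by_cases hx : φ x = 0
      · simp [hx]
      · have h1 := cof_eq hdv x (fun j => hl x j hx)
        calc (φ x * ∏ j, ((l j x : RR) : ℂ)⁻¹) *
            (((-(ρ * (D.ql l (D.sg x) - nrm (D.sg x))) : ℝ) : ℂ) *
            (Real.exp (-(ρ * q t (D.sg x))) : ℂ)) =
            φ x * (((-ρ : ℝ) : ℂ) * (Real.exp (-(ρ * q t (D.sg x))) : ℂ)) *
            (((D.ql l (D.sg x) - nrm (D.sg x) : ℝ) : ℂ) * ∏ j, ((l j x : RR) : ℂ)⁻¹) := by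
              push_cast
              ring
          _ = _ := by
              rw [h1, Finset.mul_sum]
              refine Finset.sum_congr rfl fun i _ => ?_
              rw [Finset.mul_sum]
              refine Finset.sum_congr rfl fun j _ => ?_
              ring
    rw [hexp]
    refine (norm_sum_le _ _).trans (Finset.sum_le_sum fun i _ => (norm_sum_le _ _).trans
      (Finset.sum_le_sum fun j _ => ?_))
    rw [norm_mul, norm_mul, Complex.norm_real, Real.norm_eq_abs, abs_neg, abs_of_pos hρ0]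
    have h7 := mul_le_mul hρ1 (hb i j) (norm_nonneg _) zero_le_one
    calc ρ * ‖D.cof l i j‖ * _ = ‖D.cof l i j‖ * (ρ * ‖∑' x : A, φj j x *
        ((starRingEnd ℂ) (D.sg x i) * (Real.exp (-(ρ * q t (D.sg x))) : ℂ))‖) := by ring
      _ ≤ ‖D.cof l i j‖ * (1 * (C j * Real.exp (-(c j / ρ)))) :=
          mul_le_mul_of_nonneg_left h7 (norm_nonneg _)
      _ = _ := by rw [one_mul]
  rw [← hF1, ← hF0]
  refine norm_image_sub_le_of_norm_deriv_le_segment_01' (f' := F') (fun t ht => ?_)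
    fun t ht => hbd t ⟨ht.1, ht.2.le⟩
  exact (hder t ⟨by linarith [ht.1], by linarith [ht.2]⟩).hasDerivWithinAt

end GN

end Pool.Agent.K7.H56
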