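import Pool.Agent.K7.H56.T8
import Pool.Agent.R430.C6

/-!
# The product formula for the limit
-/

set_option autoImplicit false

open Complex Filter Topology Set MeasureTheory
open scoped PeriodPair

namespace Pool.Agent.K7.H56

open Pool.Agent.Y688 Pool.Agent.W192.HK Pool.Agent.TH936.CM Pool.Agent.R430 H667R3

variable {r : ℕ} {A : Type*} [CommRing A] [Algebra RR A]

lemma dvd_nsq (x : RR) {N : ℕ} (h : normSq (x : ℂ) = N) : ∃ y : RR, (N : RR) = x * y := by
  refine ⟨⟨(starRingEnd ℂ) (x : ℂ), Pool.Agent.W287.HK.conj_mem qr _⟩, ?_⟩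
  apply Subtype.ext
  push_cast
  rw [Complex.mul_conj, h]
  push_cast
  rfl

/-- the class function sums -/
noncomputable def cls (n : ℕ) (q : RM n) (a : RR) : ℂ := by
  classical
  exact if (Ideal.Quotient.mk (sp (n : RR)) a : RM n) = q then 1 else 0

lemma cls_per (n : ℕ) (q : RM n) : Per n (cls n q) := by
  intro y y' h
  unfold cls
  rw [Ideal.Quotient.mk_eq_mk_iff_sub_mem y y' |>.2 h]

open Classical in
lemma cls_out (n : ℕ) [NeZero n] (q q' : RM n) : cls n q q'.out = if q' = q then 1 else 0 := by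
  unfold cls
  have h : (Ideal.Quotient.mk (sp (n : RR)) q'.out : RM n) = q' := Quotient.out_eq q'
  rw [h]

lemma cls_norm (n : ℕ) (q : RM n) (a : RR) : ‖cls n q a‖ ≤ 1 := by
  unfold cls
  split_ifs <;> simp

lemma cls_summ (n : ℕ) (q : RM n) {δ : ℝ} (hδ : 0 < δ) :
    Summable fun a : RR => ‖cls n q a * fd δ (a : ℂ)‖ := by
  refine Summable.of_nonneg_of_le (fun _ => norm_nonneg _) (fun a => ?_) (summ_fd1 hδ)
  rw [norm_mul]
  exact mul_le_of_le_one_left (norm_nonneg _) (cls_norm n q a)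

lemma cls_lim {L : PeriodPair} {Ω : ℂ} (h : HL L Ω) {n : ℕ} [NeZero n] (hn : Odd n) (q : RM n) :
    Tendsto (fun δ : ℝ => ∑' a : RR, cls n q a * fd δ (a : ℂ)) (𝓝[>] 0)
      (𝓝 ((Ω / n) * Ev Ω n q.out)) := by
  classical
  have hn0 : 0 < n := Nat.pos_of_ne_zero (NeZero.ne n)
  have hnR : (0 : ℝ) < n := by exact_mod_cast hn0
  have hN : 0 < Complex.normSq Ω := Complex.normSq_pos.2 h.ne
  have hsc := scale_lim (c := (n : ℝ) ^ 2 / Complex.normSq Ω) (by positivity)
  refine (((Ev_lim h hn q.out).comp hsc).const_mul (Ω / n)).congr' ?_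
  filter_upwards [self_mem_nhdsWithin] with δ (hδ : 0 < δ)
  rw [sum_EE h.toIsLat n hn0 (cls n q) (cls_per n q) (cls_summ n q hδ).of_norm]
  congr 1
  rw [Finset.sum_eq_single q]
  · rw [cls_out, if_pos rfl, one_mul]
    simp only [Function.comp_apply]
    congr 1
    ring
  · intro q' _ hq'
    rw [cls_out, if_neg hq', zero_mul]
  · intro hq'
    exact absurd (Finset.mem_univ q) hq'

/-- sums of periodic functions on products -/
lemma per_pi {d n : ℕ} [NeZero n] {f : (Fin d → RR) → ℂ}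
    (hf : ∀ c c' : Fin d → RR, (∀ j, c j - c' j ∈ sp (n : RR)) → f c = f c') {δ : ℝ} (hδ : 0 < δ) :
    ∑' c : Fin d → RR, f c * ∏ j, fd δ (c j : ℂ) =
      ∑ q : Fin d → RM n, f (fun j => (q j).out) * ∏ j, ∑' a : RR, cls n (q j) a * fd δ (a : ℂ) := by
  classical
  have h1 : ∀ c : Fin d → RR, f c * ∏ j, fd δ (c j : ℂ) = ∑ q : Fin d → RM n,
      f (fun j => (q j).out) * ∏ j, (cls n (q j) (c j) * fd δ (c j : ℂ)) := by
    intro c
    rw [Finset.sum_eq_single (fun j => (Ideal.Quotient.mk (sp (n : RR)) (c j) : RM n))]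
    · have h2 : ∀ j, cls n (Ideal.Quotient.mk (sp (n : RR)) (c j) : RM n) (c j) = 1 := by
        intro j
        unfold cls
        rw [if_pos rfl]
      simp only [h2, one_mul]
      congr 1
      refine hf _ _ fun j => ?_
      rw [← Ideal.Quotient.mk_eq_mk_iff_sub_mem]
      exact (Quotient.out_eq (Ideal.Quotient.mk (sp (n : RR)) (c j) : RM n)).symm
    · intro q _ hq
      obtain ⟨j, hj⟩ := Function.ne_iff.1 hq
      have h2 : cls n (q j) (c j) = 0 := by
        unfold cls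
        rw [if_neg fun h => hj h.symm]
      rw [Finset.prod_eq_zero (Finset.mem_univ j) (by rw [h2, zero_mul]), mul_zero]
    · intro hq
      exact absurd (Finset.mem_univ _) hq
  have h2 := fun q : Fin d → RM n => pi_sum d (fun j (a : RR) => cls n (q j) a * fd δ (a : ℂ))
    fun j => cls_summ n (q j) hδ
  simp only [h1]
  rw [Summable.tsum_finsetSum fun q _ => ((h2 q).1.of_norm).mul_left _]
  refine Finset.sum_congr rfl fun q _ => ?_
  rw [tsum_mul_left, (h2 q).2]

namespace GN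

variable (D : GN A r)

/-- the matrix of a family of linear forms -/
noncomputable def mm (l : Fin (r + 1) → (A →ₗ[RR] RR)) : Matrix (Fin (r + 1)) (Fin (r + 1)) RR :=
  Matrix.of fun j i => l j (D.b i)

/-- the determinant over the Eisenstein integers -/
noncomputable def dl (l : Fin (r + 1) → (A →ₗ[RR] RR)) : RR := (D.mm l).det

lemma dv_mul (l : Fin (r + 1) → (A →ₗ[RR] RR)) : D.dv l * D.P.det = ((D.dl l : RR) : ℂ) := by
  have h1 : (Matrix.of fun j => D.vec (l j)) * D.P = (D.mm l).map (RR.subtype) := by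
    ext j i
    rw [Matrix.mul_apply]
    exact D.pr_vec (l j) (D.b i)
  unfold dv dl
  rw [← Matrix.det_mul, h1]
  exact (RingHom.map_det RR.subtype (D.mm l)).symm

variable {D} {l : Fin (r + 1) → (A →ₗ[RR] RR)}

lemma dl_ne (hdv : D.dv l ≠ 0) : D.dl l ≠ 0 := by
  intro h
  have h1 := D.dv_mul l
  rw [h] at h1
  have h2 : D.dv l * D.P.det = 0 := by rw [h1]; rfl
  rcases mul_eq_zero.1 h2 with h3 | h3
  · exact hdv h3
  · exact D.det h3

lemma dv_ne (hdl : D.dl l ≠ 0) : D.dv l ≠ 0 := by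
  intro h
  have h1 := D.dv_mul l
  rw [h, zero_mul] at h1
  exact hdl (by exact_mod_cast h1.symm)

lemma l_apply (j : Fin (r + 1)) (u : Fin (r + 1) → RR) :
    l j (∑ i, u i • D.b i) = ((D.mm l).mulVec u) j := by
  rw [map_sum]
  show _ = ∑ i, l j (D.b i) * u i
  exact Finset.sum_congr rfl fun i _ => by rw [map_smul, smul_eq_mul, mul_comm]

lemma l_surj {N : ℕ} (hN : normSq ((D.dl l : RR) : ℂ) = N) (c : Fin (r + 1) → RR) :
    ∃ y : A, ∀ j, l j y = N * c j := by
  obtain ⟨u, hu⟩ := dvd_nsq _ hN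
  refine ⟨∑ i, (u • ((D.mm l).adjugate.mulVec c)) i • D.b i, fun j => ?_⟩
  rw [l_apply, Matrix.mulVec_smul, Matrix.mulVec_mulVec, Matrix.mul_adjugate]
  rw [Matrix.smul_mulVec, Matrix.one_mulVec, hu]
  show u * ((D.mm l).det * c j) = _
  unfold dl
  ring

lemma l_inj (hdl : D.dl l ≠ 0) {x : A} (h : ∀ j, l j x = 0) : x = 0 := by
  have h1 : (D.mm l).mulVec (fun i => D.b.repr x i) = 0 := by
    funext j
    rw [← l_apply, D.b.sum_repr, h j]
    rfl
  have h2 : (fun i => D.b.repr x i) = 0 := Matrix.eq_zero_of_mulVec_eq_zero hdl h1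
  refine D.b.ext_elem fun i => ?_
  rw [map_zero]
  exact congrFun h2 i

lemma l_inj' (hdl : D.dl l ≠ 0) {x y : A} (h : ∀ j, l j x = l j y) : x = y := by
  refine sub_eq_zero.1 (l_inj hdl fun j => ?_)
  rw [map_sub, h j, sub_self]

/-- the function on the coordinates -/
noncomputable def fF (φ : A → ℂ) (l : Fin (r + 1) → (A →ₗ[RR] RR)) (c : Fin (r + 1) → RR) : ℂ := by
  classical
  exact if h : ∃ x, ∀ j, l j x = c j then φ h.choose else 0

lemma fF_eq (hdl : D.dl l ≠ 0) (φ : A → ℂ) (x : A) : fF φ l (fun j => l j x) = φ x := by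
  unfold fF
  have h : ∃ y, ∀ j, l j y = l j x := ⟨x, fun _ => rfl⟩
  rw [dif_pos h, l_inj' hdl h.choose_spec]

lemma fF_zero {φ : A → ℂ} {c : Fin (r + 1) → RR} (h : ¬ ∃ x, ∀ j, l j x = c j) : fF φ l c = 0 := by
  unfold fF
  rw [dif_neg h]

lemma fF_per {M N : ℕ} {φ : A → ℂ} (hper : ∀ x γ, φ (x + M * γ) = φ x) (hdl : D.dl l ≠ 0)
    (hN : normSq ((D.dl l : RR) : ℂ) = N) (c c' : Fin (r + 1) → RR)
    (h : ∀ j, c j - c' j ∈ sp ((M * N : ℕ) : RR)) : fF φ l c = fF φ l c' := by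
  have key : ∀ c c' : Fin (r + 1) → RR, (∀ j, c j - c' j ∈ sp ((M * N : ℕ) : RR)) →
      ∀ x, (∀ j, l j x = c j) → fF φ l c' = φ x := by
    intro c c' h x hx
    choose a ha using fun j => Ideal.mem_span_singleton.1 (h j)
    obtain ⟨y, hy⟩ := l_surj hN a
    have h1 : ∀ j, l j (x + M * (-y)) = c' j := by
      intro j
      have h2 : (M : A) * (-y) = (M : RR) • (-y) := by
        rw [Nat.cast_smul_eq_nsmul, nsmul_eq_mul]
      rw [map_add, h2, map_smul, map_neg, hy, hx, smul_eq_mul]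
      have h3 := ha j
      push_cast at h3
      linear_combination h3
    rw [← show (fun j => l j (x + M * (-y))) = c' from funext h1, fF_eq hdl, hper]
  by_cases hc : ∃ x, ∀ j, l j x = c j
  · obtain ⟨x, hx⟩ := hc
    rw [key c c' h x hx, ← show (fun j => l j x) = c from funext hx, fF_eq hdl]
  · by_cases hc' : ∃ x, ∀ j, l j x = c' j
    · obtain ⟨x, hx⟩ := hc'
      exfalso
      apply hc
      choose a ha using fun j => Ideal.mem_span_singleton.1 (h j)
      obtain ⟨y, hy⟩ := l_surj hN a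
      refine ⟨x + M * y, fun j => ?_⟩
      have h2 : (M : A) * y = (M : RR) • y := by
        rw [Nat.cast_smul_eq_nsmul, nsmul_eq_mul]
      rw [map_add, h2, map_smul, hy, hx, smul_eq_mul]
      have h3 := ha j
      push_cast at h3
      linear_combination -h3
    · rw [fF_zero hc, fF_zero hc']

/-- the value of the limit -/
noncomputable def Vl (Ω : ℂ) (n : ℕ) [NeZero n] (φ : A → ℂ) (l : Fin (r + 1) → (A →ₗ[RR] RR)) : ℂ :=
  ∑ q : Fin (r + 1) → RM n, fF φ l (fun j => (q j).out) * ∏ j, Ev Ω n (q j).out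

theorem lim_Lp {L : PeriodPair} {Ω : ℂ} (h : HL L Ω) {M N : ℕ} {φ : A → ℂ}
    (hper : ∀ x γ, φ (x + M * γ) = φ x) (hdl : D.dl l ≠ 0)
    (hN : normSq ((D.dl l : RR) : ℂ) = N) [NeZero (M * N)] (hodd : Odd (M * N)) :
    Tendsto (Lp φ l) (𝓝[>] 0) (𝓝 ((Ω / ((M * N : ℕ) : ℂ)) ^ (r + 1) * Vl Ω (M * N) φ l)) := by
  have h1 : Tendsto (fun δ : ℝ => ∑ q : Fin (r + 1) → RM (M * N), fF φ l (fun j => (q j).out) *
      ∏ j, ∑' a : RR, cls (M * N) (q j) a * fd δ (a : ℂ)) (𝓝[>] 0)
      (𝓝 ((Ω / ((M * N : ℕ) : ℂ)) ^ (r + 1) * Vl Ω (M * N) φ l)) := by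
    have h2 : (Ω / ((M * N : ℕ) : ℂ)) ^ (r + 1) * Vl Ω (M * N) φ l =
        ∑ q : Fin (r + 1) → RM (M * N), fF φ l (fun j => (q j).out) *
          ∏ j, ((Ω / ((M * N : ℕ) : ℂ)) * Ev Ω (M * N) (q j).out) := by
      unfold Vl
      rw [Finset.mul_sum]
      refine Finset.sum_congr rfl fun q _ => ?_
      rw [Finset.prod_mul_distrib, Finset.prod_const, Finset.card_univ, Fintype.card_fin]
      ring
    rw [h2]
    exact tendsto_finsetSum _ fun q _ => (tendsto_finsetProd _ fun j _ => cls_lim h hodd (q j)).const_mul _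
  refine h1.congr' ?_
  filter_upwards [self_mem_nhdsWithin] with δ (hδ : 0 < δ)
  rw [← per_pi (fun c c' => fF_per hper hdl hN c c') hδ]
  unfold Lp
  have hinj : Function.Injective fun (x : A) (j : Fin (r + 1)) => l j x := fun x y hxy =>
    l_inj' hdl fun j => congrFun hxy j
  rw [← hinj.tsum_eq (f := fun c : Fin (r + 1) → RR => fF φ l c * ∏ j, fd δ (c j : ℂ))]
  · refine tsum_congr fun x => ?_
    rw [fF_eq hdl]
    congr 1
    unfold fd
    rw [Finset.prod_mul_distrib]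
    congr 1
    rw [← Complex.ofReal_prod, ← Real.exp_sum]
    congr 2
    rw [Finset.mul_sum, Finset.sum_neg_distrib]
  · intro c hc
    by_contra hc'
    refine hc ?_
    show fF φ l c * _ = 0
    rw [fF_zero (fun ⟨x, hx⟩ => hc' ⟨x, funext hx⟩), zero_mul]

end GN

end Pool.Agent.K7.H56
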